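import Pool.Agent.Work.LipGraph.Basic

open Matrix
open scoped ComplexOrder

namespace Pool.LG

theorem A1 : Stmt_A1 := by
  intro n I k hI hk
  obtain ⟨U, d, hU, hU', hd, hId⟩ := exists_diag_pos hI
  set P : Mat n := dg (fun i => √(d i)) * Uᴴ with hP
  set Pi : Mat n := U * dg (fun i => (√(d i))⁻¹) with hPi
  have hPPi : P * Pi = 1 := by
    rw [hP, hPi]
    have : dg (fun i => √(d i)) * Uᴴ * (U * dg (fun i => (√(d i))⁻¹)) =
        dg (fun i => √(d i)) * (Uᴴ * U) * dg (fun i => (√(d i))⁻¹) := by noncomm_ring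
    rw [this, hU', Matrix.mul_one, dg_mul, ← dg_one]
    congr 1
    funext i
    exact mul_inv_cancel₀ (Real.sqrt_pos.2 (hd i)).ne'
  have hPiP : Pi * P = 1 := mul_eq_one_comm.1 hPPi
  have hPHP : Pᴴ * P = I := by
    rw [hP, conjTranspose_mul, dg_H, conjTranspose_conjTranspose]
    have : U * dg (fun i => √(d i)) * (dg (fun i => √(d i)) * Uᴴ) =
        U * (dg (fun i => √(d i)) * dg (fun i => √(d i))) * Uᴴ := by noncomm_ring
    rw [this, dg_mul, hId]
    congr 3
    funext i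
    exact Real.mul_self_sqrt (hd i).le
  have hPu : IsUnit P := ⟨⟨P, Pi, hPPi, hPiP⟩, rfl⟩
  have hK : (P * k * Pᴴ).PosDef :=
    (Matrix.IsUnit.posDef_star_right_conjugate_iff (x := k) hPu).2 hk
  obtain ⟨W, e, hW, hW', he, hKe⟩ := exists_diag_pos hK
  set s : Fin n → ℝ := fun i => √(e i) with hs
  have hs0 : ∀ i, 0 < s i := fun i => Real.sqrt_pos.2 (he i)
  set r : Fin n → ℝ := fun i => √(s i) with hr
  have hr0 : ∀ i, 0 < r i := fun i => Real.sqrt_pos.2 (hs0 i)
  have hrr : dg r * dg r = dg s := by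
    rw [dg_mul]
    congr 1
    funext i
    exact Real.mul_self_sqrt (hs0 i).le
  have hri : dg r * dg (fun i => (r i)⁻¹) = 1 := by
    rw [dg_mul, ← dg_one]
    congr 1
    funext i
    exact mul_inv_cancel₀ (hr0 i).ne'
  have hri' : dg (fun i => (r i)⁻¹) * dg r = 1 := mul_eq_one_comm.1 hri
  have hPPiH : Piᴴ * Pᴴ = 1 := by rw [← conjTranspose_mul, hPPi, conjTranspose_one]
  refine ⟨{ Q := Pi * W * dg r
            Qi := dg (fun i => (r i)⁻¹) * Wᴴ * P
            sg := s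
            mul_inv := ?_
            inv_mul := ?_
            pos := hs0
            hI := ?_
            hk := ?_ }⟩
  · have : Pi * W * dg r * (dg (fun i => (r i)⁻¹) * Wᴴ * P) =
      Pi * (W * (dg r * dg (fun i => (r i)⁻¹)) * Wᴴ) * P := by noncomm_ring
    rw [this, hri, Matrix.mul_one, hW, Matrix.mul_one, hPiP]
  · have : dg (fun i => (r i)⁻¹) * Wᴴ * P * (Pi * W * dg r) =
      dg (fun i => (r i)⁻¹) * (Wᴴ * (P * Pi) * W) * dg r := by noncomm_ring
    rw [this, hPPi, Matrix.mul_one, hW', Matrix.mul_one, hri']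
  · rw [conjTranspose_mul, conjTranspose_mul, dg_H, ← hPHP]
    have : dg r * (Wᴴ * Piᴴ) * (Pᴴ * P) * (Pi * W * dg r) =
      dg r * (Wᴴ * (Piᴴ * Pᴴ) * (P * Pi) * W) * dg r := by noncomm_ring
    rw [this, hPPiH, hPPi, Matrix.mul_one, Matrix.mul_one, hW', Matrix.mul_one, hrr]
  · rw [conjTranspose_mul (dg (fun i => (r i)⁻¹) * Wᴴ) P, conjTranspose_mul _ Wᴴ, dg_H,
      conjTranspose_conjTranspose]
    have : dg (fun i => (r i)⁻¹) * Wᴴ * P * k * (Pᴴ * (W * dg (fun i => (r i)⁻¹))) =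
      dg (fun i => (r i)⁻¹) * (Wᴴ * (P * k * Pᴴ) * W) * dg (fun i => (r i)⁻¹) := by noncomm_ring
    rw [this, hKe]
    have : Wᴴ * (W * dg e * Wᴴ) * W = (Wᴴ * W) * dg e * (Wᴴ * W) := by noncomm_ring
    rw [this, hW', Matrix.mul_one, Matrix.one_mul, dg_mul, dg_mul]
    congr 1
    funext i
    have h1 : e i = (r i) ^ 4 := by
      have h2 : s i * s i = e i := Real.mul_self_sqrt (he i).le
      have h3 : r i * r i = s i := Real.mul_self_sqrt (hs0 i).le
      rw [← h2, ← h3]; ring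
    have h3 : r i * r i = s i := Real.mul_self_sqrt (hs0 i).le
    have h4 := (hr0 i).ne'
    rw [h1, ← h3]
    field_simp

end Pool.LG
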