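import Pool.Agent.Work.LipGraph.Basic

open Matrix
open scoped ComplexOrder

namespace Pool.LG

variable {n : ℕ}

theorem Inv4.k_eq {F Fi I k : Mat n} (h : Inv4 F Fi I k) : k = Fi * I * Fiᴴ := by
  have h1 : Fi * (F - Fᴴ) * Fiᴴ = Fiᴴ - Fi := by
    have e : Fi * (F - Fᴴ) * Fiᴴ = (Fi * F) * Fiᴴ - Fi * (Fi * F)ᴴ := by
      rw [conjTranspose_mul]; noncomm_ring
    rw [e, h.inv_mul, conjTranspose_one, Matrix.one_mul, Matrix.mul_one]
  rw [h.imF] at h1
  have h2 : Fiᴴ - Fi = (2 * Complex.I) • k := by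
    have := h.imFi
    rw [← neg_sub, this, neg_smul, neg_neg]
  rw [h2, Matrix.mul_smul, Matrix.smul_mul] at h1
  have h3 : (2 * Complex.I : ℂ) ≠ 0 := by simp
  exact (smul_right_injective _ h3 h1).symm

theorem Inv4.k_eq' {F Fi I k : Mat n} (h : Inv4 F Fi I k) : k = Fiᴴ * I * Fi := by
  have h1 : Fiᴴ * (F - Fᴴ) * Fi = Fiᴴ - Fi := by
    have e : Fiᴴ * (F - Fᴴ) * Fi = Fiᴴ * (F * Fi) - (F * Fi)ᴴ * Fi := by
      rw [conjTranspose_mul]; noncomm_ring
    rw [e, h.mul_inv, conjTranspose_one, Matrix.one_mul, Matrix.mul_one]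
  rw [h.imF] at h1
  have h2 : Fiᴴ - Fi = (2 * Complex.I) • k := by
    have := h.imFi
    rw [← neg_sub, this, neg_smul, neg_neg]
  rw [h2, Matrix.mul_smul, Matrix.smul_mul] at h1
  have h3 : (2 * Complex.I : ℂ) ≠ 0 := by simp
  exact (smul_right_injective _ h3 h1).symm

theorem A2 : Stmt_A2 := by
  intro n F Fi I k h φ
  set G : Mat n := φ.Qᴴ * F * φ.Q with hG
  set S : Mat n := dg φ.sg with hS
  have hSH : Sᴴ = S := dg_H _
  have hGH : Gᴴ = φ.Qᴴ * Fᴴ * φ.Q := by
    rw [hG, conjTranspose_mul, conjTranspose_mul, conjTranspose_conjTranspose, Matrix.mul_assoc]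
  have hFk : F * k * Fᴴ = I := by
    rw [h.k_eq]
    have e : F * (Fi * I * Fiᴴ) * Fᴴ = (F * Fi) * I * (F * Fi)ᴴ := by
      rw [conjTranspose_mul]; noncomm_ring
    rw [e, h.mul_inv, conjTranspose_one, Matrix.mul_one, Matrix.one_mul]
  have hFk' : Fᴴ * k * F = I := by
    rw [h.k_eq']
    have e : Fᴴ * (Fiᴴ * I * Fi) * F = (Fi * F)ᴴ * I * (Fi * F) := by
      rw [conjTranspose_mul]; noncomm_ring
    rw [e, h.inv_mul, conjTranspose_one, Matrix.mul_one, Matrix.one_mul]
  have h1 : G * S * Gᴴ = S := by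
    rw [hGH, hG]
    have e : φ.Qᴴ * F * φ.Q * S * (φ.Qᴴ * Fᴴ * φ.Q) =
      φ.Qᴴ * (F * (φ.Q * S * φ.Qᴴ) * Fᴴ) * φ.Q := by noncomm_ring
    rw [e, ← φ.k_eq, hFk, φ.hI]
  have h2 : Gᴴ * S * G = S := by
    rw [hGH, hG]
    have e : φ.Qᴴ * Fᴴ * φ.Q * S * (φ.Qᴴ * F * φ.Q) =
      φ.Qᴴ * (Fᴴ * (φ.Q * S * φ.Qᴴ) * F) * φ.Q := by noncomm_ring
    rw [e, ← φ.k_eq, hFk', φ.hI]
  have h3 : G - Gᴴ = (2 * Complex.I) • S := by
    rw [hGH, hG, hS, ← φ.hI]
    have e : φ.Qᴴ * F * φ.Q - φ.Qᴴ * Fᴴ * φ.Q = φ.Qᴴ * (F - Fᴴ) * φ.Q := by noncomm_ring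
    rw [e, h.imF, Matrix.mul_smul, Matrix.smul_mul]
  set A : Mat n := G - Complex.I • S with hA
  have hGA : G = A + Complex.I • S := by rw [hA]; abel
  have hGA' : Gᴴ = A - Complex.I • S := by
    have e : Gᴴ = G - (2 * Complex.I) • S := by rw [← h3]; abel
    rw [e, hGA, two_mul, add_smul]
    abel
  have hAH : A.IsHermitian := by
    unfold IsHermitian
    rw [hA, conjTranspose_sub, conjTranspose_smul, hSH, hGA']
    have : star Complex.I = -Complex.I := Complex.conj_I
    rw [this, neg_smul, hGA]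
    abel
  have hII : Complex.I * Complex.I = -1 := Complex.I_mul_I
  have h4 : A * S * A + S * S * S + Complex.I • (S * S * A - A * S * S) = S := by
    have e : G * S * Gᴴ = A * S * A + S * S * S + Complex.I • (S * S * A - A * S * S) := by
      rw [hGA', hGA]
      simp only [Matrix.add_mul, Matrix.mul_sub, Matrix.smul_mul, Matrix.mul_smul, smul_sub,
        smul_smul, smul_add, hII, neg_smul, one_smul, Matrix.mul_assoc]
      abel
    rw [← e, h1]
  have h5 : A * S * A + S * S * S - Complex.I • (S * S * A - A * S * S) = S := by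
    have e : Gᴴ * S * G = A * S * A + S * S * S - Complex.I • (S * S * A - A * S * S) := by
      rw [hGA', hGA]
      simp only [Matrix.smul_mul, Matrix.mul_smul, smul_sub,
        smul_smul, hII, neg_smul, one_smul, Matrix.sub_mul, Matrix.mul_add,
        Matrix.mul_assoc]
      abel
    rw [← e, h2]
  have h6 : Complex.I • (S * S * A - A * S * S) = 0 := by
    have e1 := h4.trans h5.symm
    have e2 : (2 : ℂ) • (Complex.I • (S * S * A - A * S * S)) = 0 := by
      rw [two_smul]
      have := sub_eq_zero.2 e1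
      calc _ = A * S * A + S * S * S + Complex.I • (S * S * A - A * S * S) -
            (A * S * A + S * S * S - Complex.I • (S * S * A - A * S * S)) := by abel
        _ = 0 := this
    exact (smul_eq_zero.1 e2).resolve_left two_ne_zero
  have h7 : S * S * A = A * S * S :=
    sub_eq_zero.1 ((smul_eq_zero.1 h6).resolve_left Complex.I_ne_zero)
  have h8 : S * A = A * S := by
    ext i j
    have e := congrFun (congrFun h7 i) j
    rw [Matrix.mul_assoc A, hS, dg_mul] at e
    unfold dg at e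
    rw [diagonal_mul, mul_diagonal] at e
    rw [hS]
    unfold dg
    rw [diagonal_mul, mul_diagonal]
    by_cases h0 : A i j = 0
    · rw [h0]; simp
    · have e2 : ((φ.sg i * φ.sg i : ℝ) : ℂ) = ((φ.sg j * φ.sg j : ℝ) : ℂ) := by
        rw [mul_comm (A i j)] at e
        exact mul_right_cancel₀ h0 e
      have e3 : φ.sg i * φ.sg i = φ.sg j * φ.sg j := by exact_mod_cast e2
      have e4 : φ.sg i = φ.sg j := by
        nlinarith [φ.pos i, φ.pos j, mul_self_inj_of_nonneg (φ.pos i).le (φ.pos j).le |>.1 e3]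
      rw [e4, mul_comm]
  have h9 : A * S * A + S * S * S = S := by
    rw [h6, add_zero] at h4; exact h4
  have h10 : A * A + S * S = 1 := by
    have e : (A * A + S * S) * S = 1 * S := by
      rw [Matrix.one_mul]
      calc (A * A + S * S) * S = A * (A * S) + S * S * S := by noncomm_ring
        _ = A * (S * A) + S * S * S := by rw [h8]
        _ = A * S * A + S * S * S := by rw [Matrix.mul_assoc A S A]
        _ = S := h9
    have hSi : S * dg (fun i => (φ.sg i)⁻¹) = 1 := by
      rw [hS, dg_mul, ← dg_one]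
      congr 1
      funext i
      exact mul_inv_cancel₀ (φ.pos i).ne'
    have e2 := congrArg (fun M => M * dg (fun i => (φ.sg i)⁻¹)) e
    simp only [Matrix.mul_assoc, hSi, Matrix.mul_one] at e2
    exact e2
  have h11 : Gᴴ * G = 1 := by
    have e : (A - Complex.I • S) * (A + Complex.I • S) =
        A * A + S * S + Complex.I • (A * S - S * A) := by
      simp only [Matrix.sub_mul, Matrix.smul_mul, Matrix.mul_smul, smul_sub,
        smul_smul, hII, neg_smul, one_smul, Matrix.mul_add]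
      abel
    rw [hGA', hGA, e, h8, sub_self, smul_zero, add_zero, h10]
  have h12 : G * Gᴴ = 1 := mul_eq_one_comm.1 h11
  refine ⟨h11, h12, fun i => ?_⟩
  have e := congrFun (congrFun h10 i) i
  rw [Matrix.add_apply, hS, dg_mul, dg_apply_self, one_apply_eq] at e
  have e2 : (A * A) i i = ((∑ j, ‖A i j‖ ^ 2 : ℝ) : ℂ) := by
    rw [mul_apply]
    push_cast
    refine Finset.sum_congr rfl fun j _ => ?_
    have h13 : A j i = star (A i j) := by
      have := congrFun (congrFun hAH j) i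
      rw [conjTranspose_apply] at this
      exact this.symm
    rw [h13, Complex.star_def, Complex.mul_conj, Complex.normSq_eq_norm_sq]
    push_cast
    rfl
  rw [e2] at e
  have e3 : (∑ j, ‖A i j‖ ^ 2) + φ.sg i * φ.sg i = 1 := by exact_mod_cast e
  have e4 : 0 ≤ ∑ j, ‖A i j‖ ^ 2 := Finset.sum_nonneg fun _ _ => by positivity
  nlinarith [φ.pos i]

end Pool.LG
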