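import Pool.Agent.Work.LipGraph.Basic

open Matrix
open scoped ComplexOrder

namespace Pool.LG

variable {n : ℕ}

theorem posDef_mul_inv {T : Mat n} (hT : T.PosDef) : T * T⁻¹ = 1 := by
  exact Matrix.mul_nonsing_inv T ((Matrix.isUnit_iff_isUnit_det T).1 hT.isUnit)

theorem posDef_inv_mul {T : Mat n} (hT : T.PosDef) : T⁻¹ * T = 1 := by
  exact Matrix.nonsing_inv_mul T ((Matrix.isUnit_iff_isUnit_det T).1 hT.isUnit)

theorem Frame.inv_conj {I₀ k₀ : Mat n} (φ : Frame I₀ k₀) {T : Mat n} (hT : T * T⁻¹ = 1) :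
    (φ.Q * T * φ.Qᴴ)⁻¹ = φ.Qiᴴ * T⁻¹ * φ.Qi := by
  refine Matrix.inv_eq_right_inv ?_
  have e : φ.Q * T * φ.Qᴴ * (φ.Qiᴴ * T⁻¹ * φ.Qi) =
      φ.Q * (T * (φ.Qᴴ * φ.Qiᴴ) * T⁻¹) * φ.Qi := by noncomm_ring
  rw [e, φ.QH_mul', Matrix.mul_one, hT, Matrix.mul_one, φ.mul_inv]

theorem Frame.conj_posDef {I₀ k₀ : Mat n} (φ : Frame I₀ k₀) {T : Mat n} (hT : T.PosDef) :
    (φ.Q * T * φ.Qᴴ).PosDef :=
  (Matrix.IsUnit.posDef_star_right_conjugate_iff (x := T) φ.isUnit).2 hT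

theorem Frame.isUnit_Qi {I₀ k₀ : Mat n} (φ : Frame I₀ k₀) : IsUnit φ.Qi :=
  ⟨⟨φ.Qi, φ.Q, φ.inv_mul, φ.mul_inv⟩, rfl⟩

theorem Frame.conj_posDef' {I₀ k₀ : Mat n} (φ : Frame I₀ k₀) {T : Mat n} (hT : T.PosDef) :
    (φ.Qi * T * φ.Qiᴴ).PosDef :=
  (Matrix.IsUnit.posDef_star_right_conjugate_iff (x := T) φ.isUnit_Qi).2 hT

theorem Frame.conj_conj {I₀ k₀ : Mat n} (φ : Frame I₀ k₀) (T : Mat n) :
    φ.Q * (φ.Qi * T * φ.Qiᴴ) * φ.Qᴴ = T := by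
  have e : φ.Q * (φ.Qi * T * φ.Qiᴴ) * φ.Qᴴ = (φ.Q * φ.Qi) * T * (φ.Qiᴴ * φ.Qᴴ) := by noncomm_ring
  rw [e, φ.mul_inv, φ.QH_mul, Matrix.one_mul, Matrix.mul_one]

/-- `w₁` in a frame -/
theorem Frame.w1_conj {I₀ k₀ : Mat n} (φ : Frame I₀ k₀) (I k : Mat n) {T : Mat n}
    (hT : T * T⁻¹ = 1) :
    w1 I k (φ.Q * T * φ.Qᴴ) =
      1 / 2 * rtr (T * (φ.Qᴴ * I * φ.Q) + T⁻¹ * (φ.Qi * k * φ.Qiᴴ)) := by
  unfold w1
  rw [φ.inv_conj hT, rtr_add, rtr_add]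
  have e1 : rtr (φ.Q * T * φ.Qᴴ * I) = rtr (T * (φ.Qᴴ * I * φ.Q)) := by
    rw [Matrix.mul_assoc, Matrix.mul_assoc, rtr_comm]
    congr 1
    noncomm_ring
  have e2 : rtr (φ.Qiᴴ * T⁻¹ * φ.Qi * k) = rtr (T⁻¹ * (φ.Qi * k * φ.Qiᴴ)) := by
    rw [Matrix.mul_assoc, Matrix.mul_assoc, rtr_comm]
    congr 1
    noncomm_ring
  rw [e1, e2]

/-- `T + T⁻¹ ≥ 2` -/
theorem add_inv_psd {T : Mat n} (hT : T.PosDef) : (T + T⁻¹ - (1 + 1)).PosSemidef := by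
  obtain ⟨U, d, hU, hU', hd, hTe⟩ := exists_diag_pos hT
  have hTi : T⁻¹ = U * dg (fun i => (d i)⁻¹) * Uᴴ := by
    refine Matrix.inv_eq_right_inv ?_
    rw [hTe]
    have e : U * dg d * Uᴴ * (U * dg (fun i => (d i)⁻¹) * Uᴴ) =
      U * (dg d * (Uᴴ * U) * dg (fun i => (d i)⁻¹)) * Uᴴ := by noncomm_ring
    rw [e, hU', Matrix.mul_one, dg_mul]
    have e2 : dg (fun i => d i * (d i)⁻¹) = (1 : Mat n) := by
      rw [← dg_one]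
      congr 1
      funext i
      exact mul_inv_cancel₀ (hd i).ne'
    rw [e2, Matrix.mul_one, hU]
  have h1 : (1 : Mat n) = U * dg (fun _ => (1 : ℝ)) * Uᴴ := by
    rw [dg_one, Matrix.mul_one, hU]
  have e : T + T⁻¹ - (1 + 1) = U * dg (fun i => d i + (d i)⁻¹ - (1 + 1)) * Uᴴ := by
    rw [hTi, hTe]
    conv_lhs => rw [h1]
    rw [← Matrix.add_mul, ← Matrix.mul_add, ← Matrix.add_mul, ← Matrix.mul_add, ← Matrix.sub_mul,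
      ← Matrix.mul_sub, dg_add, dg_add, dg_sub]
  rw [e]
  refine psd_conj (dg_posSemidef fun i => ?_) U
  have h2 := hd i
  have h3 : d i + (d i)⁻¹ - (1 + 1) = (d i - 1) ^ 2 / d i := by
    field_simp
    ring
  rw [h3]
  positivity

theorem Frame.le_w1 {I k : Mat n} (φ : Frame I k) {T : Mat n} (hT : T.PosDef) :
    ∑ i, φ.sg i ≤ w1 I k T := by
  have hT' := φ.conj_posDef' hT
  rw [← φ.conj_conj T, φ.w1_conj I k (posDef_mul_inv hT'), φ.hI, φ.hk, ← Matrix.add_mul,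
    ← rtr_dg]
  have h1 := rtr_mul_mono (add_inv_psd hT') φ.sg_psd
  rw [Matrix.add_mul 1 1, Matrix.one_mul, rtr_add (dg φ.sg)] at h1
  linarith

theorem Frame.w1_N {I k : Mat n} (φ : Frame I k) : w1 I k φ.N = ∑ i, φ.sg i := by
  have h1 : (1 : Mat n) * 1⁻¹ = 1 := by rw [inv_one, Matrix.one_mul]
  have h2 := φ.w1_conj I k h1
  rw [Matrix.mul_one] at h2
  unfold Frame.N
  rw [h2, inv_one, Matrix.one_mul, Matrix.one_mul, φ.hI, φ.hk, rtr_add, rtr_dg]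
  ring

theorem bdd_w1 {I k : Mat n} {c : ℝ} (h : ∀ T : Mat n, T.PosDef → c ≤ w1 I k T) :
    BddBelow (Set.range fun T : {T : Mat n // T.PosDef} => w1 I k T.1) :=
  ⟨c, by rintro _ ⟨T, rfl⟩; exact h T.1 T.2⟩

theorem w1_nonneg {I k : Mat n} (hI : I.PosSemidef) (hk : k.PosSemidef) {T : Mat n}
    (hT : T.PosDef) : 0 ≤ w1 I k T := by
  unfold w1
  rw [rtr_add]
  have h1 := psd_rtr_mul hT.posSemidef hI
  have h2 := psd_rtr_mul hT.inv.posSemidef hk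
  linarith

theorem V1_le {I k : Mat n} (hI : I.PosSemidef) (hk : k.PosSemidef) {T : Mat n}
    (hT : T.PosDef) : V1 I k ≤ w1 I k T :=
  ciInf_le (bdd_w1 fun _ h => w1_nonneg hI hk h) (⟨T, hT⟩ : {T : Mat n // T.PosDef})

instance : Nonempty {T : Mat n // T.PosDef} := ⟨⟨1, PosDef.one⟩⟩

theorem Frame.V1_eq {I k : Mat n} (φ : Frame I k) : V1 I k = ∑ i, φ.sg i := by
  refine le_antisymm ?_ ?_
  · rw [← φ.w1_N]
    exact ciInf_le (bdd_w1 fun _ h => φ.le_w1 h) (⟨φ.N, φ.N_posDef⟩ : {T : Mat n // T.PosDef})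
  · exact le_ciInf fun T => φ.le_w1 T.2

theorem A3 : Stmt_A3 := by
  intro n I k φ
  refine ⟨fun T hT => φ.le_w1 hT, φ.V1_eq, ?_⟩
  have e1 : I * k = φ.Qiᴴ * (dg φ.sg * dg φ.sg * φ.Qᴴ) := by
    have e0 : I * k = φ.Qiᴴ * dg φ.sg * φ.Qi * (φ.Q * dg φ.sg * φ.Qᴴ) := by
      rw [← φ.I_eq, ← φ.k_eq]
    have e : φ.Qiᴴ * dg φ.sg * φ.Qi * (φ.Q * dg φ.sg * φ.Qᴴ) =
      φ.Qiᴴ * (dg φ.sg * (φ.Qi * φ.Q) * dg φ.sg * φ.Qᴴ) := by noncomm_ring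
    rw [e0, e, φ.inv_mul, Matrix.mul_one]
  rw [e1, rtr_comm, Matrix.mul_assoc, φ.QH_mul', Matrix.mul_one, dg_mul, rtr_dg]
  exact Finset.sum_congr rfl fun i _ => by ring

end Pool.LG
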