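import Pool.Agent.Work.LipGraph.A3

open Matrix
open scoped ComplexOrder

namespace Pool.LG

variable {n : ℕ}

theorem real_smul_one (c : ℝ) : (c : ℂ) • (1 : Mat n) = dg (fun _ => c) := by
  rw [← dg_one, dg_smul]
  congr 1
  funext i
  rw [mul_one]

theorem diag_nonneg_of {d : Fin n → ℝ} (h : (dg d).PosSemidef) (i : Fin n) : 0 ≤ d i := by
  have := h.diag_nonneg (i := i)
  rw [dg_apply_self] at this
  exact Complex.zero_le_real.1 this

/-- scalar bound `(1 + t)⁻¹ ≤ 1 - t + (4/3) t²` in matrix form -/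
theorem inv_one_add_le {τ : Mat n} (hτ : τ.IsHermitian)
    (h1 : (((1 / 4 : ℝ) : ℂ) • (1 : Mat n) - τ).PosSemidef)
    (h2 : (((1 / 4 : ℝ) : ℂ) • (1 : Mat n) + τ).PosSemidef) :
    (1 + τ).PosDef ∧
    (1 - τ + ((4 / 3 : ℝ) : ℂ) • (τ * τ) - (1 + τ)⁻¹).PosSemidef := by
  obtain ⟨U, t, hU, hU', hτe⟩ := exists_diag hτ
  have hone : ∀ c : ℝ, (c : ℂ) • (1 : Mat n) = U * dg (fun _ => c) * Uᴴ := by
    intro c
    rw [← real_smul_one, Matrix.mul_smul, Matrix.mul_one, Matrix.smul_mul, hU]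
  have h1' : ∀ i, 0 ≤ 1 / 4 - t i := by
    have e : Uᴴ * (((1 / 4 : ℝ) : ℂ) • (1 : Mat n) - τ) * U =
        dg (fun i => 1 / 4 - t i) := by
      rw [hone, hτe, ← Matrix.sub_mul, ← Matrix.mul_sub, dg_sub]
      have e2 : ∀ D : Mat n, Uᴴ * (U * D * Uᴴ) * U = (Uᴴ * U) * D * (Uᴴ * U) := by
        intro D; noncomm_ring
      rw [e2, hU', Matrix.mul_one, Matrix.one_mul]
    have h := psd_conj' h1 U
    rw [e] at h
    exact diag_nonneg_of h
  have h2' : ∀ i, 0 ≤ 1 / 4 + t i := by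
    have e : Uᴴ * (((1 / 4 : ℝ) : ℂ) • (1 : Mat n) + τ) * U =
        dg (fun i => 1 / 4 + t i) := by
      rw [hone, hτe, ← Matrix.add_mul, ← Matrix.mul_add, dg_add]
      have e2 : ∀ D : Mat n, Uᴴ * (U * D * Uᴴ) * U = (Uᴴ * U) * D * (Uᴴ * U) := by
        intro D; noncomm_ring
      rw [e2, hU', Matrix.mul_one, Matrix.one_mul]
    have h := psd_conj' h2 U
    rw [e] at h
    exact diag_nonneg_of h
  have hp : ∀ i, 0 < 1 + t i := fun i => by linarith [h2' i]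
  have h1e : (1 : Mat n) = U * dg (fun _ => (1 : ℝ)) * Uᴴ := by
    rw [dg_one, Matrix.mul_one, hU]
  have hM : 1 + τ = U * dg (fun i => 1 + t i) * Uᴴ := by
    rw [hτe]
    conv_lhs => rw [h1e]
    rw [← Matrix.add_mul, ← Matrix.mul_add, dg_add]
  have hUu : IsUnit U := ⟨⟨U, Uᴴ, hU, hU'⟩, rfl⟩
  have hMp : (1 + τ).PosDef := by
    rw [hM]
    exact (Matrix.IsUnit.posDef_star_right_conjugate_iff (x := dg fun i => 1 + t i) hUu).2
      (dg_posDef hp)
  refine ⟨hMp, ?_⟩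
  have hmul : ∀ a b : Fin n → ℝ, U * dg a * Uᴴ * (U * dg b * Uᴴ) =
      U * dg (fun i => a i * b i) * Uᴴ := by
    intro a b
    have e : U * dg a * Uᴴ * (U * dg b * Uᴴ) = U * (dg a * (Uᴴ * U) * dg b) * Uᴴ := by
      noncomm_ring
    rw [e, hU', Matrix.mul_one, dg_mul]
  have hMi : (1 + τ)⁻¹ = U * dg (fun i => (1 + t i)⁻¹) * Uᴴ := by
    refine Matrix.inv_eq_right_inv ?_
    rw [hM, hmul, h1e]
    congr 3
    funext i
    exact mul_inv_cancel₀ (hp i).ne'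
  have e : 1 - τ + ((4 / 3 : ℝ) : ℂ) • (τ * τ) - (1 + τ)⁻¹ =
      U * dg (fun i => 1 - t i + 4 / 3 * (t i * t i) - (1 + t i)⁻¹) * Uᴴ := by
    rw [hMi, hτe, hmul, ← Matrix.smul_mul, ← Matrix.mul_smul, dg_smul]
    conv_lhs => rw [h1e]
    rw [← Matrix.sub_mul, ← Matrix.mul_sub, ← Matrix.add_mul, ← Matrix.mul_add,
      ← Matrix.sub_mul, ← Matrix.mul_sub, dg_sub, dg_add, dg_sub]
  rw [e]
  refine psd_conj (dg_posSemidef fun i => ?_) U
  have h3 := hp i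
  have h4 := h2' i
  have h5 : 1 - t i + 4 / 3 * (t i * t i) - (1 + t i)⁻¹ =
      t i ^ 2 * (1 / 3 + 4 / 3 * t i) / (1 + t i) := by
    field_simp
    ring
  rw [h5]
  have h6 : 0 ≤ 1 / 3 + 4 / 3 * t i := by linarith
  positivity

theorem A4 : Stmt_A4 := by
  intro n I₀ k₀ I k φ hsg hI hk hI2 hk2
  set A : Mat n := φ.Qᴴ * I * φ.Q with hA
  set B : Mat n := φ.Qi * k * φ.Qiᴴ with hB
  have hAp : A.PosSemidef := psd_conj' hI φ.Q
  have hBp : B.PosSemidef := psd_conj hk φ.Qi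
  have hS1 : ((1 : Mat n) - dg φ.sg).PosSemidef := by
    rw [← dg_one, dg_sub]
    exact dg_posSemidef fun i => by linarith [hsg i]
  have hA2' : ((2 : ℂ) • dg φ.sg - A).PosSemidef := by
    have h := psd_conj' hI2 φ.Q
    rwa [Matrix.mul_sub, Matrix.sub_mul, Matrix.mul_smul, Matrix.smul_mul, φ.hI] at h
  have hB2' : ((2 : ℂ) • dg φ.sg - B).PosSemidef := by
    have h := psd_conj hk2 φ.Qi
    rwa [Matrix.mul_sub, Matrix.sub_mul, Matrix.mul_smul, Matrix.smul_mul, φ.hk] at h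
  have h2S : ((2 : ℂ) • (1 : Mat n) - (2 : ℂ) • dg φ.sg).PosSemidef := by
    rw [← smul_sub]
    exact hS1.smul (by norm_num)
  have hA2 : ((2 : ℂ) • (1 : Mat n) - A).PosSemidef := psd_trans hA2' h2S
  have hB2 : ((2 : ℂ) • (1 : Mat n) - B).PosSemidef := psd_trans hB2' h2S
  obtain ⟨τ, hτ⟩ : ∃ τ : Mat n, τ = (((-1 / 8 : ℝ)) : ℂ) • (A - B) := ⟨_, rfl⟩
  have hAB : A - B = ((-8 : ℝ) : ℂ) • τ := by
    rw [hτ, smul_smul]
    norm_num
  have hτH : τ.IsHermitian := by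
    rw [hτ]
    unfold IsHermitian
    rw [conjTranspose_smul, conjTranspose_sub, hAp.1.eq, hBp.1.eq]
    congr 1
    exact Complex.conj_ofReal _
  have hc : ∀ X : Mat n, X.PosSemidef → (((1 / 8 : ℝ) : ℂ) • X).PosSemidef := fun X hX =>
    hX.smul (by
      have : (0 : ℝ) ≤ 1 / 8 := by norm_num
      exact_mod_cast this)
  have h1 : (((1 / 4 : ℝ) : ℂ) • (1 : Mat n) - τ).PosSemidef := by
    have h := hc _ (hAp.add hB2)
    convert h using 1
    rw [hτ]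
    module
  have h2 : (((1 / 4 : ℝ) : ℂ) • (1 : Mat n) + τ).PosSemidef := by
    have h := hc _ (hBp.add hA2)
    convert h using 1
    rw [hτ]
    module
  obtain ⟨hM, hMi⟩ := inv_one_add_le hτH h1 h2
  have hT := φ.conj_posDef hM
  refine (V1_le hI hk hT).trans ?_
  rw [φ.w1_conj I k (posDef_mul_inv hM), ← hA, ← hB]
  have h3 : rtr ((1 + τ)⁻¹ * B) ≤ rtr B - rtr (τ * B) + 4 / 3 * rtr (τ * τ * B) := by
    have h := rtr_mul_mono hMi hBp
    rw [Matrix.add_mul, Matrix.sub_mul, Matrix.one_mul, Matrix.smul_mul, rtr_add, rtr_sub,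
      rtr_smul] at h
    exact h
  have hττ : (τ * τ).PosSemidef := by
    have := posSemidef_conjTranspose_mul_self τ
    rwa [hτH.eq] at this
  have h4 : rtr (τ * τ * B) ≤ 2 * rtr (τ * τ) := by
    have h := rtr_mul_mono' hB2 hττ
    rw [Matrix.mul_smul, Matrix.mul_one] at h
    have e : rtr ((2 : ℂ) • (τ * τ)) = 2 * rtr (τ * τ) := by
      have := rtr_smul 2 (τ * τ)
      push_cast at this
      exact this
    rw [e] at h
    exact h
  have h5 : rtr (τ * A) - rtr (τ * B) = -8 * rtr (τ * τ) := by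
    rw [← rtr_sub, ← Matrix.mul_sub, hAB, Matrix.mul_smul, rtr_smul]
  have h6 : hs (A - B) = 64 * rtr (τ * τ) := by
    have hABH : (A - B).IsHermitian := hAp.1.sub hBp.1
    rw [hs_herm hABH, hAB, Matrix.mul_smul, Matrix.smul_mul, rtr_smul, rtr_smul]
    ring
  rw [rtr_add, Matrix.add_mul, Matrix.one_mul, rtr_add, rtr_add, h6]
  linarith

end Pool.LG
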