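import Mathlib

/-!
# The diagonal inequality (DI): interface

Matrix part of the proof in PROOF.md (this folder).  Every `Stmt_*` is one block.  A block may
assume other `Stmt_*` as hypotheses where this is said in its comment.
-/

open Matrix MeasureTheory
open scoped ComplexOrder

namespace Pool.LG

/-- square complex matrices -/
abbrev Mat (n : ℕ) := Matrix (Fin n) (Fin n) ℂ

/-- real part of the trace -/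
noncomputable def rtr {n : ℕ} (A : Mat n) : ℝ := (trace A).re

/-- squared Hilbert-Schmidt norm -/
noncomputable def hs {n : ℕ} (A : Mat n) : ℝ := ∑ i, ∑ j, ‖A i j‖ ^ 2

/-- real diagonal matrix -/
noncomputable def dg {n : ℕ} (d : Fin n → ℝ) : Mat n := diagonal (fun i => (d i : ℂ))

/-- A frame for `(I, k)`: an invertible `Q` with `Qᴴ I Q = diag sg = Q⁻¹ k Q⁻ᴴ`, `sg > 0`.
(So `N = Q Qᴴ` is the geometric mean of `I⁻¹` and `k`, `N I N = k`.) -/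
structure Frame {n : ℕ} (I k : Mat n) where
  Q : Mat n
  Qi : Mat n
  sg : Fin n → ℝ
  mul_inv : Q * Qi = 1
  inv_mul : Qi * Q = 1
  pos : ∀ i, 0 < sg i
  hI : Qᴴ * I * Q = dg sg
  hk : Qi * k * Qiᴴ = dg sg

/-- `w₁(T) = (1/2) tr (T I + T⁻¹ k)` -/
noncomputable def w1 {n : ℕ} (I k T : Mat n) : ℝ := 1 / 2 * rtr (T * I + T⁻¹ * k)

/-- `v₁ = inf over T > 0 of w₁(T)` -/
noncomputable def V1 {n : ℕ} (I k : Mat n) : ℝ := ⨅ T : {T : Mat n // T.PosDef}, w1 I k T.1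

/-- `w₂(T) = tr (T Ig T Ik) + 2 tr (T (Ig + Ik) + T⁻¹ k)` -/
noncomputable def w2 {n : ℕ} (Ig Ik k T : Mat n) : ℝ :=
  rtr (T * Ig * T * Ik) + 2 * rtr (T * (Ig + Ik) + T⁻¹ * k)

/-- `v₂ = inf over T > 0 of w₂(T)` -/
noncomputable def V2 {n : ℕ} (Ig Ik k : Mat n) : ℝ :=
  ⨅ T : {T : Mat n // T.PosDef}, w2 Ig Ik k T.1

/-! ## Part A: matrix algebra at one point -/

/-- BLOCK A1: existence of frames. (`I = Pᴴ P`, diagonalise `P k Pᴴ = U s² Uᴴ`,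
`Q = P⁻¹ U s^{1/2}`.) -/
def Stmt_A1 : Prop := ∀ (n : ℕ) (I k : Mat n), I.PosDef → k.PosDef → Nonempty (Frame I k)

/-- `F`, `Fi` inverse to each other, `Im F = I`, `Im Fi = -k` -/
structure Inv4 {n : ℕ} (F Fi I k : Mat n) : Prop where
  mul_inv : F * Fi = 1
  inv_mul : Fi * F = 1
  imF : F - Fᴴ = (2 * Complex.I) • I
  imFi : Fi - Fiᴴ = -(2 * Complex.I) • k

/-- BLOCK A2: in a frame `F` is unitary and `sg ≤ 1`.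
Proof: `k = Fi I Fiᴴ = Fiᴴ I Fi`.  Let `G = Qᴴ F Q`, `S = dg sg`.  Then `G S Gᴴ = S = Gᴴ S G` and
`G = A + i S` with `A = Aᴴ`.  Expanding, `[S², A] = 0`, entrywise `(sg i² - sg j²) A i j = 0`, so
`[S, A] = 0`, hence `A² + S² = 1`, i.e. `G` is unitary, and `S² ≤ 1`. -/
def Stmt_A2 : Prop := ∀ (n : ℕ) (F Fi I k : Mat n), Inv4 F Fi I k → ∀ φ : Frame I k,
  (φ.Qᴴ * F * φ.Q)ᴴ * (φ.Qᴴ * F * φ.Q) = 1 ∧ (φ.Qᴴ * F * φ.Q) * (φ.Qᴴ * F * φ.Q)ᴴ = 1 ∧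
  ∀ i, φ.sg i ≤ 1

/-- BLOCK A3: Lemma 2. (`T' + T'⁻¹ ≥ 2` for `T' = Q⁻¹ T Q⁻ᴴ`; equality for `T = Q Qᴴ`.) -/
def Stmt_A3 : Prop := ∀ (n : ℕ) (I k : Mat n) (φ : Frame I k),
  (∀ T : Mat n, T.PosDef → ∑ i, φ.sg i ≤ w1 I k T) ∧ V1 I k = ∑ i, φ.sg i ∧
  rtr (I * k) = ∑ i, φ.sg i ^ 2

/-- BLOCK A4: Lemma 3, pointwise part.  (`T = Q (1 + τ) Qᴴ`, `τ = -(1/8)(Î - k̂)`.) -/
def Stmt_A4 : Prop := ∀ (n : ℕ) (I₀ k₀ I k : Mat n) (φ : Frame I₀ k₀), (∀ i, φ.sg i ≤ 1) →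
  I.PosSemidef → k.PosSemidef → ((2 : ℂ) • I₀ - I).PosSemidef → ((2 : ℂ) • k₀ - k).PosSemidef →
  V1 I k ≤ 1 / 2 * rtr (φ.Qᴴ * I * φ.Q + φ.Qi * k * φ.Qiᴴ) -
    1 / 24 * hs (φ.Qᴴ * I * φ.Q - φ.Qi * k * φ.Qiᴴ)

/-- BLOCK A5: existence of a minimiser of `w₂` (compactness). -/
def Stmt_A5 : Prop := ∀ (n : ℕ) (Ig Ik k : Mat n), Ig.PosSemidef → Ik.PosSemidef →
  (Ig + Ik).PosDef → k.PosDef →
  ∃ T₀ : Mat n, T₀.PosDef ∧ ∀ T : Mat n, T.PosDef → w2 Ig Ik k T₀ ≤ w2 Ig Ik k T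

/-- BLOCK A6: Euler-Lagrange equation at a minimiser. -/
def Stmt_A6 : Prop := ∀ (n : ℕ) (Ig Ik k T₀ : Mat n), Ig.PosSemidef → Ik.PosSemidef →
  k.PosSemidef → T₀.PosDef → (∀ T : Mat n, T.PosDef → w2 Ig Ik k T₀ ≤ w2 Ig Ik k T) →
  Ig * T₀ * Ik + Ik * T₀ * Ig + (2 : ℂ) • (Ig + Ik - T₀⁻¹ * k * T₀⁻¹) = 0

/-- BLOCK A7: Lemma 4, comparison.  From the Euler-Lagrange equation and `sg ≤ 1`:
`(1/2) T₀ I T₀ ≤ k ≤ (3/2) T₀ I T₀`, so `T₀ ≤ √2 N`, `N ≤ √(3/2) T₀` with `N = Q Qᴴ`, and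
`tr(T Y T Y)` is monotone in `T`. -/
def Stmt_A7 : Prop := ∀ (n : ℕ) (Ig Ik k T₀ : Mat n) (φ : Frame (Ig + Ik) k),
  (∀ i, φ.sg i ≤ 1) → Ig.PosSemidef → Ik.PosSemidef → T₀.PosDef →
  Ig * T₀ * Ik + Ik * T₀ * Ig + (2 : ℂ) • (Ig + Ik - T₀⁻¹ * k * T₀⁻¹) = 0 →
  ∀ Y : Mat n, Y.IsHermitian → rtr (T₀ * Y * T₀ * Y) ≤ 2 * hs (φ.Qᴴ * Y * φ.Q) ∧
    hs (φ.Qᴴ * Y * φ.Q) ≤ 3 / 2 * rtr (T₀ * Y * T₀ * Y)

/-- BLOCK A8: bounds for `V2`. (`T = Q Qᴴ`.) -/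
def Stmt_A8 : Prop := ∀ (n : ℕ) (Ig Ik k : Mat n) (φ : Frame (Ig + Ik) k),
  (∀ i, φ.sg i ≤ 1) → Ig.PosSemidef → Ik.PosSemidef →
  0 ≤ V2 Ig Ik k ∧ V2 Ig Ik k ≤ 5 * ∑ i, φ.sg i ∧
  (∀ T : Mat n, T.PosDef → V2 Ig Ik k ≤ w2 Ig Ik k T)

/-- BLOCK A9: the pointwise estimates (5.1)-(5.3).  (Everything in the frame, with
`Qᴴ F Q` unitary by A2, `0 ≤ Qᴴ Ig Q ≤ dg sg`.)  May assume `Stmt_A2`. -/
def Stmt_A9 : Prop := ∀ (n : ℕ) (F Fi I k Ig dF dG : Mat n), Inv4 F Fi I k → ∀ φ : Frame I k,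
  Ig.PosSemidef → (I - Ig).PosSemidef →
  |rtr (Fi * Ig)| ≤ ∑ i, φ.sg i ∧
  ‖trace (Fi * dF * Fi * dGᴴ)‖ ≤ √(hs (φ.Qᴴ * dF * φ.Q)) * √(hs (φ.Qᴴ * dG * φ.Q)) ∧
  ‖trace (k * dG)‖ ≤ √(∑ i, φ.sg i ^ 2) * √(hs (φ.Qᴴ * dG * φ.Q)) ∧
  ‖trace (Fi * dF * Fi * Ig)‖ ≤ √(∑ i, φ.sg i ^ 2) * √(hs (φ.Qᴴ * dF * φ.Q))

/-! ## Part K: the scalar kernel -/

/-- the kernel `Im 1/(t - z)` -/
noncomputable def P (t : ℝ) (z : ℂ) : ℝ := z.im / ((t - z.re) ^ 2 + z.im ^ 2)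

/-- BLOCK K1: mean value, Cauchy, Harnack on the circle of radius `z₀.im / 3`.
(`P t z = Im 1/(t - z)`; on the circle `θ ↦ z₀ + r e^{iθ}`, and `(r/(z - z₀)) = e^{-iθ}`.) -/
def Stmt_K1 : Prop := ∀ (t : ℝ) (z₀ : ℂ), 0 < z₀.im →
  Real.circleAverage (P t) z₀ (z₀.im / 3) = P t z₀ ∧
  Real.circleAverage (fun z => (P t z : ℂ) * ((z₀.im / 3 : ℝ) / (z - z₀))) z₀ (z₀.im / 3) =
    (z₀.im / 3 : ℝ) / (2 * Complex.I) * ((t : ℂ) - z₀)⁻¹ ^ 2 ∧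
  ∀ z : ℂ, ‖z - z₀‖ ≤ z₀.im / 3 → 0 < z.im ∧ P t z₀ / 2 ≤ P t z ∧ P t z ≤ 2 * P t z₀

/-- BLOCK K2: the integral of the kernel. -/
def Stmt_K2 : Prop := ∀ (t y : ℝ), 0 < y →
  Integrable (fun x : ℝ => P t (x + y * Complex.I)) ∧
  ∫ x : ℝ, P t (x + y * Complex.I) = Real.pi

/-! ## Part H: positive harmonic matrix functions -/

/-- positive harmonic matrix function `∑ P(t i, z) E i` -/
noncomputable def Har {n m : ℕ} (t : Fin m → ℝ) (E : Fin m → Mat n) (z : ℂ) : Mat n :=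
  ∑ i, (P (t i) z : ℂ) • E i

/-- derivative of the analytic function `∑ E i / (t i - z)` -/
noncomputable def dHar {n m : ℕ} (t : Fin m → ℝ) (E : Fin m → Mat n) (z : ℂ) : Mat n :=
  ∑ i, (((t i : ℂ) - z)⁻¹ ^ 2) • E i

/-- BLOCK H1: consequences of K1 (may assume `Stmt_K1`): mean values, Harnack, and
`(r²/4) ‖Qᴴ G' Q‖₂² ≤ M ‖Qᴴ (A - A₀) Q‖₂²`. -/
def Stmt_H1 : Prop := ∀ (n m : ℕ) (t : Fin m → ℝ) (E : Fin m → Mat n), (∀ i, (E i).PosSemidef) →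
  ∀ z₀ : ℂ, 0 < z₀.im →
  (∀ B : Mat n, Real.circleAverage (fun z => rtr (B * Har t E z)) z₀ (z₀.im / 3) =
    rtr (B * Har t E z₀)) ∧
  (∀ z : ℂ, ‖z - z₀‖ ≤ z₀.im / 3 → (Har t E z).PosSemidef ∧
    ((2 : ℂ) • Har t E z₀ - Har t E z).PosSemidef ∧
    ((2 : ℂ) • Har t E z - Har t E z₀).PosSemidef) ∧
  (∀ Q : Mat n, (z₀.im / 3) ^ 2 / 4 * hs (Qᴴ * dHar t E z₀ * Q) ≤
    Real.circleAverage (fun z => hs (Qᴴ * (Har t E z - Har t E z₀) * Q)) z₀ (z₀.im / 3))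

/-- data for the energy estimates: positive harmonic matrix functions `Ig`, `Ik`, `k` -/
structure En (n : ℕ) where
  m : ℕ
  m' : ℕ
  t : Fin m → ℝ
  t' : Fin m' → ℝ
  Eg : Fin m → Mat n
  Ek : Fin m → Mat n
  K : Fin m' → Mat n
  hEg : ∀ i, (Eg i).PosSemidef
  hEk : ∀ i, (Ek i).PosSemidef
  hK : ∀ i, (K i).PosSemidef
  hI : ∀ z : ℂ, 0 < z.im → (Har t Eg z + Har t Ek z).PosDef
  hk : ∀ z : ℂ, 0 < z.im → (Har t' K z).PosDef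
  h1 : ∀ z : ℂ, 0 < z.im → ∀ φ : Frame (Har t Eg z + Har t Ek z) (Har t' K z), ∀ i, φ.sg i ≤ 1

namespace En

variable {n : ℕ} (e : En n)

noncomputable def Ig (z : ℂ) : Mat n := Har e.t e.Eg z
noncomputable def Ik (z : ℂ) : Mat n := Har e.t e.Ek z
noncomputable def I (z : ℂ) : Mat n := e.Ig z + e.Ik z
noncomputable def k (z : ℂ) : Mat n := Har e.t' e.K z
noncomputable def v1 (z : ℂ) : ℝ := V1 (e.I z) (e.k z)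
noncomputable def v2 (z : ℂ) : ℝ := V2 (e.Ig z) (e.Ik z) (e.k z)
noncomputable def chi (z : ℂ) : ℝ := rtr (e.I z * e.k z)
noncomputable def a1 (z : ℂ) : ℝ := 12 * e.v1 z - e.chi z
noncomputable def a2 (z : ℂ) : ℝ := e.v2 z + 2 * e.a1 z
noncomputable def a5 (L : ℝ) (σ : ℂ → ℝ) (z : ℂ) : ℝ :=
  82 * L ^ 2 * e.a1 z - σ z ^ 2 * e.chi z

end En

/-- restriction to the upper half plane -/
noncomputable def ind (f : ℂ → ℝ) (z : ℂ) : ℝ := if 0 < z.im then f z else 0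

/-- `f - M f`, circle averages of radius `y / 3` -/
noncomputable def Df (f : ℂ → ℝ) (z : ℂ) : ℝ := f z - Real.circleAverage f z (z.im / 3)

/-! ## Part M: measurability, averages -/

/-- BLOCK M0: measurability (infimum of continuous functions is upper semicontinuous), bounds.
May assume `Stmt_A1`, `Stmt_A3`, `Stmt_A8`. -/
def Stmt_M0 : Prop := ∀ (n : ℕ) (e : En n),
  Measurable (ind e.v1) ∧ Measurable (ind e.v2) ∧ Measurable (ind e.chi) ∧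
  ∀ z : ℂ, 0 < z.im → 0 ≤ e.chi z ∧ e.chi z ≤ e.v1 z ∧ e.v1 z ≤ n ∧ 0 ≤ e.v2 z ∧
    e.v2 z ≤ 5 * e.v1 z

/-- BLOCK M1: Lemma 3.  May assume A1, A3, A4, H1, M0. -/
def Stmt_M1 : Prop := ∀ (n : ℕ) (e : En n) (z₀ : ℂ), 0 < z₀.im →
  ∀ φ : Frame (e.I z₀) (e.k z₀),
  Real.circleAverage (fun z => hs (φ.Qᴴ * (e.I z - e.I z₀) * φ.Q) +
    hs (φ.Qi * (e.k z - e.k z₀) * φ.Qiᴴ)) z₀ (z₀.im / 3) ≤ 2 * Df (ind e.a1) z₀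

/-- BLOCK M2: Lemma 5.  May assume A1, A3, A5, A6, A7, A8, H1, M0, M1. -/
def Stmt_M2 : Prop := ∀ (n : ℕ) (e : En n) (z₀ : ℂ), 0 < z₀.im →
  ∀ φ : Frame (e.I z₀) (e.k z₀),
  Real.circleAverage (fun z => hs (φ.Qᴴ * (e.Ig z - e.Ig z₀) * φ.Q)) z₀ (z₀.im / 3) ≤
    3 * Df (ind e.a2) z₀

/-- BLOCK M3: Lemma 6.  May assume A1, A3, H1, M0, M1. -/
def Stmt_M3 : Prop := ∀ (n : ℕ) (e : En n) (L : ℝ) (σ : ℂ → ℝ), 0 ≤ L →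
  ContinuousOn σ {z | 0 < z.im} → (∀ z : ℂ, 0 < z.im → |σ z| ≤ L) →
  (∀ z : ℂ, 0 < z.im → Real.circleAverage σ z (z.im / 3) = σ z) →
  ∀ z₀ : ℂ, 0 < z₀.im →
  e.chi z₀ * Real.circleAverage (fun z => (σ z - σ z₀) ^ 2) z₀ (z₀.im / 3) ≤
    8 * Df (ind (e.a5 L σ)) z₀

/-- BLOCK J: the integration lemma (0.7). -/
def Stmt_J : Prop := ∀ (v : ℂ → ℝ) (K b : ℝ), Measurable v → (∀ z, 0 ≤ v z) → (∀ z, v z ≤ b) →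
  0 ≤ K → (∀ y : ℝ, 0 < y → ∫⁻ x : ℝ, ENNReal.ofReal (v (x + y * Complex.I)) ≤ ENNReal.ofReal K) →
  (∀ z : ℂ, 0 < z.im → 0 ≤ Df v z) →
  Measurable (Df v) ∧
  ∫⁻ y in Set.Ioi (0 : ℝ), ∫⁻ x : ℝ, ENNReal.ofReal (y⁻¹ * Df v (x + y * Complex.I)) ≤
    ENNReal.ofReal (Real.log (3 / 2) * K)

/-- BLOCK G: Green's identity on strips and limits.  `h` real function on the upper half plane,
`p = ∂_z h`, `a = ∂_z p`, `b = ∂_{z̄} p = Δh/4`; with the weight `η = 2 (y - ε)` on `[ε, 2ε]`,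
`η = y` on `[2ε, B]`, `η = 2B - y` on `[B, 2B]`:
`∬ η Δh = 2 U(ε) - U(2ε) - 2 U(B) + U(2B)`, `U(y) = ∫ h(x,y) dx`. -/
def Stmt_G : Prop := ∀ (h b : ℂ → ℝ) (p a : ℂ → ℂ) (G : ℂ → ℝ) (K T : ℝ),
  (∀ z : ℂ, 0 < z.im → ∃ l : ℂ →L[ℝ] ℝ, (∀ v, l v = 2 * (p z * v).re) ∧ HasFDerivAt h l z) →
  (∀ z : ℂ, 0 < z.im → ∃ l : ℂ →L[ℝ] ℂ, (∀ v, l v = a z * v + b z * (starRingEnd ℂ) v) ∧
    HasFDerivAt p l z) →
  ContinuousOn a {z | 0 < z.im} → ContinuousOn b {z | 0 < z.im} →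
  (∀ y : ℝ, 0 < y → Integrable (fun x : ℝ => h (x + y * Complex.I))) →
  (∀ c d : ℝ, 0 < c → ∀ δ > 0, ∃ R₀ : ℝ, ∀ z : ℂ, c ≤ z.im → z.im ≤ d → R₀ ≤ |z.re| →
    ‖p z‖ ≤ δ) →
  Measurable G → (∀ z : ℂ, 0 < z.im → z.im ^ 2 * |4 * b z| ≤ G z) → 0 ≤ K →
  (∫⁻ y in Set.Ioi (0 : ℝ), ∫⁻ x : ℝ, ENNReal.ofReal (y⁻¹ * G (x + y * Complex.I)) ≤
    ENNReal.ofReal K) →
  Filter.Tendsto (fun y : ℝ => ∫ x : ℝ, h (x + y * Complex.I)) (nhdsWithin 0 (Set.Ioi 0))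
    (nhds T) →
  Filter.Tendsto (fun y : ℝ => ∫ x : ℝ, h (x + y * Complex.I)) Filter.atTop (nhds 0) →
  |T| ≤ K

/-! ## Part S: the Poisson extension of a continuous function with compact support -/

/-- BLOCK S1: `H(z) = (1/(π i)) ∫ p(t)/(t - z) dt`. -/
def Stmt_S1 : Prop := ∀ (p : ℝ → ℝ) (L : ℝ), Continuous p → HasCompactSupport p →
  (∀ x, |p x| ≤ L) →
  ∃ H : ℂ → ℂ, DifferentiableOn ℂ H {z | 0 < z.im} ∧ (∀ z : ℂ, 0 < z.im → |(H z).re| ≤ L) ∧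
    (∃ c : ℝ, ∀ z : ℂ, 0 < z.im → |(H z).re| ≤ c / z.im) ∧
    ∀ x : ℝ, Filter.Tendsto (fun y : ℝ => (H (x + y * Complex.I)).re)
      (nhdsWithin 0 (Set.Ioi 0)) (nhds (p x))

/-- BLOCK S2: mean value and Cauchy for `σ = Re H`. -/
def Stmt_S2 : Prop := ∀ (H : ℂ → ℂ) (L : ℝ), DifferentiableOn ℂ H {z | 0 < z.im} →
  (∀ z : ℂ, 0 < z.im → |(H z).re| ≤ L) → ∀ z₀ : ℂ, 0 < z₀.im →
  Real.circleAverage (fun z => (H z).re) z₀ (z₀.im / 3) = (H z₀).re ∧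
  (z₀.im / 3) ^ 2 / 4 * ‖deriv H z₀‖ ^ 2 ≤
    Real.circleAverage (fun z => ((H z).re - (H z₀).re) ^ 2) z₀ (z₀.im / 3) ∧
  ‖deriv H z₀‖ ≤ 12 * L / z₀.im

/-! ## Part D: the data of the diagonal inequality -/

/-- Diagonal data: `X = dg x`, `S = dg s`, `V = W (dg lam) Wᴴ`, `X + V = U (dg x') Uᴴ`. -/
structure Dat (n : ℕ) where
  x : Fin n → ℝ
  s : Fin n → ℝ
  x' : Fin n → ℝ
  lam : Fin n → ℝ
  U : Mat n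
  W : Mat n
  hs0 : ∀ i, 0 ≤ s i
  hs1 : ∀ i, s i ≤ 1
  hU : U * Uᴴ = 1
  hU' : Uᴴ * U = 1
  hW : W * Wᴴ = 1
  hW' : Wᴴ * W = 1
  hlam : ∀ i, lam i ≠ 0
  hV : dg x + W * dg lam * Wᴴ = U * dg x' * Uᴴ

namespace Dat

variable {n : ℕ} (D : Dat n)

noncomputable def rho : ℝ := ∑ i, |D.lam i|
noncomputable def wt (i j : Fin n) : ℝ := D.s i * ‖D.U i j‖ ^ 2
noncomputable def V : Mat n := D.W * dg D.lam * D.Wᴴ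
noncomputable def Vi : Mat n := D.W * dg (fun i => (D.lam i)⁻¹) * D.Wᴴ
noncomputable def R (z : ℂ) : Mat n := diagonal (fun i => ((D.x i : ℂ) - z)⁻¹)
noncomputable def R' (z : ℂ) : Mat n := D.U * diagonal (fun i => ((D.x' i : ℂ) - z)⁻¹) * D.Uᴴ
noncomputable def F (z : ℂ) : Mat n := D.Vi + D.R z
noncomputable def Fi (z : ℂ) : Mat n := D.V - D.V * D.R' z * D.V
noncomputable def I (z : ℂ) : Mat n := dg (fun i => P (D.x i) z)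
noncomputable def Ig (z : ℂ) : Mat n := dg (fun i => D.s i * P (D.x i) z)
noncomputable def k (z : ℂ) : Mat n := D.V * D.U * dg (fun i => P (D.x' i) z) * D.Uᴴ * D.V
noncomputable def dF (z : ℂ) : Mat n := diagonal (fun i => ((D.x i : ℂ) - z)⁻¹ ^ 2)
noncomputable def dG (z : ℂ) : Mat n := diagonal (fun i => (D.s i : ℂ) * ((D.x i : ℂ) - z)⁻¹ ^ 2)

/-- `Z`, with `Z' = tr (Fi dG)` and `Im Z = ∑ wt i j (arg(x' j - z) - arg(x i - z))` -/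
noncomputable def Z (z : ℂ) : ℂ :=
  ∑ i, ∑ j, (D.wt i j : ℂ) * (Complex.log ((D.x' j : ℂ) - z) - Complex.log ((D.x i : ℂ) - z))
noncomputable def Psi (z : ℂ) : ℝ := rtr (D.Fi z * D.Ig z)
noncomputable def Wf (z : ℂ) : ℝ := (D.Z z).im - D.Psi z
/-- `∂_z Wf` -/
noncomputable def wz (z : ℂ) : ℂ :=
  -(1 / 2) * trace (D.k z * D.dG z) + 1 / 2 * trace (D.Fi z * D.dF z * D.Fi z * D.Ig z)
/-- `∂_{z̄} ∂_z Wf` -/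
noncomputable def qz (z : ℂ) : ℝ :=
  -(1 / 2) * (trace (D.Fi z * D.dF z * D.Fi z * (D.dG z)ᴴ)).im
/-- boundary value of `Wf` -/
noncomputable def W0 (x : ℝ) : ℝ :=
  Real.pi * ∑ i, ∑ j, D.wt i j * ((if x < D.x' j then 1 else 0) - (if x < D.x i then 1 else 0))

end Dat

/-- BLOCK D1: algebra. -/
def Stmt_D1 : Prop := ∀ (n : ℕ) (D : Dat n) (z : ℂ), 0 < z.im →
  Inv4 (D.F z) (D.Fi z) (D.I z) (D.k z) ∧ (D.I z).PosDef ∧ (D.k z).PosDef ∧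
  (D.Ig z).PosSemidef ∧ (D.I z - D.Ig z).PosSemidef ∧
  trace (D.Fi z * D.dG z) =
    ∑ i, ∑ j, (D.wt i j : ℂ) * (((D.x i : ℂ) - z)⁻¹ - ((D.x' j : ℂ) - z)⁻¹)

/-- BLOCK D2: `∫ v₁ dx ≤ π ρ`.  (`V1 ≤ w1` at `T = |V| = W (dg |lam|) Wᴴ`, then K2.)
May assume A3, D1, K2. -/
def Stmt_D2 : Prop := ∀ (n : ℕ) (D : Dat n) (y : ℝ), 0 < y →
  ∫⁻ x : ℝ, ENNReal.ofReal (V1 (D.I (x + y * Complex.I)) (D.k (x + y * Complex.I))) ≤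
    ENNReal.ofReal (Real.pi * D.rho)

/-- BLOCK D3: derivatives of `Wf`. May assume D1. -/
def Stmt_D3 : Prop := ∀ (n : ℕ) (D : Dat n),
  (∀ z : ℂ, 0 < z.im → ∃ l : ℂ →L[ℝ] ℝ, (∀ v, l v = 2 * (D.wz z * v).re) ∧
    HasFDerivAt D.Wf l z) ∧
  ContinuousOn D.qz {z | 0 < z.im} ∧
  ∃ a : ℂ → ℂ, ContinuousOn a {z | 0 < z.im} ∧
    ∀ z : ℂ, 0 < z.im → ∃ l : ℂ →L[ℝ] ℂ,
      (∀ v, l v = a z * v + D.qz z * (starRingEnd ℂ) v) ∧ HasFDerivAt D.wz l z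

/-- BLOCK D4: decay of `Wf` and `wz` for large `|x|`; `∫ |Wf| dx` is bounded uniformly in `y`.
(`|Psi| ≤ ∑ sg = V1 ≤ n` by A9, A3, and `|Psi| ≤ C/x²` for large `|x|` by the formula;
`Im log(b - z) - Im log(a - z) = ∫_a^b P(s,z) ds`.) May assume A1, A2, A3, A9, D1, D2, K2. -/
def Stmt_D4 : Prop := ∀ (n : ℕ) (D : Dat n),
  (∀ b : ℝ, 0 < b → ∃ C : ℝ, ∀ z : ℂ, 0 < z.im → z.im ≤ b → |D.Wf z| ≤ C / (1 + z.re ^ 2)) ∧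
  (∀ c d : ℝ, 0 < c → ∀ δ > 0, ∃ R₀ : ℝ, ∀ z : ℂ, c ≤ z.im → z.im ≤ d → R₀ ≤ |z.re| →
    ‖D.wz z‖ ≤ δ) ∧
  (∃ C : ℝ, ∀ y : ℝ, 0 < y → ∫ x : ℝ, |D.Wf (x + y * Complex.I)| ≤ C)

/-- BLOCK D5: boundary values. -/
def Stmt_D5 : Prop := ∀ (n : ℕ) (D : Dat n) (x : ℝ), (∀ i, x ≠ D.x i) → (∀ i, x ≠ D.x' i) →
  Filter.Tendsto (fun y : ℝ => D.Wf (x + y * Complex.I)) (nhdsWithin 0 (Set.Ioi 0))
    (nhds (D.W0 x))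

/-- BLOCK D6: identification of the limit. -/
def Stmt_D6 : Prop := ∀ (n : ℕ) (D : Dat n) (φ p : ℝ → ℝ), Continuous p → HasCompactSupport p →
  (∀ x, HasDerivAt φ (p x) x) →
  ∫ x : ℝ, p x * D.W0 x = Real.pi * ∑ i, ∑ j, D.wt i j * (φ (D.x' j) - φ (D.x i))

/-- RESULT OF THE MATRIX PART: the diagonal inequality for diagonal data. -/
def Stmt_DI : Prop := ∃ C : ℝ, 0 ≤ C ∧ ∀ (n : ℕ) (D : Dat n) (φ p : ℝ → ℝ) (L : ℝ),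
  Continuous p → HasCompactSupport p → (∀ x, HasDerivAt φ (p x) x) → (∀ x, |p x| ≤ L) →
  |∑ i, ∑ j, D.wt i j * (φ (D.x' j) - φ (D.x i))| ≤ C * L * D.rho

end Pool.LG
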