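import Mathlib
import Pool.Agent.Work.LipGraph.Interface

set_option autoImplicit false

open Matrix MeasureTheory
open scoped ComplexOrder

namespace Pool.LG

namespace AuxB

variable {n : ℕ}

theorem dg_mul (a b : Fin n → ℝ) : dg a * dg b = dg (fun i => a i * b i) := by
  unfold dg
  rw [diagonal_mul_diagonal]
  congr 1
  funext i
  push_cast
  rfl

theorem dg_one : dg (fun _ : Fin n => (1 : ℝ)) = 1 := by
  unfold dg
  simp

theorem dg_herm (a : Fin n → ℝ) : (dg a)ᴴ = dg a := by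
  unfold dg
  rw [diagonal_conjTranspose]
  congr 1
  funext i
  simp

theorem dg_psd {a : Fin n → ℝ} (h : ∀ i, 0 ≤ a i) : (dg a).PosSemidef := by
  unfold dg
  rw [posSemidef_diagonal_iff]
  intro i
  exact_mod_cast h i

theorem dg_pd {a : Fin n → ℝ} (h : ∀ i, 0 < a i) : (dg a).PosDef := by
  unfold dg
  rw [posDef_diagonal_iff]
  intro i
  exact_mod_cast h i

theorem dg_sub (a b : Fin n → ℝ) : dg a - dg b = dg (fun i => a i - b i) := by
  unfold dg
  rw [diagonal_sub]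
  congr 1
  funext i
  push_cast
  rfl

theorem dg_add (a b : Fin n → ℝ) : dg a + dg b = dg (fun i => a i + b i) := by
  unfold dg
  rw [diagonal_add]
  congr 1
  funext i
  push_cast
  rfl

theorem smul_one_eq_dg (c : ℝ) : (c : ℂ) • (1 : Mat n) = dg (fun _ => c) := by
  unfold dg
  rw [smul_one_eq_diagonal]

theorem smul_dg (c : ℝ) (a : Fin n → ℝ) : (c : ℂ) • dg a = dg (fun i => c * a i) := by
  unfold dg
  rw [← diagonal_smul]
  congr 1
  funext i
  simp

theorem rtr_add (A B : Mat n) : rtr (A + B) = rtr A + rtr B := by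
  simp [rtr, trace_add]

theorem rtr_sub (A B : Mat n) : rtr (A - B) = rtr A - rtr B := by
  simp [rtr, trace_sub]

theorem rtr_neg (A : Mat n) : rtr (-A) = - rtr A := by
  simp [rtr, trace_neg]

theorem rtr_smul (c : ℝ) (A : Mat n) : rtr ((c : ℂ) • A) = c * rtr A := by
  simp [rtr, trace_smul]

theorem rtr_comm (A B : Mat n) : rtr (A * B) = rtr (B * A) := by
  simp only [rtr]
  rw [trace_mul_comm]

theorem rtr_dg (a : Fin n → ℝ) : rtr (dg a) = ∑ i, a i := by
  simp [rtr, dg, trace_diagonal]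

theorem rtr_nonneg {A : Mat n} (h : A.PosSemidef) : 0 ≤ rtr A := by
  have := h.trace_nonneg
  exact (Complex.le_def.1 this).1

/-- eigendecomposition -/
theorem eig {A : Mat n} (hA : A.IsHermitian) :
    ∃ (U : Mat n) (l : Fin n → ℝ), Uᴴ * U = 1 ∧ U * Uᴴ = 1 ∧ A = U * dg l * Uᴴ := by
  refine ⟨(hA.eigenvectorUnitary : Mat n), hA.eigenvalues, ?_, ?_, ?_⟩
  · exact Unitary.coe_star_mul_self hA.eigenvectorUnitary
  · exact Unitary.coe_mul_star_self hA.eigenvectorUnitary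
  · have h := hA.spectral_theorem
    rw [Unitary.conjStarAlgAut_apply] at h
    exact h

theorem conj_dg_herm (U : Mat n) (l : Fin n → ℝ) : (U * dg l * Uᴴ)ᴴ = U * dg l * Uᴴ := by
  rw [conjTranspose_mul, conjTranspose_mul, conjTranspose_conjTranspose, dg_herm, Matrix.mul_assoc]

theorem eig_back {A U : Mat n} {l : Fin n → ℝ} (h1 : Uᴴ * U = 1) (h : A = U * dg l * Uᴴ) :
    Uᴴ * A * U = dg l := by
  rw [h]
  calc Uᴴ * (U * dg l * Uᴴ) * U = (Uᴴ * U) * dg l * (Uᴴ * U) := by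
        simp only [Matrix.mul_assoc]
    _ = dg l := by rw [h1, Matrix.one_mul, Matrix.mul_one]

theorem dg_psd_iff {a : Fin n → ℝ} : (dg a).PosSemidef ↔ ∀ i, 0 ≤ a i := by
  unfold dg
  rw [posSemidef_diagonal_iff]
  constructor
  · intro h i
    exact_mod_cast h i
  · intro h i
    exact_mod_cast h i

theorem dg_pd_iff {a : Fin n → ℝ} : (dg a).PosDef ↔ ∀ i, 0 < a i := by
  unfold dg
  rw [posDef_diagonal_iff]
  constructor
  · intro h i
    exact_mod_cast h i
  · intro h i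
    exact_mod_cast h i

theorem eig_nonneg {A U : Mat n} {l : Fin n → ℝ} (h1 : Uᴴ * U = 1) (h : A = U * dg l * Uᴴ)
    (hA : A.PosSemidef) : ∀ i, 0 ≤ l i := by
  have := hA.conjTranspose_mul_mul_same U
  rw [eig_back h1 h] at this
  exact dg_psd_iff.1 this

/-- the columns of an invertible matrix: `PosDef` is preserved under congruence -/
theorem pd_congr {A B Bi : Mat n} (hA : A.PosDef) (hB : Bi * B = 1) : (Bᴴ * A * B).PosDef := by
  refine hA.conjTranspose_mul_mul_same ?_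
  intro x y hxy
  have : Bi *ᵥ (B *ᵥ x) = Bi *ᵥ (B *ᵥ y) := by
    simpa using congrArg (fun v => Bi *ᵥ v) hxy
  rwa [mulVec_mulVec, mulVec_mulVec, hB, one_mulVec, one_mulVec] at this

theorem pd_congr' {A B Bi : Mat n} (hA : A.PosDef) (hB : B * Bi = 1) : (B * A * Bᴴ).PosDef := by
  have h := pd_congr (B := Bᴴ) (Bi := Biᴴ) hA
    (by rw [← conjTranspose_mul, hB, conjTranspose_one])
  rwa [conjTranspose_conjTranspose] at h

theorem eig_pos {A U : Mat n} {l : Fin n → ℝ} (h1 : Uᴴ * U = 1) (h : A = U * dg l * Uᴴ)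
    (hA : A.PosDef) : ∀ i, 0 < l i := by
  have := pd_congr (B := U) (Bi := Uᴴ) hA h1
  rw [eig_back h1 h] at this
  exact dg_pd_iff.1 this

theorem psd_factor {A : Mat n} (h : A.PosSemidef) : ∃ C : Mat n, A = Cᴴ * C := by
  obtain ⟨U, l, h1, h2, hl⟩ := eig h.1
  have hl0 := eig_nonneg h1 hl h
  refine ⟨dg (fun i => √(l i)) * Uᴴ, ?_⟩
  rw [conjTranspose_mul, conjTranspose_conjTranspose, dg_herm, hl]
  calc U * dg l * Uᴴ = U * (dg (fun i => √(l i)) * dg (fun i => √(l i))) * Uᴴ := by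
        rw [dg_mul]
        congr 3
        funext i
        rw [Real.mul_self_sqrt (hl0 i)]
    _ = _ := by simp only [Matrix.mul_assoc]

/-- the trace of a product of positive semidefinite matrices -/
theorem rtr_mul_nonneg {A B : Mat n} (hA : A.PosSemidef) (hB : B.PosSemidef) :
    0 ≤ rtr (A * B) := by
  obtain ⟨C, hC⟩ := psd_factor hA
  rw [hC, Matrix.mul_assoc, rtr_comm]
  exact rtr_nonneg (hB.mul_mul_conjTranspose_same C)

/-- monotonicity of `rtr (A * ·)` -/
theorem rtr_mul_mono {A B C : Mat n} (hA : A.PosSemidef) (hB : (C - B).PosSemidef) :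
    rtr (A * B) ≤ rtr (A * C) := by
  have := rtr_mul_nonneg hA hB
  rw [Matrix.mul_sub, rtr_sub] at this
  linarith

theorem hs_eq (A : Mat n) : hs A = rtr (A * Aᴴ) := by
  simp only [hs, rtr, trace, diag_apply, mul_apply, conjTranspose_apply, Complex.re_sum]
  refine Finset.sum_congr rfl fun i _ => Finset.sum_congr rfl fun j _ => ?_
  rw [← Complex.normSq_eq_norm_sq]
  simp [Complex.normSq_apply]

theorem hs_nonneg (A : Mat n) : 0 ≤ hs A :=
  Finset.sum_nonneg fun i _ => Finset.sum_nonneg fun j _ => by positivity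

theorem hs_eq_zero {A : Mat n} (h : hs A = 0) : A = 0 := by
  ext i j
  have h1 := (Finset.sum_eq_zero_iff_of_nonneg (fun i _ =>
    Finset.sum_nonneg fun j _ => by positivity)).1 h i (Finset.mem_univ _)
  have h2 := (Finset.sum_eq_zero_iff_of_nonneg (fun j _ => by positivity)).1 h1 j
    (Finset.mem_univ _)
  have h3 : ‖A i j‖ = 0 := by
    rcases sq_eq_zero_iff.1 h2 with h
    exact h
  simpa using h3

theorem eig_sub_psd {A U : Mat n} {l : Fin n → ℝ} (h2 : U * Uᴴ = 1) (h : A = U * dg l * Uᴴ)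
    {c : ℝ} (hc : ∀ i, c ≤ l i) : (A - (c : ℂ) • 1).PosSemidef := by
  have e : A - (c : ℂ) • 1 = U * dg (fun i => l i - c) * Uᴴ := by
    rw [h, ← dg_sub, ← smul_one_eq_dg, Matrix.mul_sub, Matrix.sub_mul]
    congr 1
    rw [Matrix.mul_smul, Matrix.smul_mul, Matrix.mul_one, h2]
  rw [e]
  exact (dg_psd (fun i => by linarith [hc i])).mul_mul_conjTranspose_same U

theorem eig_psd_sub {A U : Mat n} {l : Fin n → ℝ} (h2 : U * Uᴴ = 1) (h : A = U * dg l * Uᴴ)
    {c : ℝ} (hc : ∀ i, l i ≤ c) : ((c : ℂ) • 1 - A).PosSemidef := by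
  have e : (c : ℂ) • 1 - A = U * dg (fun i => c - l i) * Uᴴ := by
    rw [h, ← dg_sub, ← smul_one_eq_dg, Matrix.mul_sub, Matrix.sub_mul]
    congr 1
    rw [Matrix.mul_smul, Matrix.smul_mul, Matrix.mul_one, h2]
  rw [e]
  exact (dg_psd (fun i => by linarith [hc i])).mul_mul_conjTranspose_same U

theorem inv_of {A B : Mat n} (h : A * B = 1) : A⁻¹ = B := Matrix.inv_eq_right_inv h

theorem frame_I {I k : Mat n} (φ : Frame I k) : I = φ.Qiᴴ * dg φ.sg * φ.Qi := by
  rw [← φ.hI]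
  have h1 : φ.Qiᴴ * φ.Qᴴ = 1 := by rw [← conjTranspose_mul, φ.mul_inv, conjTranspose_one]
  calc I = (φ.Qiᴴ * φ.Qᴴ) * I * (φ.Q * φ.Qi) := by rw [h1, φ.mul_inv, Matrix.one_mul, Matrix.mul_one]
    _ = _ := by simp only [Matrix.mul_assoc]

theorem frame_k {I k : Mat n} (φ : Frame I k) : k = φ.Q * dg φ.sg * φ.Qᴴ := by
  rw [← φ.hk]
  have h1 : φ.Qiᴴ * φ.Qᴴ = 1 := by rw [← conjTranspose_mul, φ.mul_inv, conjTranspose_one]
  calc k = (φ.Q * φ.Qi) * k * (φ.Qiᴴ * φ.Qᴴ) := by rw [h1, φ.mul_inv, Matrix.one_mul, Matrix.mul_one]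
    _ = _ := by simp only [Matrix.mul_assoc]

theorem frame_kpd {I k : Mat n} (φ : Frame I k) : k.PosDef := by
  rw [frame_k φ]
  exact pd_congr' (dg_pd φ.pos) φ.mul_inv

theorem frame_Ipd {I k : Mat n} (φ : Frame I k) : I.PosDef := by
  rw [frame_I φ]
  exact pd_congr (dg_pd φ.pos) (B := φ.Qi) (Bi := φ.Q) φ.mul_inv

end AuxB
end Pool.LG
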