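import Mathlib
import Pool.Agent.Work.LipGraph.AuxB

set_option autoImplicit false

open Matrix MeasureTheory
open scoped ComplexOrder

namespace Pool.LG

open AuxB

theorem w2_nonneg {n : ℕ} {Ig Ik k : Mat n} (hg : Ig.PosSemidef) (hk' : Ik.PosSemidef)
    (hk : k.PosSemidef) {T : Mat n} (hT : T.PosDef) : 0 ≤ w2 Ig Ik k T := by
  have h1 : 0 ≤ rtr (T * Ig * T * Ik) := by
    have := hg.mul_mul_conjTranspose_same T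
    rw [hT.1.eq] at this
    exact rtr_mul_nonneg this hk'
  have h2 : 0 ≤ rtr (T * (Ig + Ik)) := rtr_mul_nonneg hT.posSemidef (hg.add hk')
  have h3 : 0 ≤ rtr (T⁻¹ * k) := rtr_mul_nonneg hT.inv.posSemidef hk
  unfold w2
  rw [rtr_add]
  linarith

theorem A8 : Stmt_A8 := by
  intro n Ig Ik k φ hsg hg hk'
  have hkpd := frame_kpd φ
  have hbdd : BddBelow (Set.range fun T : {T : Mat n // T.PosDef} => w2 Ig Ik k T.1) := by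
    refine ⟨0, ?_⟩
    rintro _ ⟨T, rfl⟩
    exact w2_nonneg hg hk' hkpd.posSemidef T.2
  have hle : ∀ T : Mat n, T.PosDef → V2 Ig Ik k ≤ w2 Ig Ik k T := fun T hT =>
    ciInf_le hbdd ⟨T, hT⟩
  haveI : Nonempty {T : Mat n // T.PosDef} := ⟨⟨1, PosDef.one⟩⟩
  refine ⟨le_ciInf fun T => w2_nonneg hg hk' hkpd.posSemidef T.2, ?_, hle⟩
  -- `T = Q Qᴴ`
  have hTpd : (φ.Q * φ.Qᴴ).PosDef := by
    have := pd_congr' (A := (1 : Mat n)) PosDef.one φ.mul_inv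
    rwa [Matrix.mul_one] at this
  refine le_trans (hle _ hTpd) ?_
  have h1 : φ.Qiᴴ * φ.Qᴴ = 1 := by rw [← conjTranspose_mul, φ.mul_inv, conjTranspose_one]
  have h2 : φ.Qᴴ * φ.Qiᴴ = 1 := by rw [← conjTranspose_mul, φ.inv_mul, conjTranspose_one]
  have hinv : (φ.Q * φ.Qᴴ)⁻¹ = φ.Qiᴴ * φ.Qi := by
    refine inv_of ?_
    calc φ.Q * φ.Qᴴ * (φ.Qiᴴ * φ.Qi) = φ.Q * (φ.Qᴴ * φ.Qiᴴ) * φ.Qi := by
          simp only [Matrix.mul_assoc]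
      _ = 1 := by rw [h2, Matrix.mul_one, φ.mul_inv]
  have e1 : rtr (φ.Q * φ.Qᴴ * (Ig + Ik)) = ∑ i, φ.sg i := by
    rw [Matrix.mul_assoc, rtr_comm, φ.hI, rtr_dg]
  have e2 : rtr ((φ.Q * φ.Qᴴ)⁻¹ * k) = ∑ i, φ.sg i := by
    rw [hinv, Matrix.mul_assoc, rtr_comm, φ.hk, rtr_dg]
  have e3 : rtr (φ.Q * φ.Qᴴ * Ig * (φ.Q * φ.Qᴴ) * Ik) =
      rtr ((φ.Qᴴ * Ig * φ.Q) * (φ.Qᴴ * Ik * φ.Q)) := by
    rw [show φ.Q * φ.Qᴴ * Ig * (φ.Q * φ.Qᴴ) * Ik = φ.Q * (φ.Qᴴ * Ig * φ.Q * φ.Qᴴ * Ik) by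
      simp only [Matrix.mul_assoc], rtr_comm]
    congr 1
    simp only [Matrix.mul_assoc]
  have ha : (φ.Qᴴ * Ig * φ.Q).PosSemidef := hg.conjTranspose_mul_mul_same φ.Q
  have hb : (φ.Qᴴ * Ik * φ.Q).PosSemidef := hk'.conjTranspose_mul_mul_same φ.Q
  have hab : φ.Qᴴ * Ig * φ.Q + φ.Qᴴ * Ik * φ.Q = dg φ.sg := by
    rw [← φ.hI, Matrix.mul_add, Matrix.add_mul]
  have hb1 : (1 - φ.Qᴴ * Ik * φ.Q).PosSemidef := by
    have e : 1 - φ.Qᴴ * Ik * φ.Q = (1 - dg φ.sg) + φ.Qᴴ * Ig * φ.Q := by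
      rw [← hab]; abel
    rw [e]
    refine PosSemidef.add ?_ ha
    rw [← dg_one, dg_sub]
    exact dg_psd fun i => by linarith [hsg i]
  have e4 : rtr ((φ.Qᴴ * Ig * φ.Q) * (φ.Qᴴ * Ik * φ.Q)) ≤ rtr (φ.Qᴴ * Ig * φ.Q) := by
    have := rtr_mul_mono ha hb1
    rwa [Matrix.mul_one] at this
  have e5 : rtr (φ.Qᴴ * Ig * φ.Q) ≤ ∑ i, φ.sg i := by
    have : rtr (φ.Qᴴ * Ig * φ.Q) + rtr (φ.Qᴴ * Ik * φ.Q) = ∑ i, φ.sg i := by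
      rw [← rtr_add, hab, rtr_dg]
    linarith [rtr_nonneg hb]
  unfold w2
  rw [rtr_add, e1, e2, e3]
  linarith

end Pool.LG
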