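import Mathlib
import Pool.Agent.Work.LipGraph.AuxB
import Pool.Agent.Work.LipGraph.A8

set_option autoImplicit false

open Matrix MeasureTheory
open scoped ComplexOrder

namespace Pool.LG

open AuxB

namespace A56aux

variable {n : ℕ}

/-- a positive definite matrix is bounded below -/
theorem pd_lower {A : Mat n} (hA : A.PosDef) :
    ∃ c : ℝ, 0 < c ∧ (A - (c : ℂ) • (1 : Mat n)).PosSemidef := by
  obtain ⟨U, t, hU1, hU2, hUt⟩ := eig hA.1
  have ht := eig_pos hU1 hUt hA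
  have hpos : 0 < 1 + ∑ i, (t i)⁻¹ := by
    have : 0 ≤ ∑ i, (t i)⁻¹ := Finset.sum_nonneg fun i _ => (inv_pos.2 (ht i)).le
    linarith
  refine ⟨(1 + ∑ i, (t i)⁻¹)⁻¹, inv_pos.2 hpos, eig_sub_psd hU2 hUt fun i => ?_⟩
  have h1 : (t i)⁻¹ ≤ ∑ j, (t j)⁻¹ :=
    Finset.single_le_sum (fun j _ => (inv_pos.2 (ht j)).le) (Finset.mem_univ i)
  rw [inv_le_comm₀ hpos (ht i)]
  linarith

/-- a Hermitian matrix is bounded above -/
theorem herm_upper {A : Mat n} (hA : A.IsHermitian) :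
    ∃ c : ℝ, 0 < c ∧ ((c : ℂ) • (1 : Mat n) - A).PosSemidef := by
  obtain ⟨U, t, hU1, hU2, hUt⟩ := eig hA
  refine ⟨1 + ∑ i, |t i|, ?_, eig_psd_sub hU2 hUt fun i => ?_⟩
  · have : 0 ≤ ∑ i, |t i| := Finset.sum_nonneg fun i _ => abs_nonneg _
    linarith
  · have h1 : |t i| ≤ ∑ j, |t j| :=
      Finset.single_le_sum (f := fun j => |t j|) (fun j _ => abs_nonneg _) (Finset.mem_univ i)
    linarith [le_abs_self (t i)]

theorem continuousAt_inv {X : Type*} [TopologicalSpace X] {f : X → Mat n} {x : X}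
    (hf : ContinuousAt f x) (hx : (f x).det ≠ 0) : ContinuousAt (fun y => (f y)⁻¹) x := by
  have e : (fun y => (f y)⁻¹) = fun y => ((f y).det)⁻¹ • (f y).adjugate := by
    funext y
    rw [Matrix.inv_def, Ring.inverse_eq_inv']
  rw [e]
  have h1 : ContinuousAt (fun y => (f y).det) x :=
    ContinuousAt.comp (g := fun A : Mat n => A.det) (f := f)
      (Continuous.matrix_det continuous_id).continuousAt hf
  have h2 : ContinuousAt (fun y => (f y).adjugate) x :=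
    ContinuousAt.comp (g := fun A : Mat n => A.adjugate) (f := f)
      (Continuous.matrix_adjugate continuous_id).continuousAt hf
  exact (h1.inv₀ hx).smul h2

theorem continuous_rtr : Continuous (rtr : Mat n → ℝ) := by
  unfold rtr
  exact Complex.continuous_re.comp (Continuous.matrix_trace continuous_id)

theorem continuousAt_w2 {Ig Ik k T : Mat n} (hT : T.det ≠ 0) :
    ContinuousAt (w2 Ig Ik k) T := by
  have h1 : ContinuousAt (fun T : Mat n => T⁻¹) T := continuousAt_inv continuousAt_id hT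
  have e1 : ContinuousAt (fun T : Mat n => T * Ig * T * Ik) T := by fun_prop
  have e2 : ContinuousAt (fun T : Mat n => T * (Ig + Ik) + T⁻¹ * k) T := by
    refine ContinuousAt.add (by fun_prop) ?_
    exact h1.mul continuousAt_const
  have f1 : ContinuousAt (fun T : Mat n => rtr (T * Ig * T * Ik)) T :=
    continuous_rtr.continuousAt.comp e1
  have f2 : ContinuousAt (fun T : Mat n => rtr (T * (Ig + Ik) + T⁻¹ * k)) T :=
    continuous_rtr.continuousAt.comp e2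
  exact f1.add (f2.const_mul 2)

theorem isClosed_psd : IsClosed {T : Mat n | T.PosSemidef} := by
  have e : {T : Mat n | T.PosSemidef} =
      {T : Mat n | Tᴴ = T} ∩ ⋂ x : Fin n → ℂ, {T : Mat n | 0 ≤ star x ⬝ᵥ (T *ᵥ x)} := by
    ext T
    simp only [Set.mem_ofPred_eq, Set.mem_inter_iff, Set.mem_iInter]
    rw [posSemidef_iff_dotProduct_mulVec]
    rfl
  rw [e]
  refine IsClosed.inter ?_ (isClosed_iInter fun x => ?_)
  · exact isClosed_eq (Continuous.matrix_conjTranspose continuous_id) continuous_id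
  · have hc : Continuous fun T : Mat n => star x ⬝ᵥ (T *ᵥ x) :=
      Continuous.dotProduct continuous_const
        (Continuous.matrix_mulVec continuous_id continuous_const)
    have : {T : Mat n | 0 ≤ star x ⬝ᵥ (T *ᵥ x)} =
        {T : Mat n | 0 ≤ (star x ⬝ᵥ (T *ᵥ x)).re} ∩ {T : Mat n | 0 = (star x ⬝ᵥ (T *ᵥ x)).im} := by
      ext T
      simp only [Set.mem_ofPred_eq, Set.mem_inter_iff, Complex.le_def, Complex.zero_re,
        Complex.zero_im]
    rw [this]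
    exact IsClosed.inter (isClosed_le continuous_const (Complex.continuous_re.comp hc))
      (isClosed_eq continuous_const (Complex.continuous_im.comp hc))

theorem psd_le_rtr {T : Mat n} (hT : T.PosSemidef) :
    (((rtr T : ℝ) : ℂ) • (1 : Mat n) - T).PosSemidef := by
  obtain ⟨U, t, hU1, hU2, hUt⟩ := eig hT.1
  have ht := eig_nonneg hU1 hUt hT
  have hr : rtr T = ∑ i, t i := by
    rw [hUt, Matrix.mul_assoc, rtr_comm, Matrix.mul_assoc, hU1, Matrix.mul_one, rtr_dg]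
  rw [hr]
  refine eig_psd_sub hU2 hUt fun i => ?_
  exact Finset.single_le_sum (fun j _ => ht j) (Finset.mem_univ i)

theorem hs_le_rtr {T : Mat n} (hT : T.PosSemidef) : hs T ≤ rtr T ^ 2 := by
  rw [hs_eq, hT.1.eq]
  have h := rtr_mul_mono hT (psd_le_rtr hT)
  rw [Matrix.mul_smul, Matrix.mul_one, rtr_smul] at h
  nlinarith

theorem entry_le {T : Mat n} (hT : T.PosSemidef) (i j : Fin n) : ‖T i j‖ ≤ rtr T := by
  have h1 : ‖T i j‖ ^ 2 ≤ hs T := by
    have h2 : ‖T i j‖ ^ 2 ≤ ∑ j', ‖T i j'‖ ^ 2 :=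
      Finset.single_le_sum (f := fun j' => ‖T i j'‖ ^ 2) (fun j' _ => by positivity)
        (Finset.mem_univ j)
    have h3 : ∑ j', ‖T i j'‖ ^ 2 ≤ hs T :=
      Finset.single_le_sum (f := fun i' => ∑ j', ‖T i' j'‖ ^ 2)
        (fun i' _ => Finset.sum_nonneg fun j' _ => by positivity) (Finset.mem_univ i)
    exact h2.trans h3
  exact pow_le_pow_left_iff_of_nonneg h1 (hs_le_rtr hT) (norm_nonneg _) (rtr_nonneg hT)
where
  pow_le_pow_left_iff_of_nonneg {a b h : ℝ} (h1 : a ^ 2 ≤ h) (h2 : h ≤ b ^ 2) (ha : 0 ≤ a)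
      (hb : 0 ≤ b) : a ≤ b := by
    by_contra hcon
    push Not at hcon
    nlinarith

theorem inv_lower {T : Mat n} (hT : T.PosDef) {D : ℝ} (hD : 0 < D) (h : rtr T⁻¹ ≤ D) :
    (T - ((D⁻¹ : ℝ) : ℂ) • (1 : Mat n)).PosSemidef := by
  obtain ⟨U, t, hU1, hU2, hUt⟩ := eig hT.1
  have ht := eig_pos hU1 hUt hT
  have hinv : T⁻¹ = U * dg (fun i => (t i)⁻¹) * Uᴴ := by
    refine inv_of ?_
    calc T * (U * dg (fun i => (t i)⁻¹) * Uᴴ)
        = U * dg t * (Uᴴ * U) * dg (fun i => (t i)⁻¹) * Uᴴ := by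
          conv_lhs => rw [hUt]
          simp only [Matrix.mul_assoc]
      _ = U * (dg t * dg (fun i => (t i)⁻¹)) * Uᴴ := by
          rw [hU1, Matrix.mul_one]; simp only [Matrix.mul_assoc]
      _ = 1 := by
          rw [dg_mul, show (fun i => t i * (t i)⁻¹) = fun _ => (1 : ℝ) from
            funext fun i => mul_inv_cancel₀ (ht i).ne', dg_one, Matrix.mul_one, hU2]
  have hr : rtr T⁻¹ = ∑ i, (t i)⁻¹ := by
    rw [hinv, Matrix.mul_assoc, rtr_comm, Matrix.mul_assoc, hU1, Matrix.mul_one, rtr_dg]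
  refine eig_sub_psd hU2 hUt fun i => ?_
  have h1 : (t i)⁻¹ ≤ ∑ j, (t j)⁻¹ :=
    Finset.single_le_sum (fun j _ => (inv_pos.2 (ht j)).le) (Finset.mem_univ i)
  rw [inv_le_comm₀ hD (ht i)]
  linarith

theorem pd_of_lower {T : Mat n} {c : ℝ} (hc : 0 < c) (h : (T - (c : ℂ) • (1 : Mat n)).PosSemidef) :
    T.PosDef := by
  have e : T = (T - (c : ℂ) • (1 : Mat n)) + (c : ℂ) • (1 : Mat n) := by abel
  rw [e]
  refine PosDef.posSemidef_add h ?_
  rw [smul_one_eq_dg]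
  exact dg_pd fun _ => hc

theorem pd_det {T : Mat n} (h : T.PosDef) : T.det ≠ 0 := by
  have := h.isUnit
  rw [Matrix.isUnit_iff_isUnit_det] at this
  exact this.ne_zero

end A56aux

open A56aux

theorem A5 : Stmt_A5 := by
  intro n Ig Ik k hg hk' hI hk
  obtain ⟨α, hα, hαI⟩ := pd_lower hI
  obtain ⟨β, hβ, hβk⟩ := pd_lower hk
  set w := w2 Ig Ik k 1 with hw
  have hone : (1 : Mat n).PosDef := PosDef.one
  have hw0 : 0 ≤ w := w2_nonneg hg hk' hk.posSemidef hone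
  set C := w / (2 * α) with hC
  set D := w / (2 * β) + 1 with hD
  have hDpos : 0 < D := by
    have : 0 ≤ w / (2 * β) := by positivity
    linarith
  have hb : ∀ T : Mat n, T.PosDef → w2 Ig Ik k T ≤ w → rtr T ≤ C ∧ rtr T⁻¹ ≤ D := by
    intro T hT hle
    have h1 : 0 ≤ rtr (T * Ig * T * Ik) := by
      have := hg.mul_mul_conjTranspose_same T
      rw [hT.1.eq] at this
      exact rtr_mul_nonneg this hk'
    have h2 : α * rtr T ≤ rtr (T * (Ig + Ik)) := by
      have := rtr_mul_mono hT.posSemidef hαI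
      rwa [Matrix.mul_smul, Matrix.mul_one, rtr_smul] at this
    have h3 : β * rtr T⁻¹ ≤ rtr (T⁻¹ * k) := by
      have := rtr_mul_mono hT.inv.posSemidef hβk
      rwa [Matrix.mul_smul, Matrix.mul_one, rtr_smul] at this
    have h4 : 0 ≤ rtr T := rtr_nonneg hT.posSemidef
    have h5 : 0 ≤ rtr T⁻¹ := rtr_nonneg hT.inv.posSemidef
    unfold w2 at hle
    rw [rtr_add] at hle
    constructor
    · rw [hC, le_div_iff₀ (by positivity)]
      nlinarith [mul_nonneg hβ.le h5]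
    · have : rtr T⁻¹ ≤ w / (2 * β) := by
        rw [le_div_iff₀ (by positivity)]
        nlinarith [mul_nonneg hα.le h4]
      linarith
  set K : Set (Mat n) := {T | (T - ((D⁻¹ : ℝ) : ℂ) • (1 : Mat n)).PosSemidef ∧ rtr T ≤ C} with hK
  have hKpd : ∀ T ∈ K, T.PosDef := fun T hT => pd_of_lower (inv_pos.2 hDpos) hT.1
  have hmem : ∀ T : Mat n, T.PosDef → w2 Ig Ik k T ≤ w → T ∈ K := fun T hT hle =>
    ⟨inv_lower hT hDpos (hb T hT hle).2, (hb T hT hle).1⟩
  have hKclosed : IsClosed K := by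
    refine IsClosed.inter ?_ ?_
    · exact isClosed_psd.preimage (continuous_id.sub continuous_const)
    · exact isClosed_le continuous_rtr continuous_const
  have hKcomp : IsCompact K := by
    have hbox : IsCompact (Set.pi Set.univ fun _ : Fin n =>
        Set.pi Set.univ fun _ : Fin n => Metric.closedBall (0 : ℂ) C) :=
      isCompact_univ_pi fun _ => isCompact_univ_pi fun _ => isCompact_closedBall _ _
    refine hbox.of_isClosed_subset hKclosed ?_
    intro T hT i _ j _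
    rw [mem_closedBall_zero_iff]
    exact (entry_le (hKpd T hT).posSemidef i j).trans hT.2
  obtain ⟨T₀, hT₀, hmin⟩ := hKcomp.exists_isMinOn ⟨1, hmem 1 hone le_rfl⟩
    (fun T hT => (continuousAt_w2 (pd_det (hKpd T hT))).continuousWithinAt)
  refine ⟨T₀, hKpd T₀ hT₀, fun T hT => ?_⟩
  rcases le_total (w2 Ig Ik k T) w with h | h
  · exact hmin (hmem T hT h)
  · exact (hmin (hmem 1 hone le_rfl)).trans h

theorem A6 : Stmt_A6 := by
  intro n Ig Ik k T₀ hg hk' hk hT hmin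
  set G := Ig * T₀ * Ik + Ik * T₀ * Ig + (2 : ℂ) • (Ig + Ik - T₀⁻¹ * k * T₀⁻¹) with hG
  have hTi : (T₀⁻¹)ᴴ = T₀⁻¹ := hT.inv.1.eq
  have hGh : Gᴴ = G := by
    rw [hG]
    simp only [conjTranspose_add, conjTranspose_mul, conjTranspose_smul, conjTranspose_sub, hTi,
      hg.1.eq, hk'.1.eq, hk.1.eq, hT.1.eq]
    have : star (2 : ℂ) = 2 := by simp
    rw [this, add_comm (Ik * (T₀ * Ig))]
    simp only [Matrix.mul_assoc]
  obtain ⟨c, hc, hcT⟩ := pd_lower hT
  obtain ⟨C, hC, hCG⟩ := herm_upper (A := G) hGh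
  have hpd : ∀ δ : ℝ, 0 < δ → δ < c / C → (T₀ + ((-δ : ℝ) : ℂ) • G).PosDef := by
    intro δ hδ hδc
    have e : T₀ + ((-δ : ℝ) : ℂ) • G = ((T₀ - (c : ℂ) • (1 : Mat n)) +
        (δ : ℂ) • ((C : ℂ) • (1 : Mat n) - G)) + ((c - δ * C : ℝ) : ℂ) • (1 : Mat n) := by
      push_cast
      module
    rw [e]
    have hδ' : (0 : ℂ) ≤ (δ : ℂ) := by exact_mod_cast hδ.le
    refine PosDef.posSemidef_add (hcT.add (hCG.smul hδ')) ?_
    rw [smul_one_eq_dg]
    refine dg_pd fun _ => ?_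
    have := (lt_div_iff₀ hC).1 hδc
    linarith
  -- the slope
  let g : ℝ → ℝ := fun ε => rtr (G * Ig * T₀ * Ik) + rtr (T₀ * Ig * G * Ik) +
    2 * rtr (G * (Ig + Ik)) - 2 * rtr ((T₀ + (ε : ℂ) • G)⁻¹ * G * T₀⁻¹ * k) +
    ε * rtr (G * Ig * G * Ik)
  have hgc : ContinuousAt g 0 := by
    have h1 : ContinuousAt (fun ε : ℝ => (T₀ + (ε : ℂ) • G)) 0 := by fun_prop
    have h2 : ContinuousAt (fun ε : ℝ => (T₀ + (ε : ℂ) • G)⁻¹) 0 := by
      refine continuousAt_inv h1 ?_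
      simpa using pd_det hT
    have h3 : ContinuousAt (fun ε : ℝ => (T₀ + (ε : ℂ) • G)⁻¹ * G * T₀⁻¹ * k) 0 :=
      ((h2.mul continuousAt_const).mul continuousAt_const).mul continuousAt_const
    have h4 : ContinuousAt (fun ε : ℝ => rtr ((T₀ + (ε : ℂ) • G)⁻¹ * G * T₀⁻¹ * k)) 0 :=
      ContinuousAt.comp (g := rtr) (f := fun ε : ℝ => (T₀ + (ε : ℂ) • G)⁻¹ * G * T₀⁻¹ * k)
        continuous_rtr.continuousAt h3
    exact ((continuousAt_const.sub (h4.const_mul 2))).add (continuousAt_id.mul continuousAt_const)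
  have hg0 : g 0 = hs G := by
    have e : hs G = rtr (G * G) := by rw [hs_eq, hGh]
    rw [e]
    have e2 : rtr (G * G) = rtr (G * (Ig * T₀ * Ik + Ik * T₀ * Ig +
        (2 : ℂ) • (Ig + Ik - T₀⁻¹ * k * T₀⁻¹))) := by rw [← hG]
    rw [e2]
    have e3 : rtr (G * ((2 : ℂ) • (Ig + Ik - T₀⁻¹ * k * T₀⁻¹))) =
        2 * (rtr (G * (Ig + Ik)) - rtr (G * (T₀⁻¹ * k * T₀⁻¹))) := by
      rw [Matrix.mul_smul, show (2 : ℂ) = ((2 : ℝ) : ℂ) by push_cast; rfl, rtr_smul,
        Matrix.mul_sub, rtr_sub]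
    rw [Matrix.mul_add, Matrix.mul_add, rtr_add, rtr_add, e3]
    simp only [g]
    rw [show T₀ + ((0 : ℝ) : ℂ) • G = T₀ by simp]
    have e4 : rtr (T₀⁻¹ * G * T₀⁻¹ * k) = rtr (G * (T₀⁻¹ * k * T₀⁻¹)) := by
      rw [show T₀⁻¹ * G * T₀⁻¹ * k = T₀⁻¹ * (G * T₀⁻¹ * k) by simp only [Matrix.mul_assoc],
        rtr_comm]
      refine congrArg rtr ?_
      simp only [Matrix.mul_assoc]
    have e5 : rtr (T₀ * Ig * G * Ik) = rtr (G * (Ik * T₀ * Ig)) := by
      rw [show T₀ * Ig * G * Ik = (T₀ * Ig) * (G * Ik) by simp only [Matrix.mul_assoc], rtr_comm]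
      refine congrArg rtr ?_
      simp only [Matrix.mul_assoc]
    have e6 : rtr (G * Ig * T₀ * Ik) = rtr (G * (Ig * T₀ * Ik)) := by
      refine congrArg rtr ?_
      simp only [Matrix.mul_assoc]
    rw [e4, e5, e6]
    ring
  have hneg : ∀ δ : ℝ, 0 < δ → δ < c / C → g (-δ) ≤ 0 := by
    intro δ hδ hδc
    have hpdδ := hpd δ hδ hδc
    set T := T₀ + ((-δ : ℝ) : ℂ) • G with hTdef
    have hle := hmin T hpdδ
    have hdet := pd_det hpdδ
    have hunit : IsUnit T.det := isUnit_iff_ne_zero.2 hdet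
    have hunit0 : IsUnit T₀.det := isUnit_iff_ne_zero.2 (pd_det hT)
    have hTinv : T⁻¹ = T₀⁻¹ - ((-δ : ℝ) : ℂ) • (T⁻¹ * G * T₀⁻¹) := by
      have h1 : T⁻¹ * T = 1 := Matrix.nonsing_inv_mul T hunit
      have h2 : T₀ * T₀⁻¹ = 1 := Matrix.mul_nonsing_inv T₀ hunit0
      have h3 : T⁻¹ * T * T₀⁻¹ = T⁻¹ + ((-δ : ℝ) : ℂ) • (T⁻¹ * G * T₀⁻¹) := by
        conv_lhs => rw [show T⁻¹ * T * T₀⁻¹ = T⁻¹ * (T₀ + ((-δ : ℝ) : ℂ) • G) * T₀⁻¹ by
          rw [← hTdef]]
        rw [Matrix.mul_add, Matrix.add_mul, Matrix.mul_assoc T⁻¹ T₀, h2, Matrix.mul_one,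
          Matrix.mul_smul, Matrix.smul_mul]
      rw [h1, Matrix.one_mul] at h3
      exact eq_sub_of_add_eq h3.symm
    have hk1 : rtr (T⁻¹ * k) = rtr (T₀⁻¹ * k) - (-δ) * rtr (T⁻¹ * G * T₀⁻¹ * k) := by
      conv_lhs => rw [hTinv]
      rw [Matrix.sub_mul, rtr_sub, Matrix.smul_mul, rtr_smul]
    have hI1 : rtr (T * (Ig + Ik)) = rtr (T₀ * (Ig + Ik)) + (-δ) * rtr (G * (Ig + Ik)) := by
      rw [hTdef, Matrix.add_mul, rtr_add, Matrix.smul_mul, rtr_smul]
    have hQ1 : rtr (T * Ig * T * Ik) = rtr (T₀ * Ig * T₀ * Ik) +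
        (-δ) * (rtr (G * Ig * T₀ * Ik) + rtr (T₀ * Ig * G * Ik)) +
        (-δ) ^ 2 * rtr (G * Ig * G * Ik) := by
      rw [hTdef]
      simp only [Matrix.add_mul, Matrix.mul_add, Matrix.smul_mul, Matrix.mul_smul, rtr_add,
        rtr_smul]
      ring
    have hval : w2 Ig Ik k T = w2 Ig Ik k T₀ + (-δ) * g (-δ) := by
      unfold w2
      rw [rtr_add, rtr_add, hk1, hI1, hQ1]
      simp only [g]
      rw [← hTdef]
      ring
    rw [hval] at hle
    nlinarith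
  have hlim : Filter.Tendsto (fun δ : ℝ => g (-δ)) (nhdsWithin 0 (Set.Ioi 0)) (nhds (g 0)) := by
    have h1 : ContinuousAt (fun δ : ℝ => g (-δ)) 0 := by
      refine ContinuousAt.comp (g := g) (f := fun δ : ℝ => -δ) ?_ continuousAt_neg
      simpa using hgc
    have h2 := h1.tendsto
    simp only [neg_zero] at h2
    exact h2.mono_left nhdsWithin_le_nhds
  have hle0 : g 0 ≤ 0 := by
    refine le_of_tendsto hlim ?_
    have : Set.Ioo (0 : ℝ) (c / C) ∈ nhdsWithin (0 : ℝ) (Set.Ioi 0) :=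
      Ioo_mem_nhdsGT (div_pos hc hC)
    filter_upwards [this] with δ hδ
    exact hneg δ hδ.1 hδ.2
  rw [hg0] at hle0
  exact hs_eq_zero (le_antisymm hle0 (hs_nonneg G))

end Pool.LG
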