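import Mathlib
import Pool.Agent.Work.LipGraph.AuxB

set_option autoImplicit false

open Matrix MeasureTheory
open scoped ComplexOrder

namespace Pool.LG

open AuxB

namespace A7aux

variable {n : ℕ}

/-- simultaneous frame for `T` and `I` -/
theorem simul {T I : Mat n} (hT : T.PosDef) (hI : I.IsHermitian) :
    ∃ (G Gi : Mat n) (m : Fin n → ℝ), G * Gi = 1 ∧ Gi * G = 1 ∧ T = G * Gᴴ ∧
      Gᴴ * I * G = dg m := by
  obtain ⟨U, t, hU1, hU2, hUt⟩ := eig hT.1
  have ht := eig_pos hU1 hUt hT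
  set R : Mat n := U * dg (fun i => √(t i)) with hR
  set Ri : Mat n := dg (fun i => (√(t i))⁻¹) * Uᴴ with hRi
  have hs : ∀ i, 0 < √(t i) := fun i => Real.sqrt_pos.2 (ht i)
  have h1 : R * Ri = 1 := by
    calc R * Ri = U * (dg (fun i => √(t i)) * dg (fun i => (√(t i))⁻¹)) * Uᴴ := by
          rw [hR, hRi]; simp only [Matrix.mul_assoc]
      _ = U * 1 * Uᴴ := by
          rw [dg_mul, ← dg_one, show (fun i => √(t i) * (√(t i))⁻¹) = fun _ => (1 : ℝ) from
            funext fun i => mul_inv_cancel₀ (hs i).ne']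
      _ = 1 := by rw [Matrix.mul_one, hU2]
  have h2 : Ri * R = 1 := by
    exact mul_eq_one_comm.1 h1
  have h3 : R * Rᴴ = T := by
    rw [hR, conjTranspose_mul, dg_herm, hUt]
    calc U * dg (fun i => √(t i)) * (dg (fun i => √(t i)) * Uᴴ)
        = U * (dg (fun i => √(t i)) * dg (fun i => √(t i))) * Uᴴ := by
          simp only [Matrix.mul_assoc]
      _ = _ := by
          rw [dg_mul, show (fun i => √(t i) * √(t i)) = t from
            funext fun i => Real.mul_self_sqrt (ht i).le]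
  have hH : (Rᴴ * I * R).IsHermitian := isHermitian_conjTranspose_mul_mul R hI
  obtain ⟨W, m, hW1, hW2, hWm⟩ := eig hH
  refine ⟨R * W, Wᴴ * Ri, m, ?_, ?_, ?_, ?_⟩
  · calc R * W * (Wᴴ * Ri) = R * (W * Wᴴ) * Ri := by simp only [Matrix.mul_assoc]
      _ = 1 := by rw [hW2, Matrix.mul_one, h1]
  · calc Wᴴ * Ri * (R * W) = Wᴴ * (Ri * R) * W := by simp only [Matrix.mul_assoc]
      _ = 1 := by rw [h2, Matrix.mul_one, hW1]
  · rw [conjTranspose_mul]
    calc T = R * (W * Wᴴ) * Rᴴ := by rw [hW2, Matrix.mul_one, h3]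
      _ = _ := by simp only [Matrix.mul_assoc]
  · rw [conjTranspose_mul]
    calc Wᴴ * Rᴴ * I * (R * W) = Wᴴ * (Rᴴ * I * R) * W := by simp only [Matrix.mul_assoc]
      _ = dg m := eig_back hW1 hWm

/-- `0 ≤ a ≤ c` implies `a² ≤ c a` -/
theorem sq_le {a : Mat n} (ha : a.PosSemidef) {c : ℝ} (hc : ((c : ℂ) • (1 : Mat n) - a).PosSemidef) :
    ((c : ℂ) • a - a * a).PosSemidef := by
  obtain ⟨V, α, hV1, hV2, hVα⟩ := eig ha.1
  have h0 := eig_nonneg hV1 hVα ha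
  have hle : ∀ i, α i ≤ c := by
    have h := hc.conjTranspose_mul_mul_same V
    have e : Vᴴ * ((c : ℂ) • (1 : Mat n) - a) * V = dg (fun i => c - α i) := by
      rw [Matrix.mul_sub, Matrix.sub_mul, eig_back hV1 hVα, Matrix.mul_smul, Matrix.smul_mul,
        Matrix.mul_one, hV1, smul_one_eq_dg, dg_sub]
    rw [e] at h
    intro i
    have := dg_psd_iff.1 h i
    linarith
  have e : (c : ℂ) • a - a * a = V * dg (fun i => c * α i - α i * α i) * Vᴴ := by
    rw [← dg_sub, ← smul_dg, ← dg_mul, Matrix.mul_sub, Matrix.sub_mul]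
    congr 1
    · rw [hVα, Matrix.mul_smul, Matrix.smul_mul]
    · calc a * a = V * dg α * (Vᴴ * V) * dg α * Vᴴ := by
            conv_lhs => rw [hVα]
            simp only [Matrix.mul_assoc]
        _ = _ := by rw [hV1, Matrix.mul_one]; simp only [Matrix.mul_assoc]
  rw [e]
  exact (dg_psd fun i => by nlinarith [h0 i, hle i]).mul_mul_conjTranspose_same V

theorem diag_re_nonneg {A : Mat n} (hA : A.PosSemidef) (i : Fin n) : 0 ≤ (A i i).re := by
  have := hA.diag_nonneg (i := i)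
  exact (Complex.le_def.1 this).1

/-- the key estimate in the simultaneous frame -/
theorem key {a b kh : Mat n} {m : Fin n → ℝ} (ha : a.PosSemidef) (hb : b.PosSemidef)
    (hm : ∀ i, 0 < m i) (hab : a + b = dg m)
    (hEL : a * b + b * a + (2 : ℂ) • (a + b - kh) = 0)
    (hk : (dg (fun i => (m i)⁻¹) - kh).PosSemidef) :
    (kh - ((1 / 2 : ℝ) : ℂ) • dg m).PosSemidef ∧
      (((3 / 2 : ℝ) : ℂ) • dg m - kh).PosSemidef := by
  have hkh : kh = a + b + ((1 / 2 : ℝ) : ℂ) • (a * b + b * a) := by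
    have h : (2 : ℂ) • kh = (2 : ℂ) • (a + b + ((1 / 2 : ℝ) : ℂ) • (a * b + b * a)) := by
      have e1 : (2 : ℂ) • kh = a * b + b * a + (2 : ℂ) • (a + b) := by
        rw [smul_sub, ← add_sub_assoc, sub_eq_zero] at hEL
        exact hEL.symm
      rw [e1, smul_add (2 : ℂ) (a + b), smul_smul]
      have : (2 : ℂ) * ((1 / 2 : ℝ) : ℂ) = 1 := by push_cast; norm_num
      rw [this, one_smul, add_comm]
    exact smul_right_injective _ (two_ne_zero (α := ℂ)) h
  -- every `m i ≤ 1`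
  have hm1 : ∀ i, m i ≤ 1 := by
    rcases isEmpty_or_nonempty (Fin n) with hn | hn
    · intro i; exact hn.elim i
    obtain ⟨i0, hi0⟩ := Finite.exists_max m
    suffices h : m i0 ≤ 1 from fun i => le_trans (hi0 i) h
    have hale : ((m i0 : ℂ) • (1 : Mat n) - a).PosSemidef := by
      have e : (m i0 : ℂ) • (1 : Mat n) - a = dg (fun i => m i0 - m i) + b := by
        rw [← dg_sub, ← smul_one_eq_dg, ← hab]; abel
      rw [e]
      exact (dg_psd fun i => by linarith [hi0 i]).add hb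
    have h1 := diag_re_nonneg (sq_le ha hale) i0
    have h2 := diag_re_nonneg hk i0
    -- the diagonal entry of `a b` and `b a`
    have hb' : b = dg m - a := by rw [← hab]; abel
    have e1 : ((a * b) i0 i0).re = m i0 * (a i0 i0).re - ((a * a) i0 i0).re := by
      rw [hb', Matrix.mul_sub, Matrix.sub_apply, Complex.sub_re]
      congr 1
      unfold dg
      rw [mul_diagonal]
      simp [mul_comm]
    have e2 : ((b * a) i0 i0).re = m i0 * (a i0 i0).re - ((a * a) i0 i0).re := by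
      rw [hb', Matrix.sub_mul, Matrix.sub_apply, Complex.sub_re]
      congr 1
      unfold dg
      rw [diagonal_mul]
      simp
    have e3 : (kh i0 i0).re = m i0 + (1 / 2) * (((a * b) i0 i0).re + ((b * a) i0 i0).re) := by
      rw [hkh, hab, Matrix.add_apply, Matrix.smul_apply, Matrix.add_apply]
      simp only [dg, diagonal_apply_eq, Complex.add_re, smul_eq_mul, Complex.re_ofReal_mul,
        Complex.ofReal_re]
    have h1' : 0 ≤ m i0 * (a i0 i0).re - ((a * a) i0 i0).re := by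
      rw [Matrix.sub_apply, Matrix.smul_apply, Complex.sub_re, smul_eq_mul,
        Complex.re_ofReal_mul] at h1
      exact h1
    have h2' : (kh i0 i0).re ≤ (m i0)⁻¹ := by
      rw [Matrix.sub_apply, Complex.sub_re] at h2
      simp only [dg, diagonal_apply_eq, Complex.ofReal_re] at h2
      linarith
    have h3 : m i0 ≤ (m i0)⁻¹ := by rw [e3, e1, e2] at h2'; linarith
    have h4 : m i0 * m i0 ≤ 1 := by
      have := mul_le_mul_of_nonneg_left h3 (hm i0).le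
      rwa [mul_inv_cancel₀ (hm i0).ne'] at this
    nlinarith [hm i0]
  have hdm : (1 - dg m).PosSemidef := by
    rw [← dg_one, dg_sub]
    exact dg_psd fun i => by linarith [hm1 i]
  have ha1 : (((1 : ℝ) : ℂ) • (1 : Mat n) - a).PosSemidef := by
    have e : ((1 : ℝ) : ℂ) • (1 : Mat n) - a = (1 - dg m) + b := by
      rw [← hab]; push_cast; rw [one_smul]; abel
    rw [e]; exact hdm.add hb
  have hb1 : (((1 : ℝ) : ℂ) • (1 : Mat n) - b).PosSemidef := by
    have e : ((1 : ℝ) : ℂ) • (1 : Mat n) - b = (1 - dg m) + a := by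
      rw [← hab]; push_cast; rw [one_smul]; abel
    rw [e]; exact hdm.add ha
  have ha2 := sq_le ha ha1
  have hb2 := sq_le hb hb1
  have hp : ((a + b) * (a + b)).PosSemidef := by
    have h := posSemidef_self_mul_conjTranspose (a + b)
    rwa [(ha.1.add hb.1).eq] at h
  have hq : ((a - b) * (a - b)).PosSemidef := by
    have h := posSemidef_self_mul_conjTranspose (a - b)
    rwa [(ha.1.sub hb.1).eq] at h
  have hhalf : (0 : ℂ) ≤ ((1 / 2 : ℝ) : ℂ) := by
    exact_mod_cast (by norm_num : (0 : ℝ) ≤ 1 / 2)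
  have hsp : ∀ {X : Mat n}, X.PosSemidef → (((1 / 2 : ℝ) : ℂ) • X).PosSemidef :=
    fun hX => hX.smul hhalf
  constructor
  · have e : kh - ((1 / 2 : ℝ) : ℂ) • dg m = ((1 / 2 : ℝ) : ℂ) • (((1 : ℝ) : ℂ) • a - a * a) +
        ((1 / 2 : ℝ) : ℂ) • (((1 : ℝ) : ℂ) • b - b * b) +
        ((1 / 2 : ℝ) : ℂ) • ((a + b) * (a + b)) := by
      rw [hkh, ← hab]
      push_cast
      have : (a + b) * (a + b) = a * a + a * b + (b * a + b * b) := by
        rw [Matrix.add_mul, Matrix.mul_add, Matrix.mul_add]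
      rw [this]
      module
    rw [e]
    exact ((hsp ha2).add (hsp hb2)).add (hsp hp)
  · have e : ((3 / 2 : ℝ) : ℂ) • dg m - kh = ((1 / 2 : ℝ) : ℂ) • (((1 : ℝ) : ℂ) • a - a * a) +
        ((1 / 2 : ℝ) : ℂ) • (((1 : ℝ) : ℂ) • b - b * b) +
        ((1 / 2 : ℝ) : ℂ) • ((a - b) * (a - b)) := by
      rw [hkh, ← hab]
      push_cast
      have : (a - b) * (a - b) = a * a - a * b - (b * a - b * b) := by
        rw [Matrix.sub_mul, Matrix.mul_sub, Matrix.mul_sub]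
      rw [this]
      module
    rw [e]
    exact ((hsp ha2).add (hsp hb2)).add (hsp hq)

/-- `tr (D Y D Y)` in coordinates -/
theorem rtr_dYdY {l : Fin n → ℝ} {Y : Mat n} (hY : Yᴴ = Y) :
    rtr (dg l * Y * dg l * Y) = ∑ i, ∑ j, l i * l j * ‖Y i j‖ ^ 2 := by
  simp only [rtr, trace, diag_apply]
  rw [Complex.re_sum]
  refine Finset.sum_congr rfl fun i _ => ?_
  rw [Matrix.mul_apply, Complex.re_sum]
  refine Finset.sum_congr rfl fun j _ => ?_
  unfold dg
  rw [mul_diagonal, diagonal_mul]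
  have hji : Y j i = (starRingEnd ℂ) (Y i j) := by
    conv_lhs => rw [← hY]
    rfl
  rw [hji]
  have : (l i : ℂ) * Y i j * (l j : ℂ) * (starRingEnd ℂ) (Y i j) =
      ((l i * l j * ‖Y i j‖ ^ 2 : ℝ) : ℂ) := by
    push_cast
    rw [← Complex.mul_conj']
    ring
  rw [this, Complex.ofReal_re]

theorem cmp_sum {l : Fin n → ℝ} (hll : ∀ i j, 2 / 3 ≤ l i * l j ∧ l i * l j ≤ 2) (Y : Mat n) :
    ∑ i, ∑ j, l i * l j * ‖Y i j‖ ^ 2 ≤ 2 * hs Y ∧
      hs Y ≤ 3 / 2 * ∑ i, ∑ j, l i * l j * ‖Y i j‖ ^ 2 := by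
  unfold hs
  constructor
  · rw [Finset.mul_sum]
    refine Finset.sum_le_sum fun i _ => ?_
    rw [Finset.mul_sum]
    refine Finset.sum_le_sum fun j _ => ?_
    exact mul_le_mul_of_nonneg_right (hll i j).2 (by positivity)
  · rw [Finset.mul_sum]
    refine Finset.sum_le_sum fun i _ => ?_
    rw [Finset.mul_sum]
    refine Finset.sum_le_sum fun j _ => ?_
    have h1 := (hll i j).1
    have h2 : 0 ≤ ‖Y i j‖ ^ 2 := by positivity
    nlinarith

/-- comparison when `T = Z (dg l) Zᴴ` -/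
theorem cmp_T {T Z Y : Mat n} {l : Fin n → ℝ} (hZ2 : Z * Zᴴ = 1) (hZl : T = Z * dg l * Zᴴ)
    (hY : Yᴴ = Y) (hll : ∀ i j, 2 / 3 ≤ l i * l j ∧ l i * l j ≤ 2) :
    rtr (T * Y * T * Y) ≤ 2 * hs Y ∧ hs Y ≤ 3 / 2 * rtr (T * Y * T * Y) := by
  have hYh : (Zᴴ * Y * Z)ᴴ = Zᴴ * Y * Z := by
    rw [conjTranspose_mul, conjTranspose_mul, conjTranspose_conjTranspose, hY, Matrix.mul_assoc]
  have e1 : rtr (T * Y * T * Y) = rtr (dg l * (Zᴴ * Y * Z) * dg l * (Zᴴ * Y * Z)) := by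
    rw [show T * Y * T * Y = Z * (dg l * Zᴴ * Y * Z * dg l * Zᴴ * Y) by
      rw [hZl]; simp only [Matrix.mul_assoc], rtr_comm]
    refine congrArg rtr ?_
    simp only [Matrix.mul_assoc]
  have e2 : hs (Zᴴ * Y * Z) = hs Y := by
    rw [hs_eq, hs_eq, hYh, hY]
    have e : Zᴴ * Y * Z * (Zᴴ * Y * Z) = Zᴴ * (Y * Y * Z) := by
      calc Zᴴ * Y * Z * (Zᴴ * Y * Z) = Zᴴ * Y * (Z * Zᴴ) * Y * Z := by
            simp only [Matrix.mul_assoc]
        _ = _ := by rw [hZ2, Matrix.mul_one]; simp only [Matrix.mul_assoc]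
    rw [e, rtr_comm, Matrix.mul_assoc, hZ2, Matrix.mul_one]
  rw [e1, rtr_dYdY hYh, ← e2]
  exact cmp_sum hll _

end A7aux

open A7aux

theorem A7 : Stmt_A7 := by
  intro n Ig Ik k T₀ φ hsg hg hk' hT hEL Y hY
  have hIh : (Ig + Ik).IsHermitian := hg.1.add hk'.1
  obtain ⟨G, Gi, m, hG1, hG2, hTG, hGm⟩ := simul hT hIh
  have hG1' : Giᴴ * Gᴴ = 1 := by rw [← conjTranspose_mul, hG1, conjTranspose_one]
  have hG2' : Gᴴ * Giᴴ = 1 := by rw [← conjTranspose_mul, hG2, conjTranspose_one]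
  have hTinv : T₀⁻¹ = Giᴴ * Gi := by
    refine inv_of ?_
    calc T₀ * (Giᴴ * Gi) = G * (Gᴴ * Giᴴ) * Gi := by rw [hTG]; simp only [Matrix.mul_assoc]
      _ = 1 := by rw [hG2', Matrix.mul_one, hG1]
  set a := Gᴴ * Ig * G with ha
  set b := Gᴴ * Ik * G with hb
  set kh := Gi * k * Giᴴ with hkh
  have hapsd : a.PosSemidef := hg.conjTranspose_mul_mul_same G
  have hbpsd : b.PosSemidef := hk'.conjTranspose_mul_mul_same G
  have hab : a + b = dg m := by rw [← hGm, Matrix.mul_add, Matrix.add_mul]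
  have hmpos : ∀ i, 0 < m i := by
    have h := pd_congr (B := G) (Bi := Gi) (frame_Ipd φ) hG2
    rw [hGm] at h
    exact dg_pd_iff.1 h
  have hEL' : a * b + b * a + (2 : ℂ) • (a + b - kh) = 0 := by
    have h := congrArg (fun X => Gᴴ * X * G) hEL
    simp only [Matrix.mul_zero, Matrix.zero_mul] at h
    rw [← h]
    have e1 : Gᴴ * (Ig * T₀ * Ik) * G = a * b := by
      rw [ha, hb, hTG]; simp only [Matrix.mul_assoc]
    have e2 : Gᴴ * (Ik * T₀ * Ig) * G = b * a := by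
      rw [ha, hb, hTG]; simp only [Matrix.mul_assoc]
    have e3 : Gᴴ * (T₀⁻¹ * k * T₀⁻¹) * G = kh := by
      rw [hTinv, hkh]
      calc Gᴴ * (Giᴴ * Gi * k * (Giᴴ * Gi)) * G = (Gᴴ * Giᴴ) * (Gi * k * Giᴴ) * (Gi * G) := by
            simp only [Matrix.mul_assoc]
        _ = _ := by rw [hG2', hG2, Matrix.one_mul, Matrix.mul_one]
    have e4 : Gᴴ * (Ig + Ik) * G = a + b := by rw [Matrix.mul_add, Matrix.add_mul]
    rw [Matrix.mul_add, Matrix.mul_add, Matrix.add_mul, Matrix.add_mul, e1, e2, Matrix.mul_smul,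
      Matrix.smul_mul, Matrix.mul_sub, Matrix.sub_mul, e3, e4]
  -- `kh ≤ dg (1 / m)`
  have hkle : (dg (fun i => (m i)⁻¹) - kh).PosSemidef := by
    have hJ : Gi * φ.Q * dg (fun i => (φ.sg i)⁻¹) * (Gi * φ.Q)ᴴ = dg (fun i => (m i)⁻¹) := by
      have hQ2 : φ.Qᴴ * φ.Qiᴴ = 1 := by rw [← conjTranspose_mul, φ.inv_mul, conjTranspose_one]
      have hss : dg (fun i => (φ.sg i)⁻¹) * dg φ.sg = 1 := by
        rw [dg_mul, ← dg_one]
        exact congrArg dg (funext fun i => inv_mul_cancel₀ (φ.pos i).ne')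
      have hone : (Gi * φ.Q * dg (fun i => (φ.sg i)⁻¹) * (Gi * φ.Q)ᴴ) * dg m = 1 := by
        rw [← hGm, show Gᴴ * (Ig + Ik) * G = Gᴴ * (φ.Qiᴴ * dg φ.sg * φ.Qi) * G from
          congrArg (fun X => Gᴴ * X * G) (frame_I φ), conjTranspose_mul]
        calc Gi * φ.Q * dg (fun i => (φ.sg i)⁻¹) * (φ.Qᴴ * Giᴴ) *
              (Gᴴ * (φ.Qiᴴ * dg φ.sg * φ.Qi) * G)
            = Gi * φ.Q * dg (fun i => (φ.sg i)⁻¹) * (φ.Qᴴ * (Giᴴ * Gᴴ) * φ.Qiᴴ) * dg φ.sg *
                φ.Qi * G := by simp only [Matrix.mul_assoc]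
          _ = Gi * φ.Q * (dg (fun i => (φ.sg i)⁻¹) * dg φ.sg) * φ.Qi * G := by
              rw [hG1', Matrix.mul_one, hQ2, Matrix.mul_one]; simp only [Matrix.mul_assoc]
          _ = Gi * φ.Q * 1 * φ.Qi * G := by rw [hss]
          _ = Gi * (φ.Q * φ.Qi) * G := by rw [Matrix.mul_one]; simp only [Matrix.mul_assoc]
          _ = 1 := by rw [φ.mul_inv, Matrix.mul_one, hG2]
      have hmm : dg m * dg (fun i => (m i)⁻¹) = 1 := by
        rw [dg_mul, ← dg_one]
        exact congrArg dg (funext fun i => mul_inv_cancel₀ (hmpos i).ne')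
      calc _ = (Gi * φ.Q * dg (fun i => (φ.sg i)⁻¹) * (Gi * φ.Q)ᴴ) *
            (dg m * dg (fun i => (m i)⁻¹)) := by rw [hmm, Matrix.mul_one]
        _ = _ := by rw [← Matrix.mul_assoc, hone, Matrix.one_mul]
    have hkk : kh = Gi * φ.Q * dg φ.sg * (Gi * φ.Q)ᴴ := by
      rw [hkh, conjTranspose_mul]
      conv_lhs => rw [frame_k φ]
      simp only [Matrix.mul_assoc]
    rw [← hJ, hkk, ← Matrix.sub_mul, ← Matrix.mul_sub, dg_sub]
    refine (dg_psd fun i => ?_).mul_mul_conjTranspose_same _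
    have h1 := φ.pos i
    have h2 := hsg i
    have h3 : 1 ≤ (φ.sg i)⁻¹ := (one_le_inv₀ h1).2 h2
    linarith
  obtain ⟨hk1, hk2⟩ := key hapsd hbpsd hmpos hab hEL' hkle
  -- transport to the frame `Q`
  set T' := φ.Qi * T₀ * φ.Qiᴴ with hT'
  set B := φ.Qi * G with hB
  have hkB : B * kh * Bᴴ = dg φ.sg := by
    rw [hB, hkh, conjTranspose_mul]
    calc φ.Qi * G * (Gi * k * Giᴴ) * (Gᴴ * φ.Qiᴴ) = φ.Qi * (G * Gi) * k * (Giᴴ * Gᴴ) * φ.Qiᴴ := by
          simp only [Matrix.mul_assoc]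
      _ = φ.Qi * k * φ.Qiᴴ := by rw [hG1, hG1', Matrix.mul_one, Matrix.mul_one]
      _ = _ := φ.hk
  have hQ1 : φ.Qiᴴ * φ.Qᴴ = 1 := by rw [← conjTranspose_mul, φ.mul_inv, conjTranspose_one]
  have hQ2 : φ.Qᴴ * φ.Qiᴴ = 1 := by rw [← conjTranspose_mul, φ.inv_mul, conjTranspose_one]
  have hmB : B * dg m * Bᴴ = T' * dg φ.sg * T' := by
    rw [hB, ← hGm, conjTranspose_mul, hT', ← φ.hI]
    calc φ.Qi * G * (Gᴴ * (Ig + Ik) * G) * (Gᴴ * φ.Qiᴴ)
        = φ.Qi * (G * Gᴴ) * (Ig + Ik) * (G * Gᴴ) * φ.Qiᴴ := by simp only [Matrix.mul_assoc]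
      _ = φ.Qi * T₀ * (Ig + Ik) * T₀ * φ.Qiᴴ := by rw [← hTG]
      _ = φ.Qi * T₀ * (φ.Qiᴴ * φ.Qᴴ) * (Ig + Ik) * (φ.Q * φ.Qi) * T₀ * φ.Qiᴴ := by
          rw [hQ1, φ.mul_inv, Matrix.mul_one, Matrix.mul_one]
      _ = _ := by simp only [Matrix.mul_assoc]
  have hP1 : (dg φ.sg - ((1 / 2 : ℝ) : ℂ) • (T' * dg φ.sg * T')).PosSemidef := by
    have h := hk1.mul_mul_conjTranspose_same B
    rwa [Matrix.mul_sub, Matrix.sub_mul, hkB, Matrix.mul_smul, Matrix.smul_mul, hmB] at h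
  have hP2 : (((3 / 2 : ℝ) : ℂ) • (T' * dg φ.sg * T') - dg φ.sg).PosSemidef := by
    have h := hk2.mul_mul_conjTranspose_same B
    rwa [Matrix.mul_sub, Matrix.sub_mul, hkB, Matrix.mul_smul, Matrix.smul_mul, hmB] at h
  have hT'pd : T'.PosDef := pd_congr' hT φ.inv_mul
  obtain ⟨Z, l, hZ1, hZ2, hZl⟩ := eig hT'pd.1
  have hlpos := eig_pos hZ1 hZl hT'pd
  set S' := Zᴴ * dg φ.sg * Z with hS'
  have hS'pd : S'.PosDef := pd_congr (dg_pd φ.pos) hZ1
  have hS'pos : ∀ i, 0 < (S' i i).re := by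
    intro i
    have hn : Nonempty (Fin n) := ⟨i⟩
    have := hS'pd.diag_pos (i := i)
    exact (Complex.lt_def.1 this).1
  have hTS : Zᴴ * (T' * dg φ.sg * T') * Z = dg l * S' * dg l := by
    rw [hS', ← eig_back hZ1 hZl]
    calc Zᴴ * (T' * dg φ.sg * T') * Z = Zᴴ * T' * 1 * dg φ.sg * 1 * T' * Z := by
          simp only [Matrix.mul_assoc, Matrix.mul_one]
      _ = _ := by rw [← hZ2]; simp only [Matrix.mul_assoc]
  have hentry : ∀ i, ((dg l * S' * dg l) i i).re = l i ^ 2 * (S' i i).re := by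
    intro i
    unfold dg
    rw [mul_diagonal, diagonal_mul]
    simp only [Complex.mul_re, Complex.ofReal_re, Complex.ofReal_im]
    ring
  have hl2 : ∀ i, l i ^ 2 ≤ 2 := by
    intro i
    have h := diag_re_nonneg (hP1.conjTranspose_mul_mul_same Z) i
    rw [Matrix.mul_sub, Matrix.sub_mul, Matrix.mul_smul, Matrix.smul_mul, hTS, ← hS',
      Matrix.sub_apply, Matrix.smul_apply, Complex.sub_re, smul_eq_mul, Complex.re_ofReal_mul,
      hentry] at h
    nlinarith [hS'pos i]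
  have hl3 : ∀ i, 2 / 3 ≤ l i ^ 2 := by
    intro i
    have h := diag_re_nonneg (hP2.conjTranspose_mul_mul_same Z) i
    rw [Matrix.mul_sub, Matrix.sub_mul, Matrix.mul_smul, Matrix.smul_mul, hTS, ← hS',
      Matrix.sub_apply, Matrix.smul_apply, Complex.sub_re, smul_eq_mul, Complex.re_ofReal_mul,
      hentry] at h
    nlinarith [hS'pos i]
  have hll : ∀ i j, 2 / 3 ≤ l i * l j ∧ l i * l j ≤ 2 := by
    intro i j
    have h0 : 0 < l i * l j := mul_pos (hlpos i) (hlpos j)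
    constructor
    · have : (2 / 3) ^ 2 ≤ (l i * l j) ^ 2 := by
        rw [mul_pow]
        nlinarith [hl3 i, hl3 j]
      nlinarith
    · have : (l i * l j) ^ 2 ≤ 2 ^ 2 := by
        rw [mul_pow]
        nlinarith [hl2 i, hl2 j, sq_nonneg (l i), sq_nonneg (l j)]
      nlinarith
  -- the final comparison
  have hY'h : (φ.Qᴴ * Y * φ.Q)ᴴ = φ.Qᴴ * Y * φ.Q := (isHermitian_conjTranspose_mul_mul φ.Q hY).eq
  have hTQ : T₀ = φ.Q * T' * φ.Qᴴ := by
    rw [hT']
    calc T₀ = (φ.Q * φ.Qi) * T₀ * (φ.Qiᴴ * φ.Qᴴ) := by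
          rw [φ.mul_inv, hQ1, Matrix.one_mul, Matrix.mul_one]
      _ = _ := by simp only [Matrix.mul_assoc]
  have e1 : rtr (T₀ * Y * T₀ * Y) = rtr (T' * (φ.Qᴴ * Y * φ.Q) * T' * (φ.Qᴴ * Y * φ.Q)) := by
    rw [hTQ, show φ.Q * T' * φ.Qᴴ * Y * (φ.Q * T' * φ.Qᴴ) * Y =
      φ.Q * (T' * φ.Qᴴ * Y * φ.Q * T' * φ.Qᴴ * Y) by simp only [Matrix.mul_assoc], rtr_comm]
    refine congrArg rtr ?_
    simp only [Matrix.mul_assoc]
  rw [e1]
  exact cmp_T hZ2 hZl hY'h hll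

end Pool.LG
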