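import Pool.Agent.Work.LipGraph.A2

open Matrix
open scoped ComplexOrder

namespace Pool.LG

variable {n : ℕ}

theorem Frame.Fi_eq {F Fi I k : Mat n} (h : Inv4 F Fi I k) (φ : Frame I k) :
    Fi = φ.Q * (φ.Qᴴ * F * φ.Q)ᴴ * φ.Qᴴ := by
  obtain ⟨h1, h2, -⟩ := A2 n F Fi I k h φ
  set G : Mat n := φ.Qᴴ * F * φ.Q with hG
  have hF : F = φ.Qiᴴ * G * φ.Qi := by
    rw [hG]
    have e : φ.Qiᴴ * (φ.Qᴴ * F * φ.Q) * φ.Qi = (φ.Qiᴴ * φ.Qᴴ) * F * (φ.Q * φ.Qi) := by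
      noncomm_ring
    rw [e, φ.QH_mul, φ.mul_inv, Matrix.mul_one, Matrix.one_mul]
  have h3 : F * (φ.Q * Gᴴ * φ.Qᴴ) = 1 := by
    conv_lhs => rw [hF]
    have e : φ.Qiᴴ * G * φ.Qi * (φ.Q * Gᴴ * φ.Qᴴ) = φ.Qiᴴ * (G * (φ.Qi * φ.Q) * Gᴴ) * φ.Qᴴ := by
      noncomm_ring
    rw [e, φ.inv_mul, Matrix.mul_one, h2, Matrix.mul_one, φ.QH_mul]
  calc Fi = Fi * (F * (φ.Q * Gᴴ * φ.Qᴴ)) := by rw [h3, Matrix.mul_one]
    _ = (Fi * F) * (φ.Q * Gᴴ * φ.Qᴴ) := by rw [Matrix.mul_assoc Fi F]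
    _ = φ.Q * Gᴴ * φ.Qᴴ := by rw [h.inv_mul, Matrix.one_mul]

theorem A9 : Stmt_A9 := by
  intro n F Fi I k Ig dF dG h φ hIg hIg'
  obtain ⟨h1, h2, -⟩ := A2 n F Fi I k h φ
  have hFi := φ.Fi_eq h
  set G : Mat n := φ.Qᴴ * F * φ.Q with hG
  set J : Mat n := φ.Qᴴ * Ig * φ.Q with hJ
  have hJp : J.PosSemidef := psd_conj' hIg φ.Q
  have hJS : (dg φ.sg - J).PosSemidef := by
    have h3 := psd_conj' hIg' φ.Q
    rwa [Matrix.mul_sub, Matrix.sub_mul, φ.hI] at h3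
  have hGH1 : Gᴴᴴ * Gᴴ = 1 := by rw [conjTranspose_conjTranspose]; exact h2
  have hGH2 : Gᴴ * Gᴴᴴ = 1 := by rw [conjTranspose_conjTranspose]; exact h1
  have t0 : ∀ M : Mat n, trace (φ.Q * Gᴴ * φ.Qᴴ * M) = trace (Gᴴ * (φ.Qᴴ * M * φ.Q)) := by
    intro M
    have e : φ.Q * Gᴴ * φ.Qᴴ * M = φ.Q * (Gᴴ * φ.Qᴴ * M) := by noncomm_ring
    rw [e, trace_mul_comm]
    congr 1
    noncomm_ring
  have t1 : ∀ M M' : Mat n, trace (φ.Q * Gᴴ * φ.Qᴴ * M * (φ.Q * Gᴴ * φ.Qᴴ) * M') =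
      trace (Gᴴ * (φ.Qᴴ * M * φ.Q) * Gᴴ * (φ.Qᴴ * M' * φ.Q)) := by
    intro M M'
    have e : φ.Q * Gᴴ * φ.Qᴴ * M * (φ.Q * Gᴴ * φ.Qᴴ) * M' =
      φ.Q * (Gᴴ * φ.Qᴴ * M * (φ.Q * Gᴴ * φ.Qᴴ) * M') := by noncomm_ring
    rw [e, trace_mul_comm]
    congr 1
    noncomm_ring
  refine ⟨?_, ?_, ?_, ?_⟩
  · have e1 : rtr (Fi * Ig) = rtr (Gᴴ * J) := by
      unfold rtr
      rw [hFi, t0]
    obtain ⟨B, hB, hBB⟩ := psd_sqrt hJp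
    have e2 : rtr (Gᴴ * J) = rtr ((B * Gᴴ) * B) := by
      rw [hBB, Matrix.mul_assoc B, ← Matrix.mul_assoc, rtr_comm]
    have h3 := abs_rtr_mul_le (B * Gᴴ) B
    rw [hs_unit_right hGH2, Real.mul_self_sqrt (hs_nonneg B), hs_herm hB.1, ← hBB] at h3
    rw [e1, e2]
    refine h3.trans ?_
    have h4 := psd_rtr hJS
    rw [rtr_sub, rtr_dg] at h4
    linarith
  · rw [hFi, t1]
    refine (norm_trace_mul_le _ _).trans (le_of_eq ?_)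
    rw [hs_unit_right hGH2, hs_unit_left hGH1]
    have e : φ.Qᴴ * dGᴴ * φ.Q = (φ.Qᴴ * dG * φ.Q)ᴴ := by
      rw [conjTranspose_mul, conjTranspose_mul, conjTranspose_conjTranspose, Matrix.mul_assoc]
    rw [e, hs_H]
  · have e1 : trace (k * dG) = trace (dg φ.sg * (φ.Qᴴ * dG * φ.Q)) := by
      calc trace (k * dG) = trace (φ.Q * dg φ.sg * φ.Qᴴ * dG) := by rw [← φ.k_eq]
        _ = trace (φ.Q * (dg φ.sg * φ.Qᴴ * dG)) := by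
            congr 1
            noncomm_ring
        _ = _ := by
            rw [trace_mul_comm]
            congr 1
            noncomm_ring
    rw [e1, ← hs_dg]
    exact norm_trace_mul_le _ _
  · rw [hFi, t1]
    refine (norm_trace_mul_le _ _).trans ?_
    rw [hs_unit_right hGH2, hs_unit_left hGH1, mul_comm, ← hs_dg]
    exact mul_le_mul_of_nonneg_right (Real.sqrt_le_sqrt (hs_mono hJp hJS)) (Real.sqrt_nonneg _)

end Pool.LG
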