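import Pool.Agent.Work.LipGraph.Interface

/-!
# LipGraph: basic facts on real diagonal matrices, traces, Hilbert-Schmidt norm, positivity
-/

open Matrix
open scoped ComplexOrder

namespace Pool.LG

variable {n : ℕ}

theorem dg_mul (a b : Fin n → ℝ) : dg a * dg b = dg (fun i => a i * b i) := by
  unfold dg
  rw [diagonal_mul_diagonal]
  congr 1
  funext i
  push_cast
  rfl

theorem dg_add (a b : Fin n → ℝ) : dg a + dg b = dg (fun i => a i + b i) := by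
  unfold dg
  rw [diagonal_add]
  congr 1
  funext i
  push_cast
  rfl

theorem dg_sub (a b : Fin n → ℝ) : dg a - dg b = dg (fun i => a i - b i) := by
  unfold dg
  rw [diagonal_sub]
  congr 1
  funext i
  push_cast
  rfl

theorem dg_one : dg (fun _ : Fin n => (1 : ℝ)) = 1 := by
  unfold dg
  rw [← diagonal_one]
  congr 1

theorem dg_zero : dg (fun _ : Fin n => (0 : ℝ)) = 0 := by
  unfold dg
  rw [← diagonal_zero]
  congr 1

theorem dg_H (a : Fin n → ℝ) : (dg a)ᴴ = dg a := by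
  unfold dg
  rw [diagonal_conjTranspose]
  congr 1
  funext i
  simp

theorem dg_herm (a : Fin n → ℝ) : (dg a).IsHermitian := dg_H a

theorem dg_smul (c : ℝ) (a : Fin n → ℝ) : (c : ℂ) • dg a = dg (fun i => c * a i) := by
  unfold dg
  rw [← diagonal_smul]
  congr 1
  funext i
  simp

theorem dg_apply_self (a : Fin n → ℝ) (i : Fin n) : dg a i i = (a i : ℂ) := by
  unfold dg; rw [diagonal_apply_eq]

theorem dg_posSemidef {a : Fin n → ℝ} (h : ∀ i, 0 ≤ a i) : (dg a).PosSemidef := by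
  unfold dg
  refine PosSemidef.diagonal ?_
  intro i
  exact Complex.zero_le_real.2 (h i)

theorem dg_posDef {a : Fin n → ℝ} (h : ∀ i, 0 < a i) : (dg a).PosDef := by
  unfold dg
  refine PosDef.diagonal ?_
  intro i
  exact Complex.zero_lt_real.2 (h i)

theorem rtr_add (A B : Mat n) : rtr (A + B) = rtr A + rtr B := by
  unfold rtr; rw [trace_add, Complex.add_re]

theorem rtr_sub (A B : Mat n) : rtr (A - B) = rtr A - rtr B := by
  unfold rtr; rw [trace_sub, Complex.sub_re]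

theorem rtr_neg (A : Mat n) : rtr (-A) = -rtr A := by
  unfold rtr; rw [trace_neg, Complex.neg_re]

theorem rtr_zero : rtr (0 : Mat n) = 0 := by
  unfold rtr; rw [trace_zero, Complex.zero_re]

theorem rtr_smul (c : ℝ) (A : Mat n) : rtr ((c : ℂ) • A) = c * rtr A := by
  unfold rtr; rw [trace_smul, smul_eq_mul, Complex.re_ofReal_mul]

theorem rtr_sum {ι : Type*} (s : Finset ι) (A : ι → Mat n) :
    rtr (∑ i ∈ s, A i) = ∑ i ∈ s, rtr (A i) := by
  unfold rtr; rw [trace_sum, Complex.re_sum]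

theorem rtr_comm (A B : Mat n) : rtr (A * B) = rtr (B * A) := by
  unfold rtr; rw [trace_mul_comm]

theorem rtr_H (A : Mat n) : rtr Aᴴ = rtr A := by
  unfold rtr
  rw [trace_conjTranspose]
  simp

theorem rtr_dg (a : Fin n → ℝ) : rtr (dg a) = ∑ i, a i := by
  unfold rtr dg
  rw [trace_diagonal, Complex.re_sum]
  simp

theorem rtr_mul_dg (A : Mat n) (a : Fin n → ℝ) : rtr (A * dg a) = ∑ i, (A i i).re * a i := by
  unfold rtr dg
  rw [trace]
  simp only [diag_apply, mul_diagonal]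
  rw [Complex.re_sum]
  refine Finset.sum_congr rfl fun i _ => ?_
  rw [Complex.mul_re]
  simp

theorem hs_nonneg (A : Mat n) : 0 ≤ hs A :=
  Finset.sum_nonneg fun _ _ => Finset.sum_nonneg fun _ _ => by positivity

theorem hs_eq (A : Mat n) : hs A = rtr (A * Aᴴ) := by
  unfold hs rtr
  rw [trace]
  simp only [diag_apply, mul_apply, conjTranspose_apply]
  rw [Complex.re_sum]
  refine Finset.sum_congr rfl fun i _ => ?_
  rw [Complex.re_sum]
  refine Finset.sum_congr rfl fun j _ => ?_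
  have : A i j * star (A i j) = ((‖A i j‖ ^ 2 : ℝ) : ℂ) := by
    rw [Complex.star_def, Complex.mul_conj, Complex.normSq_eq_norm_sq]
  rw [this, Complex.ofReal_re]

theorem hs_eq' (A : Mat n) : hs A = rtr (Aᴴ * A) := by rw [hs_eq, rtr_comm]

theorem hs_herm {A : Mat n} (h : A.IsHermitian) : hs A = rtr (A * A) := by
  rw [hs_eq, h.eq]

theorem hs_H (A : Mat n) : hs Aᴴ = hs A := by
  rw [hs_eq, conjTranspose_conjTranspose, ← hs_eq']

theorem hs_neg (A : Mat n) : hs (-A) = hs A := by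
  unfold hs; simp

theorem hs_sub_comm (A B : Mat n) : hs (A - B) = hs (B - A) := by
  rw [← hs_neg, neg_sub]

theorem hs_zero : hs (0 : Mat n) = 0 := by unfold hs; simp

theorem hs_dg (a : Fin n → ℝ) : hs (dg a) = ∑ i, a i ^ 2 := by
  rw [hs_herm (dg_herm a), dg_mul, rtr_dg]
  refine Finset.sum_congr rfl fun i _ => by ring

theorem hs_unit_left {U : Mat n} (hU : Uᴴ * U = 1) (A : Mat n) : hs (U * A) = hs A := by
  rw [hs_eq', hs_eq', conjTranspose_mul]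
  have : Aᴴ * Uᴴ * (U * A) = Aᴴ * (Uᴴ * U) * A := by noncomm_ring
  rw [this, hU, Matrix.mul_one]

theorem hs_unit_right {U : Mat n} (hU : U * Uᴴ = 1) (A : Mat n) : hs (A * U) = hs A := by
  rw [hs_eq, hs_eq, conjTranspose_mul]
  have : A * U * (Uᴴ * Aᴴ) = A * (U * Uᴴ) * Aᴴ := by noncomm_ring
  rw [this, hU, Matrix.mul_one]

/-- Cauchy-Schwarz -/
theorem norm_trace_mul_le (A B : Mat n) : ‖trace (A * B)‖ ≤ √(hs A) * √(hs B) := by
  have h1 : ‖trace (A * B)‖ ≤ ∑ p : Fin n × Fin n, ‖A p.1 p.2‖ * ‖B p.2 p.1‖ := by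
    rw [trace]
    simp only [diag_apply, mul_apply]
    rw [← Finset.sum_product', Finset.univ_product_univ]
    refine (norm_sum_le _ _).trans (le_of_eq ?_)
    exact Finset.sum_congr rfl fun p _ => norm_mul _ _
  have h2 := Real.sum_mul_le_sqrt_mul_sqrt (Finset.univ : Finset (Fin n × Fin n))
    (fun p => ‖A p.1 p.2‖) (fun p => ‖B p.2 p.1‖)
  have h3 : ∑ p : Fin n × Fin n, ‖A p.1 p.2‖ ^ 2 = hs A := by
    unfold hs
    rw [← Finset.univ_product_univ, Finset.sum_product]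
  have h4 : ∑ p : Fin n × Fin n, ‖B p.2 p.1‖ ^ 2 = hs B := by
    unfold hs
    rw [← Finset.univ_product_univ, Finset.sum_product_right]
  rw [h3, h4] at h2
  exact h1.trans h2

theorem abs_rtr_mul_le (A B : Mat n) : |rtr (A * B)| ≤ √(hs A) * √(hs B) :=
  (Complex.abs_re_le_norm _).trans (norm_trace_mul_le A B)

theorem rtr_mul_le_half (A B : Mat n) : rtr (A * B) ≤ 1 / 2 * hs A + 1 / 2 * hs B := by
  have h1 := (le_abs_self _).trans (abs_rtr_mul_le A B)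
  have h2 : √(hs A) * √(hs B) ≤ 1 / 2 * hs A + 1 / 2 * hs B := by
    nlinarith [sq_nonneg (√(hs A) - √(hs B)), Real.sq_sqrt (hs_nonneg A),
      Real.sq_sqrt (hs_nonneg B)]
  exact h1.trans h2

/-- spectral theorem in matrix form -/
theorem exists_diag {A : Mat n} (hA : A.IsHermitian) :
    ∃ (U : Mat n) (d : Fin n → ℝ), U * Uᴴ = 1 ∧ Uᴴ * U = 1 ∧ A = U * dg d * Uᴴ := by
  refine ⟨(hA.eigenvectorUnitary : Mat n), hA.eigenvalues, ?_, ?_, ?_⟩
  · exact Unitary.mul_star_self_of_mem hA.eigenvectorUnitary.2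
  · exact Unitary.star_mul_self_of_mem hA.eigenvectorUnitary.2
  · conv_lhs => rw [hA.spectral_theorem]
    rfl

theorem exists_diag_pos {A : Mat n} (hA : A.PosDef) :
    ∃ (U : Mat n) (d : Fin n → ℝ), U * Uᴴ = 1 ∧ Uᴴ * U = 1 ∧ (∀ i, 0 < d i) ∧
      A = U * dg d * Uᴴ := by
  refine ⟨(hA.1.eigenvectorUnitary : Mat n), hA.1.eigenvalues, ?_, ?_, hA.eigenvalues_pos, ?_⟩
  · exact Unitary.mul_star_self_of_mem hA.1.eigenvectorUnitary.2
  · exact Unitary.star_mul_self_of_mem hA.1.eigenvectorUnitary.2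
  · conv_lhs => rw [hA.1.spectral_theorem]
    rfl

theorem exists_diag_nonneg {A : Mat n} (hA : A.PosSemidef) :
    ∃ (U : Mat n) (d : Fin n → ℝ), U * Uᴴ = 1 ∧ Uᴴ * U = 1 ∧ (∀ i, 0 ≤ d i) ∧
      A = U * dg d * Uᴴ := by
  refine ⟨(hA.1.eigenvectorUnitary : Mat n), hA.1.eigenvalues, ?_, ?_, hA.eigenvalues_nonneg, ?_⟩
  · exact Unitary.mul_star_self_of_mem hA.1.eigenvectorUnitary.2
  · exact Unitary.star_mul_self_of_mem hA.1.eigenvectorUnitary.2
  · conv_lhs => rw [hA.1.spectral_theorem]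
    rfl

theorem psd_conj {A : Mat n} (hA : A.PosSemidef) (B : Mat n) : (B * A * Bᴴ).PosSemidef :=
  hA.mul_mul_conjTranspose_same B

theorem psd_conj' {A : Mat n} (hA : A.PosSemidef) (B : Mat n) : (Bᴴ * A * B).PosSemidef :=
  hA.conjTranspose_mul_mul_same B

theorem psd_rtr {A : Mat n} (hA : A.PosSemidef) : 0 ≤ rtr A := by
  have := hA.trace_nonneg
  exact (Complex.le_def.1 this).1

theorem psd_sqrt {A : Mat n} (hA : A.PosSemidef) :
    ∃ B : Mat n, B.PosSemidef ∧ A = B * B := by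
  obtain ⟨U, d, h1, h2, h3, h4⟩ := exists_diag_nonneg hA
  refine ⟨U * dg (fun i => √(d i)) * Uᴴ, psd_conj (dg_posSemidef fun i => Real.sqrt_nonneg _) U, ?_⟩
  have : U * dg (fun i => √(d i)) * Uᴴ * (U * dg (fun i => √(d i)) * Uᴴ) =
      U * (dg (fun i => √(d i)) * (Uᴴ * U) * dg (fun i => √(d i))) * Uᴴ := by noncomm_ring
  rw [this, h2, Matrix.mul_one, dg_mul, h4]
  congr 3
  funext i
  exact (Real.mul_self_sqrt (h3 i)).symm

theorem psd_rtr_mul {A B : Mat n} (hA : A.PosSemidef) (hB : B.PosSemidef) :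
    0 ≤ rtr (A * B) := by
  obtain ⟨C, hC, rfl⟩ := psd_sqrt hA
  have h1 : rtr (C * C * B) = rtr (C * B * Cᴴ) := by
    rw [hC.1.eq, Matrix.mul_assoc, rtr_comm]
  rw [h1]
  exact psd_rtr (psd_conj hB C)

/-- `tr (A B) ≤ tr (A' B)` for `A ≤ A'`, `B ≥ 0` -/
theorem rtr_mul_mono {A A' B : Mat n} (h : (A' - A).PosSemidef) (hB : B.PosSemidef) :
    rtr (A * B) ≤ rtr (A' * B) := by
  have := psd_rtr_mul h hB
  rw [Matrix.sub_mul, rtr_sub] at this
  linarith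

theorem rtr_mul_mono' {A A' B : Mat n} (h : (A' - A).PosSemidef) (hB : B.PosSemidef) :
    rtr (B * A) ≤ rtr (B * A') := by
  rw [rtr_comm B A, rtr_comm B A']
  exact rtr_mul_mono h hB

theorem psd_trans {A B C : Mat n} (h1 : (B - A).PosSemidef) (h2 : (C - B).PosSemidef) :
    (C - A).PosSemidef := by
  have := h1.add h2
  convert this using 1
  abel

/-- `tr (T Y T Y)` is monotone in `T` for Hermitian `Y`. -/
theorem rtr_quad_mono {T T' Y : Mat n} (hT : T.PosSemidef) (hT' : T'.PosSemidef)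
    (h : (T' - T).PosSemidef) (hY : Y.IsHermitian) :
    rtr (T * Y * T * Y) ≤ rtr (T' * Y * T' * Y) := by
  have h1 : rtr (T * Y * T * Y) ≤ rtr (T' * Y * T * Y) := by
    have e1 : T * Y * T * Y = T * (Y * T * Yᴴ) := by rw [hY.eq]; noncomm_ring
    have e2 : T' * Y * T * Y = T' * (Y * T * Yᴴ) := by rw [hY.eq]; noncomm_ring
    rw [e1, e2]
    exact rtr_mul_mono h (psd_conj hT Y)
  have h2 : rtr (T' * Y * T * Y) ≤ rtr (T' * Y * T' * Y) := by
    have e1 : rtr (T' * Y * T * Y) = rtr (T * (Y * T' * Yᴴ)) := by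
      rw [hY.eq, rtr_comm (T' * Y * T) Y, ← Matrix.mul_assoc, ← Matrix.mul_assoc, rtr_comm]
    have e2 : rtr (T' * Y * T' * Y) = rtr (T' * (Y * T' * Yᴴ)) := by
      rw [hY.eq]
      congr 1
      noncomm_ring
    rw [e1, e2]
    exact rtr_mul_mono h (psd_conj hT' Y)
  exact h1.trans h2

/-- `‖A‖₂² ≤ ‖B‖₂²` for `0 ≤ A ≤ B` -/
theorem hs_mono {A B : Mat n} (hA : A.PosSemidef) (h : (B - A).PosSemidef) : hs A ≤ hs B := by
  have hB : B.PosSemidef := by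
    have := hA.add h
    convert this using 1
    abel
  rw [hs_herm hA.1, hs_herm hB.1]
  exact (rtr_mul_mono h hA).trans (rtr_mul_mono' h hB)

namespace Frame

variable {I k : Mat n} (φ : Frame I k)

theorem QH_mul : φ.Qiᴴ * φ.Qᴴ = 1 := by
  rw [← conjTranspose_mul, φ.mul_inv, conjTranspose_one]

theorem QH_mul' : φ.Qᴴ * φ.Qiᴴ = 1 := by
  rw [← conjTranspose_mul, φ.inv_mul, conjTranspose_one]

theorem I_eq : I = φ.Qiᴴ * dg φ.sg * φ.Qi := by
  rw [← φ.hI]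
  have : φ.Qiᴴ * (φ.Qᴴ * I * φ.Q) * φ.Qi = (φ.Qiᴴ * φ.Qᴴ) * I * (φ.Q * φ.Qi) := by noncomm_ring
  rw [this, φ.QH_mul, φ.mul_inv, Matrix.mul_one, Matrix.one_mul]

theorem k_eq : k = φ.Q * dg φ.sg * φ.Qᴴ := by
  rw [← φ.hk]
  have : φ.Q * (φ.Qi * k * φ.Qiᴴ) * φ.Qᴴ = (φ.Q * φ.Qi) * k * (φ.Qiᴴ * φ.Qᴴ) := by noncomm_ring
  rw [this, φ.QH_mul, φ.mul_inv, Matrix.mul_one, Matrix.one_mul]

theorem isUnit : IsUnit φ.Q := ⟨⟨φ.Q, φ.Qi, φ.mul_inv, φ.inv_mul⟩, rfl⟩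

theorem inv_Q : φ.Q⁻¹ = φ.Qi := Matrix.inv_eq_right_inv φ.mul_inv

theorem sg_psd : (dg φ.sg).PosSemidef := dg_posSemidef fun i => (φ.pos i).le

/-- `N = Q Qᴴ` -/
noncomputable def N : Mat n := φ.Q * φ.Qᴴ

theorem N_inv : φ.N⁻¹ = φ.Qiᴴ * φ.Qi := by
  refine Matrix.inv_eq_right_inv ?_
  unfold N
  have : φ.Q * φ.Qᴴ * (φ.Qiᴴ * φ.Qi) = φ.Q * (φ.Qᴴ * φ.Qiᴴ) * φ.Qi := by noncomm_ring
  rw [this, φ.QH_mul', Matrix.mul_one, φ.mul_inv]

theorem N_posDef : φ.N.PosDef := by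
  have h := PosDef.one (n := Fin n) (R := ℂ)
  have h2 := (Matrix.IsUnit.posDef_star_right_conjugate_iff (x := (1 : Mat n)) φ.isUnit).2 h
  rw [Matrix.mul_one] at h2
  exact h2

/-- `‖Qᴴ Y Q‖₂² = tr (N Y N Y)` -/
theorem hs_conj {Y : Mat n} (hY : Y.IsHermitian) :
    hs (φ.Qᴴ * Y * φ.Q) = rtr (φ.N * Y * φ.N * Y) := by
  have h1 : (φ.Qᴴ * Y * φ.Q).IsHermitian := isHermitian_conjTranspose_mul_mul φ.Q hY
  rw [hs_herm h1]
  unfold N
  have e1 : φ.Qᴴ * Y * φ.Q * (φ.Qᴴ * Y * φ.Q) = φ.Qᴴ * (Y * φ.Q * φ.Qᴴ * Y * φ.Q) := by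
    noncomm_ring
  rw [e1, rtr_comm]
  have e2 : Y * φ.Q * φ.Qᴴ * Y * φ.Q * φ.Qᴴ = Y * (φ.Q * φ.Qᴴ * Y * (φ.Q * φ.Qᴴ)) := by
    noncomm_ring
  rw [e2, rtr_comm]

end Frame

end Pool.LG
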