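import Pool.Agent.Work.LipGraph.Basic

/-!
# Block D1: algebra of the data
-/

open Matrix
open scoped ComplexOrder

namespace Pool.LG

theorem P_pos (t : ℝ) {z : ℂ} (hz : 0 < z.im) : 0 < P t z := by
  unfold P
  have : 0 < (t - z.re) ^ 2 + z.im ^ 2 := by positivity
  positivity

theorem sub_ne (t : ℝ) {z : ℂ} (hz : 0 < z.im) : (t : ℂ) - z ≠ 0 := by
  intro h
  have := congrArg Complex.im h
  simp at this
  linarith

theorem inv_im (t : ℝ) (z : ℂ) : (((t : ℂ) - z)⁻¹).im = P t z := by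
  rw [Complex.inv_im, Complex.normSq_apply]
  unfold P
  simp only [Complex.sub_re, Complex.ofReal_re, Complex.sub_im, Complex.ofReal_im]
  congr 1
  · ring
  · ring

theorem inv_sub_conj (t : ℝ) (z : ℂ) :
    ((t : ℂ) - z)⁻¹ - star (((t : ℂ) - z)⁻¹) = 2 * Complex.I * (P t z : ℂ) := by
  rw [← inv_im, Complex.star_def, Complex.sub_conj]
  push_cast
  ring

namespace Dat

variable {n : ℕ} (D : Dat n)

theorem V_Vi : D.V * D.Vi = 1 := by
  unfold V Vi
  have e : D.W * dg D.lam * D.Wᴴ * (D.W * dg (fun i => (D.lam i)⁻¹) * D.Wᴴ) =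
      D.W * (dg D.lam * (D.Wᴴ * D.W) * dg (fun i => (D.lam i)⁻¹)) * D.Wᴴ := by noncomm_ring
  rw [e, D.hW', Matrix.mul_one, dg_mul]
  have : (fun i => D.lam i * (D.lam i)⁻¹) = fun _ => (1 : ℝ) := by
    funext i; exact mul_inv_cancel₀ (D.hlam i)
  rw [this, dg_one, Matrix.mul_one, D.hW]

theorem Vi_V : D.Vi * D.V = 1 := by
  unfold V Vi
  have e : D.W * dg (fun i => (D.lam i)⁻¹) * D.Wᴴ * (D.W * dg D.lam * D.Wᴴ) =
      D.W * (dg (fun i => (D.lam i)⁻¹) * (D.Wᴴ * D.W) * dg D.lam) * D.Wᴴ := by noncomm_ring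
  rw [e, D.hW', Matrix.mul_one, dg_mul]
  have : (fun i => (D.lam i)⁻¹ * D.lam i) = fun _ => (1 : ℝ) := by
    funext i; exact inv_mul_cancel₀ (D.hlam i)
  rw [this, dg_one, Matrix.mul_one, D.hW]

theorem V_H : D.Vᴴ = D.V := by
  unfold V
  rw [conjTranspose_mul, conjTranspose_mul, conjTranspose_conjTranspose, dg_H, Matrix.mul_assoc]

theorem Vi_H : D.Viᴴ = D.Vi := by
  unfold Vi
  rw [conjTranspose_mul, conjTranspose_mul, conjTranspose_conjTranspose, dg_H, Matrix.mul_assoc]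

theorem R_right {z : ℂ} (hz : 0 < z.im) : (dg D.x - z • 1) * D.R z = 1 := by
  unfold R dg
  rw [smul_one_eq_diagonal, diagonal_sub, diagonal_mul_diagonal, ← diagonal_one]
  congr 1
  funext i
  exact mul_inv_cancel₀ (sub_ne _ hz)

theorem R_left {z : ℂ} (hz : 0 < z.im) : D.R z * (dg D.x - z • 1) = 1 := by
  unfold R dg
  rw [smul_one_eq_diagonal, diagonal_sub, diagonal_mul_diagonal, ← diagonal_one]
  congr 1
  funext i
  exact inv_mul_cancel₀ (sub_ne _ hz)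

theorem XV (z : ℂ) : dg D.x - z • 1 + D.V = D.U * (dg D.x' - z • 1) * D.Uᴴ := by
  have h := D.hV
  have e : D.U * (dg D.x' - z • 1) * D.Uᴴ = D.U * dg D.x' * D.Uᴴ - z • (D.U * D.Uᴴ) := by
    rw [Matrix.mul_sub, Matrix.sub_mul, Matrix.mul_smul, Matrix.smul_mul, Matrix.mul_one]
  rw [e, D.hU, ← h]
  unfold V
  abel

theorem R'_right {z : ℂ} (hz : 0 < z.im) : (dg D.x - z • 1 + D.V) * D.R' z = 1 := by
  rw [XV]
  unfold R'
  have e : D.U * (dg D.x' - z • 1) * D.Uᴴ *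
      (D.U * diagonal (fun i => ((D.x' i : ℂ) - z)⁻¹) * D.Uᴴ) =
      D.U * ((dg D.x' - z • 1) * (D.Uᴴ * D.U) * diagonal (fun i => ((D.x' i : ℂ) - z)⁻¹)) *
        D.Uᴴ := by noncomm_ring
  rw [e, D.hU', Matrix.mul_one]
  have : (dg D.x' - z • 1) * diagonal (fun i => ((D.x' i : ℂ) - z)⁻¹) = (1 : Mat n) := by
    unfold dg
    rw [smul_one_eq_diagonal, diagonal_sub, diagonal_mul_diagonal, ← diagonal_one]
    congr 1
    funext i
    exact mul_inv_cancel₀ (sub_ne _ hz)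
  rw [this, Matrix.mul_one, D.hU]

theorem R'_left {z : ℂ} (hz : 0 < z.im) : D.R' z * (dg D.x - z • 1 + D.V) = 1 := by
  rw [XV]
  unfold R'
  have e : D.U * diagonal (fun i => ((D.x' i : ℂ) - z)⁻¹) * D.Uᴴ *
      (D.U * (dg D.x' - z • 1) * D.Uᴴ) =
      D.U * (diagonal (fun i => ((D.x' i : ℂ) - z)⁻¹) * (D.Uᴴ * D.U) * (dg D.x' - z • 1)) *
        D.Uᴴ := by noncomm_ring
  rw [e, D.hU', Matrix.mul_one]
  have : diagonal (fun i => ((D.x' i : ℂ) - z)⁻¹) * (dg D.x' - z • 1) = (1 : Mat n) := by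
    unfold dg
    rw [smul_one_eq_diagonal, diagonal_sub, diagonal_mul_diagonal, ← diagonal_one]
    congr 1
    funext i
    exact inv_mul_cancel₀ (sub_ne _ hz)
  rw [this, Matrix.mul_one, D.hU]

/-- `R = R' + R' V R` -/
theorem res1 {z : ℂ} (hz : 0 < z.im) : D.R z = D.R' z + D.R' z * D.V * D.R z := by
  have h1 := D.R'_left hz
  have h2 := D.R_right hz
  calc D.R z = (D.R' z * (dg D.x - z • 1 + D.V)) * D.R z := by rw [h1, Matrix.one_mul]
    _ = D.R' z * ((dg D.x - z • 1) * D.R z) + D.R' z * D.V * D.R z := by noncomm_ring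
    _ = _ := by rw [h2, Matrix.mul_one]

/-- `R = R' + R V R'` -/
theorem res2 {z : ℂ} (hz : 0 < z.im) : D.R z = D.R' z + D.R z * D.V * D.R' z := by
  have h1 := D.R'_right hz
  have h2 := D.R_left hz
  calc D.R z = D.R z * ((dg D.x - z • 1 + D.V) * D.R' z) := by rw [h1, Matrix.mul_one]
    _ = (D.R z * (dg D.x - z • 1)) * D.R' z + D.R z * D.V * D.R' z := by noncomm_ring
    _ = _ := by rw [h2, Matrix.one_mul]

theorem F_Fi {z : ℂ} (hz : 0 < z.im) : D.F z * D.Fi z = 1 := by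
  unfold F Fi
  have h := D.res2 hz
  have e : (D.Vi + D.R z) * (D.V - D.V * D.R' z * D.V) =
      (D.Vi * D.V) - (D.Vi * D.V) * D.R' z * D.V + D.R z * D.V -
        D.R z * D.V * D.R' z * D.V := by noncomm_ring
  rw [e, D.Vi_V, Matrix.one_mul]
  have h2 : D.R z * D.V = D.R' z * D.V + D.R z * D.V * D.R' z * D.V := by
    conv_lhs => rw [h]
    rw [Matrix.add_mul]
  have h3 : D.R z * D.V - D.R z * D.V * D.R' z * D.V = D.R' z * D.V := by
    rw [sub_eq_iff_eq_add]; exact h2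
  rw [add_sub_assoc, h3]
  abel

theorem Fi_F {z : ℂ} (hz : 0 < z.im) : D.Fi z * D.F z = 1 := by
  unfold F Fi
  have h := D.res1 hz
  have e : (D.V - D.V * D.R' z * D.V) * (D.Vi + D.R z) =
      (D.V * D.Vi) - D.V * D.R' z * (D.V * D.Vi) + D.V * D.R z -
        D.V * (D.R' z * D.V * D.R z) := by noncomm_ring
  rw [e, D.V_Vi, Matrix.mul_one]
  have h2 : D.V * D.R z = D.V * D.R' z + D.V * (D.R' z * D.V * D.R z) := by
    conv_lhs => rw [h]
    rw [Matrix.mul_add]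
  have h3 : D.V * D.R z - D.V * (D.R' z * D.V * D.R z) = D.V * D.R' z := by
    rw [sub_eq_iff_eq_add]; exact h2
  rw [add_sub_assoc, h3]
  abel

theorem diag_im (x : Fin n → ℝ) (z : ℂ) :
    diagonal (fun i => ((x i : ℂ) - z)⁻¹) - (diagonal (fun i => ((x i : ℂ) - z)⁻¹))ᴴ =
      (2 * Complex.I) • dg (fun i => P (x i) z) := by
  unfold dg
  rw [diagonal_conjTranspose, diagonal_sub, ← diagonal_smul]
  congr 1
  funext i
  simp only [Pi.star_apply, Pi.smul_apply, smul_eq_mul]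
  exact inv_sub_conj (x i) z

theorem F_im (z : ℂ) : D.F z - (D.F z)ᴴ = (2 * Complex.I) • D.I z := by
  unfold F I R
  rw [conjTranspose_add, Vi_H, ← diag_im]
  abel

theorem Fi_im (z : ℂ) : D.Fi z - (D.Fi z)ᴴ = -(2 * Complex.I) • D.k z := by
  unfold Fi k R'
  have h := diag_im D.x' z
  rw [conjTranspose_sub, conjTranspose_mul, conjTranspose_mul, V_H, conjTranspose_mul,
    conjTranspose_mul, conjTranspose_conjTranspose]
  have e : D.V - D.V * (D.U * diagonal (fun i => ((D.x' i : ℂ) - z)⁻¹) * D.Uᴴ) * D.V -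
      (D.V - D.V * ((D.U * ((diagonal (fun i => ((D.x' i : ℂ) - z)⁻¹))ᴴ * D.Uᴴ)) * D.V)) =
      -(D.V * D.U * (diagonal (fun i => ((D.x' i : ℂ) - z)⁻¹) -
        (diagonal (fun i => ((D.x' i : ℂ) - z)⁻¹))ᴴ) * D.Uᴴ * D.V) := by
    noncomm_ring
  rw [e, h, Matrix.mul_smul, Matrix.smul_mul, Matrix.smul_mul, neg_smul]

theorem I_posDef {z : ℂ} (hz : 0 < z.im) : (D.I z).PosDef := dg_posDef fun _ => P_pos _ hz

theorem k_eq (z : ℂ) : D.k z = (D.V * D.U) * dg (fun i => P (D.x' i) z) * (D.V * D.U)ᴴ := by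
  unfold k
  rw [conjTranspose_mul, V_H, ← Matrix.mul_assoc]

theorem VU_isUnit : IsUnit (D.V * D.U) := by
  refine ⟨⟨D.V * D.U, D.Uᴴ * D.Vi, ?_, ?_⟩, rfl⟩
  · have : D.V * D.U * (D.Uᴴ * D.Vi) = D.V * (D.U * D.Uᴴ) * D.Vi := by noncomm_ring
    rw [this, D.hU, Matrix.mul_one, V_Vi]
  · have : D.Uᴴ * D.Vi * (D.V * D.U) = D.Uᴴ * (D.Vi * D.V) * D.U := by noncomm_ring
    rw [this, Vi_V, Matrix.mul_one, D.hU']

theorem k_posDef {z : ℂ} (hz : 0 < z.im) : (D.k z).PosDef := by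
  have h := dg_posDef (a := fun i => P (D.x' i) z) fun _ => P_pos _ hz
  have h2 := (Matrix.IsUnit.posDef_star_right_conjugate_iff (x := dg (fun i => P (D.x' i) z))
    D.VU_isUnit).2 h
  rw [k_eq]
  exact h2

theorem Ig_psd {z : ℂ} (hz : 0 < z.im) : (D.Ig z).PosSemidef :=
  dg_posSemidef fun i => mul_nonneg (D.hs0 i) (P_pos _ hz).le

theorem I_sub_Ig_psd {z : ℂ} (hz : 0 < z.im) : (D.I z - D.Ig z).PosSemidef := by
  unfold I Ig
  rw [dg_sub]
  refine dg_posSemidef fun i => ?_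
  have h1 := D.hs1 i
  have h2 := P_pos (D.x i) hz
  nlinarith

theorem row_sum (i : Fin n) : ∑ j, (‖D.U i j‖ ^ 2 : ℝ) = 1 := by
  have h := congrFun (congrFun D.hU i) i
  rw [mul_apply, one_apply_eq] at h
  have h2 := congrArg Complex.re h
  rw [Complex.re_sum, Complex.one_re] at h2
  rw [← h2]
  refine Finset.sum_congr rfl fun j _ => ?_
  rw [conjTranspose_apply, Complex.star_def, Complex.mul_conj, Complex.ofReal_re,
    Complex.normSq_eq_norm_sq]

/-- `R Fi R = R - R'` -/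
theorem R_Fi_R {z : ℂ} (hz : 0 < z.im) : D.R z * D.Fi z * D.R z = D.R z - D.R' z := by
  unfold Fi
  have h1 := D.res1 hz
  have h2 := D.res2 hz
  have e : D.R z * (D.V - D.V * D.R' z * D.V) * D.R z =
      D.R z * D.V * (D.R z - D.R' z * D.V * D.R z) := by noncomm_ring
  rw [e]
  have h3 : D.R z - D.R' z * D.V * D.R z = D.R' z := by
    rw [sub_eq_iff_eq_add]
    exact h1
  rw [h3]
  rw [eq_sub_iff_add_eq, add_comm]
  exact h2.symm

theorem dG_eq (z : ℂ) : D.dG z = D.R z * (dg D.s * D.R z) := by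
  unfold dG R dg
  rw [diagonal_mul_diagonal, diagonal_mul_diagonal]
  congr 1
  funext i
  ring

theorem trace_Fi_dG {z : ℂ} (hz : 0 < z.im) : trace (D.Fi z * D.dG z) =
    ∑ i, ∑ j, (D.wt i j : ℂ) * (((D.x i : ℂ) - z)⁻¹ - ((D.x' j : ℂ) - z)⁻¹) := by
  have h1 : trace (D.Fi z * D.dG z) = trace ((D.R z - D.R' z) * dg D.s) := by
    rw [← D.R_Fi_R hz, dG_eq, trace_mul_comm]
    have e1 : D.R z * (dg D.s * D.R z) * D.Fi z = D.R z * (dg D.s * (D.R z * D.Fi z)) := by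
      noncomm_ring
    have e3 : dg D.s * (D.R z * D.Fi z) * D.R z = dg D.s * (D.R z * D.Fi z * D.R z) := by
      noncomm_ring
    rw [e1, trace_mul_comm, e3, trace_mul_comm]
  rw [h1]
  unfold dg
  rw [trace]
  simp only [diag_apply, mul_diagonal]
  refine Finset.sum_congr rfl fun i _ => ?_
  have h2 : D.R z i i = ∑ j, ((‖D.U i j‖ ^ 2 : ℝ) : ℂ) * ((D.x i : ℂ) - z)⁻¹ := by
    rw [← Finset.sum_mul, ← Complex.ofReal_sum, D.row_sum]
    unfold R
    simp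
  have h3 : D.R' z i i = ∑ j, ((‖D.U i j‖ ^ 2 : ℝ) : ℂ) * ((D.x' j : ℂ) - z)⁻¹ := by
    unfold R'
    rw [mul_apply]
    refine Finset.sum_congr rfl fun j _ => ?_
    rw [mul_diagonal, conjTranspose_apply, Complex.star_def]
    have : D.U i j * (starRingEnd ℂ) (D.U i j) = ((‖D.U i j‖ ^ 2 : ℝ) : ℂ) := by
      rw [Complex.mul_conj, Complex.normSq_eq_norm_sq]
    rw [← this]
    ring
  rw [Matrix.sub_apply, h2, h3, ← Finset.sum_sub_distrib, Finset.sum_mul]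
  refine Finset.sum_congr rfl fun j _ => ?_
  unfold wt
  push_cast
  ring

end Dat

theorem stmt_D1 : Stmt_D1 := fun _ D _ hz =>
  ⟨⟨D.F_Fi hz, D.Fi_F hz, D.F_im _, D.Fi_im _⟩, D.I_posDef hz, D.k_posDef hz, D.Ig_psd hz,
    D.I_sub_Ig_psd hz, D.trace_Fi_dG hz⟩

end Pool.LG
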