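import Pool.Agent.Work.LipGraph.D1

/-!
# Block D2: `∫ v₁ dx ≤ π ρ`
-/

open Matrix MeasureTheory
open scoped ComplexOrder

namespace Pool.LG

theorem D2_w1_nonneg {n : ℕ} {I k T : Mat n} (hI : I.PosSemidef) (hk : k.PosSemidef)
    (hT : T.PosDef) : 0 ≤ w1 I k T := by
  unfold w1
  rw [rtr_add]
  have h1 := psd_rtr_mul hT.posSemidef hI
  have h2 := psd_rtr_mul hT.inv.posSemidef hk
  linarith

theorem D2_V1_le {n : ℕ} {I k T : Mat n} (hI : I.PosSemidef) (hk : k.PosSemidef)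
    (hT : T.PosDef) : V1 I k ≤ w1 I k T := by
  unfold V1
  refine ciInf_le (f := fun T : {T : Mat n // T.PosDef} => w1 I k T.1) ?_ ⟨T, hT⟩
  refine ⟨0, ?_⟩
  rintro _ ⟨T, rfl⟩
  exact D2_w1_nonneg hI hk T.2

namespace Dat

variable {n : ℕ} (D : Dat n)

/-- `|V|` -/
noncomputable def absV : Mat n := D.W * dg (fun i => |D.lam i|) * D.Wᴴ

theorem absV_posDef : D.absV.PosDef := by
  have h := dg_posDef (a := fun i => |D.lam i|) fun i => abs_pos.2 (D.hlam i)
  have hu : IsUnit D.W := ⟨⟨D.W, D.Wᴴ, D.hW, D.hW'⟩, rfl⟩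
  exact (Matrix.IsUnit.posDef_star_right_conjugate_iff (x := dg (fun i => |D.lam i|)) hu).2 h

theorem absV_inv : D.absV⁻¹ = D.W * dg (fun i => |D.lam i|⁻¹) * D.Wᴴ := by
  refine Matrix.inv_eq_right_inv ?_
  unfold absV
  have e : D.W * dg (fun i => |D.lam i|) * D.Wᴴ * (D.W * dg (fun i => |D.lam i|⁻¹) * D.Wᴴ) =
      D.W * (dg (fun i => |D.lam i|) * (D.Wᴴ * D.W) * dg (fun i => |D.lam i|⁻¹)) * D.Wᴴ := by
    noncomm_ring
  rw [e, D.hW', Matrix.mul_one, dg_mul]
  have : (fun i => |D.lam i| * |D.lam i|⁻¹) = fun _ => (1 : ℝ) := by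
    funext i; exact mul_inv_cancel₀ (abs_pos.2 (D.hlam i)).ne'
  rw [this, dg_one, Matrix.mul_one, D.hW]

theorem V_absVi_V : D.V * D.absV⁻¹ * D.V = D.absV := by
  rw [absV_inv]
  unfold V absV
  have e : D.W * dg D.lam * D.Wᴴ * (D.W * dg (fun i => |D.lam i|⁻¹) * D.Wᴴ) *
      (D.W * dg D.lam * D.Wᴴ) =
      D.W * (dg D.lam * (D.Wᴴ * D.W) * dg (fun i => |D.lam i|⁻¹) * (D.Wᴴ * D.W) * dg D.lam) *
        D.Wᴴ := by
    noncomm_ring
  rw [e, D.hW']
  simp only [Matrix.mul_one]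
  rw [dg_mul, dg_mul]
  congr 3
  funext i
  have h := (abs_pos.2 (D.hlam i)).ne'
  have h2 : D.lam i * D.lam i = |D.lam i| * |D.lam i| := (abs_mul_abs_self _).symm
  rw [mul_right_comm, h2, mul_inv_cancel_right₀ h]

theorem rtr_absV : rtr D.absV = D.rho := by
  unfold absV rho
  rw [rtr_comm, ← Matrix.mul_assoc, D.hW', Matrix.one_mul, rtr_dg]

theorem w1_absV (z : ℂ) : w1 (D.I z) (D.k z) D.absV =
    1 / 2 * (∑ i, (D.absV i i).re * P (D.x i) z +
      ∑ j, ((D.Uᴴ * D.absV * D.U) j j).re * P (D.x' j) z) := by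
  unfold w1
  rw [rtr_add]
  congr 2
  · unfold I
    exact rtr_mul_dg _ _
  · have e : D.absV⁻¹ * D.k z = D.absV⁻¹ * D.V * D.U * dg (fun i => P (D.x' i) z) *
        (D.Uᴴ * D.V) := by
      unfold k
      noncomm_ring
    have e2 : D.Uᴴ * D.V * (D.absV⁻¹ * D.V * D.U * dg (fun i => P (D.x' i) z)) =
        D.Uᴴ * (D.V * D.absV⁻¹ * D.V) * D.U * dg (fun i => P (D.x' i) z) := by
      noncomm_ring
    rw [e, rtr_comm, e2, V_absVi_V, rtr_mul_dg]

end Dat

theorem sum_re_diag {n : ℕ} (A : Mat n) : ∑ i, (A i i).re = rtr A := by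
  unfold rtr
  rw [trace, Complex.re_sum]
  rfl

theorem stmt_D2 (hK2 : Stmt_K2) : Stmt_D2 := by
  intro n D y hy
  have him : ∀ x : ℝ, 0 < ((x : ℂ) + y * Complex.I).im := fun x => by simpa using hy
  set w : ℝ → ℝ := fun x => 1 / 2 * (∑ i, (D.absV i i).re * P (D.x i) (x + y * Complex.I) +
      ∑ j, ((D.Uᴴ * D.absV * D.U) j j).re * P (D.x' j) (x + y * Complex.I)) with hw
  have h1 : ∀ x : ℝ, V1 (D.I (x + y * Complex.I)) (D.k (x + y * Complex.I)) ≤ w x := by
    intro x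
    rw [hw]
    simp only
    rw [← D.w1_absV]
    exact D2_V1_le (D.I_posDef (him x)).posSemidef (D.k_posDef (him x)).posSemidef D.absV_posDef
  have h0 : ∀ x : ℝ, 0 ≤ w x := by
    intro x
    rw [hw]
    simp only
    rw [← D.w1_absV]
    exact D2_w1_nonneg (D.I_posDef (him x)).posSemidef (D.k_posDef (him x)).posSemidef D.absV_posDef
  have hi1 : ∀ i, Integrable (fun x : ℝ => (D.absV i i).re * P (D.x i) (x + y * Complex.I)) :=
    fun i => (hK2 _ y hy).1.const_mul _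
  have hi2 : ∀ j, Integrable (fun x : ℝ => ((D.Uᴴ * D.absV * D.U) j j).re *
      P (D.x' j) (x + y * Complex.I)) := fun i => (hK2 _ y hy).1.const_mul _
  have hs1 := integrable_finsetSum (Finset.univ : Finset (Fin n)) fun i _ => hi1 i
  have hs2 := integrable_finsetSum (Finset.univ : Finset (Fin n)) fun i _ => hi2 i
  have hwi : Integrable w := (hs1.add hs2).const_mul _
  have hwint : ∫ x, w x = Real.pi * D.rho := by
    rw [hw, integral_const_mul, integral_add hs1 hs2, integral_finsetSum _ fun i _ => hi1 i,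
      integral_finsetSum _ fun i _ => hi2 i]
    have e1 : ∑ i, ∫ x : ℝ, (D.absV i i).re * P (D.x i) (x + y * Complex.I) =
        D.rho * Real.pi := by
      rw [← D.rtr_absV, ← sum_re_diag, Finset.sum_mul]
      exact Finset.sum_congr rfl fun i _ => by rw [integral_const_mul, (hK2 _ y hy).2]
    have e2 : ∑ j, ∫ x : ℝ, ((D.Uᴴ * D.absV * D.U) j j).re * P (D.x' j) (x + y * Complex.I) =
        D.rho * Real.pi := by
      have : D.rho = rtr (D.Uᴴ * D.absV * D.U) := by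
        rw [rtr_comm, ← Matrix.mul_assoc, D.hU, Matrix.one_mul, D.rtr_absV]
      rw [this, ← sum_re_diag, Finset.sum_mul]
      exact Finset.sum_congr rfl fun i _ => by rw [integral_const_mul, (hK2 _ y hy).2]
    rw [e1, e2]
    ring
  calc ∫⁻ x : ℝ, ENNReal.ofReal (V1 (D.I (x + y * Complex.I)) (D.k (x + y * Complex.I)))
      ≤ ∫⁻ x : ℝ, ENNReal.ofReal (w x) := lintegral_mono fun x => ENNReal.ofReal_le_ofReal (h1 x)
    _ = ENNReal.ofReal (∫ x, w x) :=
        (ofReal_integral_eq_lintegral_ofReal hwi (Filter.Eventually.of_forall h0)).symm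
    _ = ENNReal.ofReal (Real.pi * D.rho) := by rw [hwint]

end Pool.LG
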