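import Pool.Agent.Work.LipGraph.D1

/-!
# Block D3: Wirtinger derivatives
-/

open Matrix
open scoped ComplexOrder

namespace Pool.LG

/-- `f` has the real derivative `v ↦ p v + q v̄` at `z` -/
def WD (f : ℂ → ℂ) (p q : ℂ) (z : ℂ) : Prop :=
  ∃ l : ℂ →L[ℝ] ℂ, (∀ v, l v = p * v + q * (starRingEnd ℂ) v) ∧ HasFDerivAt f l z

theorem WD.congr {f : ℂ → ℂ} {p q p' q' z : ℂ} (h : WD f p q z) (hp : p = p') (hq : q = q') :
    WD f p' q' z := by subst hp; subst hq; exact h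

theorem WD.const (c z : ℂ) : WD (fun _ => c) 0 0 z :=
  ⟨0, fun v => by simp, hasFDerivAt_const c z⟩

theorem WD.hol {f : ℂ → ℂ} {p z : ℂ} (h : HasDerivAt f p z) : WD f p 0 z :=
  ⟨p • (1 : ℂ →L[ℝ] ℂ), fun v => by simp, h.complexToReal_fderiv⟩

theorem WD.add {f g : ℂ → ℂ} {p q p' q' z : ℂ} (hf : WD f p q z) (hg : WD g p' q' z) :
    WD (fun z => f z + g z) (p + p') (q + q') z := by
  obtain ⟨l, hl, h⟩ := hf
  obtain ⟨l', hl', h'⟩ := hg
  refine ⟨l + l', fun v => ?_, h.add h'⟩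
  rw [_root_.add_apply, hl, hl']
  ring

theorem WD.mul {f g : ℂ → ℂ} {p q p' q' z : ℂ} (hf : WD f p q z) (hg : WD g p' q' z) :
    WD (fun z => f z * g z) (p * g z + f z * p') (q * g z + f z * q') z := by
  obtain ⟨l, hl, h⟩ := hf
  obtain ⟨l', hl', h'⟩ := hg
  refine ⟨_, fun v => ?_, h.mul h'⟩
  rw [_root_.add_apply, _root_.smul_apply,
    _root_.smul_apply, hl, hl']
  simp only [smul_eq_mul]
  ring

theorem WD.conj {f : ℂ → ℂ} {p q z : ℂ} (hf : WD f p q z) :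
    WD (fun z => (starRingEnd ℂ) (f z)) ((starRingEnd ℂ) q) ((starRingEnd ℂ) p) z := by
  obtain ⟨l, hl, h⟩ := hf
  refine ⟨_, fun v => ?_, (Complex.conjCLE.toContinuousLinearMap.hasFDerivAt).comp z h⟩
  simp only [ContinuousLinearMap.comp_apply]
  rw [hl]
  simp
  ring

theorem WD.const_mul {f : ℂ → ℂ} {p q z : ℂ} (c : ℂ) (hf : WD f p q z) :
    WD (fun z => c * f z) (c * p) (c * q) z :=
  ((WD.const c z).mul hf).congr (by ring) (by ring)

theorem WD.sub {f g : ℂ → ℂ} {p q p' q' z : ℂ} (hf : WD f p q z) (hg : WD g p' q' z) :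
    WD (fun z => f z - g z) (p - p') (q - q') z := by
  have h := hf.add (hg.const_mul (-1))
  simp only [neg_mul, one_mul, ← sub_eq_add_neg] at h
  exact h

theorem WD.sum {ι : Type*} (s : Finset ι) {f : ι → ℂ → ℂ} {p q : ι → ℂ} {z : ℂ}
    (h : ∀ i ∈ s, WD (f i) (p i) (q i) z) :
    WD (fun z => ∑ i ∈ s, f i z) (∑ i ∈ s, p i) (∑ i ∈ s, q i) z := by
  classical
  induction s using Finset.induction_on with
  | empty => simpa using WD.const 0 z
  | insert a s ha ih =>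
    simp only [Finset.sum_insert ha]
    exact (h a (Finset.mem_insert_self a s)).add
      (ih fun i hi => h i (Finset.mem_insert_of_mem hi))

/-- matrix version -/
def WM {n : ℕ} (A : ℂ → Mat n) (Az Ab : Mat n) (z : ℂ) : Prop :=
  ∀ i j, WD (fun z => A z i j) (Az i j) (Ab i j) z

variable {n : ℕ}

theorem WM.congr {A : ℂ → Mat n} {p q p' q' : Mat n} {z : ℂ} (h : WM A p q z) (hp : p = p')
    (hq : q = q') : WM A p' q' z := by subst hp; subst hq; exact h

theorem WM.const (C : Mat n) (z : ℂ) : WM (fun _ => C) 0 0 z := fun _ _ => WD.const _ z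

theorem WM.add {A B : ℂ → Mat n} {p q p' q' : Mat n} {z : ℂ} (hA : WM A p q z)
    (hB : WM B p' q' z) : WM (fun z => A z + B z) (p + p') (q + q') z :=
  fun i j => (hA i j).add (hB i j)

theorem WM.sub {A B : ℂ → Mat n} {p q p' q' : Mat n} {z : ℂ} (hA : WM A p q z)
    (hB : WM B p' q' z) : WM (fun z => A z - B z) (p - p') (q - q') z :=
  fun i j => (hA i j).sub (hB i j)

theorem WM.smul {A : ℂ → Mat n} {p q : Mat n} {z : ℂ} (c : ℂ) (hA : WM A p q z) :
    WM (fun z => c • A z) (c • p) (c • q) z :=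
  fun i j => (hA i j).const_mul c

theorem WM.mul {A B : ℂ → Mat n} {p q p' q' : Mat n} {z : ℂ} (hA : WM A p q z)
    (hB : WM B p' q' z) :
    WM (fun z => A z * B z) (p * B z + A z * p') (q * B z + A z * q') z := by
  intro i j
  simp only [mul_apply, Matrix.add_apply]
  rw [← Finset.sum_add_distrib, ← Finset.sum_add_distrib]
  exact WD.sum _ fun k _ => (hA i k).mul (hB k j)

theorem WM.H {A : ℂ → Mat n} {p q : Mat n} {z : ℂ} (hA : WM A p q z) :
    WM (fun z => (A z)ᴴ) qᴴ pᴴ z := fun i j => (hA j i).conj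

theorem WM.trace {A : ℂ → Mat n} {p q : Mat n} {z : ℂ} (hA : WM A p q z) :
    WD (fun z => Matrix.trace (A z)) (Matrix.trace p) (Matrix.trace q) z :=
  WD.sum _ fun i _ => hA i i

theorem WM.diag {d : Fin n → ℂ → ℂ} {p q : Fin n → ℂ} {z : ℂ} (h : ∀ i, WD (d i) (p i) (q i) z) :
    WM (fun z => diagonal (fun i => d i z)) (diagonal p) (diagonal q) z := by
  intro i j
  by_cases hij : i = j
  · subst hij
    simp only [diagonal_apply_eq]
    exact h i
  · simp only [diagonal_apply_ne _ hij]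
    exact WD.const 0 z

theorem hasDeriv_inv (t : ℝ) {z : ℂ} (hz : 0 < z.im) :
    HasDerivAt (fun z : ℂ => ((t : ℂ) - z)⁻¹) (((t : ℂ) - z)⁻¹ ^ 2) z := by
  have h := (((hasDerivAt_id z).const_sub (t : ℂ)).inv (sub_ne t hz))
  refine h.congr_deriv ?_
  simp only [id]
  have := sub_ne t hz
  field_simp

theorem hasDeriv_inv2 (t : ℝ) {z : ℂ} (hz : 0 < z.im) :
    HasDerivAt (fun z : ℂ => ((t : ℂ) - z)⁻¹ ^ 2) (2 * ((t : ℂ) - z)⁻¹ ^ 3) z := by
  have h := (hasDeriv_inv t hz).pow 2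
  refine h.congr_deriv ?_
  simp only [Nat.cast_ofNat]
  ring

theorem cont_cmul {f : ℂ → ℂ} {s : Set ℂ} (h : ContinuousOn f s) (c : ℂ) :
    ContinuousOn (fun z => c * f z) s := continuousOn_const.mul h

namespace Dat

variable (D : Dat n)

/-- `∂_z dF` -/
noncomputable def ddF (z : ℂ) : Mat n := diagonal (fun i => 2 * ((D.x i : ℂ) - z)⁻¹ ^ 3)
/-- `∂_z dG` -/
noncomputable def ddG (z : ℂ) : Mat n :=
  diagonal (fun i => (D.s i : ℂ) * (2 * ((D.x i : ℂ) - z)⁻¹ ^ 3))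

theorem WM_dF {z : ℂ} (hz : 0 < z.im) : WM D.dF (D.ddF z) 0 z := by
  have h := WM.diag (n := n) (d := fun i z => ((D.x i : ℂ) - z)⁻¹ ^ 2)
    (p := fun i => 2 * ((D.x i : ℂ) - z)⁻¹ ^ 3) (q := fun _ => 0) (z := z)
    fun i => WD.hol (hasDeriv_inv2 (D.x i) hz)
  exact h.congr rfl (by rw [← diagonal_zero])

theorem WM_dG {z : ℂ} (hz : 0 < z.im) : WM D.dG (D.ddG z) 0 z := by
  have h := WM.diag (n := n) (d := fun i z => (D.s i : ℂ) * ((D.x i : ℂ) - z)⁻¹ ^ 2)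
    (p := fun i => (D.s i : ℂ) * (2 * ((D.x i : ℂ) - z)⁻¹ ^ 3)) (q := fun _ => 0) (z := z)
    fun i => ((WD.hol (hasDeriv_inv2 (D.x i) hz)).const_mul (D.s i : ℂ)).congr rfl (by ring)
  exact h.congr rfl (by rw [← diagonal_zero])

theorem WM_R' {z : ℂ} (hz : 0 < z.im) : WM D.R' (D.R' z * D.R' z) 0 z := by
  have h := WM.diag (n := n) (d := fun i z => ((D.x' i : ℂ) - z)⁻¹)
    (p := fun i => ((D.x' i : ℂ) - z)⁻¹ ^ 2) (q := fun _ => 0) (z := z)
    fun i => WD.hol (hasDeriv_inv (D.x' i) hz)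
  have h2 := ((WM.const D.U z).mul h).mul (WM.const D.Uᴴ z)
  refine h2.congr ?_ ?_
  · unfold R'
    have e : D.U * diagonal (fun i => ((D.x' i : ℂ) - z)⁻¹) * D.Uᴴ *
        (D.U * diagonal (fun i => ((D.x' i : ℂ) - z)⁻¹) * D.Uᴴ) =
        D.U * (diagonal (fun i => ((D.x' i : ℂ) - z)⁻¹) * (D.Uᴴ * D.U) *
          diagonal (fun i => ((D.x' i : ℂ) - z)⁻¹)) * D.Uᴴ := by noncomm_ring
    rw [e, D.hU', Matrix.mul_one, diagonal_mul_diagonal]
    simp only [Matrix.zero_mul, Matrix.mul_zero, zero_add, add_zero]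
    congr 3
    funext i
    ring
  · have : diagonal (fun _ : Fin n => (0 : ℂ)) = 0 := diagonal_zero
    rw [this]
    simp

theorem Fi_R {z : ℂ} (hz : 0 < z.im) : D.Fi z * D.R z = D.V * D.R' z := by
  have h := D.res1 hz
  unfold Fi
  have e : (D.V - D.V * D.R' z * D.V) * D.R z = D.V * (D.R z - D.R' z * D.V * D.R z) := by
    noncomm_ring
  rw [e]
  congr 1
  rw [sub_eq_iff_eq_add]
  exact h

theorem R_Fi {z : ℂ} (hz : 0 < z.im) : D.R z * D.Fi z = D.R' z * D.V := by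
  have h := D.res2 hz
  unfold Fi
  have e : D.R z * (D.V - D.V * D.R' z * D.V) = (D.R z - D.R z * D.V * D.R' z) * D.V := by
    noncomm_ring
  rw [e]
  congr 1
  rw [sub_eq_iff_eq_add]
  exact h

theorem dF_eq (z : ℂ) : D.dF z = D.R z * D.R z := by
  unfold dF R
  rw [diagonal_mul_diagonal]
  congr 1
  funext i
  ring

/-- `Fi dF Fi` -/
noncomputable def E (z : ℂ) : Mat n := D.Fi z * D.dF z * D.Fi z

theorem E_eq {z : ℂ} (hz : 0 < z.im) : D.E z = D.V * (D.R' z * D.R' z) * D.V := by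
  unfold E
  rw [dF_eq]
  have e : D.Fi z * (D.R z * D.R z) * D.Fi z = (D.Fi z * D.R z) * (D.R z * D.Fi z) := by
    noncomm_ring
  rw [e, D.Fi_R hz, D.R_Fi hz]
  noncomm_ring

theorem WM_Fi {z : ℂ} (hz : 0 < z.im) : WM D.Fi (-D.E z) 0 z := by
  have h := (WM.const D.V z).sub (((WM.const D.V z).mul (D.WM_R' hz)).mul (WM.const D.V z))
  refine h.congr ?_ ?_
  · rw [D.E_eq hz]
    simp only [Matrix.zero_mul, Matrix.mul_zero, zero_add, add_zero, zero_sub]
  · simp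

theorem WM_E {z : ℂ} (hz : 0 < z.im) : WM D.E
    (-D.E z * D.dF z * D.Fi z + D.Fi z * D.ddF z * D.Fi z + D.Fi z * D.dF z * (-D.E z)) 0 z := by
  have h := ((D.WM_Fi hz).mul (D.WM_dF hz)).mul (D.WM_Fi hz)
  refine h.congr ?_ ?_
  · noncomm_ring
  · simp

/-- `Ig = (g - gᴴ)/(2i)` -/
theorem Ig_eq (z : ℂ) : D.Ig z = (-(Complex.I / 2)) •
    (diagonal (fun i => (D.s i : ℂ) * ((D.x i : ℂ) - z)⁻¹) -
      (diagonal (fun i => (D.s i : ℂ) * ((D.x i : ℂ) - z)⁻¹))ᴴ) := by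
  unfold Ig dg
  rw [diagonal_conjTranspose, diagonal_sub, ← diagonal_smul]
  congr 1
  funext i
  simp only [Pi.star_apply, Pi.smul_apply, smul_eq_mul]
  have h := inv_sub_conj (D.x i) z
  rw [star_mul, Complex.star_def, Complex.conj_ofReal, mul_comm _ (D.s i : ℂ), ← mul_sub,
    ← Complex.star_def, h]
  push_cast
  ring_nf
  rw [Complex.I_sq]
  ring

theorem WM_Ig {z : ℂ} (hz : 0 < z.im) : WM D.Ig ((-(Complex.I / 2)) • D.dG z)
    ((Complex.I / 2) • (D.dG z)ᴴ) z := by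
  have h0 := WM.diag (n := n) (d := fun i z => (D.s i : ℂ) * ((D.x i : ℂ) - z)⁻¹)
    (p := fun i => (D.s i : ℂ) * ((D.x i : ℂ) - z)⁻¹ ^ 2) (q := fun _ => 0) (z := z)
    fun i => ((WD.hol (hasDeriv_inv (D.x i) hz)).const_mul (D.s i : ℂ)).congr rfl (by ring)
  have h1 := (h0.sub h0.H).smul (-(Complex.I / 2))
  have e : D.Ig = fun z => (-(Complex.I / 2)) •
    (diagonal (fun i => (D.s i : ℂ) * ((D.x i : ℂ) - z)⁻¹) -
      (diagonal (fun i => (D.s i : ℂ) * ((D.x i : ℂ) - z)⁻¹))ᴴ) := funext D.Ig_eq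
  rw [e]
  have h00 : diagonal (fun _ : Fin n => (0 : ℂ)) = 0 := diagonal_zero
  refine h1.congr ?_ ?_
  · rw [h00]
    simp only [conjTranspose_zero, sub_zero]
    rfl
  · rw [h00]
    simp only [zero_sub, smul_neg, neg_smul, neg_neg]
    rfl

theorem k_eq' (z : ℂ) : D.k z = (Complex.I / 2) • (D.Fi z - (D.Fi z)ᴴ) := by
  rw [D.Fi_im, smul_smul]
  have : Complex.I / 2 * -(2 * Complex.I) = 1 := by
    ring_nf
    rw [Complex.I_sq]
    ring
  rw [this, one_smul]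

theorem WM_k {z : ℂ} (hz : 0 < z.im) : WM D.k ((-(Complex.I / 2)) • D.E z)
    ((Complex.I / 2) • (D.E z)ᴴ) z := by
  have h1 := ((D.WM_Fi hz).sub (D.WM_Fi hz).H).smul (Complex.I / 2)
  have e : D.k = fun z => (Complex.I / 2) • (D.Fi z - (D.Fi z)ᴴ) := funext D.k_eq'
  rw [e]
  refine h1.congr ?_ ?_
  · simp
  · simp

/-- `∂_z wz` -/
noncomputable def az (z : ℂ) : ℂ :=
  -(1 / 2) * trace ((-(Complex.I / 2)) • D.E z * D.dG z + D.k z * D.ddG z) +
  1 / 2 * trace ((-D.E z * D.dF z * D.Fi z + D.Fi z * D.ddF z * D.Fi z +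
    D.Fi z * D.dF z * (-D.E z)) * D.Ig z + D.E z * ((-(Complex.I / 2)) • D.dG z))

theorem conj_trace (A B : Mat n) : (starRingEnd ℂ) (trace (A * B)) = trace (Aᴴ * Bᴴ) := by
  rw [← Complex.star_def, ← trace_conjTranspose, conjTranspose_mul, trace_mul_comm]

theorem WD_wz {z : ℂ} (hz : 0 < z.im) : WD D.wz (D.az z) (D.qz z) z := by
  have h1 := (((D.WM_k hz).mul (D.WM_dG hz)).trace).const_mul (-(1 / 2))
  have h2 := (((D.WM_E hz).mul (D.WM_Ig hz)).trace).const_mul (1 / 2)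
  have h3 := h1.add h2
  have e : D.wz = fun z => -(1 / 2) * trace (D.k z * D.dG z) + 1 / 2 * trace (D.E z * D.Ig z) := by
    funext z; rfl
  rw [e]
  refine h3.congr rfl ?_
  simp only [Matrix.mul_zero, Matrix.zero_mul, add_zero, zero_add]
  have h4 : trace ((D.E z)ᴴ * D.dG z) = (starRingEnd ℂ) (trace (D.E z * (D.dG z)ᴴ)) := by
    rw [conj_trace, conjTranspose_conjTranspose]
  have h5 : (D.qz z : ℂ) = -(1 / 2) * ((trace (D.E z * (D.dG z)ᴴ)).im : ℂ) := by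
    unfold qz E
    push_cast
    ring
  rw [Matrix.smul_mul, Matrix.mul_smul, trace_smul, trace_smul, h4, h5, smul_eq_mul, smul_eq_mul]
  set t := trace (D.E z * (D.dG z)ᴴ)
  apply Complex.ext <;> simp <;> ring

theorem hasDeriv_Z {z : ℂ} (hz : 0 < z.im) : HasDerivAt D.Z (trace (D.Fi z * D.dG z)) z := by
  have hl : ∀ t : ℝ, HasDerivAt (fun z : ℂ => Complex.log ((t : ℂ) - z)) (-((t : ℂ) - z)⁻¹) z := by
    intro t
    have hs : (t : ℂ) - z ∈ Complex.slitPlane := by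
      rw [Complex.mem_slitPlane_iff]
      right
      simp only [Complex.sub_im, Complex.ofReal_im, zero_sub]
      exact neg_ne_zero.2 hz.ne'
    have h := ((hasDerivAt_id z).const_sub (t : ℂ)).clog hs
    refine h.congr_deriv ?_
    simp only [id]
    rw [div_eq_mul_inv]
    ring
  rw [D.trace_Fi_dG hz]
  have h1 : HasDerivAt (fun z => ∑ i, ∑ j, (D.wt i j : ℂ) *
      (Complex.log ((D.x' j : ℂ) - z) - Complex.log ((D.x i : ℂ) - z)))
      (∑ i, ∑ j, (D.wt i j : ℂ) * (((D.x i : ℂ) - z)⁻¹ - ((D.x' j : ℂ) - z)⁻¹)) z := by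
    refine HasDerivAt.fun_sum fun i _ => HasDerivAt.fun_sum fun j _ => ?_
    refine (((hl (D.x' j)).sub (hl (D.x i))).const_mul (D.wt i j : ℂ)).congr_deriv ?_
    ring
  exact h1

theorem deriv_Wf {z : ℂ} (hz : 0 < z.im) : ∃ l : ℂ →L[ℝ] ℝ, (∀ v, l v = 2 * (D.wz z * v).re) ∧
    HasFDerivAt D.Wf l z := by
  obtain ⟨lZ, hlZ, hZ⟩ := WD.hol (D.hasDeriv_Z hz)
  obtain ⟨lP, hlP, hP⟩ := ((D.WM_Fi hz).mul (D.WM_Ig hz)).trace
  refine ⟨Complex.imCLM.comp lZ - Complex.reCLM.comp lP, fun v => ?_,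
    (Complex.imCLM.hasFDerivAt.comp z hZ).sub (Complex.reCLM.hasFDerivAt.comp z hP)⟩
  rw [_root_.sub_apply, ContinuousLinearMap.comp_apply,
    ContinuousLinearMap.comp_apply, hlZ, hlP]
  simp only [Matrix.zero_mul, zero_add, zero_mul, add_zero]
  rw [trace_add, Matrix.mul_smul, Matrix.mul_smul, trace_smul, trace_smul, Matrix.neg_mul,
    trace_neg]
  have h2 : trace (D.Fi z * (D.dG z)ᴴ) = (starRingEnd ℂ) (trace ((D.Fi z)ᴴ * D.dG z)) := by
    rw [conj_trace, conjTranspose_conjTranspose]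
  have h3 : D.wz z = -(1 / 2) * (Complex.I / 2 * (trace (D.Fi z * D.dG z) -
      trace ((D.Fi z)ᴴ * D.dG z))) + 1 / 2 * trace (D.E z * D.Ig z) := by
    unfold wz
    rw [D.k_eq', Matrix.smul_mul, trace_smul, Matrix.sub_mul, trace_sub, smul_eq_mul]
    rfl
  rw [h2, h3]
  set t1 := trace (D.Fi z * D.dG z)
  set t2 := trace ((D.Fi z)ᴴ * D.dG z)
  set t3 := trace (D.E z * D.Ig z)
  simp
  ring

/-! ### continuity -/

theorem cont_diag {d : Fin n → ℂ → ℂ} (h : ∀ i, ContinuousOn (d i) {z | 0 < z.im}) :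
    ContinuousOn (fun z => (diagonal (fun i => d i z) : Mat n)) {z | 0 < z.im} :=
  (continuous_id.matrix_diagonal).comp_continuousOn (continuousOn_pi.2 h)

theorem cont_inv (t : ℝ) : ContinuousOn (fun z : ℂ => ((t : ℂ) - z)⁻¹) {z | 0 < z.im} := by
  refine ContinuousOn.inv₀ (by fun_prop) fun z hz => sub_ne t hz

theorem cont_tr {A : ℂ → Mat n} {s : Set ℂ} (h : ContinuousOn A s) :
    ContinuousOn (fun z => trace (A z)) s :=
  (continuous_id.matrix_trace).comp_continuousOn h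

theorem cont_H {A : ℂ → Mat n} {s : Set ℂ} (h : ContinuousOn A s) :
    ContinuousOn (fun z => (A z)ᴴ) s :=
  (continuous_id.matrix_conjTranspose).comp_continuousOn h

theorem cont_dF : ContinuousOn D.dF {z | 0 < z.im} :=
  cont_diag fun i => (cont_inv (D.x i)).pow 2

theorem cont_dG : ContinuousOn D.dG {z | 0 < z.im} :=
  cont_diag fun i => continuousOn_const.mul ((cont_inv (D.x i)).pow 2)

theorem cont_ddF : ContinuousOn D.ddF {z | 0 < z.im} :=
  cont_diag fun i => continuousOn_const.mul ((cont_inv (D.x i)).pow 3)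

theorem cont_ddG : ContinuousOn D.ddG {z | 0 < z.im} :=
  cont_diag fun i => continuousOn_const.mul (continuousOn_const.mul ((cont_inv (D.x i)).pow 3))

theorem cont_R' : ContinuousOn D.R' {z | 0 < z.im} :=
  (continuousOn_const.mul (cont_diag fun i => cont_inv (D.x' i))).mul continuousOn_const

theorem cont_Fi : ContinuousOn D.Fi {z | 0 < z.im} :=
  continuousOn_const.sub ((continuousOn_const.mul D.cont_R').mul continuousOn_const)

theorem cont_E : ContinuousOn D.E {z | 0 < z.im} := (D.cont_Fi.mul D.cont_dF).mul D.cont_Fi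

theorem cont_Ig : ContinuousOn D.Ig {z | 0 < z.im} := by
  have e : D.Ig = fun z => (-(Complex.I / 2)) •
    (diagonal (fun i => (D.s i : ℂ) * ((D.x i : ℂ) - z)⁻¹) -
      (diagonal (fun i => (D.s i : ℂ) * ((D.x i : ℂ) - z)⁻¹))ᴴ) := funext D.Ig_eq
  rw [e]
  have h : ContinuousOn (fun z => (diagonal (fun i => (D.s i : ℂ) * ((D.x i : ℂ) - z)⁻¹) : Mat n))
      {z | 0 < z.im} := cont_diag fun i => continuousOn_const.mul (cont_inv (D.x i))
  exact (h.sub (cont_H h)).const_smul (-(Complex.I / 2) : ℂ)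

theorem cont_k : ContinuousOn D.k {z | 0 < z.im} := by
  have e : D.k = fun z => (Complex.I / 2) • (D.Fi z - (D.Fi z)ᴴ) := funext D.k_eq'
  rw [e]
  exact (D.cont_Fi.sub (cont_H D.cont_Fi)).const_smul (Complex.I / 2 : ℂ)

theorem cont_qz : ContinuousOn D.qz {z | 0 < z.im} := by
  refine continuousOn_const.mul ?_
  exact Complex.continuous_im.comp_continuousOn (cont_tr (D.cont_E.mul (cont_H D.cont_dG)))

theorem cont_az : ContinuousOn D.az {z | 0 < z.im} := by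
  have hE := D.cont_E
  have hF := D.cont_Fi
  have hG := D.cont_dG.const_smul (-(Complex.I / 2) : ℂ)
  have hE' := hE.const_smul (-(Complex.I / 2) : ℂ)
  have a1 : ContinuousOn (fun z => (-(Complex.I / 2)) • D.E z * D.dG z + D.k z * D.ddG z)
      {z | 0 < z.im} := (hE'.mul D.cont_dG).add (D.cont_k.mul D.cont_ddG)
  have b1 : ContinuousOn (fun z => -D.E z * D.dF z * D.Fi z) {z | 0 < z.im} :=
    (hE.neg.mul D.cont_dF).mul hF
  have b2 : ContinuousOn (fun z => D.Fi z * D.ddF z * D.Fi z) {z | 0 < z.im} :=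
    (hF.mul D.cont_ddF).mul hF
  have b3 : ContinuousOn (fun z => D.Fi z * D.dF z * (-D.E z)) {z | 0 < z.im} :=
    (hF.mul D.cont_dF).mul hE.neg
  have b4 : ContinuousOn (fun z => D.E z * ((-(Complex.I / 2)) • D.dG z)) {z | 0 < z.im} :=
    hE.mul hG
  have b5 : ContinuousOn (fun z => (-D.E z * D.dF z * D.Fi z + D.Fi z * D.ddF z * D.Fi z +
      D.Fi z * D.dF z * (-D.E z)) * D.Ig z + D.E z * ((-(Complex.I / 2)) • D.dG z))
      {z | 0 < z.im} := (((b1.add b2).add b3).mul D.cont_Ig).add b4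
  have c1 := cont_tr a1
  have c2 := cont_tr b5
  exact (cont_cmul c1 (-(1 / 2))).add (cont_cmul c2 (1 / 2))

end Dat

theorem stmt_D3 : Stmt_D3 := fun _ D =>
  ⟨fun _ hz => D.deriv_Wf hz, D.cont_qz, D.az, D.cont_az, fun _ hz => D.WD_wz hz⟩

end Pool.LG
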