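import Pool.Agent.Work.LipGraph.D3

/-!
# Block D4: decay of `Wf` and `wz`, uniform integrability of `Wf`
-/

open Matrix Filter Topology MeasureTheory
open scoped ComplexOrder

namespace Pool.LG

/-- the difference of two arguments is the integral of the kernel -/
theorem arg_diff (a b : ℝ) {z : ℂ} (hz : 0 < z.im) :
    (Complex.log ((b : ℂ) - z)).im - (Complex.log ((a : ℂ) - z)).im = ∫ t in a..b, P t z := by
  symm
  have hd : ∀ t : ℝ, HasDerivAt (fun t : ℝ => (Complex.log ((t : ℂ) - z)).im) (P t z) t := by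
    intro t
    have hs : (t : ℂ) - z ∈ Complex.slitPlane := by
      rw [Complex.mem_slitPlane_iff]
      right
      simp only [Complex.sub_im, Complex.ofReal_im, zero_sub]
      exact neg_ne_zero.2 hz.ne'
    have h1 : HasDerivAt (fun t : ℝ => (t : ℂ) - z) 1 t :=
      (Complex.ofRealCLM.hasDerivAt (x := t)).sub_const z
    have h2 := h1.clog_real hs
    have h3 := Complex.imCLM.hasFDerivAt.comp_hasDerivAt t h2
    refine h3.congr_deriv ?_
    rw [one_div, ← inv_im]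
    rfl
  refine intervalIntegral.integral_eq_sub_of_hasDerivAt (fun t _ => hd t) ?_
  refine Continuous.intervalIntegrable ?_ _ _
  unfold P
  refine Continuous.div (by fun_prop) (by fun_prop) fun t => ?_
  positivity

theorem cont_P (y : ℝ) (hy : 0 < y) : Continuous fun p : ℝ × ℝ => P p.1 (p.2 + y * Complex.I) := by
  unfold P
  simp only [Complex.add_re, Complex.ofReal_re, Complex.mul_re, Complex.I_re, mul_zero,
    Complex.ofReal_im, Complex.I_im, mul_one, sub_zero, Complex.add_im, Complex.mul_im, add_zero,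
    zero_add]
  refine Continuous.div (by fun_prop) (by fun_prop) fun p => ?_
  positivity

/-- `∫ |arg(b - z) - arg(a - z)| dx ≤ π |b - a|` -/
theorem arg_lint (hK2 : Stmt_K2) (a b y : ℝ) (hy : 0 < y) :
    ∫⁻ x : ℝ, ENNReal.ofReal |(Complex.log ((b : ℂ) - (x + y * Complex.I))).im -
      (Complex.log ((a : ℂ) - (x + y * Complex.I))).im| ≤ ENNReal.ofReal (Real.pi * |b - a|) := by
  have him : ∀ x : ℝ, 0 < ((x : ℂ) + y * Complex.I).im := fun x => by simpa using hy
  have h1 : ∀ x : ℝ, ENNReal.ofReal |(Complex.log ((b : ℂ) - (x + y * Complex.I))).im -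
      (Complex.log ((a : ℂ) - (x + y * Complex.I))).im| ≤
      ∫⁻ t in Set.uIoc a b, ENNReal.ofReal (P t (x + y * Complex.I)) := by
    intro x
    rw [arg_diff a b (him x), ← Real.norm_eq_abs, intervalIntegral.norm_intervalIntegral_eq]
    refine (ENNReal.ofReal_le_ofReal (norm_integral_le_lintegral_norm _)).trans ?_
    refine ENNReal.ofReal_toReal_le.trans (le_of_eq ?_)
    refine lintegral_congr fun t => ?_
    rw [Real.norm_of_nonneg (P_pos t (him x)).le]
  refine (lintegral_mono h1).trans ?_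
  have hm : Measurable (Function.uncurry fun (x t : ℝ) =>
      ENNReal.ofReal (P t (x + y * Complex.I))) := by
    refine ENNReal.measurable_ofReal.comp ?_
    exact ((cont_P y hy).comp continuous_swap).measurable
  rw [lintegral_lintegral_swap hm.aemeasurable]
  have h2 : ∀ t : ℝ, ∫⁻ x : ℝ, ENNReal.ofReal (P t (x + y * Complex.I)) =
      ENNReal.ofReal Real.pi := by
    intro t
    rw [← ofReal_integral_eq_lintegral_ofReal (hK2 t y hy).1
      (Filter.Eventually.of_forall fun x => (P_pos t (him x)).le), (hK2 t y hy).2]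
  simp only [h2]
  rw [lintegral_const, Measure.restrict_apply MeasurableSet.univ, Set.univ_inter,
    ENNReal.ofReal_mul Real.pi_pos.le]
  refine le_of_eq ?_
  congr 1
  rw [Set.uIoc, Real.volume_Ioc, max_sub_min_eq_abs]

namespace Dat

variable {n : ℕ} (D : Dat n)

theorem wt_nonneg (i j : Fin n) : 0 ≤ D.wt i j := mul_nonneg (D.hs0 i) (by positivity)

theorem Z_im (z : ℂ) : (D.Z z).im = ∑ i, ∑ j, D.wt i j *
    ((Complex.log ((D.x' j : ℂ) - z)).im - (Complex.log ((D.x i : ℂ) - z)).im) := by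
  unfold Z
  rw [Complex.im_sum]
  refine Finset.sum_congr rfl fun i _ => ?_
  rw [Complex.im_sum]
  refine Finset.sum_congr rfl fun j _ => ?_
  rw [Complex.im_ofReal_mul, Complex.sub_im]

theorem abs_Z_im_le (z : ℂ) : |(D.Z z).im| ≤ ∑ i, ∑ j, D.wt i j *
    |(Complex.log ((D.x' j : ℂ) - z)).im - (Complex.log ((D.x i : ℂ) - z)).im| := by
  rw [Z_im]
  refine (Finset.abs_sum_le_sum_abs _ _).trans (Finset.sum_le_sum fun i _ => ?_)
  refine (Finset.abs_sum_le_sum_abs _ _).trans (Finset.sum_le_sum fun j _ => ?_)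
  rw [abs_mul, abs_of_nonneg (D.wt_nonneg i j)]

theorem psi_le (hA1 : Stmt_A1) (hA2 : Stmt_A2) (hA3 : Stmt_A3) (hA9 : Stmt_A9) {z : ℂ}
    (hz : 0 < z.im) : |D.Psi z| ≤ V1 (D.I z) (D.k z) ∧ V1 (D.I z) (D.k z) ≤ n := by
  obtain ⟨φ⟩ := hA1 n (D.I z) (D.k z) (D.I_posDef hz) (D.k_posDef hz)
  have hI4 : Inv4 (D.F z) (D.Fi z) (D.I z) (D.k z) :=
    ⟨D.F_Fi hz, D.Fi_F hz, D.F_im _, D.Fi_im _⟩
  have h1 := (hA9 n (D.F z) (D.Fi z) (D.I z) (D.k z) (D.Ig z) 0 0 hI4 φ (D.Ig_psd hz)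
    (D.I_sub_Ig_psd hz)).1
  have h2 := (hA3 n (D.I z) (D.k z) φ).2.1
  have h3 := (hA2 n _ _ _ _ hI4 φ).2.2
  rw [h2]
  refine ⟨h1, ?_⟩
  calc ∑ i, φ.sg i ≤ ∑ _i : Fin n, (1 : ℝ) := Finset.sum_le_sum fun i _ => h3 i
    _ = n := by simp

/-- bound for all eigenvalues -/
noncomputable def Mx : ℝ := 1 + ∑ i, |D.x i| + ∑ i, |D.x' i|

theorem Mx_pos : 1 ≤ D.Mx := by
  unfold Mx
  have h1 : 0 ≤ ∑ i, |D.x i| := Finset.sum_nonneg fun i _ => abs_nonneg _
  have h2 : 0 ≤ ∑ i, |D.x' i| := Finset.sum_nonneg fun i _ => abs_nonneg _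
  linarith

theorem x_le (i : Fin n) : |D.x i| ≤ D.Mx := by
  unfold Mx
  have h1 : |D.x i| ≤ ∑ i, |D.x i| :=
    Finset.single_le_sum (f := fun i => |D.x i|) (fun i _ => abs_nonneg _) (Finset.mem_univ i)
  have h2 : 0 ≤ ∑ i, |D.x' i| := Finset.sum_nonneg fun i _ => abs_nonneg _
  linarith

theorem x'_le (i : Fin n) : |D.x' i| ≤ D.Mx := by
  unfold Mx
  have h1 : |D.x' i| ≤ ∑ i, |D.x' i| :=
    Finset.single_le_sum (f := fun i => |D.x' i|) (fun i _ => abs_nonneg _) (Finset.mem_univ i)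
  have h2 : 0 ≤ ∑ i, |D.x i| := Finset.sum_nonneg fun i _ => abs_nonneg _
  linarith

end Dat

/-- far from the spectrum -/
theorem far_sq {t M : ℝ} (ht : |t| ≤ M) (hM : 1 ≤ M) {x : ℝ} (hx : 2 * M ≤ |x|) :
    x ^ 2 / 4 ≤ (t - x) ^ 2 := by
  have h1 : |x| - |t| ≤ |t - x| := by
    have := abs_sub_abs_le_abs_sub x t
    rw [abs_sub_comm] at this
    exact this
  have h2 : |x| / 2 ≤ |t - x| := by linarith
  have h3 : (|x| / 2) ^ 2 ≤ |t - x| ^ 2 := by
    have : 0 ≤ |x| / 2 := by positivity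
    gcongr
  rw [sq_abs] at h3
  rw [div_pow, sq_abs] at h3
  linarith

theorem far_P {t M : ℝ} (ht : |t| ≤ M) (hM : 1 ≤ M) {z : ℂ} (hz : 0 < z.im)
    (hx : 2 * M ≤ |z.re|) : P t z ≤ 4 * z.im / z.re ^ 2 := by
  have h1 := far_sq ht hM hx
  have h0 : 0 < z.re ^ 2 := by
    have : 0 < |z.re| := by linarith
    have : z.re ≠ 0 := abs_pos.1 this
    positivity
  unfold P
  have h2 : 0 < z.re ^ 2 / 4 := by positivity
  calc z.im / ((t - z.re) ^ 2 + z.im ^ 2) ≤ z.im / (z.re ^ 2 / 4) := by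
        refine div_le_div_of_nonneg_left hz.le h2 ?_
        nlinarith [sq_nonneg z.im]
    _ = 4 * z.im / z.re ^ 2 := by field_simp

theorem far_inv {t M : ℝ} (ht : |t| ≤ M) (hM : 1 ≤ M) {z : ℂ}
    (hx : 2 * M ≤ |z.re|) : ‖((t : ℂ) - z)⁻¹‖ ≤ 2 / |z.re| := by
  have h0 : 0 < |z.re| := by linarith
  rw [norm_inv]
  have h1 : |z.re| / 2 ≤ ‖(t : ℂ) - z‖ := by
    have h2 := Complex.abs_re_le_norm ((t : ℂ) - z)
    simp only [Complex.sub_re, Complex.ofReal_re] at h2
    have h3 : |z.re| - |t| ≤ |t - z.re| := by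
      have := abs_sub_abs_le_abs_sub z.re t
      rw [abs_sub_comm] at this
      exact this
    linarith
  calc ‖(t : ℂ) - z‖⁻¹ ≤ (|z.re| / 2)⁻¹ := by
        gcongr
    _ = 2 / |z.re| := by rw [inv_div]

theorem far_arg {a b M : ℝ} (ha : |a| ≤ M) (hb : |b| ≤ M) (hM : 1 ≤ M) {z : ℂ} (hz : 0 < z.im)
    (hx : 2 * M ≤ |z.re|) :
    |(Complex.log ((b : ℂ) - z)).im - (Complex.log ((a : ℂ) - z)).im| ≤
      4 * z.im / z.re ^ 2 * |b - a| := by
  rw [arg_diff a b hz, ← Real.norm_eq_abs]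
  refine intervalIntegral.norm_integral_le_of_norm_le_const fun t ht => ?_
  rw [Real.norm_of_nonneg (P_pos t hz).le]
  refine far_P ?_ hM hz hx
  rw [Set.mem_uIoc] at ht
  rw [abs_le] at ha hb ⊢
  rcases ht with ht | ht <;> constructor <;> linarith [ht.1, ht.2]

namespace Dat

variable {n : ℕ} (D : Dat n)

/-- `Fi` as a function of the numbers `(x' j - z)⁻¹` -/
noncomputable def FiU (u : Fin n → ℂ) : Mat n :=
  D.V - D.V * (D.U * diagonal u * D.Uᴴ) * D.V

theorem cont_FiU : Continuous D.FiU :=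
  continuous_const.sub ((continuous_const.mul ((continuous_const.mul
    continuous_id.matrix_diagonal).mul continuous_const)).mul continuous_const)

theorem Fi_FiU (z : ℂ) : D.Fi z = D.FiU (fun i => ((D.x' i : ℂ) - z)⁻¹) := rfl

theorem FiU_bound : ∃ B : ℝ, 0 ≤ B ∧ ∀ u : Fin n → ℂ, ‖u‖ ≤ 1 → ∀ i, |(D.FiU u i i).re| ≤ B := by
  have h : ∀ i : Fin n, ∃ B : ℝ, ∀ u : Fin n → ℂ, ‖u‖ ≤ 1 → |(D.FiU u i i).re| ≤ B := by
    intro i
    have hc : Continuous fun u => D.FiU u i i := (D.cont_FiU).matrix_elem i i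
    obtain ⟨B, hB⟩ := (isCompact_closedBall (0 : Fin n → ℂ) 1).exists_bound_of_continuousOn
      hc.continuousOn
    refine ⟨B, fun u hu => (Complex.abs_re_le_norm _).trans (hB u ?_)⟩
    simpa using hu
  choose B hB using h
  refine ⟨∑ i, |B i|, Finset.sum_nonneg fun i _ => abs_nonneg _, fun u hu i => ?_⟩
  refine (hB i u hu).trans ((le_abs_self _).trans ?_)
  exact Finset.single_le_sum (f := fun i => |B i|) (fun i _ => abs_nonneg _) (Finset.mem_univ i)

theorem far_Psi : ∃ B : ℝ, 0 ≤ B ∧ ∀ z : ℂ, 0 < z.im → 2 * D.Mx ≤ |z.re| →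
    |D.Psi z| ≤ 4 * z.im / z.re ^ 2 * B := by
  obtain ⟨B, hB0, hB⟩ := D.FiU_bound
  refine ⟨n * B, by positivity, fun z hz hx => ?_⟩
  have hM := D.Mx_pos
  have h0 : 0 < |z.re| := by linarith
  have hu : ‖(fun i => ((D.x' i : ℂ) - z)⁻¹ : Fin n → ℂ)‖ ≤ 1 := by
    rw [pi_norm_le_iff_of_nonneg zero_le_one]
    intro i
    refine (far_inv (D.x'_le i) hM hx).trans ?_
    rw [div_le_one h0]
    linarith
  unfold Psi Ig
  rw [rtr_mul_dg]
  refine (Finset.abs_sum_le_sum_abs _ _).trans ?_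
  have : ∀ i ∈ (Finset.univ : Finset (Fin n)), |(D.Fi z i i).re * (D.s i * P (D.x i) z)| ≤
      B * (4 * z.im / z.re ^ 2) := by
    intro i _
    rw [abs_mul]
    have h1 : |(D.Fi z i i).re| ≤ B := by rw [Fi_FiU]; exact hB _ hu i
    have h2 : |D.s i * P (D.x i) z| ≤ 4 * z.im / z.re ^ 2 := by
      rw [abs_of_nonneg (mul_nonneg (D.hs0 i) (P_pos _ hz).le)]
      have h3 := far_P (D.x_le i) hM hz hx
      have h4 := D.hs1 i
      have h5 := P_pos (D.x i) hz
      nlinarith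
    exact mul_le_mul h1 h2 (abs_nonneg _) hB0
  refine (Finset.sum_le_sum this).trans (le_of_eq ?_)
  rw [Finset.sum_const, Finset.card_univ, Fintype.card_fin, nsmul_eq_mul]
  ring

/-- part (a) -/
theorem decay_Wf (hA1 : Stmt_A1) (hA2 : Stmt_A2) (hA3 : Stmt_A3) (hA9 : Stmt_A9) {b : ℝ}
    (hb : 0 < b) : ∃ C : ℝ, ∀ z : ℂ, 0 < z.im → z.im ≤ b → |D.Wf z| ≤ C / (1 + z.re ^ 2) := by
  obtain ⟨B, hB0, hB⟩ := D.far_Psi
  set K1 : ℝ := (∑ i, ∑ j, D.wt i j * |D.x' j - D.x i|) + B with hK1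
  set K2 : ℝ := (∑ i, ∑ j, D.wt i j * (2 * Real.pi)) + n with hK2
  have hK1p : 0 ≤ K1 := by
    have : 0 ≤ ∑ i, ∑ j, D.wt i j * |D.x' j - D.x i| :=
      Finset.sum_nonneg fun i _ => Finset.sum_nonneg fun j _ =>
        mul_nonneg (D.wt_nonneg i j) (abs_nonneg _)
    linarith
  have hK2p : 0 ≤ K2 := by
    have : 0 ≤ ∑ i, ∑ j, D.wt i j * (2 * Real.pi) :=
      Finset.sum_nonneg fun i _ => Finset.sum_nonneg fun j _ =>
        mul_nonneg (D.wt_nonneg i j) (by positivity)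
    have : (0 : ℝ) ≤ n := by positivity
    linarith
  have hM := D.Mx_pos
  refine ⟨K1 * (8 * b) + K2 * (1 + (2 * D.Mx) ^ 2), fun z hz hzb => ?_⟩
  have hpos : 0 < 1 + z.re ^ 2 := by positivity
  rw [le_div_iff₀ hpos]
  have hW : |D.Wf z| ≤ |(D.Z z).im| + |D.Psi z| := by
    unfold Wf
    exact abs_sub _ _
  have hp1 : 0 ≤ K1 * (8 * b) := by positivity
  have hp2 : 0 ≤ K2 * (1 + (2 * D.Mx) ^ 2) := by positivity
  rcases le_total (2 * D.Mx) |z.re| with hx | hx
  · have h0 : 0 < |z.re| := by linarith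
    have hre : 1 ≤ z.re ^ 2 := by
      rw [← sq_abs]
      nlinarith
    have h1 : |D.Wf z| ≤ 4 * z.im / z.re ^ 2 * K1 := by
      have h2 : |(D.Z z).im| ≤ 4 * z.im / z.re ^ 2 * ∑ i, ∑ j, D.wt i j * |D.x' j - D.x i| := by
        refine (D.abs_Z_im_le z).trans ?_
        rw [Finset.mul_sum]
        refine Finset.sum_le_sum fun i _ => ?_
        rw [Finset.mul_sum]
        refine Finset.sum_le_sum fun j _ => ?_
        rw [mul_left_comm]
        exact mul_le_mul_of_nonneg_left (far_arg (D.x_le i) (D.x'_le j) hM hz hx)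
          (D.wt_nonneg i j)
      have h3 := hB z hz hx
      rw [hK1, mul_add]
      linarith
    have h4 : 4 * z.im / z.re ^ 2 * K1 * (1 + z.re ^ 2) ≤ K1 * (8 * b) := by
      have h5 : 4 * z.im / z.re ^ 2 * (1 + z.re ^ 2) ≤ 8 * b := by
        rw [div_mul_eq_mul_div, div_le_iff₀ (by linarith)]
        nlinarith
      calc 4 * z.im / z.re ^ 2 * K1 * (1 + z.re ^ 2) =
            K1 * (4 * z.im / z.re ^ 2 * (1 + z.re ^ 2)) := by ring
        _ ≤ K1 * (8 * b) := mul_le_mul_of_nonneg_left h5 hK1p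
    have h6 := mul_le_mul_of_nonneg_right h1 hpos.le
    linarith
  · have h1 : |D.Wf z| ≤ K2 := by
      have h2 : |(D.Z z).im| ≤ ∑ i, ∑ j, D.wt i j * (2 * Real.pi) := by
        refine (D.abs_Z_im_le z).trans (Finset.sum_le_sum fun i _ => Finset.sum_le_sum fun j _ => ?_)
        refine mul_le_mul_of_nonneg_left ?_ (D.wt_nonneg i j)
        rw [Complex.log_im, Complex.log_im]
        refine (abs_sub _ _).trans ?_
        have := Complex.abs_arg_le_pi ((D.x' j : ℂ) - z)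
        have := Complex.abs_arg_le_pi ((D.x i : ℂ) - z)
        linarith
      have h3 := D.psi_le hA1 hA2 hA3 hA9 hz
      rw [hK2]
      linarith [h3.1, h3.2]
    have h4 : z.re ^ 2 ≤ (2 * D.Mx) ^ 2 := by
      rw [← sq_abs]
      gcongr
    calc |D.Wf z| * (1 + z.re ^ 2) ≤ K2 * (1 + (2 * D.Mx) ^ 2) := by
          refine mul_le_mul h1 (by linarith) hpos.le hK2p
      _ ≤ _ := by linarith

/-- `wz` as a function of `(x i - z)⁻¹`, `(x' j - z)⁻¹` -/
noncomputable def wU (p : (Fin n → ℂ) × (Fin n → ℂ)) : ℂ :=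
  -(1 / 2) * trace (D.V * D.U * dg (fun i => (p.2 i).im) * D.Uᴴ * D.V *
      diagonal (fun i => (D.s i : ℂ) * p.1 i ^ 2)) +
    1 / 2 * trace (D.FiU p.2 * diagonal (fun i => p.1 i ^ 2) * D.FiU p.2 *
      dg (fun i => D.s i * (p.1 i).im))

theorem cont_wU : Continuous D.wU := by
  have h1 : Continuous fun p : (Fin n → ℂ) × (Fin n → ℂ) => D.FiU p.2 :=
    D.cont_FiU.comp continuous_snd
  have h2 : Continuous fun p : (Fin n → ℂ) × (Fin n → ℂ) =>
      (diagonal (fun i => p.1 i ^ 2) : Mat n) := by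
    refine Continuous.matrix_diagonal ?_
    fun_prop
  have h3 : Continuous fun p : (Fin n → ℂ) × (Fin n → ℂ) =>
      (dg (fun i => D.s i * (p.1 i).im) : Mat n) := by
    unfold dg
    refine Continuous.matrix_diagonal ?_
    fun_prop
  have h4 : Continuous fun p : (Fin n → ℂ) × (Fin n → ℂ) =>
      (dg (fun i => (p.2 i).im) : Mat n) := by
    unfold dg
    refine Continuous.matrix_diagonal ?_
    fun_prop
  have h5 : Continuous fun p : (Fin n → ℂ) × (Fin n → ℂ) =>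
      (diagonal (fun i => (D.s i : ℂ) * p.1 i ^ 2) : Mat n) := by
    refine Continuous.matrix_diagonal ?_
    fun_prop
  have a1 := (((((continuous_const (y := D.V * D.U)).mul h4).mul
    (continuous_const (y := D.Uᴴ))).mul (continuous_const (y := D.V))).mul h5).matrix_trace
  have a2 := (((h1.mul h2).mul h1).mul h3).matrix_trace
  exact (continuous_const.mul a1).add (continuous_const.mul a2)

theorem wU_zero : D.wU 0 = 0 := by
  unfold wU
  have h1 : (diagonal (fun i => (D.s i : ℂ) * (0 : (Fin n → ℂ) × (Fin n → ℂ)).1 i ^ 2) : Mat n) =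
      0 := by
    rw [← diagonal_zero]
    congr 1
    funext i
    simp
  have h2 : (dg (fun i => D.s i * ((0 : (Fin n → ℂ) × (Fin n → ℂ)).1 i).im) : Mat n) = 0 := by
    rw [← dg_zero]
    congr 1
    funext i
    simp
  rw [h1, h2]
  simp

theorem wz_wU (z : ℂ) : D.wz z =
    D.wU (fun i => ((D.x i : ℂ) - z)⁻¹, fun i => ((D.x' i : ℂ) - z)⁻¹) := by
  unfold wz wU k Ig dG dF
  simp only [inv_im]
  rfl

/-- part (b) -/
theorem decay_wz {c d : ℝ} (hc : 0 < c) {δ : ℝ} (hδ : 0 < δ) : ∃ R₀ : ℝ, ∀ z : ℂ,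
    c ≤ z.im → z.im ≤ d → R₀ ≤ |z.re| → ‖D.wz z‖ ≤ δ := by
  have h := Metric.continuous_iff.1 D.cont_wU 0 δ hδ
  obtain ⟨η, hη, h⟩ := h
  refine ⟨max (2 * D.Mx) (4 / η), fun z _ _ hx => ?_⟩
  have hM := D.Mx_pos
  have hx1 : 2 * D.Mx ≤ |z.re| := (le_max_left _ _).trans hx
  have hx2 : 4 / η ≤ |z.re| := (le_max_right _ _).trans hx
  have h0 : 0 < |z.re| := by linarith
  have hs : 2 / |z.re| < η := by
    rw [div_lt_iff₀ h0]
    rw [div_le_iff₀ hη] at hx2
    linarith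
  rw [wz_wU]
  have h1 := h (fun i => ((D.x i : ℂ) - z)⁻¹, fun i => ((D.x' i : ℂ) - z)⁻¹) (by
    rw [dist_zero_right, Prod.norm_def]
    refine max_lt ?_ ?_
    · refine lt_of_le_of_lt ?_ hs
      rw [pi_norm_le_iff_of_nonneg (by positivity)]
      exact fun i => far_inv (D.x_le i) hM hx1
    · refine lt_of_le_of_lt ?_ hs
      rw [pi_norm_le_iff_of_nonneg (by positivity)]
      exact fun i => far_inv (D.x'_le i) hM hx1)
  rw [wU_zero, dist_zero_right] at h1
  exact h1.le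

/-- part (c) -/
theorem int_Wf (hA1 : Stmt_A1) (hA2 : Stmt_A2) (hA3 : Stmt_A3) (hA9 : Stmt_A9) (hD2 : Stmt_D2)
    (hK2 : Stmt_K2) : ∃ C : ℝ, ∀ y : ℝ, 0 < y → ∫ x : ℝ, |D.Wf (x + y * Complex.I)| ≤ C := by
  set C1 : ℝ := ∑ i, ∑ j, D.wt i j * (Real.pi * |D.x' j - D.x i|) with hC1
  refine ⟨C1 + Real.pi * D.rho, fun y hy => ?_⟩
  have him : ∀ x : ℝ, 0 < ((x : ℂ) + y * Complex.I).im := fun x => by simpa using hy
  have hC1p : 0 ≤ C1 := Finset.sum_nonneg fun i _ => Finset.sum_nonneg fun j _ =>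
    mul_nonneg (D.wt_nonneg i j) (by positivity)
  have hrho : 0 ≤ D.rho := Finset.sum_nonneg fun i _ => abs_nonneg _
  have hmeas : ∀ t : ℝ, Measurable fun x : ℝ =>
      (Complex.log ((t : ℂ) - (x + y * Complex.I))).im := by
    intro t
    refine Complex.measurable_im.comp (Complex.measurable_log.comp ?_)
    fun_prop
  have hm : ∀ i j, Measurable fun x : ℝ => ENNReal.ofReal (D.wt i j *
      |(Complex.log ((D.x' j : ℂ) - (x + y * Complex.I))).im -
        (Complex.log ((D.x i : ℂ) - (x + y * Complex.I))).im|) := by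
    intro i j
    refine ENNReal.measurable_ofReal.comp (measurable_const.mul ?_)
    exact (((hmeas (D.x' j)).sub (hmeas (D.x i))).norm)
  have hb : ∀ x : ℝ, ENNReal.ofReal ‖|D.Wf (x + y * Complex.I)|‖ ≤
      (∑ i, ∑ j, ENNReal.ofReal (D.wt i j *
      |(Complex.log ((D.x' j : ℂ) - (x + y * Complex.I))).im -
        (Complex.log ((D.x i : ℂ) - (x + y * Complex.I))).im|)) +
      ENNReal.ofReal (V1 (D.I (x + y * Complex.I)) (D.k (x + y * Complex.I))) := by
    intro x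
    have h1 := D.psi_le hA1 hA2 hA3 hA9 (him x)
    have h2 := D.abs_Z_im_le (x + y * Complex.I)
    have h3 : ‖|D.Wf (x + y * Complex.I)|‖ ≤ (∑ i, ∑ j, D.wt i j *
      |(Complex.log ((D.x' j : ℂ) - (x + y * Complex.I))).im -
        (Complex.log ((D.x i : ℂ) - (x + y * Complex.I))).im|) +
        V1 (D.I (x + y * Complex.I)) (D.k (x + y * Complex.I)) := by
      rw [Real.norm_eq_abs, abs_abs]
      unfold Wf
      exact (abs_sub _ _).trans (add_le_add h2 h1.1)
    refine (ENNReal.ofReal_le_ofReal h3).trans ?_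
    refine ENNReal.ofReal_add_le.trans ?_
    gcongr
    rw [ENNReal.ofReal_sum_of_nonneg fun i _ => Finset.sum_nonneg fun j _ =>
      mul_nonneg (D.wt_nonneg i j) (abs_nonneg _)]
    refine Finset.sum_le_sum fun i _ => ?_
    rw [ENNReal.ofReal_sum_of_nonneg fun j _ => mul_nonneg (D.wt_nonneg i j) (abs_nonneg _)]
  have hl : ∫⁻ x : ℝ, ENNReal.ofReal ‖|D.Wf (x + y * Complex.I)|‖ ≤
      ENNReal.ofReal (C1 + Real.pi * D.rho) := by
    refine (lintegral_mono hb).trans ?_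
    rw [lintegral_add_left (Finset.measurable_fun_sum _ fun i _ =>
      Finset.measurable_fun_sum _ fun j _ => hm i j), ENNReal.ofReal_add hC1p (by positivity)]
    refine add_le_add ?_ (hD2 n D y hy)
    rw [lintegral_finsetSum _ fun i _ => Finset.measurable_fun_sum _ fun j _ => hm i j, hC1,
      ENNReal.ofReal_sum_of_nonneg fun i _ => Finset.sum_nonneg fun j _ =>
        mul_nonneg (D.wt_nonneg i j) (by positivity)]
    refine Finset.sum_le_sum fun i _ => ?_
    rw [lintegral_finsetSum _ fun j _ => hm i j,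
      ENNReal.ofReal_sum_of_nonneg fun j _ => mul_nonneg (D.wt_nonneg i j) (by positivity)]
    refine Finset.sum_le_sum fun j _ => ?_
    have hm' : Measurable fun x : ℝ => ENNReal.ofReal
        |(Complex.log ((D.x' j : ℂ) - (x + y * Complex.I))).im -
          (Complex.log ((D.x i : ℂ) - (x + y * Complex.I))).im| :=
      ENNReal.measurable_ofReal.comp (((hmeas (D.x' j)).sub (hmeas (D.x i))).norm)
    simp only [ENNReal.ofReal_mul (D.wt_nonneg i j)]
    rw [lintegral_const_mul _ hm']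
    gcongr
    exact arg_lint hK2 (D.x i) (D.x' j) y hy
  have h1 := norm_integral_le_lintegral_norm (μ := volume)
    (fun x : ℝ => |D.Wf (x + y * Complex.I)|)
  have h2 : (∫⁻ x : ℝ, ENNReal.ofReal ‖|D.Wf (x + y * Complex.I)|‖).toReal ≤
      C1 + Real.pi * D.rho := ENNReal.toReal_le_of_le_ofReal (by positivity) hl
  exact ((le_abs_self _).trans h1).trans h2

end Dat

theorem stmt_D4 (hA1 : Stmt_A1) (hA2 : Stmt_A2) (hA3 : Stmt_A3) (hA9 : Stmt_A9) (hD2 : Stmt_D2)
    (hK2 : Stmt_K2) : Stmt_D4 := fun _ D =>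
  ⟨fun _ hb => D.decay_Wf hA1 hA2 hA3 hA9 hb, fun _ _ hc _ hδ => D.decay_wz hc hδ,
    D.int_Wf hA1 hA2 hA3 hA9 hD2 hK2⟩

end Pool.LG
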