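import Pool.Agent.Work.LipGraph.D1

/-!
# Block D5: boundary values of `Wf`
-/

open Matrix Filter Topology
open scoped ComplexOrder

namespace Pool.LG

/-- boundary values of the argument -/
theorem arg_bdry {t x : ℝ} (h : x ≠ t) :
    Tendsto (fun y : ℝ => (Complex.log ((t : ℂ) - (x + y * Complex.I))).im)
      (𝓝[>] (0 : ℝ)) (𝓝 (if x < t then 0 else -Real.pi)) := by
  have hc : Tendsto (fun y : ℝ => (t : ℂ) - (x + y * Complex.I)) (𝓝[>] (0 : ℝ))
      (𝓝 ((t : ℂ) - x)) := by
    have : Continuous fun y : ℝ => (t : ℂ) - (x + y * Complex.I) := by fun_prop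
    have h2 := (this.tendsto 0).mono_left (nhdsWithin_le_nhds (s := Set.Ioi 0))
    simpa using h2
  simp only [Complex.log_im]
  by_cases hx : x < t
  · rw [if_pos hx]
    have hs : ((t : ℂ) - x) ∈ Complex.slitPlane := by
      rw [Complex.mem_slitPlane_iff]
      left
      simpa using hx
    have h3 := (Complex.continuousAt_arg hs).tendsto.comp hc
    have h4 : Complex.arg ((t : ℂ) - x) = 0 := by
      rw [← Complex.ofReal_sub]
      exact Complex.arg_ofReal_of_nonneg (by linarith)
    rw [h4] at h3
    exact h3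
  · rw [if_neg hx]
    have hx' : t < x := lt_of_le_of_ne (not_lt.1 hx) (Ne.symm h)
    have h3 := Complex.tendsto_arg_nhdsWithin_im_neg_of_re_neg_of_im_zero
      (z := (t : ℂ) - x) (by simpa using hx') (by simp)
    refine h3.comp ?_
    rw [tendsto_nhdsWithin_iff]
    refine ⟨hc, ?_⟩
    filter_upwards [self_mem_nhdsWithin] with y hy
    simpa using hy

namespace Dat

variable {n : ℕ} (D : Dat n)

theorem contAt_diag {d : Fin n → ℂ → ℂ} {z : ℂ} (h : ∀ i, ContinuousAt (d i) z) :
    ContinuousAt (fun z => (diagonal (fun i => d i z) : Mat n)) z :=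
  ContinuousAt.comp (g := fun v : Fin n → ℂ => (diagonal v : Mat n)) (f := fun z i => d i z)
    (continuous_id.matrix_diagonal).continuousAt (continuousAt_pi.2 h)

theorem contAt_Psi {x : ℝ} (h : ∀ i, x ≠ D.x i) (h' : ∀ i, x ≠ D.x' i) :
    ContinuousAt D.Psi (x : ℂ) := by
  have h1 : ContinuousAt D.R' (x : ℂ) := by
    have : ContinuousAt (fun z => (diagonal (fun i => ((D.x' i : ℂ) - z)⁻¹) : Mat n)) (x : ℂ) := by
      refine contAt_diag fun i => ContinuousAt.inv₀ (by fun_prop) ?_
      rw [← Complex.ofReal_sub]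
      exact Complex.ofReal_ne_zero.2 (sub_ne_zero.2 (Ne.symm (h' i)))
    exact (continuousAt_const.mul this).mul continuousAt_const
  have h2 : ContinuousAt D.Fi (x : ℂ) :=
    continuousAt_const.sub ((continuousAt_const.mul h1).mul continuousAt_const)
  have h3 : ContinuousAt D.Ig (x : ℂ) := by
    refine contAt_diag fun i => ?_
    refine Complex.continuous_ofReal.continuousAt.comp ?_
    refine continuousAt_const.mul ?_
    unfold P
    refine ContinuousAt.div (by fun_prop) (by fun_prop) ?_
    simp only [Complex.ofReal_re, Complex.ofReal_im]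
    have : D.x i - x ≠ 0 := sub_ne_zero.2 (Ne.symm (h i))
    positivity
  have h4 : ContinuousAt (fun z => D.Fi z * D.Ig z) (x : ℂ) := h2.mul h3
  have h5 : Continuous (fun A : Mat n => rtr A) :=
    Complex.continuous_re.comp continuous_id.matrix_trace
  exact ContinuousAt.comp (g := fun A : Mat n => rtr A) h5.continuousAt h4

theorem Psi_real (x : ℝ) : D.Psi (x : ℂ) = 0 := by
  have : D.Ig (x : ℂ) = 0 := by
    unfold Ig P
    rw [← dg_zero]
    congr 1
    funext i
    simp
  unfold Psi
  rw [this, Matrix.mul_zero, rtr_zero]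

end Dat

theorem stmt_D5 : Stmt_D5 := by
  intro n D x h h'
  have hP : Tendsto (fun y : ℝ => D.Psi (x + y * Complex.I)) (𝓝[>] (0 : ℝ)) (𝓝 0) := by
    have hc : Tendsto (fun y : ℝ => (x : ℂ) + y * Complex.I) (𝓝[>] (0 : ℝ)) (𝓝 (x : ℂ)) := by
      have : Continuous fun y : ℝ => (x : ℂ) + y * Complex.I := by fun_prop
      have h2 := (this.tendsto 0).mono_left (nhdsWithin_le_nhds (s := Set.Ioi 0))
      simpa using h2
    have h3 := (D.contAt_Psi h h').tendsto.comp hc
    rw [D.Psi_real] at h3
    exact h3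
  have hZ : Tendsto (fun y : ℝ => (D.Z (x + y * Complex.I)).im) (𝓝[>] (0 : ℝ))
      (𝓝 (D.W0 x)) := by
    have e : (fun y : ℝ => (D.Z (x + y * Complex.I)).im) = fun y : ℝ => ∑ i, ∑ j, D.wt i j *
        ((Complex.log ((D.x' j : ℂ) - (x + y * Complex.I))).im -
          (Complex.log ((D.x i : ℂ) - (x + y * Complex.I))).im) := by
      funext y
      unfold Dat.Z
      rw [Complex.im_sum]
      refine Finset.sum_congr rfl fun i _ => ?_
      rw [Complex.im_sum]
      refine Finset.sum_congr rfl fun j _ => ?_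
      rw [Complex.im_ofReal_mul, Complex.sub_im]
    rw [e]
    have e2 : D.W0 x = ∑ i, ∑ j, D.wt i j *
        ((if x < D.x' j then 0 else -Real.pi) - (if x < D.x i then 0 else -Real.pi)) := by
      unfold Dat.W0
      rw [Finset.mul_sum]
      refine Finset.sum_congr rfl fun i _ => ?_
      rw [Finset.mul_sum]
      refine Finset.sum_congr rfl fun j _ => ?_
      by_cases h1 : x < D.x' j <;> by_cases h2 : x < D.x i <;> simp [h1, h2] <;> ring
    rw [e2]
    exact tendsto_finsetSum _ fun i _ => tendsto_finsetSum _ fun j _ =>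
      ((arg_bdry (h' j)).sub (arg_bdry (h i))).const_mul _
  have := hZ.sub hP
  rw [sub_zero] at this
  exact this

end Pool.LG
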