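import Pool.Agent.Work.LipGraph.Basic

/-!
# Block D6: identification of the limit
-/

open Matrix MeasureTheory
open scoped ComplexOrder

namespace Pool.LG

theorem D6_one (φ p : ℝ → ℝ) (hp : Continuous p) (hc : HasCompactSupport p)
    (hd : ∀ x, HasDerivAt φ (p x) x) (a b : ℝ) :
    Integrable (fun x : ℝ => p x * ((if x < b then 1 else 0) - (if x < a then 1 else 0))) ∧
    ∫ x : ℝ, p x * ((if x < b then 1 else 0) - (if x < a then 1 else 0)) = φ b - φ a := by
  have hi : Integrable p := hp.integrable_of_hasCompactSupport hc
  have e : ∀ c : ℝ, (fun x : ℝ => p x * (if x < c then (1 : ℝ) else 0)) =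
      (Set.Iio c).indicator p := by
    intro c
    funext x
    by_cases h : x < c <;> simp [Set.indicator, h]
  have hI : ∀ c : ℝ, Integrable (fun x : ℝ => p x * (if x < c then (1 : ℝ) else 0)) := by
    intro c
    rw [e]
    exact hi.indicator measurableSet_Iio
  have hS : (fun x : ℝ => p x * ((if x < b then (1 : ℝ) else 0) - (if x < a then 1 else 0))) =
      fun x => p x * (if x < b then (1 : ℝ) else 0) - p x * (if x < a then (1 : ℝ) else 0) := by
    funext x; ring
  rw [hS]
  refine ⟨(hI b).sub (hI a), ?_⟩
  rw [integral_sub (hI b) (hI a), e, e, integral_indicator measurableSet_Iio,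
    integral_indicator measurableSet_Iio, ← integral_Iic_eq_integral_Iio,
    ← integral_Iic_eq_integral_Iio,
    intervalIntegral.integral_Iic_sub_Iic hi.integrableOn hi.integrableOn]
  exact intervalIntegral.integral_eq_sub_of_hasDerivAt (fun x _ => hd x)
    (hp.intervalIntegrable _ _)

theorem stmt_D6 : Stmt_D6 := by
  intro n D φ p hp hc hd
  have h := fun i j => D6_one φ p hp hc hd (D.x i) (D.x' j)
  have e : (fun x : ℝ => p x * D.W0 x) = fun x => Real.pi * ∑ i, ∑ j, D.wt i j *
      (p x * ((if x < D.x' j then 1 else 0) - (if x < D.x i then 1 else 0))) := by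
    funext x
    unfold Dat.W0
    rw [mul_left_comm, Finset.mul_sum]
    congr 1
    refine Finset.sum_congr rfl fun i _ => ?_
    rw [Finset.mul_sum]
    refine Finset.sum_congr rfl fun j _ => ?_
    ring
  rw [e, integral_const_mul, integral_finset_sum]
  · congr 1
    refine Finset.sum_congr rfl fun i _ => ?_
    rw [integral_finset_sum]
    · refine Finset.sum_congr rfl fun j _ => ?_
      rw [integral_const_mul, (h i j).2]
    · intro j _
      exact (h i j).1.const_mul _
  · intro i _
    exact integrable_finset_sum _ fun j _ => (h i j).1.const_mul _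

end Pool.LG
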