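import Pool.Agent.Work.LipGraph.A9

/-!
# Assembly of DI, part a: the energy data of diagonal data, continuity of the kernel
-/

open Matrix MeasureTheory
open scoped ComplexOrder

namespace Pool.LG

variable {n : ℕ}

theorem P_cont (t : ℝ) : ContinuousOn (P t) {z | 0 < z.im} := by
  unfold P
  refine ContinuousOn.div ?_ ?_ ?_
  · exact Complex.continuous_im.continuousOn
  · exact (((continuous_const.sub Complex.continuous_re).pow 2).add
      (Complex.continuous_im.pow 2)).continuousOn
  · intro z hz
    have : 0 < z.im := hz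
    positivity

theorem Har_cont {m : ℕ} (t : Fin m → ℝ) (E : Fin m → Mat n) :
    ContinuousOn (Har t E) {z | 0 < z.im} := by
  unfold Har
  refine continuousOn_finsetSum _ fun i _ => ?_
  have h : ContinuousOn (fun z => (P (t i) z : ℂ)) {z | 0 < z.im} :=
    Complex.continuous_ofReal.comp_continuousOn (P_cont (t i))
  exact h.smul (continuousOn_const (c := E i))

theorem dg_sum {ι : Type*} (s : Finset ι) (a : ι → Fin n → ℝ) :
    ∑ i ∈ s, dg (a i) = dg (fun j => ∑ i ∈ s, a i j) := by
  classical
  induction s using Finset.induction_on with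
  | empty => simp [dg_zero]
  | insert i s hi ih =>
    rw [Finset.sum_insert hi, ih, dg_add]
    congr 1
    funext j
    rw [Finset.sum_insert hi]

/-- real diagonal matrix unit times `c` -/
noncomputable def un (c : ℝ) (i : Fin n) : Mat n := dg (fun l => if l = i then c else 0)

theorem un_psd {c : ℝ} (hc : 0 ≤ c) (i : Fin n) : (un c i).PosSemidef := by
  refine dg_posSemidef fun l => ?_
  split_ifs
  · exact hc
  · exact le_rfl

theorem Har_un (x c : Fin n → ℝ) (z : ℂ) :
    Har x (fun i => un (c i) i) z = dg (fun i => c i * P (x i) z) := by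
  unfold Har un
  simp only [dg_smul]
  rw [dg_sum]
  congr 1
  funext j
  rw [Finset.sum_eq_single j]
  · rw [if_pos rfl, mul_comm]
  · intro b _ hb
    rw [if_neg (Ne.symm hb), mul_zero]
  · intro h
    exact absurd (Finset.mem_univ j) h

theorem un_apply (c : ℝ) (i a b : Fin n) :
    un c i a b = if a = b then (if a = i then (c : ℂ) else 0) else 0 := by
  unfold un dg
  by_cases h : a = b
  · subst h
    rw [diagonal_apply_eq, if_pos rfl]
    by_cases h2 : a = i
    · simp [h2]
    · simp [h2]
  · rw [diagonal_apply_ne _ h, if_neg h]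

theorem dHar_un (x c : Fin n → ℝ) (z : ℂ) :
    dHar x (fun i => un (c i) i) z = diagonal (fun i => (c i : ℂ) * ((x i : ℂ) - z)⁻¹ ^ 2) := by
  unfold dHar
  ext a b
  rw [Matrix.sum_apply]
  simp only [Matrix.smul_apply, un_apply, smul_eq_mul]
  by_cases h : a = b
  · subst h
    simp only [if_true, diagonal_apply_eq]
    rw [Finset.sum_eq_single a]
    · rw [if_pos rfl, mul_comm]
    · intro i _ hi
      rw [if_neg (Ne.symm hi), mul_zero]
    · intro h
      exact absurd (Finset.mem_univ a) h
  · rw [diagonal_apply_ne _ h]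
    refine Finset.sum_eq_zero fun i _ => ?_
    rw [if_neg h, mul_zero]

theorem Har_add {m : ℕ} (t : Fin m → ℝ) (E E' : Fin m → Mat n) (z : ℂ) :
    Har t (fun i => E i + E' i) z = Har t E z + Har t E' z := by
  unfold Har
  rw [← Finset.sum_add_distrib]
  exact Finset.sum_congr rfl fun i _ => smul_add _ _ _

theorem dHar_add {m : ℕ} (t : Fin m → ℝ) (E E' : Fin m → Mat n) (z : ℂ) :
    dHar t (fun i => E i + E' i) z = dHar t E z + dHar t E' z := by
  unfold dHar
  rw [← Finset.sum_add_distrib]
  exact Finset.sum_congr rfl fun i _ => smul_add _ _ _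

namespace Dat

variable (D : Dat n)

theorem V_Hf : D.Vᴴ = D.V := by
  unfold V
  rw [conjTranspose_mul, conjTranspose_mul, dg_H, conjTranspose_conjTranspose, Matrix.mul_assoc]

theorem Har_K (z : ℂ) :
    Har D.x' (fun j => D.V * D.U * un 1 j * (D.V * D.U)ᴴ) z = D.k z := by
  have e : ∀ j, (P (D.x' j) z : ℂ) • (D.V * D.U * un 1 j * (D.V * D.U)ᴴ) =
      D.V * D.U * ((P (D.x' j) z : ℂ) • un 1 j) * (D.V * D.U)ᴴ := by
    intro j
    rw [Matrix.mul_smul, Matrix.smul_mul]
  have e2 := Har_un D.x' (fun _ : Fin n => (1 : ℝ)) z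
  unfold Har at e2 ⊢
  simp only [e]
  rw [← Finset.sum_mul, ← Finset.mul_sum, e2]
  unfold k
  rw [conjTranspose_mul, D.V_Hf]
  simp only [one_mul]
  noncomm_ring

theorem Har_g (z : ℂ) : Har D.x (fun i => un (D.s i) i) z = D.Ig z := Har_un _ _ _

theorem Har_I (z : ℂ) : Har D.x (fun i => un (D.s i) i) z +
    Har D.x (fun i => un (1 - D.s i) i) z = D.I z := by
  rw [Har_un, Har_un, dg_add]
  unfold I
  congr 1
  funext i
  ring

/-- the energy data of diagonal data -/
noncomputable def en (h : Stmt_D1) : En n where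
  m := n
  m' := n
  t := D.x
  t' := D.x'
  Eg := fun i => un (D.s i) i
  Ek := fun i => un (1 - D.s i) i
  K := fun j => D.V * D.U * un 1 j * (D.V * D.U)ᴴ
  hEg := fun i => un_psd (D.hs0 i) i
  hEk := fun i => un_psd (by linarith [D.hs1 i]) i
  hK := fun i => psd_conj (un_psd zero_le_one i) _
  hI := fun z hz => by rw [D.Har_I]; exact (h n D z hz).2.1
  hk := fun z hz => by rw [D.Har_K]; exact (h n D z hz).2.2.1
  h1 := fun z hz => by
    rw [D.Har_I, D.Har_K]
    intro φ
    exact (A2 n _ _ _ _ (h n D z hz).1 φ).2.2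

variable (h : Stmt_D1)

theorem en_I (z : ℂ) : (D.en h).I z = D.I z := D.Har_I z
theorem en_Ig (z : ℂ) : (D.en h).Ig z = D.Ig z := D.Har_g z
theorem en_k (z : ℂ) : (D.en h).k z = D.k z := D.Har_K z

end Dat

end Pool.LG
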