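import Pool.Agent.Work.LipGraph.FINa
import Pool.Agent.Work.LipGraph.A1

/-!
# Assembly of DI, part b: the pointwise bound of `Δ(σ W)`
-/

open Matrix MeasureTheory
open scoped ComplexOrder

namespace Pool.LG

variable {n : ℕ}

theorem sphere_pos {z₀ z : ℂ} (hz₀ : 0 < z₀.im) (hz : z ∈ Metric.closedBall z₀ (z₀.im / 3)) :
    0 < z.im := by
  rw [Metric.mem_closedBall, dist_eq_norm] at hz
  have h1 : |(z - z₀).im| ≤ ‖z - z₀‖ := Complex.abs_im_le_norm _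
  rw [Complex.sub_im] at h1
  have h2 := neg_abs_le (z.im - z₀.im)
  linarith

theorem ci_of_cont {f : ℂ → ℝ} (hf : ContinuousOn f {z | 0 < z.im}) {z₀ : ℂ} (hz₀ : 0 < z₀.im) :
    CircleIntegrable f z₀ (z₀.im / 3) := by
  have h0 : 0 ≤ z₀.im / 3 := by linarith
  refine ContinuousOn.circleIntegrable h0 (hf.mono fun z hz => ?_)
  exact sphere_pos hz₀ (Metric.sphere_subset_closedBall hz)

theorem hs_cont : Continuous (hs : Mat n → ℝ) := by
  unfold hs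
  refine continuous_finsetSum _ fun i _ => continuous_finsetSum _ fun j _ => ?_
  exact ((continuous_apply_apply i j).norm).pow 2

theorem dHar_I (x s : Fin n → ℝ) (z : ℂ) :
    dHar x (fun i => un (s i) i + un (1 - s i) i) z =
      diagonal (fun i => ((x i : ℂ) - z)⁻¹ ^ 2) := by
  rw [dHar_add, dHar_un, dHar_un, diagonal_add]
  congr 1
  funext i
  push_cast
  ring

variable (D : Dat n)

/-- the value of `Δ(σ W)/4` -/
noncomputable def bz (H : ℂ → ℂ) (z : ℂ) : ℝ :=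
  ((starRingEnd ℂ) (deriv H z) * D.wz z).re + (H z).re * D.qz z

/-- the energies in a frame -/
theorem ener (hD1 : Stmt_D1) (hH1 : Stmt_H1) (hM1 : Stmt_M1) (hM2 : Stmt_M2) (hM3 : Stmt_M3)
    (hS2 : Stmt_S2) (hM0 : Stmt_M0) (H : ℂ → ℂ) (L : ℝ) (hL : 0 ≤ L)
    (hH : DifferentiableOn ℂ H {z | 0 < z.im})
    (hHL : ∀ z : ℂ, 0 < z.im → |(H z).re| ≤ L) (z₀ : ℂ) (hz₀ : 0 < z₀.im)
    (φ : Frame ((D.en hD1).I z₀) ((D.en hD1).k z₀)) :
    z₀.im ^ 2 * hs (φ.Qᴴ * D.dF z₀ * φ.Q) ≤ 72 * Df (ind (D.en hD1).a1) z₀ ∧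
    z₀.im ^ 2 * hs (φ.Qᴴ * D.dG z₀ * φ.Q) ≤ 108 * Df (ind (D.en hD1).a2) z₀ ∧
    z₀.im ^ 2 * ((D.en hD1).chi z₀ * ‖deriv H z₀‖ ^ 2) ≤
      288 * Df (ind ((D.en hD1).a5 L fun z => (H z).re)) z₀ := by
  have hpsd : ∀ i, (un (D.s i) i + un (1 - D.s i) i : Mat n).PosSemidef := fun i =>
    (un_psd (D.hs0 i) i).add (un_psd (by linarith [D.hs1 i]) i)
  have hI : ∀ z, Har D.x (fun i => un (D.s i) i + un (1 - D.s i) i) z = (D.en hD1).I z := by
    intro z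
    rw [Har_add]
    rfl
  have contI : ContinuousOn (fun z => (D.en hD1).I z) {z | 0 < z.im} := by
    have := Har_cont D.x (fun i => un (D.s i) i + un (1 - D.s i) i)
    exact this.congr fun z _ => (hI z).symm
  have contk : ContinuousOn (fun z => (D.en hD1).k z) {z | 0 < z.im} := Har_cont _ _
  have c1 : ContinuousOn (fun z => hs (φ.Qᴴ * ((D.en hD1).I z - (D.en hD1).I z₀) * φ.Q))
      {z | 0 < z.im} := by
    have h1 : Continuous fun M : Mat n => hs (φ.Qᴴ * (M - (D.en hD1).I z₀) * φ.Q) :=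
      hs_cont.comp (((continuous_const.matrix_mul (continuous_id.sub continuous_const))).matrix_mul
        continuous_const)
    exact h1.comp_continuousOn contI
  have c2 : ContinuousOn (fun z => hs (φ.Qi * ((D.en hD1).k z - (D.en hD1).k z₀) * φ.Qiᴴ))
      {z | 0 < z.im} := by
    have h1 : Continuous fun M : Mat n => hs (φ.Qi * (M - (D.en hD1).k z₀) * φ.Qiᴴ) :=
      hs_cont.comp (((continuous_const.matrix_mul (continuous_id.sub continuous_const))).matrix_mul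
        continuous_const)
    exact h1.comp_continuousOn contk
  refine ⟨?_, ?_, ?_⟩
  · have a1 := (hH1 n n D.x (fun i => un (D.s i) i + un (1 - D.s i) i) hpsd z₀ hz₀).2.2 φ.Q
    rw [dHar_I] at a1
    simp only [hI] at a1
    have a2 := hM1 n (D.en hD1) z₀ hz₀ φ
    have a3 : Real.circleAverage
        (fun z => hs (φ.Qᴴ * ((D.en hD1).I z - (D.en hD1).I z₀) * φ.Q)) z₀ (z₀.im / 3) ≤
        Real.circleAverage (fun z => hs (φ.Qᴴ * ((D.en hD1).I z - (D.en hD1).I z₀) * φ.Q) +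
          hs (φ.Qi * ((D.en hD1).k z - (D.en hD1).k z₀) * φ.Qiᴴ)) z₀ (z₀.im / 3) := by
      refine Real.circleAverage_mono (ci_of_cont c1 hz₀) (ci_of_cont (c1.add c2) hz₀) ?_
      intro z _
      exact le_add_of_nonneg_right (hs_nonneg _)
    have a4 := (a1.trans a3).trans a2
    have e : D.dF z₀ = diagonal (fun i => ((D.x i : ℂ) - z₀)⁻¹ ^ 2) := rfl
    rw [e]
    nlinarith [a4]
  · have a1 := (hH1 n n D.x (fun i => un (D.s i) i) (fun i => un_psd (D.hs0 i) i) z₀ hz₀).2.2 φ.Q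
    rw [dHar_un] at a1
    have a2 := hM2 n (D.en hD1) z₀ hz₀ φ
    have a4 := a1.trans a2
    have e : D.dG z₀ = diagonal (fun i => (D.s i : ℂ) * ((D.x i : ℂ) - z₀)⁻¹ ^ 2) := rfl
    rw [e]
    nlinarith [a4]
  · have a1 := (hS2 H L hH hHL z₀ hz₀).2.1
    have a2 := hM3 n (D.en hD1) L (fun z => (H z).re) hL
      (Complex.continuous_re.comp_continuousOn hH.continuousOn) hHL
      (fun z hz => (hS2 H L hH hHL z hz).1) z₀ hz₀
    have a3 := ((hM0 n (D.en hD1)).2.2.2 z₀ hz₀).1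
    have a4 := (mul_le_mul_of_nonneg_left a1 a3).trans a2
    nlinarith [a4]

/-- nonnegativity of the three differences -/
theorem Df_nonneg (hD1 : Stmt_D1) (hM1 : Stmt_M1) (hM2 : Stmt_M2) (hM3 : Stmt_M3)
    (hS2 : Stmt_S2) (hM0 : Stmt_M0) (H : ℂ → ℂ) (L : ℝ) (hL : 0 ≤ L)
    (hH : DifferentiableOn ℂ H {z | 0 < z.im})
    (hHL : ∀ z : ℂ, 0 < z.im → |(H z).re| ≤ L) (z₀ : ℂ) (hz₀ : 0 < z₀.im) :
    0 ≤ Df (ind (D.en hD1).a1) z₀ ∧ 0 ≤ Df (ind (D.en hD1).a2) z₀ ∧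
      0 ≤ Df (ind ((D.en hD1).a5 L fun z => (H z).re)) z₀ := by
  obtain ⟨φ⟩ := A1 n _ _ ((D.en hD1).hI z₀ hz₀) ((D.en hD1).hk z₀ hz₀)
  refine ⟨?_, ?_, ?_⟩
  · have a2 := hM1 n (D.en hD1) z₀ hz₀ φ
    have a3 : 0 ≤ Real.circleAverage
        (fun z => hs (φ.Qᴴ * ((D.en hD1).I z - (D.en hD1).I z₀) * φ.Q) +
          hs (φ.Qi * ((D.en hD1).k z - (D.en hD1).k z₀) * φ.Qiᴴ)) z₀ (z₀.im / 3) := by
      refine Real.circleAverage_nonneg_of_nonneg fun z _ => ?_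
      exact add_nonneg (hs_nonneg _) (hs_nonneg _)
    linarith
  · have a2 := hM2 n (D.en hD1) z₀ hz₀ φ
    have a3 : 0 ≤ Real.circleAverage
        (fun z => hs (φ.Qᴴ * ((D.en hD1).Ig z - (D.en hD1).Ig z₀) * φ.Q)) z₀ (z₀.im / 3) :=
      Real.circleAverage_nonneg_of_nonneg fun z _ => hs_nonneg _
    linarith
  · have a2 := hM3 n (D.en hD1) L (fun z => (H z).re) hL
      (Complex.continuous_re.comp_continuousOn hH.continuousOn) hHL
      (fun z hz => (hS2 H L hH hHL z hz).1) z₀ hz₀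
    have a3 := ((hM0 n (D.en hD1)).2.2.2 z₀ hz₀).1
    have a4 : 0 ≤ Real.circleAverage (fun z => ((H z).re - (H z₀).re) ^ 2) z₀ (z₀.im / 3) :=
      Real.circleAverage_nonneg_of_nonneg fun z _ => sq_nonneg _
    have := mul_nonneg a3 a4
    linarith

/-- the majorant `G` -/
noncomputable def GG (hD1 : Stmt_D1) (L : ℝ) (H : ℂ → ℂ) (z : ℂ) : ℝ :=
  288 / L * Df (ind ((D.en hD1).a5 L fun z => (H z).re)) z +
    216 * L * Df (ind (D.en hD1).a1) z + 324 * L * Df (ind (D.en hD1).a2) z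

theorem pw_arith {y L h w q b X Y C d1 d2 d5 : ℝ} (hy : 0 < y) (hL : 0 < L) (hh : 0 ≤ h)
    (hw : w ≤ 1 / 2 * (C * Y) + 1 / 2 * (C * X)) (hq : q ≤ 1 / 2 * (X * Y))
    (hb : b ≤ h * w + L * q)
    (h1 : y ^ 2 * X ^ 2 ≤ 72 * d1) (h2 : y ^ 2 * Y ^ 2 ≤ 108 * d2)
    (h5 : y ^ 2 * (C ^ 2 * h ^ 2) ≤ 288 * d5) :
    y ^ 2 * (4 * b) ≤ 288 / L * d5 + 216 * L * d1 + 324 * L * d2 := by
  have e1 : b ≤ 1 / 2 * (h * C * (X + Y)) + 1 / 2 * (L * (X * Y)) := by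
    have i1 : h * w ≤ h * (1 / 2 * (C * Y) + 1 / 2 * (C * X)) := mul_le_mul_of_nonneg_left hw hh
    have i2 : L * q ≤ L * (1 / 2 * (X * Y)) := mul_le_mul_of_nonneg_left hq hL.le
    nlinarith
  have e2 : y ^ 2 * (4 * b) ≤ 2 * ((y * h * C) * (y * X + y * Y)) +
      2 * (L * ((y * X) * (y * Y))) := by
    have := mul_le_mul_of_nonneg_left e1 (by positivity : (0 : ℝ) ≤ 4 * y ^ 2)
    nlinarith
  have e3 : 2 * ((y * h * C) * (y * X + y * Y)) ≤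
      1 / L * (y * h * C) ^ 2 + L * (y * X + y * Y) ^ 2 := by
    have e : 1 / L * (y * h * C) ^ 2 + L * (y * X + y * Y) ^ 2 -
        2 * ((y * h * C) * (y * X + y * Y)) =
        1 / L * (y * h * C - L * (y * X + y * Y)) ^ 2 := by
      field_simp
      ring
    have : 0 ≤ 1 / L * (y * h * C - L * (y * X + y * Y)) ^ 2 := by positivity
    linarith
  have e4 : (y * X + y * Y) ^ 2 ≤ 2 * (72 * d1 + 108 * d2) := by
    nlinarith [sq_nonneg (y * X - y * Y)]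
  have e5 : 2 * ((y * X) * (y * Y)) ≤ 72 * d1 + 108 * d2 := by
    nlinarith [sq_nonneg (y * X - y * Y)]
  have e6 : 1 / L * (y * h * C) ^ 2 ≤ 1 / L * (288 * d5) := by
    refine mul_le_mul_of_nonneg_left ?_ (by positivity)
    nlinarith
  have e7 : L * (y * X + y * Y) ^ 2 ≤ L * (2 * (72 * d1 + 108 * d2)) :=
    mul_le_mul_of_nonneg_left e4 hL.le
  have e8 : L * (2 * ((y * X) * (y * Y))) ≤ L * (72 * d1 + 108 * d2) :=
    mul_le_mul_of_nonneg_left e5 hL.le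
  have e9 : 288 / L * d5 = 1 / L * (288 * d5) := by ring
  rw [e9]
  nlinarith

theorem pw (hD1 : Stmt_D1) (hH1 : Stmt_H1) (hM1 : Stmt_M1) (hM2 : Stmt_M2) (hM3 : Stmt_M3)
    (hS2 : Stmt_S2) (hM0 : Stmt_M0) (hA3 : Stmt_A3) (hA9 : Stmt_A9) (H : ℂ → ℂ) (L : ℝ)
    (hL : 0 < L) (hH : DifferentiableOn ℂ H {z | 0 < z.im})
    (hHL : ∀ z : ℂ, 0 < z.im → |(H z).re| ≤ L) (z : ℂ) (hz : 0 < z.im) :
    z.im ^ 2 * |4 * bz D H z| ≤ GG D hD1 L H z := by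
  obtain ⟨φ⟩ := A1 n _ _ ((D.en hD1).hI z hz) ((D.en hD1).hk z hz)
  obtain ⟨E1, E2, E5⟩ := ener D hD1 hH1 hM1 hM2 hM3 hS2 hM0 H L hL.le hH hHL z hz φ
  obtain ⟨i1, i2, i3, i4, i5, -⟩ := hD1 n D z hz
  have e1 : (D.en hD1).I z = D.I z := D.en_I hD1 z
  have e2 : (D.en hD1).k z = D.k z := D.en_k hD1 z
  have hinv : Inv4 (D.F z) (D.Fi z) ((D.en hD1).I z) ((D.en hD1).k z) := by
    rw [e1, e2]; exact i1
  have i5' : ((D.en hD1).I z - D.Ig z).PosSemidef := by rw [e1]; exact i5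
  obtain ⟨-, j2, j3, j4⟩ := hA9 n (D.F z) (D.Fi z) _ _ (D.Ig z) (D.dF z) (D.dG z) hinv φ i4 i5'
  have hchi : (D.en hD1).chi z = ∑ i, φ.sg i ^ 2 := (hA3 n _ _ φ).2.2
  rw [← hchi] at j3 j4
  have hchi0 : 0 ≤ (D.en hD1).chi z := ((hM0 n (D.en hD1)).2.2.2 z hz).1
  have hw : ‖D.wz z‖ ≤ 1 / 2 * (√((D.en hD1).chi z) * √(hs (φ.Qᴴ * D.dG z * φ.Q))) +
      1 / 2 * (√((D.en hD1).chi z) * √(hs (φ.Qᴴ * D.dF z * φ.Q))) := by
    unfold Dat.wz
    have e3 : trace (D.k z * D.dG z) = trace ((D.en hD1).k z * D.dG z) := by rw [e2]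
    rw [e3]
    refine (norm_add_le _ _).trans ?_
    rw [norm_mul, norm_mul]
    have n1 : ‖(-(1 / 2) : ℂ)‖ = 1 / 2 := by
      rw [norm_neg, norm_div, norm_one, Complex.norm_ofNat]
    have n2 : ‖(1 / 2 : ℂ)‖ = 1 / 2 := by
      rw [norm_div, norm_one, Complex.norm_ofNat]
    rw [n1, n2]
    gcongr
  have hq : |D.qz z| ≤ 1 / 2 * (√(hs (φ.Qᴴ * D.dF z * φ.Q)) * √(hs (φ.Qᴴ * D.dG z * φ.Q))) := by
    unfold Dat.qz
    rw [abs_mul]
    have n1 : |(-(1 / 2) : ℝ)| = 1 / 2 := by rw [abs_neg, abs_of_pos]; norm_num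
    rw [n1]
    exact mul_le_mul_of_nonneg_left ((Complex.abs_im_le_norm _).trans j2) (by norm_num)
  have hb : |bz D H z| ≤ ‖deriv H z‖ * ‖D.wz z‖ + L * |D.qz z| := by
    unfold bz
    refine (abs_add_le _ _).trans ?_
    rw [abs_mul]
    refine add_le_add ?_ (mul_le_mul_of_nonneg_right (hHL z hz) (abs_nonneg _))
    refine (Complex.abs_re_le_norm _).trans (le_of_eq ?_)
    rw [norm_mul, RCLike.norm_conj]
  rw [abs_mul, abs_of_pos (by norm_num : (0 : ℝ) < 4)]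
  unfold GG
  refine pw_arith hz hL (norm_nonneg _) hw hq hb ?_ ?_ ?_
  · rw [Real.sq_sqrt (hs_nonneg _)]; exact E1
  · rw [Real.sq_sqrt (hs_nonneg _)]; exact E2
  · rw [Real.sq_sqrt hchi0]; exact E5

end Pool.LG
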