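import Pool.Agent.Work.LipGraph.FINb

/-!
# Assembly of DI, part c: the integral of the majorant
-/

open Matrix MeasureTheory
open scoped ComplexOrder

namespace Pool.LG

variable {n : ℕ}

/-- `∬ y⁻¹ f₊ dx dy` over the upper half plane -/
noncomputable def dbl (f : ℂ → ℝ) : ENNReal :=
  ∫⁻ y in Set.Ioi (0 : ℝ), ∫⁻ x : ℝ, ENNReal.ofReal (y⁻¹ * f (x + y * Complex.I))

theorem meas_slice {f : ℂ → ℝ} (hf : Measurable f) :
    Measurable fun p : ℝ × ℝ => ENNReal.ofReal (p.1⁻¹ * f (p.2 + p.1 * Complex.I)) := by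
  refine ENNReal.measurable_ofReal.comp (Measurable.mul measurable_fst.inv (hf.comp ?_))
  fun_prop

theorem dbl_add {f g : ℂ → ℝ} (hf : Measurable f) :
    dbl (fun z => f z + g z) ≤ dbl f + dbl g := by
  unfold dbl
  have h1 : ∀ y : ℝ, ∫⁻ x : ℝ, ENNReal.ofReal (y⁻¹ * (f (x + y * Complex.I) +
      g (x + y * Complex.I))) ≤ (∫⁻ x : ℝ, ENNReal.ofReal (y⁻¹ * f (x + y * Complex.I))) +
      ∫⁻ x : ℝ, ENNReal.ofReal (y⁻¹ * g (x + y * Complex.I)) := by
    intro y
    have hm : Measurable fun x : ℝ => ENNReal.ofReal (y⁻¹ * f (x + y * Complex.I)) :=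
      (meas_slice hf).comp (measurable_prodMk_left (x := y))
    rw [← lintegral_add_left hm]
    refine lintegral_mono fun x => ?_
    rw [mul_add]
    exact ENNReal.ofReal_add_le
  refine (lintegral_mono h1).trans (le_of_eq ?_)
  refine lintegral_add_left ?_ _
  exact (meas_slice hf).lintegral_prod_right'

theorem dbl_smul {f : ℂ → ℝ} {c : ℝ} (hc : 0 ≤ c) :
    dbl (fun z => c * f z) = ENNReal.ofReal c * dbl f := by
  unfold dbl
  rw [← lintegral_const_mul' _ _ ENNReal.ofReal_ne_top]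
  refine lintegral_congr fun y => ?_
  rw [← lintegral_const_mul' _ _ ENNReal.ofReal_ne_top]
  refine lintegral_congr fun x => ?_
  rw [← ENNReal.ofReal_mul hc]
  congr 1
  ring

theorem ind_meas {f : ℂ → ℝ} (hf : ContinuousOn f {z | 0 < z.im}) : Measurable (ind f) := by
  classical
  have h1 : IsOpen {z : ℂ | 0 < z.im} := isOpen_lt continuous_const Complex.continuous_im
  have h2 : ind f = Set.piecewise {z : ℂ | 0 < z.im} f (fun _ => 0) := by
    funext z
    unfold ind Set.piecewise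
    rfl
  rw [h2]
  exact hf.measurable_piecewise continuousOn_const h1.measurableSet

theorem ind_pos {f : ℂ → ℝ} {z : ℂ} (hz : 0 < z.im) : ind f z = f z := by
  unfold ind; rw [if_pos hz]

theorem ind_neg {f : ℂ → ℝ} {z : ℂ} (hz : ¬ 0 < z.im) : ind f z = 0 := by
  unfold ind; rw [if_neg hz]

variable (D : Dat n)

theorem rho_nonneg : 0 ≤ D.rho := Finset.sum_nonneg fun _ _ => abs_nonneg _

theorem slice_bound (hD1 : Stmt_D1) (hD2 : Stmt_D2) (f : ℂ → ℝ) {c : ℝ} (hc : 0 ≤ c)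
    (hf : ∀ z : ℂ, 0 < z.im → f z ≤ c * (D.en hD1).v1 z) (y : ℝ) (hy : 0 < y) :
    ∫⁻ x : ℝ, ENNReal.ofReal (ind f (x + y * Complex.I)) ≤
      ENNReal.ofReal (c * (Real.pi * D.rho)) := by
  rw [ENNReal.ofReal_mul hc]
  refine le_trans ?_ (mul_le_mul_right (hD2 n D y hy) _)
  rw [← lintegral_const_mul' _ _ ENNReal.ofReal_ne_top]
  refine lintegral_mono fun x => ?_
  rw [← ENNReal.ofReal_mul hc]
  refine ENNReal.ofReal_le_ofReal ?_
  have hz : 0 < ((x : ℂ) + y * Complex.I).im := by simp [hy]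
  rw [ind_pos hz]
  refine (hf _ hz).trans (le_of_eq ?_)
  unfold En.v1
  rw [D.en_I, D.en_k]

theorem GG_int (hD1 : Stmt_D1) (hD2 : Stmt_D2) (hJ : Stmt_J) (hM1 : Stmt_M1) (hM2 : Stmt_M2)
    (hM3 : Stmt_M3) (hS2 : Stmt_S2) (hM0 : Stmt_M0) (H : ℂ → ℂ) (L : ℝ) (hL : 0 < L)
    (hH : DifferentiableOn ℂ H {z | 0 < z.im})
    (hHL : ∀ z : ℂ, 0 < z.im → |(H z).re| ≤ L) :
    Measurable (GG D hD1 L H) ∧
    dbl (GG D hD1 L H) ≤ ENNReal.ofReal (147690 * L * (Real.pi * D.rho)) := by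
  obtain ⟨m1, m2, mc, hb⟩ := hM0 n (D.en hD1)
  have hπ : 0 ≤ Real.pi * D.rho := mul_nonneg Real.pi_pos.le (rho_nonneg D)
  set σ : ℂ → ℝ := fun z => (H z).re with hσ
  have hσc : ContinuousOn σ {z | 0 < z.im} :=
    Complex.continuous_re.comp_continuousOn hH.continuousOn
  have e1 : ind (D.en hD1).a1 = fun z => 12 * ind (D.en hD1).v1 z - ind (D.en hD1).chi z := by
    funext z
    by_cases hz : 0 < z.im
    · rw [ind_pos hz, ind_pos hz, ind_pos hz]; rfl
    · rw [ind_neg hz, ind_neg hz, ind_neg hz]; ring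
  have ma1 : Measurable (ind (D.en hD1).a1) := by
    rw [e1]; exact (m1.const_mul 12).sub mc
  have e2 : ind (D.en hD1).a2 = fun z => ind (D.en hD1).v2 z + 2 * ind (D.en hD1).a1 z := by
    funext z
    by_cases hz : 0 < z.im
    · rw [ind_pos hz, ind_pos hz, ind_pos hz]; rfl
    · rw [ind_neg hz, ind_neg hz, ind_neg hz]; ring
  have ma2 : Measurable (ind (D.en hD1).a2) := by
    rw [e2]; exact m2.add (ma1.const_mul 2)
  have e5 : ind ((D.en hD1).a5 L σ) = fun z => 82 * L ^ 2 * ind (D.en hD1).a1 z -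
      ind σ z ^ 2 * ind (D.en hD1).chi z := by
    funext z
    by_cases hz : 0 < z.im
    · rw [ind_pos hz, ind_pos hz, ind_pos hz, ind_pos hz]; rfl
    · rw [ind_neg hz, ind_neg hz, ind_neg hz, ind_neg hz]; ring
  have ma5 : Measurable (ind ((D.en hD1).a5 L σ)) := by
    rw [e5]
    exact (ma1.const_mul _).sub (((ind_meas hσc).pow_const 2).mul mc)
  -- bounds
  have b1 : ∀ z : ℂ, 0 < z.im → 0 ≤ (D.en hD1).a1 z ∧ (D.en hD1).a1 z ≤ 12 * (D.en hD1).v1 z ∧
      11 * (D.en hD1).chi z ≤ (D.en hD1).a1 z := by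
    intro z hz
    obtain ⟨h1, h2, h3, h4, h5⟩ := hb z hz
    unfold En.a1
    refine ⟨by linarith, by linarith, by linarith⟩
  have b2 : ∀ z : ℂ, 0 < z.im → 0 ≤ (D.en hD1).a2 z ∧ (D.en hD1).a2 z ≤ 29 * (D.en hD1).v1 z := by
    intro z hz
    obtain ⟨h1, h2, h3, h4, h5⟩ := hb z hz
    obtain ⟨h6, h7, h8⟩ := b1 z hz
    unfold En.a2
    refine ⟨by linarith, by linarith⟩
  have b5 : ∀ z : ℂ, 0 < z.im → 0 ≤ (D.en hD1).a5 L σ z ∧
      (D.en hD1).a5 L σ z ≤ 984 * L ^ 2 * (D.en hD1).v1 z := by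
    intro z hz
    obtain ⟨h1, h2, h3, h4, h5⟩ := hb z hz
    obtain ⟨h6, h7, h8⟩ := b1 z hz
    have h9 : σ z ^ 2 ≤ L ^ 2 := by
      have := hHL z hz
      rw [← sq_abs]
      exact pow_le_pow_left₀ (abs_nonneg _) this 2
    have hL2 : 0 ≤ L ^ 2 := sq_nonneg L
    have h10 : σ z ^ 2 * (D.en hD1).chi z ≤ L ^ 2 * (D.en hD1).chi z :=
      mul_le_mul_of_nonneg_right h9 h1
    have h11 : 0 ≤ σ z ^ 2 * (D.en hD1).chi z := mul_nonneg (sq_nonneg _) h1
    unfold En.a5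
    refine ⟨?_, ?_⟩
    · nlinarith [mul_nonneg hL2 h1, mul_le_mul_of_nonneg_left h8 hL2]
    · nlinarith [mul_le_mul_of_nonneg_left h7 hL2]
  have v1n : ∀ z : ℂ, 0 < z.im → (D.en hD1).v1 z ≤ n := fun z hz => (hb z hz).2.2.1
  have nonneg : ∀ f : ℂ → ℝ, (∀ z : ℂ, 0 < z.im → 0 ≤ f z) → ∀ z, 0 ≤ ind f z := by
    intro f hf z
    by_cases hz : 0 < z.im
    · rw [ind_pos hz]; exact hf z hz
    · rw [ind_neg hz]
  have bound : ∀ (f : ℂ → ℝ) (c : ℝ), 0 ≤ c → (∀ z : ℂ, 0 < z.im → f z ≤ c * (D.en hD1).v1 z) →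
      ∀ z, ind f z ≤ c * n := by
    intro f c hc hf z
    by_cases hz : 0 < z.im
    · rw [ind_pos hz]
      exact (hf z hz).trans (mul_le_mul_of_nonneg_left (v1n z hz) hc)
    · rw [ind_neg hz]; positivity
  have hn : ∀ z : ℂ, 0 < z.im → 0 ≤ Df (ind (D.en hD1).a1) z ∧ 0 ≤ Df (ind (D.en hD1).a2) z ∧
      0 ≤ Df (ind ((D.en hD1).a5 L σ)) z := fun z hz =>
    Df_nonneg D hD1 hM1 hM2 hM3 hS2 hM0 H L hL.le hH hHL z hz
  have c5 : 0 ≤ 984 * L ^ 2 := by positivity
  have J1 := hJ (ind (D.en hD1).a1) (12 * (Real.pi * D.rho)) (12 * n) ma1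
    (nonneg _ fun z hz => (b1 z hz).1) (bound _ 12 (by norm_num) fun z hz => (b1 z hz).2.1)
    (by positivity) (slice_bound D hD1 hD2 _ (by norm_num) fun z hz => (b1 z hz).2.1)
    (fun z hz => (hn z hz).1)
  have J2 := hJ (ind (D.en hD1).a2) (29 * (Real.pi * D.rho)) (29 * n) ma2
    (nonneg _ fun z hz => (b2 z hz).1) (bound _ 29 (by norm_num) fun z hz => (b2 z hz).2)
    (by positivity) (slice_bound D hD1 hD2 _ (by norm_num) fun z hz => (b2 z hz).2)
    (fun z hz => (hn z hz).2.1)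
  have J5 := hJ (ind ((D.en hD1).a5 L σ)) (984 * L ^ 2 * (Real.pi * D.rho)) (984 * L ^ 2 * n) ma5
    (nonneg _ fun z hz => (b5 z hz).1) (bound _ _ c5 fun z hz => (b5 z hz).2)
    (by positivity) (slice_bound D hD1 hD2 _ c5 fun z hz => (b5 z hz).2)
    (fun z hz => (hn z hz).2.2)
  have c1' : 0 ≤ 216 * L := by positivity
  have c2' : 0 ≤ 324 * L := by positivity
  have c5' : 0 ≤ 288 / L := by positivity
  refine ⟨?_, ?_⟩
  · unfold GG
    exact ((J5.1.const_mul _).add (J1.1.const_mul _)).add (J2.1.const_mul _)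
  · have s1 : dbl (GG D hD1 L H) ≤ ENNReal.ofReal (288 / L) * dbl (Df (ind ((D.en hD1).a5 L σ))) +
        ENNReal.ofReal (216 * L) * dbl (Df (ind (D.en hD1).a1)) +
        ENNReal.ofReal (324 * L) * dbl (Df (ind (D.en hD1).a2)) := by
      unfold GG
      refine (dbl_add ((J5.1.const_mul _).add (J1.1.const_mul _))).trans ?_
      refine add_le_add ((dbl_add (J5.1.const_mul _)).trans ?_) ?_
      · rw [dbl_smul c5', dbl_smul c1']
      · rw [dbl_smul c2']
    have s2 : ENNReal.ofReal (288 / L) * dbl (Df (ind ((D.en hD1).a5 L σ))) ≤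
        ENNReal.ofReal (288 / L) *
          ENNReal.ofReal (Real.log (3 / 2) * (984 * L ^ 2 * (Real.pi * D.rho))) := by
      gcongr; exact J5.2
    have s3 : ENNReal.ofReal (216 * L) * dbl (Df (ind (D.en hD1).a1)) ≤
        ENNReal.ofReal (216 * L) *
          ENNReal.ofReal (Real.log (3 / 2) * (12 * (Real.pi * D.rho))) := by
      gcongr; exact J1.2
    have s4 : ENNReal.ofReal (324 * L) * dbl (Df (ind (D.en hD1).a2)) ≤
        ENNReal.ofReal (324 * L) *
          ENNReal.ofReal (Real.log (3 / 2) * (29 * (Real.pi * D.rho))) := by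
      gcongr; exact J2.2
    have hlog0 : 0 ≤ Real.log (3 / 2) := Real.log_nonneg (by norm_num)
    have hlog : Real.log (3 / 2) ≤ 1 / 2 := by
      have := Real.log_le_sub_one_of_pos (by norm_num : (0 : ℝ) < 3 / 2)
      linarith
    refine s1.trans ((add_le_add (add_le_add s2 s3) s4).trans ?_)
    rw [← ENNReal.ofReal_mul c5', ← ENNReal.ofReal_mul c1', ← ENNReal.ofReal_mul c2',
      ← ENNReal.ofReal_add (by positivity) (by positivity),
      ← ENNReal.ofReal_add (by positivity) (by positivity)]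
    refine ENNReal.ofReal_le_ofReal ?_
    have e : 288 / L * (Real.log (3 / 2) * (984 * L ^ 2 * (Real.pi * D.rho))) +
        216 * L * (Real.log (3 / 2) * (12 * (Real.pi * D.rho))) +
        324 * L * (Real.log (3 / 2) * (29 * (Real.pi * D.rho))) =
        295380 * L * (Real.pi * D.rho) * Real.log (3 / 2) := by
      field_simp
      ring
    rw [e]
    have h0 : 0 ≤ 295380 * L * (Real.pi * D.rho) := by positivity
    nlinarith [mul_le_mul_of_nonneg_left hlog h0]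

end Pool.LG
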