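import Pool.Agent.Work.LipGraph.FINc

/-!
# Assembly of DI, part d: Wirtinger calculus for `σ W`, limits
-/

open Matrix MeasureTheory
open scoped ComplexOrder

namespace Pool.LG

variable {n : ℕ}

/-- real derivative `v ↦ a v + b v̄` -/
def HW (f : ℂ → ℂ) (a b z : ℂ) : Prop :=
  ∃ l : ℂ →L[ℝ] ℂ, (∀ v, l v = a * v + b * (starRingEnd ℂ) v) ∧ HasFDerivAt f l z

theorem HW.mul {f g : ℂ → ℂ} {a b c d z : ℂ} (hf : HW f a b z) (hg : HW g c d z) :
    HW (fun w => f w * g w) (f z * c + g z * a) (f z * d + g z * b) z := by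
  obtain ⟨l, hl, hl'⟩ := hf
  obtain ⟨m, hm, hm'⟩ := hg
  refine ⟨f z • m + g z • l, fun v => ?_, hl'.mul hm'⟩
  rw [_root_.add_apply, _root_.smul_apply, _root_.smul_apply, hl, hm, smul_eq_mul, smul_eq_mul]
  ring

theorem HW.add {f g : ℂ → ℂ} {a b c d z : ℂ} (hf : HW f a b z) (hg : HW g c d z) :
    HW (fun w => f w + g w) (a + c) (b + d) z := by
  obtain ⟨l, hl, hl'⟩ := hf
  obtain ⟨m, hm, hm'⟩ := hg
  refine ⟨l + m, fun v => ?_, hl'.add hm'⟩
  rw [_root_.add_apply, hl, hm]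
  ring

theorem HW.congr {f : ℂ → ℂ} {a b a' b' z : ℂ} (hf : HW f a b z) (ha : a = a') (hb : b = b') :
    HW f a' b' z := by subst ha; subst hb; exact hf

theorem HW.of_deriv {f : ℂ → ℂ} {a z : ℂ} (h : HasDerivAt f a z) : HW f a 0 z :=
  ⟨(ContinuousLinearMap.toSpanSingleton ℂ a).restrictScalars ℝ, fun v => by simp [mul_comm],
    h.hasFDerivAt.restrictScalars ℝ⟩

theorem HW.ofReal {f : ℂ → ℝ} {p z : ℂ}
    (h : ∃ l : ℂ →L[ℝ] ℝ, (∀ v, l v = 2 * (p * v).re) ∧ HasFDerivAt f l z) :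
    HW (fun w => (f w : ℂ)) p ((starRingEnd ℂ) p) z := by
  obtain ⟨l, hl, hl'⟩ := h
  refine ⟨Complex.ofRealCLM.comp l, fun v => ?_, Complex.ofRealCLM.hasFDerivAt.comp z hl'⟩
  rw [ContinuousLinearMap.comp_apply, hl, ← map_mul]
  apply Complex.ext
  · simp
    ring
  · simp
    ring

theorem HW.re {f : ℂ → ℝ} {p z : ℂ} (h : HW (fun w => (f w : ℂ)) p ((starRingEnd ℂ) p) z) :
    ∃ l : ℂ →L[ℝ] ℝ, (∀ v, l v = 2 * (p * v).re) ∧ HasFDerivAt f l z := by
  obtain ⟨l, hl, hl'⟩ := h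
  refine ⟨Complex.reCLM.comp l, fun v => ?_, ?_⟩
  · rw [ContinuousLinearMap.comp_apply, hl, ← map_mul]
    simp
    ring
  · have := Complex.reCLM.hasFDerivAt.comp z hl'
    exact this

theorem re_deriv {H : ℂ → ℂ} {a z : ℂ} (h : HasDerivAt H a z) :
    ∃ l : ℂ →L[ℝ] ℝ, (∀ v, l v = 2 * ((a / 2) * v).re) ∧
      HasFDerivAt (fun w => (H w).re) l z := by
  obtain ⟨l, hl, hl'⟩ := HW.of_deriv h
  refine ⟨Complex.reCLM.comp l, fun v => ?_, Complex.reCLM.hasFDerivAt.comp z hl'⟩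
  rw [ContinuousLinearMap.comp_apply, hl]
  simp
  ring

theorem isOpen_up : IsOpen {z : ℂ | 0 < z.im} := isOpen_lt continuous_const Complex.continuous_im

variable (D : Dat n)

/-- the function `σ W` -/
noncomputable def hz (H : ℂ → ℂ) (z : ℂ) : ℝ := (H z).re * D.Wf z

/-- `∂_z (σ W)` -/
noncomputable def pz (H : ℂ → ℂ) (z : ℂ) : ℂ := deriv H z / 2 * D.Wf z + (H z).re * D.wz z

theorem hz_deriv (hD3 : Stmt_D3) {H : ℂ → ℂ} (hH : DifferentiableOn ℂ H {z | 0 < z.im}) {z : ℂ}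
    (hz : 0 < z.im) : ∃ l : ℂ →L[ℝ] ℝ, (∀ v, l v = 2 * (pz D H z * v).re) ∧
      HasFDerivAt (Pool.LG.hz D H) l z := by
  have h1 : HasDerivAt H (deriv H z) z :=
    (hH.differentiableAt (isOpen_up.mem_nhds hz)).hasDerivAt
  have h2 := HW.ofReal (re_deriv h1)
  have h3 := HW.ofReal ((hD3 n D).1 z hz)
  have h4 := h2.mul h3
  refine HW.re ?_
  have e : (fun w => ((Pool.LG.hz D H w : ℝ) : ℂ)) =
      fun w => (((H w).re : ℝ) : ℂ) * (D.Wf w : ℂ) := by
    funext w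
    unfold Pool.LG.hz
    push_cast
    rfl
  rw [e]
  refine h4.congr ?_ ?_
  · unfold pz; ring
  · unfold pz
    rw [map_add, map_mul, map_mul, Complex.conj_ofReal, Complex.conj_ofReal]
    ring

theorem pz_deriv (hD3 : Stmt_D3) {H : ℂ → ℂ} (hH : DifferentiableOn ℂ H {z | 0 < z.im})
    {a : ℂ → ℂ} (ha : ∀ z : ℂ, 0 < z.im → ∃ l : ℂ →L[ℝ] ℂ,
      (∀ v, l v = a z * v + D.qz z * (starRingEnd ℂ) v) ∧ HasFDerivAt D.wz l z) {z : ℂ}
    (hz : 0 < z.im) : ∃ l : ℂ →L[ℝ] ℂ,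
      (∀ v, l v = (deriv (deriv H) z / 2 * D.Wf z + deriv H z * D.wz z + (H z).re * a z) * v +
        bz D H z * (starRingEnd ℂ) v) ∧ HasFDerivAt (pz D H) l z := by
  have h1 : HasDerivAt H (deriv H z) z :=
    (hH.differentiableAt (isOpen_up.mem_nhds hz)).hasDerivAt
  have h1' : HasDerivAt (fun w => deriv H w / 2) (deriv (deriv H) z / 2) z :=
    (((hH.deriv isOpen_up).differentiableAt (isOpen_up.mem_nhds hz)).hasDerivAt).div_const 2
  have h2 := HW.ofReal (re_deriv h1)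
  have h3 := HW.ofReal ((hD3 n D).1 z hz)
  have h4 : HW D.wz (a z) (D.qz z) z := ha z hz
  have h5 := ((HW.of_deriv h1').mul h3).add (h2.mul h4)
  have e : pz D H = fun w => deriv H w / 2 * (D.Wf w : ℂ) + (((H w).re : ℝ) : ℂ) * D.wz w := by
    funext w
    rfl
  rw [e]
  refine h5.congr ?_ ?_
  · ring
  · unfold bz
    obtain ⟨s, hs⟩ : ∃ s, deriv H z = 2 * s := ⟨deriv H z / 2, by ring⟩
    have e2 : 2 * s / 2 = s := by ring
    rw [hs, e2]
    apply Complex.ext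
    · simp
      ring
    · simp
      ring

theorem line_cont {f : ℂ → ℝ} (hf : ContinuousOn f {z | 0 < z.im}) {y : ℝ} (hy : 0 < y) :
    Continuous fun x : ℝ => f (x + y * Complex.I) := by
  have h1 : Continuous fun x : ℝ => (x : ℂ) + y * Complex.I := by fun_prop
  rw [← continuousOn_univ]
  refine hf.comp h1.continuousOn fun x _ => ?_
  simp [hy]

theorem Wf_cont (hD3 : Stmt_D3) : ContinuousOn D.Wf {z | 0 < z.im} := by
  intro z hz
  obtain ⟨l, -, hl⟩ := (hD3 n D).1 z hz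
  exact hl.continuousAt.continuousWithinAt

theorem hz_int (hD3 : Stmt_D3) (hD4 : Stmt_D4) {H : ℂ → ℂ} {L : ℝ}
    (hH : DifferentiableOn ℂ H {z | 0 < z.im})
    (hHL : ∀ z : ℂ, 0 < z.im → |(H z).re| ≤ L) {y : ℝ} (hy : 0 < y) :
    Integrable (fun x : ℝ => hz D H (x + y * Complex.I)) := by
  obtain ⟨C, hC⟩ := (hD4 n D).1 y hy
  have hc : ContinuousOn (hz D H) {z | 0 < z.im} :=
    (Complex.continuous_re.comp_continuousOn hH.continuousOn).mul (Wf_cont D hD3)
  refine Integrable.mono' ((integrable_inv_one_add_sq).const_mul (L * C))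
    (line_cont hc hy).aestronglyMeasurable ?_
  refine Filter.Eventually.of_forall fun x => ?_
  have h0 : 0 < ((x : ℂ) + y * Complex.I).im := by simp [hy]
  have h1 := hC ((x : ℂ) + y * Complex.I) h0 (by simp)
  have h2 := hHL _ h0
  have h3 : ((x : ℂ) + y * Complex.I).re = x := by simp
  rw [h3] at h1
  unfold hz
  rw [Real.norm_eq_abs, abs_mul]
  calc _ ≤ L * (C / (1 + x ^ 2)) :=
        mul_le_mul h2 h1 (abs_nonneg _) ((abs_nonneg _).trans h2)
    _ = L * C * (1 + x ^ 2)⁻¹ := by rw [div_eq_mul_inv, mul_assoc]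

theorem Wf_int (hD3 : Stmt_D3) (hD4 : Stmt_D4) {y : ℝ} (hy : 0 < y) :
    Integrable (fun x : ℝ => D.Wf (x + y * Complex.I)) := by
  obtain ⟨C, hC⟩ := (hD4 n D).1 y hy
  refine Integrable.mono' ((integrable_inv_one_add_sq).const_mul C)
    (line_cont (Wf_cont D hD3) hy).aestronglyMeasurable ?_
  refine Filter.Eventually.of_forall fun x => ?_
  have h0 : 0 < ((x : ℂ) + y * Complex.I).im := by simp [hy]
  have h1 := hC ((x : ℂ) + y * Complex.I) h0 (by simp)
  have h3 : ((x : ℂ) + y * Complex.I).re = x := by simp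
  rw [h3] at h1
  rw [Real.norm_eq_abs]
  exact h1

theorem pz_small (hD4 : Stmt_D4) (hS2 : Stmt_S2) {H : ℂ → ℂ} {L : ℝ}
    (hH : DifferentiableOn ℂ H {z | 0 < z.im})
    (hHL : ∀ z : ℂ, 0 < z.im → |(H z).re| ≤ L) (hL : 0 < L) (c d : ℝ) (hc : 0 < c) (δ : ℝ)
    (hδ : 0 < δ) : ∃ R₀ : ℝ, ∀ z : ℂ, c ≤ z.im → z.im ≤ d → R₀ ≤ |z.re| → ‖pz D H z‖ ≤ δ := by
  obtain ⟨C, hC⟩ := (hD4 n D).1 (max d 1) (lt_max_of_lt_right one_pos)
  obtain ⟨R₁, hR₁⟩ := (hD4 n D).2.1 c d hc (δ / (2 * L)) (by positivity)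
  set M : ℝ := 6 * L / c * |C| with hM
  have hM0 : 0 ≤ M := by positivity
  refine ⟨max R₁ (max 1 (2 * M / δ)), fun z h1 h2 h3 => ?_⟩
  have hz : 0 < z.im := hc.trans_le h1
  have h4 := hR₁ z h1 h2 ((le_max_left _ _).trans h3)
  have h5 := hC z hz (h2.trans (le_max_left _ _))
  have h6 := (hS2 H L hH hHL z hz).2.2
  have h7 : 1 ≤ |z.re| := ((le_max_left _ _).trans (le_max_right _ _)).trans h3
  have h8 : 2 * M / δ ≤ |z.re| := ((le_max_right _ _).trans (le_max_right _ _)).trans h3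
  have h9 : |D.Wf z| ≤ |C| / (1 + z.re ^ 2) := by
    refine h5.trans ?_
    gcongr
    exact le_abs_self C
  have h10 : ‖deriv H z‖ ≤ 12 * L / c := by
    refine h6.trans ?_
    gcongr
  unfold pz
  refine (norm_add_le _ _).trans ?_
  rw [norm_mul, norm_mul, norm_div, Complex.norm_ofNat, Complex.norm_real, Complex.norm_real,
    Real.norm_eq_abs, Real.norm_eq_abs]
  have h11 : ‖deriv H z‖ / 2 * |D.Wf z| ≤ δ / 2 := by
    have i1 : ‖deriv H z‖ / 2 * |D.Wf z| ≤ (12 * L / c) / 2 * (|C| / (1 + z.re ^ 2)) := by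
      gcongr
    have i2 : (12 * L / c) / 2 * (|C| / (1 + z.re ^ 2)) = M / (1 + z.re ^ 2) := by
      rw [hM]; ring
    rw [i2] at i1
    refine i1.trans ?_
    rw [div_le_iff₀ (by positivity)]
    rw [div_le_iff₀ hδ] at h8
    have h12 : |z.re| ≤ z.re ^ 2 := by
      rw [← sq_abs]
      nlinarith
    nlinarith
  have h13 : |(H z).re| * ‖D.wz z‖ ≤ δ / 2 := by
    calc _ ≤ L * (δ / (2 * L)) := mul_le_mul (hHL z hz) h4 (norm_nonneg _) hL.le
      _ = δ / 2 := by field_simp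
  linarith

theorem lim_zero (hD3 : Stmt_D3) (hD4 : Stmt_D4) (hD5 : Stmt_D5) {H : ℂ → ℂ} {L : ℝ} {p : ℝ → ℝ}
    (hH : DifferentiableOn ℂ H {z | 0 < z.im})
    (hHL : ∀ z : ℂ, 0 < z.im → |(H z).re| ≤ L)
    (hlim : ∀ x : ℝ, Filter.Tendsto (fun y : ℝ => (H (x + y * Complex.I)).re)
      (nhdsWithin 0 (Set.Ioi 0)) (nhds (p x))) :
    Filter.Tendsto (fun y : ℝ => ∫ x : ℝ, hz D H (x + y * Complex.I))
      (nhdsWithin 0 (Set.Ioi 0)) (nhds (∫ x : ℝ, p x * D.W0 x)) := by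
  obtain ⟨C, hC⟩ := (hD4 n D).1 1 one_pos
  have hc : ContinuousOn (hz D H) {z | 0 < z.im} :=
    (Complex.continuous_re.comp_continuousOn hH.continuousOn).mul (Wf_cont D hD3)
  have hev : ∀ᶠ y : ℝ in nhdsWithin 0 (Set.Ioi 0), 0 < y ∧ y ≤ 1 := by
    have := Ioc_mem_nhdsGT (zero_lt_one (α := ℝ))
    filter_upwards [this] with y hy
    exact ⟨hy.1, hy.2⟩
  refine tendsto_integral_filter_of_dominated_convergence (fun x => L * C * (1 + x ^ 2)⁻¹)
    ?_ ?_ ((integrable_inv_one_add_sq).const_mul (L * C)) ?_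
  · filter_upwards [hev] with y hy
    exact (line_cont hc hy.1).aestronglyMeasurable
  · filter_upwards [hev] with y hy
    refine Filter.Eventually.of_forall fun x => ?_
    have h0 : 0 < ((x : ℂ) + y * Complex.I).im := by simp [hy.1]
    have h1 := hC ((x : ℂ) + y * Complex.I) h0 (by simpa using hy.2)
    have h2 := hHL _ h0
    have h3 : ((x : ℂ) + y * Complex.I).re = x := by simp
    rw [h3] at h1
    unfold hz
    rw [Real.norm_eq_abs, abs_mul]
    calc _ ≤ L * (C / (1 + x ^ 2)) :=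
          mul_le_mul h2 h1 (abs_nonneg _) ((abs_nonneg _).trans h2)
      _ = L * C * (1 + x ^ 2)⁻¹ := by rw [div_eq_mul_inv, mul_assoc]
  · have hfin : (Set.range D.x ∪ Set.range D.x').Finite :=
      (Set.finite_range _).union (Set.finite_range _)
    have hnull := hfin.measure_zero (volume : Measure ℝ)
    filter_upwards [compl_mem_ae_iff.2 hnull] with x hx
    refine (hlim x).mul (hD5 n D x (fun i h => hx ?_) (fun i h => hx ?_))
    · exact Or.inl ⟨i, h.symm⟩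
    · exact Or.inr ⟨i, h.symm⟩

theorem lim_top (hD3 : Stmt_D3) (hD4 : Stmt_D4) {H : ℂ → ℂ}
    {c : ℝ} (hc : ∀ z : ℂ, 0 < z.im → |(H z).re| ≤ c / z.im) :
    Filter.Tendsto (fun y : ℝ => ∫ x : ℝ, hz D H (x + y * Complex.I)) Filter.atTop (nhds 0) := by
  obtain ⟨C, hC⟩ := (hD4 n D).2.2
  have h1 : Filter.Tendsto (fun y : ℝ => |c| * C / y) Filter.atTop (nhds 0) :=
    Filter.Tendsto.const_div_atTop Filter.tendsto_id _
  refine squeeze_zero_norm' ?_ h1
  filter_upwards [Filter.eventually_gt_atTop (0 : ℝ)] with y hy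
  have hW := Wf_int D hD3 hD4 hy
  have h2 : ‖∫ x : ℝ, hz D H (x + y * Complex.I)‖ ≤
      ∫ x : ℝ, |c| / y * |D.Wf (x + y * Complex.I)| := by
    refine norm_integral_le_of_norm_le (hW.abs.const_mul _) ?_
    refine Filter.Eventually.of_forall fun x => ?_
    have h0 : 0 < ((x : ℂ) + y * Complex.I).im := by simp [hy]
    have h3 := hc _ h0
    have h4 : ((x : ℂ) + y * Complex.I).im = y := by simp
    rw [h4] at h3
    unfold hz
    rw [Real.norm_eq_abs, abs_mul]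
    refine mul_le_mul_of_nonneg_right (h3.trans ?_) (abs_nonneg _)
    gcongr
    exact le_abs_self c
  refine h2.trans ?_
  rw [integral_const_mul]
  calc |c| / y * ∫ x : ℝ, |D.Wf (x + y * Complex.I)| ≤ |c| / y * C :=
        mul_le_mul_of_nonneg_left (hC y hy) (by positivity)
    _ = |c| * C / y := by ring

theorem FIN (hH1 : Stmt_H1) (hM1 : Stmt_M1) (hM2 : Stmt_M2) (hM3 : Stmt_M3) (hM0 : Stmt_M0)
    (hJ : Stmt_J) (hG : Stmt_G) (hS1 : Stmt_S1) (hS2 : Stmt_S2) (hD1 : Stmt_D1) (hD2 : Stmt_D2)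
    (hD3 : Stmt_D3) (hD4 : Stmt_D4) (hD5 : Stmt_D5) (hD6 : Stmt_D6) (hA3 : Stmt_A3)
    (hA9 : Stmt_A9) : Stmt_DI := by
  refine ⟨147690, by norm_num, fun n D φ p L hp hpc hφ hL => ?_⟩
  rcases lt_or_ge 0 L with hL0 | hL0
  · obtain ⟨H, hH, hHL, ⟨c, hc⟩, hlim⟩ := hS1 p L hp hpc hL
    obtain ⟨hW1, hq, a, hac, ha⟩ := hD3 n D
    obtain ⟨mG, iG⟩ := GG_int D hD1 hD2 hJ hM1 hM2 hM3 hS2 hM0 H L hL0 hH hHL
    have hdH := hH.deriv isOpen_up
    have hddH := hdH.deriv isOpen_up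
    have hσc : ContinuousOn (fun z => (((H z).re : ℝ) : ℂ)) {z | 0 < z.im} :=
      Complex.continuous_ofReal.comp_continuousOn
        (Complex.continuous_re.comp_continuousOn hH.continuousOn)
    have hWc : ContinuousOn (fun z => ((D.Wf z : ℝ) : ℂ)) {z | 0 < z.im} :=
      Complex.continuous_ofReal.comp_continuousOn (Wf_cont D hD3)
    have hwc : ContinuousOn D.wz {z | 0 < z.im} := by
      intro z hz
      obtain ⟨l, -, hl⟩ := ha z hz
      exact hl.continuousAt.continuousWithinAt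
    have hT := hG (hz D H) (bz D H) (pz D H)
      (fun z => deriv (deriv H) z / 2 * D.Wf z + deriv H z * D.wz z + (H z).re * a z)
      (GG D hD1 L H) (147690 * L * (Real.pi * D.rho)) (∫ x : ℝ, p x * D.W0 x)
      (fun z hz => hz_deriv D hD3 hH hz)
      (fun z hz => pz_deriv D hD3 hH ha hz)
      ?_ ?_ (fun y hy => hz_int D hD3 hD4 hH hHL hy)
      (fun c d hc δ hδ => pz_small D hD4 hS2 hH hHL hL0 c d hc δ hδ) mG
      (fun z hz => pw D hD1 hH1 hM1 hM2 hM3 hS2 hM0 hA3 hA9 H L hL0 hH hHL z hz) ?_ iG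
      (lim_zero D hD3 hD4 hD5 hH hHL hlim) (lim_top D hD3 hD4 hc)
    · rw [hD6 n D φ p hp hpc hφ, abs_mul, abs_of_pos Real.pi_pos] at hT
      have h3 : Real.pi * |∑ i, ∑ j, D.wt i j * (φ (D.x' j) - φ (D.x i))| ≤
          Real.pi * (147690 * L * D.rho) := by linarith
      exact le_of_mul_le_mul_left h3 Real.pi_pos
    · exact (((hddH.continuousOn.div_const 2).mul hWc).add (hdH.continuousOn.mul hwc)).add
        (hσc.mul hac)
    · refine ContinuousOn.add ?_ ?_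
      · refine Complex.continuous_re.comp_continuousOn ?_
        exact (Complex.continuous_conj.comp_continuousOn hdH.continuousOn).mul hwc
      · exact (Complex.continuous_re.comp_continuousOn hH.continuousOn).mul hq
    · have := rho_nonneg D
      positivity
  · have h0 : ∀ x, p x = 0 := fun x => by
      have := hL x
      exact abs_eq_zero.1 (le_antisymm (this.trans hL0) (abs_nonneg _))
    have hL1 : L = 0 := le_antisymm hL0 ((abs_nonneg _).trans (hL 0))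
    have hconst : ∀ x y, φ x = φ y := by
      refine is_const_of_deriv_eq_zero (fun x => (hφ x).differentiableAt) fun x => ?_
      rw [(hφ x).deriv, h0]
    have : ∑ i, ∑ j, D.wt i j * (φ (D.x' j) - φ (D.x i)) = 0 := by
      refine Finset.sum_eq_zero fun i _ => Finset.sum_eq_zero fun j _ => ?_
      rw [hconst (D.x' j) (D.x i), sub_self, mul_zero]
    rw [this, hL1]
    simp

end Pool.LG
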