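import Pool.Agent.Work.LipGraph.Interface

/-!
Block G: Green's identity on strips and limits.
-/

open MeasureTheory Set

namespace Pool.LG.G_

/-- the point `x + i y` -/
noncomputable def pt (x y : ℝ) : ℂ := (x : ℂ) + (y : ℂ) * Complex.I

lemma pt_im (x y : ℝ) : (pt x y).im = y := by simp [pt]

lemma pt_re (x y : ℝ) : (pt x y).re = x := by simp [pt]

lemma cont_pt : Continuous (fun q : ℝ × ℝ => pt q.1 q.2) := by
  unfold pt
  fun_prop

lemma deriv_x (x y : ℝ) : HasDerivAt (fun s : ℝ => pt s y) 1 x := by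
  unfold pt
  simpa using (Complex.ofRealCLM.hasDerivAt (x := x)).add_const ((y : ℂ) * Complex.I)

lemma deriv_y (x y : ℝ) : HasDerivAt (fun s : ℝ => pt x s) Complex.I y := by
  unfold pt
  have h1 := ((Complex.ofRealCLM.hasDerivAt (x := y)).mul_const Complex.I).const_add (x : ℂ)
  simpa using h1

section

variable {h b : ℂ → ℝ} {p a : ℂ → ℂ}

lemma h_y (hh : ∀ z : ℂ, 0 < z.im → ∃ l : ℂ →L[ℝ] ℝ, (∀ v, l v = 2 * (p z * v).re) ∧
    HasFDerivAt h l z) (x y : ℝ) (hy : 0 < y) :
    HasDerivAt (fun s : ℝ => h (pt x s)) (-2 * (p (pt x y)).im) y := by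
  obtain ⟨l, hl, hd⟩ := hh (pt x y) (by rw [pt_im]; exact hy)
  have := hd.comp_hasDerivAt y (deriv_y x y)
  rw [hl] at this
  refine HasDerivAt.congr_deriv this ?_
  simp

lemma p_x (hp : ∀ z : ℂ, 0 < z.im → ∃ l : ℂ →L[ℝ] ℂ, (∀ v, l v = a z * v + b z *
    (starRingEnd ℂ) v) ∧ HasFDerivAt p l z) (x y : ℝ) (hy : 0 < y) :
    HasDerivAt (fun s : ℝ => p (pt s y)) (a (pt x y) + b (pt x y)) x := by
  obtain ⟨l, hl, hd⟩ := hp (pt x y) (by rw [pt_im]; exact hy)
  have := hd.comp_hasDerivAt x (deriv_x x y)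
  rw [hl] at this
  refine HasDerivAt.congr_deriv this ?_
  simp

lemma p_y (hp : ∀ z : ℂ, 0 < z.im → ∃ l : ℂ →L[ℝ] ℂ, (∀ v, l v = a z * v + b z *
    (starRingEnd ℂ) v) ∧ HasFDerivAt p l z) (x y : ℝ) (hy : 0 < y) :
    HasDerivAt (fun s : ℝ => p (pt x s))
      (a (pt x y) * Complex.I - b (pt x y) * Complex.I) y := by
  obtain ⟨l, hl, hd⟩ := hp (pt x y) (by rw [pt_im]; exact hy)
  have := hd.comp_hasDerivAt y (deriv_y x y)
  rw [hl] at this
  refine HasDerivAt.congr_deriv this ?_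
  simp
  ring

lemma re_x (hp : ∀ z : ℂ, 0 < z.im → ∃ l : ℂ →L[ℝ] ℂ, (∀ v, l v = a z * v + b z *
    (starRingEnd ℂ) v) ∧ HasFDerivAt p l z) (x y : ℝ) (hy : 0 < y) :
    HasDerivAt (fun s : ℝ => 2 * (p (pt s y)).re)
      (2 * ((a (pt x y)).re + b (pt x y))) x := by
  have := (Complex.reCLM.hasFDerivAt.comp_hasDerivAt x (p_x hp x y hy)).const_mul (2 : ℝ)
  simpa using this

lemma im_y (hp : ∀ z : ℂ, 0 < z.im → ∃ l : ℂ →L[ℝ] ℂ, (∀ v, l v = a z * v + b z *
    (starRingEnd ℂ) v) ∧ HasFDerivAt p l z) (x y : ℝ) (hy : 0 < y) :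
    HasDerivAt (fun s : ℝ => -2 * (p (pt x s)).im)
      (2 * (b (pt x y) - (a (pt x y)).re)) y := by
  have := (Complex.imCLM.hasFDerivAt.comp_hasDerivAt y (p_y hp x y hy)).const_mul (-2 : ℝ)
  have e : -2 * Complex.imCLM (a (pt x y) * Complex.I - b (pt x y) * Complex.I) =
      2 * (b (pt x y) - (a (pt x y)).re) := by
    simp
    ring
  rw [e] at this
  exact this

/-- antiderivative in `y` -/
lemma anti_y (hh : ∀ z : ℂ, 0 < z.im → ∃ l : ℂ →L[ℝ] ℝ, (∀ v, l v = 2 * (p z * v).re) ∧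
    HasFDerivAt h l z) (hp : ∀ z : ℂ, 0 < z.im → ∃ l : ℂ →L[ℝ] ℂ, (∀ v, l v = a z * v + b z *
    (starRingEnd ℂ) v) ∧ HasFDerivAt p l z) (α β x y : ℝ) (hy : 0 < y) :
    HasDerivAt (fun s : ℝ => (α * s + β) * (-2 * (p (pt x s)).im) - α * h (pt x s))
      ((α * y + β) * (2 * (b (pt x y) - (a (pt x y)).re))) y := by
  have h1 : HasDerivAt (fun s : ℝ => α * s + β) α y := by
    simpa using ((hasDerivAt_id y).const_mul α).add_const β
  have h2 := (h1.mul (im_y hp x y hy)).sub ((h_y hh x y hy).const_mul α)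
  refine HasDerivAt.congr_deriv h2 ?_
  ring

lemma cont_rect {f : ℂ → ℝ} (hf : ContinuousOn f {z | 0 < z.im}) {c : ℝ} (hc : 0 < c)
    (R d : ℝ) : ContinuousOn (fun q : ℝ × ℝ => f (pt q.1 q.2)) (Icc (-R) R ×ˢ Icc c d) := by
  refine hf.comp cont_pt.continuousOn ?_
  rintro ⟨x, y⟩ ⟨_, hy⟩
  simp only [mem_ofPred_eq, pt_im]
  exact lt_of_lt_of_le hc hy.1

lemma cont_x {f : ℂ → ℝ} (hf : ContinuousOn f {z | 0 < z.im}) {y : ℝ} (hy : 0 < y)
    (s : Set ℝ) : ContinuousOn (fun x : ℝ => f (pt x y)) s := by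
  refine hf.comp (s := s) (t := {z | 0 < z.im}) ?_ ?_
  · exact (cont_pt.comp (by fun_prop : Continuous fun x : ℝ => (x, y))).continuousOn
  · intro x _
    simp only [mem_ofPred_eq, pt_im]
    exact hy

lemma cont_y {f : ℂ → ℝ} (hf : ContinuousOn f {z | 0 < z.im}) {c : ℝ} (hc : 0 < c)
    (x : ℝ) : ContinuousOn (fun y : ℝ => f (pt x y)) (Ici c) := by
  refine hf.comp (t := {z | 0 < z.im}) ?_ ?_
  · exact (cont_pt.comp (by fun_prop : Continuous fun y : ℝ => (x, y))).continuousOn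
  · intro y hy
    simp only [mem_ofPred_eq, pt_im]
    exact lt_of_lt_of_le hc hy

/-- Green on a rectangle with an affine weight. -/
lemma rect (hh : ∀ z : ℂ, 0 < z.im → ∃ l : ℂ →L[ℝ] ℝ, (∀ v, l v = 2 * (p z * v).re) ∧
    HasFDerivAt h l z) (hp : ∀ z : ℂ, 0 < z.im → ∃ l : ℂ →L[ℝ] ℂ, (∀ v, l v = a z * v + b z *
    (starRingEnd ℂ) v) ∧ HasFDerivAt p l z) (ha : ContinuousOn a {z | 0 < z.im})
    (hb : ContinuousOn b {z | 0 < z.im}) (α β R : ℝ) {c d : ℝ} (hR : 0 ≤ R) (hc : 0 < c)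
    (hcd : c ≤ d) :
    ∫ y in c..d, (α * y + β) * ∫ x in (-R)..R, 4 * b (pt x y) =
      (∫ y in c..d, (α * y + β) * (2 * (p (pt R y)).re - 2 * (p (pt (-R) y)).re)) +
      ∫ x in (-R)..R, (((α * d + β) * (-2 * (p (pt x d)).im) - α * h (pt x d)) -
        ((α * c + β) * (-2 * (p (pt x c)).im) - α * h (pt x c))) := by
  have hRR : -R ≤ R := by linarith
  have har : ContinuousOn (fun z => (a z).re) {z | 0 < z.im} :=
    Complex.continuous_re.comp_continuousOn ha
  have hX : ContinuousOn (fun z => 2 * ((a z).re + b z)) {z | 0 < z.im} :=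
    continuousOn_const.mul (har.add hb)
  have hY : ContinuousOn (fun z => 2 * (b z - (a z).re)) {z | 0 < z.im} :=
    continuousOn_const.mul (hb.sub har)
  -- the inner integral
  have key : ∀ y ∈ uIcc c d, (α * y + β) * ∫ x in (-R)..R, 4 * b (pt x y) =
      (α * y + β) * (2 * (p (pt R y)).re - 2 * (p (pt (-R) y)).re) +
      ∫ x in (-R)..R, (α * y + β) * (2 * (b (pt x y) - (a (pt x y)).re)) := by
    intro y hy
    rw [uIcc_of_le hcd] at hy
    have hy0 : 0 < y := lt_of_lt_of_le hc hy.1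
    have e1 : ∫ x in (-R)..R, 4 * b (pt x y) =
        (∫ x in (-R)..R, 2 * ((a (pt x y)).re + b (pt x y))) +
        ∫ x in (-R)..R, 2 * (b (pt x y) - (a (pt x y)).re) := by
      rw [← intervalIntegral.integral_add]
      · congr 1
        ext x
        ring
      · exact (cont_x hX hy0 _).intervalIntegrable
      · exact (cont_x hY hy0 _).intervalIntegrable
    have e2 : ∫ x in (-R)..R, 2 * ((a (pt x y)).re + b (pt x y)) =
        2 * (p (pt R y)).re - 2 * (p (pt (-R) y)).re :=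
      intervalIntegral.integral_eq_sub_of_hasDerivAt (f := fun x => 2 * (p (pt x y)).re)
        (fun x _ => re_x hp x y hy0) (cont_x hX hy0 _).intervalIntegrable
    rw [e1, e2, mul_add]
    congr 1
    rw [← intervalIntegral.integral_const_mul]
  rw [intervalIntegral.integral_congr (g := fun y => (α * y + β) * (2 * (p (pt R y)).re -
      2 * (p (pt (-R) y)).re) + ∫ x in (-R)..R, (α * y + β) * (2 * (b (pt x y) -
      (a (pt x y)).re))) key]
  have hprod : IntegrableOn (Function.uncurry fun x y : ℝ => (α * y + β) *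
      (2 * (b (pt x y) - (a (pt x y)).re))) (uIoc (-R) R ×ˢ uIoc c d) := by
    rw [uIoc_of_le hRR, uIoc_of_le hcd]
    have hcont : ContinuousOn (Function.uncurry fun x y : ℝ => (α * y + β) *
      (2 * (b (pt x y) - (a (pt x y)).re))) (Icc (-R) R ×ˢ Icc c d) := by
      have h1 : ContinuousOn (fun q : ℝ × ℝ => α * q.2 + β) (Icc (-R) R ×ˢ Icc c d) := by
        fun_prop
      exact h1.mul (cont_rect hY hc R d)
    have := hcont.integrableOn_compact (μ := volume) (isCompact_Icc.prod isCompact_Icc)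
    exact this.mono_set (prod_mono Ioc_subset_Icc_self Ioc_subset_Icc_self)
  have hprod' : IntegrableOn (Function.uncurry fun y x : ℝ => (α * y + β) *
      (2 * (b (pt x y) - (a (pt x y)).re))) (uIoc c d ×ˢ uIoc (-R) R) := by
    rw [IntegrableOn, Measure.volume_eq_prod, ← Measure.prod_restrict] at hprod ⊢
    exact hprod.swap
  have hpr : ContinuousOn (fun z => 2 * (p z).re) {z | 0 < z.im} := by
    have : ContinuousOn p {z | 0 < z.im} := by
      intro z hz
      obtain ⟨l, _, hd⟩ := hp z hz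
      exact hd.continuousAt.continuousWithinAt
    exact continuousOn_const.mul (Complex.continuous_re.comp_continuousOn this)
  rw [intervalIntegral.integral_add]
  · congr 1
    rw [intervalIntegral_intervalIntegral_swap hprod']
    refine intervalIntegral.integral_congr (fun x _ => ?_)
    refine intervalIntegral.integral_eq_sub_of_hasDerivAt
      (f := fun y => (α * y + β) * (-2 * (p (pt x y)).im) - α * h (pt x y))
      (fun y hy => ?_) ?_
    · rw [uIcc_of_le hcd] at hy
      exact anti_y hh hp α β x y (lt_of_lt_of_le hc hy.1)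
    · refine ContinuousOn.intervalIntegrable ?_
      rw [uIcc_of_le hcd]
      have h1 : ContinuousOn (fun y : ℝ => α * y + β) (Icc c d) := by fun_prop
      exact h1.mul ((cont_y hY hc x).mono Icc_subset_Ici_self)
  · refine ContinuousOn.intervalIntegrable ?_
    rw [uIcc_of_le hcd]
    have h1 : ContinuousOn (fun y : ℝ => α * y + β) (Icc c d) := by fun_prop
    exact h1.mul (((cont_y hpr hc R).mono Icc_subset_Ici_self).sub
      ((cont_y hpr hc (-R)).mono Icc_subset_Ici_self))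
  · rw [intervalIntegrable_iff, IntegrableOn]
    have h1 : Integrable (Function.uncurry fun y x : ℝ => (α * y + β) *
      (2 * (b (pt x y) - (a (pt x y)).re))) ((volume.restrict (uIoc c d)).prod
        (volume.restrict (uIoc (-R) R))) := by
      rw [Measure.prod_restrict]
      exact hprod'
    have h2 := h1.integral_prod_left
    refine h2.congr (Filter.Eventually.of_forall fun y => ?_)
    simp only [Function.uncurry]
    rw [intervalIntegral.integral_of_le hRR, uIoc_of_le hRR]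

lemma bound {G : ℂ → ℝ} (hG : ∀ z : ℂ, 0 < z.im → z.im ^ 2 * |4 * b z| ≤ G z)
    (α β R : ℝ) {c d : ℝ} (hR : 0 ≤ R) (hc : 0 < c) (hcd : c ≤ d)
    (hw : ∀ y ∈ Icc c d, 0 ≤ α * y + β ∧ α * y + β ≤ y) :
    ‖∫ y in c..d, (α * y + β) * ∫ x in (-R)..R, 4 * b (pt x y)‖ₑ ≤
      ∫⁻ y in Ioc c d, ∫⁻ x : ℝ, ENNReal.ofReal (y⁻¹ * G (pt x y)) := by
  rw [intervalIntegral.integral_of_le hcd]
  refine (enorm_integral_le_lintegral_enorm _).trans ?_
  refine setLIntegral_mono' measurableSet_Ioc (fun y hy => ?_)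
  have hy0 : 0 < y := lt_trans hc hy.1
  have hw1 := hw y ⟨hy.1.le, hy.2⟩
  rw [enorm_mul, intervalIntegral.integral_of_le (by linarith : -R ≤ R)]
  calc ‖α * y + β‖ₑ * ‖∫ x in Ioc (-R) R, 4 * b (pt x y)‖ₑ
      ≤ ‖α * y + β‖ₑ * ∫⁻ x in Ioc (-R) R, ‖4 * b (pt x y)‖ₑ := by
        gcongr
        exact enorm_integral_le_lintegral_enorm _
    _ ≤ ∫⁻ x in Ioc (-R) R, ‖α * y + β‖ₑ * ‖4 * b (pt x y)‖ₑ :=
        lintegral_const_mul_le _ _
    _ ≤ ∫⁻ x in Ioc (-R) R, ENNReal.ofReal (y⁻¹ * G (pt x y)) := by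
        refine lintegral_mono (fun x => ?_)
        rw [← enorm_mul, Real.enorm_eq_ofReal_abs, abs_mul, abs_of_nonneg hw1.1]
        refine ENNReal.ofReal_le_ofReal ?_
        have hg := hG (pt x y) (by rw [pt_im]; exact hy0)
        rw [pt_im] at hg
        calc (α * y + β) * |4 * b (pt x y)| ≤ y * |4 * b (pt x y)| :=
              mul_le_mul_of_nonneg_right hw1.2 (abs_nonneg _)
          _ = y⁻¹ * (y ^ 2 * |4 * b (pt x y)|) := by field_simp
          _ ≤ y⁻¹ * G (pt x y) := mul_le_mul_of_nonneg_left hg (inv_pos.mpr hy0).le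
    _ ≤ ∫⁻ x : ℝ, ENNReal.ofReal (y⁻¹ * G (pt x y)) := setLIntegral_le_lintegral _ _

/-- the side terms are small -/
lemma side (α β R δ : ℝ) {c d B : ℝ} (hc : 0 < c) (hcd : c ≤ d) (hd : d ≤ 2 * B)
    (hw : ∀ y ∈ Icc c d, 0 ≤ α * y + β ∧ α * y + β ≤ y)
    (h1 : ∀ y ∈ Icc c d, ‖p (pt R y)‖ ≤ δ) (h2 : ∀ y ∈ Icc c d, ‖p (pt (-R) y)‖ ≤ δ) :
    |∫ y in c..d, (α * y + β) * (2 * (p (pt R y)).re - 2 * (p (pt (-R) y)).re)| ≤
      16 * B ^ 2 * δ := by
  have hB : 0 < B := by linarith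
  have hδ : 0 ≤ δ := (norm_nonneg _).trans (h1 c ⟨le_rfl, hcd⟩)
  have key : ∀ y ∈ uIoc c d,
      ‖(α * y + β) * (2 * (p (pt R y)).re - 2 * (p (pt (-R) y)).re)‖ ≤ 8 * B * δ := by
    intro y hy
    rw [uIoc_of_le hcd] at hy
    have hy' : y ∈ Icc c d := ⟨hy.1.le, hy.2⟩
    have hw1 := hw y hy'
    have a1 := (Complex.abs_re_le_norm _).trans (h1 y hy')
    have a2 := (Complex.abs_re_le_norm _).trans (h2 y hy')
    rw [norm_mul, Real.norm_eq_abs, Real.norm_eq_abs, abs_of_nonneg hw1.1]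
    have a3 : |2 * (p (pt R y)).re - 2 * (p (pt (-R) y)).re| ≤ 4 * δ := by
      rw [abs_le] at a1 a2 ⊢
      constructor <;> linarith
    calc (α * y + β) * |2 * (p (pt R y)).re - 2 * (p (pt (-R) y)).re|
        ≤ (2 * B) * (4 * δ) := by
          refine mul_le_mul ?_ a3 (abs_nonneg _) (by linarith)
          linarith [hy.2, hw1.2]
      _ = 8 * B * δ := by ring
  have := intervalIntegral.norm_integral_le_of_norm_le_const key
  rw [Real.norm_eq_abs, abs_of_nonneg (by linarith : 0 ≤ d - c)] at this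
  refine this.trans ?_
  have : d - c ≤ 2 * B := by linarith
  calc 8 * B * δ * (d - c) ≤ 8 * B * δ * (2 * B) :=
        mul_le_mul_of_nonneg_left this (by positivity)
    _ = 16 * B ^ 2 * δ := by ring

end

end Pool.LG.G_

namespace Pool.LG

open G_

theorem stmt_G : Stmt_G := by
  intro h b p a G K T hh hp ha hb hint hdec hGm hG hK hGK hT0 hTinf
  set U : ℝ → ℝ := fun y => ∫ x : ℝ, h (x + y * Complex.I) with hU
  have hi : ∀ y : ℝ, 0 < y → Integrable (fun x : ℝ => h (pt x y)) := hint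
  -- the main inequality
  have main : ∀ ε B : ℝ, 0 < ε → 2 * ε ≤ B →
      |2 * U ε - U (2 * ε) - 2 * U B + U (2 * B)| ≤ K := by
    intro ε B hε hεB
    have hB : 0 < B := by linarith
    set g : ℝ → ℝ := fun x => 2 * h (pt x ε) - h (pt x (2 * ε)) - 2 * h (pt x B) +
      h (pt x (2 * B)) with hg
    have hgi : Integrable g := by
      refine (((hi ε hε).const_mul 2).sub (hi (2 * ε) (by linarith))).sub
        ((hi B hB).const_mul 2) |>.add (hi (2 * B) (by linarith))
    have hgU : ∫ x : ℝ, g x = 2 * U ε - U (2 * ε) - 2 * U B + U (2 * B) := by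
      rw [hg, integral_add, integral_sub, integral_sub, integral_const_mul, integral_const_mul]
      · rfl
      · exact (hi ε hε).const_mul 2
      · exact hi (2 * ε) (by linarith)
      · exact ((hi ε hε).const_mul 2).sub (hi (2 * ε) (by linarith))
      · exact (hi B hB).const_mul 2
      · exact (((hi ε hε).const_mul 2).sub (hi (2 * ε) (by linarith))).sub
          ((hi B hB).const_mul 2)
      · exact hi (2 * B) (by linarith)
    rw [← hgU]
    have hlim := intervalIntegral_tendsto_integral hgi Filter.tendsto_neg_atTop_atBot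
      Filter.tendsto_id
    refine le_of_forall_pos_le_add (fun δ hδ => ?_)
    set δ' := δ / (48 * B ^ 2) with hδ'
    have hδ'0 : 0 < δ' := by positivity
    obtain ⟨R₀, hR₀⟩ := hdec ε (2 * B) hε δ' hδ'0
    refine le_of_tendsto hlim.abs ?_
    filter_upwards [Filter.eventually_ge_atTop (max R₀ 0)] with R hR
    have hR1 : R₀ ≤ R := (le_max_left _ _).trans hR
    have hR2 : 0 ≤ R := (le_max_right _ _).trans hR
    have p1 : ∀ y ∈ Icc ε (2 * B), ‖p (pt R y)‖ ≤ δ' := by
      intro y hy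
      refine hR₀ _ (by rw [pt_im]; exact hy.1) (by rw [pt_im]; exact hy.2) ?_
      rw [pt_re, abs_of_nonneg hR2]
      exact hR1
    have p2 : ∀ y ∈ Icc ε (2 * B), ‖p (pt (-R) y)‖ ≤ δ' := by
      intro y hy
      refine hR₀ _ (by rw [pt_im]; exact hy.1) (by rw [pt_im]; exact hy.2) ?_
      rw [pt_re, abs_neg, abs_of_nonneg hR2]
      exact hR1
    have w1 : ∀ y ∈ Icc ε (2 * ε), 0 ≤ 2 * y + (-(2 * ε)) ∧ 2 * y + (-(2 * ε)) ≤ y := by
      intro y hy
      constructor <;> linarith [hy.1, hy.2]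
    have w2 : ∀ y ∈ Icc (2 * ε) B, 0 ≤ 1 * y + 0 ∧ 1 * y + 0 ≤ y := by
      intro y hy
      constructor <;> linarith [hy.1, hy.2]
    have w3 : ∀ y ∈ Icc B (2 * B), 0 ≤ (-1) * y + 2 * B ∧ (-1) * y + 2 * B ≤ y := by
      intro y hy
      constructor <;> linarith [hy.1, hy.2]
    have r1 := rect hh hp ha hb 2 (-(2 * ε)) R hR2 hε (by linarith : ε ≤ 2 * ε)
    have r2 := rect hh hp ha hb 1 0 R hR2 (by linarith : 0 < 2 * ε) hεB
    have r3 := rect hh hp ha hb (-1) (2 * B) R hR2 hB (by linarith : B ≤ 2 * B)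
    have s1 := side (p := p) 2 (-(2 * ε)) R δ' (B := B) hε (by linarith : ε ≤ 2 * ε)
      (by linarith) w1 (fun y hy => p1 y ⟨hy.1, by linarith [hy.2]⟩)
      (fun y hy => p2 y ⟨hy.1, by linarith [hy.2]⟩)
    have s2 := side (p := p) 1 0 R δ' (B := B) (by linarith : 0 < 2 * ε) hεB
      (by linarith) w2 (fun y hy => p1 y ⟨by linarith [hy.1], by linarith [hy.2]⟩)
      (fun y hy => p2 y ⟨by linarith [hy.1], by linarith [hy.2]⟩)
    have s3 := side (p := p) (-1) (2 * B) R δ' (B := B) hB (by linarith : B ≤ 2 * B)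
      (by linarith) w3 (fun y hy => p1 y ⟨by linarith [hy.1], by linarith [hy.2]⟩)
      (fun y hy => p2 y ⟨by linarith [hy.1], by linarith [hy.2]⟩)
    have b1 := bound (b := b) hG 2 (-(2 * ε)) R hR2 hε (by linarith : ε ≤ 2 * ε) w1
    have b2 := bound (b := b) hG 1 0 R hR2 (by linarith : 0 < 2 * ε) hεB w2
    have b3 := bound (b := b) hG (-1) (2 * B) R hR2 hB (by linarith : B ≤ 2 * B) w3
    set J1 := ∫ y in ε..(2 * ε), (2 * y + (-(2 * ε))) * ∫ x in (-R)..R, 4 * b (pt x y)
    set J2 := ∫ y in (2 * ε)..B, (1 * y + 0) * ∫ x in (-R)..R, 4 * b (pt x y)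
    set J3 := ∫ y in B..(2 * B), ((-1) * y + 2 * B) * ∫ x in (-R)..R, 4 * b (pt x y)
    have hJ : |J1 + J2 + J3| ≤ K := by
      have e0 : ‖J1 + J2 + J3‖ₑ ≤ ENNReal.ofReal K := by
        refine (enorm_add_le _ _).trans ?_
        refine (add_le_add (enorm_add_le _ _) le_rfl).trans ?_
        refine (add_le_add (add_le_add b1 b2) b3).trans ?_
        refine le_trans ?_ hGK
        have d1 : Disjoint (Ioc ε (2 * ε)) (Ioc (2 * ε) B) := by
          rw [Set.disjoint_left]
          intro y h1 h2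
          exact absurd h1.2 (not_le.mpr h2.1)
        have d2 : Disjoint (Ioc ε (2 * ε) ∪ Ioc (2 * ε) B) (Ioc B (2 * B)) := by
          rw [Set.disjoint_left]
          intro y h1 h2
          rcases h1 with h1 | h1
          · exact absurd (h1.2.trans hεB) (not_le.mpr h2.1)
          · exact absurd h1.2 (not_le.mpr h2.1)
        rw [← lintegral_union measurableSet_Ioc d1, ← lintegral_union measurableSet_Ioc d2]
        refine lintegral_mono_set ?_
        intro y hy
        rcases hy with (hy | hy) | hy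
        · exact lt_trans hε hy.1
        · exact lt_trans (by linarith) hy.1
        · exact lt_trans hB hy.1
      rw [Real.enorm_eq_ofReal_abs] at e0
      exact (ENNReal.ofReal_le_ofReal_iff hK).mp e0
    have hcx : ∀ y : ℝ, 0 < y → Continuous (fun x : ℝ => h (pt x y)) := by
      intro y hy
      have hhc : ContinuousOn h {z | 0 < z.im} := by
        intro z hz
        obtain ⟨l, _, hd⟩ := hh z hz
        exact hd.continuousAt.continuousWithinAt
      rw [← continuousOn_univ]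
      exact cont_x hhc hy _
    have hcp : ∀ y : ℝ, 0 < y → Continuous (fun x : ℝ => -2 * (p (pt x y)).im) := by
      intro y hy
      have hpc : ContinuousOn (fun z => -2 * (p z).im) {z | 0 < z.im} := by
        have : ContinuousOn p {z | 0 < z.im} := by
          intro z hz
          obtain ⟨l, _, hd⟩ := hp z hz
          exact hd.continuousAt.continuousWithinAt
        exact continuousOn_const.mul (Complex.continuous_im.comp_continuousOn this)
      rw [← continuousOn_univ]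
      exact cont_x hpc hy _
    have hsum : ∫ x in (-R)..R, g x =
        (∫ x in (-R)..R, (((2 * (2 * ε) + (-(2 * ε))) * (-2 * (p (pt x (2 * ε))).im) -
          2 * h (pt x (2 * ε))) - ((2 * ε + (-(2 * ε))) * (-2 * (p (pt x ε)).im) -
          2 * h (pt x ε)))) +
        (∫ x in (-R)..R, (((1 * B + 0) * (-2 * (p (pt x B)).im) - 1 * h (pt x B)) -
          ((1 * (2 * ε) + 0) * (-2 * (p (pt x (2 * ε))).im) - 1 * h (pt x (2 * ε))))) +
        ∫ x in (-R)..R, ((((-1) * (2 * B) + 2 * B) * (-2 * (p (pt x (2 * B))).im) -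
          (-1) * h (pt x (2 * B))) - (((-1) * B + 2 * B) * (-2 * (p (pt x B)).im) -
          (-1) * h (pt x B))) := by
      have c1 := hcx ε hε
      have c2 := hcx (2 * ε) (by linarith)
      have c3 := hcx B hB
      have c4 := hcx (2 * B) (by linarith)
      have q1 := hcp ε hε
      have q2 := hcp (2 * ε) (by linarith)
      have q3 := hcp B hB
      have q4 := hcp (2 * B) (by linarith)
      have A : ∀ (α β γ δ : ℝ) {f1 f2 f3 f4 : ℝ → ℝ}, Continuous f1 → Continuous f2 →
          Continuous f3 → Continuous f4 →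
          Continuous (fun x => (α * f1 x - β * f2 x) - (γ * f3 x - δ * f4 x)) := by
        intro α β γ δ f1 f2 f3 f4 k1 k2 k3 k4
        fun_prop
      have A1 := A (2 * (2 * ε) + (-(2 * ε))) 2 (2 * ε + (-(2 * ε))) 2 q2 c2 q1 c1
      have A2 := A (1 * B + 0) 1 (1 * (2 * ε) + 0) 1 q3 c3 q2 c2
      have A3 := A ((-1) * (2 * B) + 2 * B) (-1) ((-1) * B + 2 * B) (-1) q4 c4 q3 c3
      rw [← intervalIntegral.integral_add, ← intervalIntegral.integral_add]
      · congr 1
        ext x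
        rw [hg]
        ring
      · exact (A1.add A2).intervalIntegrable _ _
      · exact A3.intervalIntegrable _ _
      · exact A1.intervalIntegrable _ _
      · exact A2.intervalIntegrable _ _
    have hfin : ∫ x in (-R)..R, g x = J1 + J2 + J3 -
        ((∫ y in ε..(2 * ε), (2 * y + (-(2 * ε))) * (2 * (p (pt R y)).re -
          2 * (p (pt (-R) y)).re)) +
        (∫ y in (2 * ε)..B, (1 * y + 0) * (2 * (p (pt R y)).re - 2 * (p (pt (-R) y)).re)) +
        ∫ y in B..(2 * B), ((-1) * y + 2 * B) * (2 * (p (pt R y)).re -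
          2 * (p (pt (-R) y)).re)) := by
      rw [hsum, r1, r2, r3]
      ring
    have hδ3 : 16 * B ^ 2 * δ' = δ / 3 := by
      rw [hδ']
      field_simp
      norm_num
    rw [hδ3] at s1 s2 s3
    have e : (∫ x in (-R)..(id R), g x) = ∫ x in (-R)..R, g x := rfl
    rw [e, hfin]
    rw [abs_le] at hJ s1 s2 s3 ⊢
    constructor <;> linarith [hJ.1, hJ.2, s1.1, s1.2, s2.1, s2.2, s3.1, s3.2]
  -- the limit `ε → 0`
  have lim1 : ∀ B : ℝ, 0 < B → |T - 2 * U B + U (2 * B)| ≤ K := by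
    intro B hB
    have t1 : Filter.Tendsto U (nhdsWithin 0 (Ioi 0)) (nhds T) := hT0
    have t2 : Filter.Tendsto (fun ε : ℝ => U (2 * ε)) (nhdsWithin 0 (Ioi 0)) (nhds T) := by
      refine t1.comp ?_
      rw [tendsto_nhdsWithin_iff]
      constructor
      · have : Filter.Tendsto (fun ε : ℝ => 2 * ε) (nhds 0) (nhds (2 * 0)) :=
          (continuous_const.mul continuous_id).tendsto 0
        rw [mul_zero] at this
        exact this.mono_left nhdsWithin_le_nhds
      · filter_upwards [self_mem_nhdsWithin] with ε hε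
        have : (0 : ℝ) < ε := hε
        show (0 : ℝ) < 2 * ε
        linarith
    have t3 : Filter.Tendsto (fun ε : ℝ => |2 * U ε - U (2 * ε) - 2 * U B + U (2 * B)|)
        (nhdsWithin 0 (Ioi 0)) (nhds |2 * T - T - 2 * U B + U (2 * B)|) :=
      ((((t1.const_mul 2).sub t2).sub_const _).add_const _).abs
    have e : 2 * T - T - 2 * U B + U (2 * B) = T - 2 * U B + U (2 * B) := by ring
    rw [e] at t3
    refine le_of_tendsto t3 ?_
    have hmem : Ioo (0 : ℝ) (B / 2) ∈ nhdsWithin (0 : ℝ) (Ioi 0) :=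
      Ioo_mem_nhdsGT (by linarith)
    filter_upwards [hmem] with ε hε
    exact main ε B hε.1 (by linarith [hε.2])
  have t4 : Filter.Tendsto (fun B : ℝ => U (2 * B)) Filter.atTop (nhds 0) :=
    hTinf.comp (Filter.tendsto_id.const_mul_atTop (by norm_num : (0 : ℝ) < 2))
  have t5 : Filter.Tendsto (fun B : ℝ => |T - 2 * U B + U (2 * B)|) Filter.atTop
      (nhds |T - 2 * 0 + 0|) :=
    ((tendsto_const_nhds.sub (hTinf.const_mul 2)).add t4).abs
  have e : T - 2 * 0 + 0 = T := by ring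
  rw [e] at t5
  refine le_of_tendsto t5 ?_
  filter_upwards [Filter.eventually_gt_atTop (0 : ℝ)] with B hB
  exact lim1 B hB

end Pool.LG
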