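import Pool.Agent.Work.LipGraph.K1

/-!
# Block H1: positive harmonic matrix functions
-/

open Matrix MeasureTheory
open scoped ComplexOrder

namespace Pool.LG

namespace H1_

variable {n m : ℕ}

lemma rtr_har (t : Fin m → ℝ) (E : Fin m → Mat n) (B : Mat n) (z : ℂ) :
    rtr (B * Har t E z) = ∑ i, rtr (B * E i) • P (t i) z := by
  unfold rtr Har
  rw [Finset.mul_sum, trace_sum, Complex.re_sum]
  refine Finset.sum_congr rfl fun i _ => ?_
  rw [mul_smul_comm, trace_smul, smul_eq_mul, Complex.re_ofReal_mul, smul_eq_mul, mul_comm]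

lemma part1 (t : Fin m → ℝ) (E : Fin m → Mat n) (z₀ : ℂ) (h : 0 < z₀.im) (B : Mat n) :
    Real.circleAverage (fun z => rtr (B * Har t E z)) z₀ (z₀.im / 3) = rtr (B * Har t E z₀) := by
  have h1 : (fun z => rtr (B * Har t E z)) = fun z => ∑ i, (rtr (B * E i) • P (t i)) z := by
    funext z
    rw [rtr_har]
    rfl
  rw [h1, Real.circleAverage_fun_sum, rtr_har]
  · refine Finset.sum_congr rfl fun i _ => ?_
    rw [Real.circleAverage_smul, K1_.part1 _ _ h]
  · intro i _
    exact (K1_.ci _ (K1_.cont_P (t i)) z₀ h).const_smul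

lemma psd_sum (E : Fin m → Mat n) (hE : ∀ i, (E i).PosSemidef) (c : Fin m → ℝ)
    (hc : ∀ i, 0 ≤ c i) : (∑ i, (c i : ℂ) • E i).PosSemidef := by
  refine Matrix.posSemidef_sum _ fun i _ => ?_
  exact (hE i).smul (Complex.zero_le_real.2 (hc i))

lemma P_pos {t : ℝ} {z : ℂ} (hz : 0 < z.im) : 0 < P t z := by
  unfold P
  positivity

lemma part2 (t : Fin m → ℝ) (E : Fin m → Mat n) (hE : ∀ i, (E i).PosSemidef) (z₀ : ℂ)
    (h : 0 < z₀.im) (z : ℂ) (hz : ‖z - z₀‖ ≤ z₀.im / 3) :
    (Har t E z).PosSemidef ∧ ((2 : ℂ) • Har t E z₀ - Har t E z).PosSemidef ∧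
    ((2 : ℂ) • Har t E z - Har t E z₀).PosSemidef := by
  have hp : ∀ i, 0 < z.im ∧ P (t i) z₀ / 2 ≤ P (t i) z ∧ P (t i) z ≤ 2 * P (t i) z₀ :=
    fun i => K1_.part3 (t i) z₀ h z hz
  have hzi : 0 < z.im := by
    have := K1_.im_pos h hz
    linarith
  have e : ∀ z₁ z₂ : ℂ, (2 : ℂ) • Har t E z₁ - Har t E z₂ =
      ∑ i, ((2 * P (t i) z₁ - P (t i) z₂ : ℝ) : ℂ) • E i := by
    intro z₁ z₂
    unfold Har
    rw [Finset.smul_sum, ← Finset.sum_sub_distrib]
    refine Finset.sum_congr rfl fun i _ => ?_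
    push_cast
    rw [smul_smul, sub_smul]
  refine ⟨psd_sum E hE _ fun i => (P_pos hzi).le, ?_, ?_⟩
  · rw [e]
    exact psd_sum E hE _ fun i => by linarith [(hp i).2.2]
  · rw [e]
    exact psd_sum E hE _ fun i => by linarith [(hp i).2.1]

/-- the average of `r / (z - z₀)` vanishes -/
lemma avg_inv (z₀ : ℂ) (h : 0 < z₀.im) :
    Real.circleAverage (fun z => ((z₀.im / 3 : ℝ) : ℂ) / (z - z₀)) z₀ (z₀.im / 3) = 0 := by
  set r : ℝ := z₀.im / 3 with hr
  have hr0 : 0 < r := by positivity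
  have hrc : (r : ℂ) ≠ 0 := by exact_mod_cast hr0.ne'
  set w : ℂ → ℂ := fun z => (z - z₀) / r with hw
  have hwd : DifferentiableOn ℂ w {z | 0 < z.im} := by
    intro z _
    exact ((differentiableAt_id.sub (differentiableAt_const _)).div_const _).differentiableWithinAt
  set cj : ℂ →L[ℝ] ℂ := (Complex.conjCLE : ℂ →L[ℝ] ℂ) with hcj
  have e1 : Real.circleAverage w z₀ r = 0 := by
    rw [hr, K1_.mv w hwd z₀ h]
    simp [hw]
  have e1' : Real.circleAverage (cj ∘ w) z₀ r = 0 := by
    rw [ContinuousLinearMap.circleAverage_comp_comm _ (K1_.ci _ hwd.continuousOn z₀ h), e1,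
      map_zero]
  rw [← e1']
  refine Real.circleAverage_congr_sphere fun z hz => ?_
  rw [Metric.mem_sphere, dist_eq_norm, abs_of_pos hr0] at hz
  have hne : z - z₀ ≠ 0 := by
    intro h0
    rw [h0, norm_zero] at hz
    exact hr0.ne hz
  have h1 : (z - z₀) * (starRingEnd ℂ) (z - z₀) = (r : ℂ) ^ 2 := by
    rw [Complex.mul_conj, Complex.normSq_eq_norm_sq, hz]
    push_cast
    ring
  have : (cj ∘ w) z = (starRingEnd ℂ) (w z) := rfl
  rw [this, hw]
  simp only [map_div₀, Complex.conj_ofReal]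
  rw [div_eq_div_iff hne hrc, ← sq, ← h1]
  ring

/-- continuity on the sphere gives circle integrability -/
lemma cis {E : Type*} [NormedAddCommGroup E] (f : ℂ → E) (z₀ : ℂ) (h : 0 < z₀.im)
    (hf : ContinuousOn f ({z | 0 < z.im} ∩ {z | z ≠ z₀})) :
    CircleIntegrable f z₀ (z₀.im / 3) := by
  refine ContinuousOn.circleIntegrable (by positivity) (hf.mono ?_)
  intro z hz
  rw [Metric.mem_sphere, dist_eq_norm] at hz
  have := K1_.im_pos h hz.le
  refine ⟨?_, ?_⟩
  · simp only [Set.mem_ofPred_eq]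
    linarith
  · simp only [Set.mem_ofPred_eq]
    intro h0
    rw [h0, sub_self, norm_zero] at hz
    linarith

/-- the scalar form of the third part -/
lemma scal (t : Fin m → ℝ) (C : Fin m → ℂ) (z₀ : ℂ) (h : 0 < z₀.im) :
    (z₀.im / 3) ^ 2 / 4 * ‖∑ i, (((t i : ℂ) - z₀)⁻¹ ^ 2) * C i‖ ^ 2 ≤
      Real.circleAverage (fun z => ‖∑ i, ((P (t i) z : ℂ) - P (t i) z₀) * C i‖ ^ 2) z₀
        (z₀.im / 3) := by
  set r : ℝ := z₀.im / 3 with hr
  have hr0 : 0 < r := by positivity
  set D : ℂ := ∑ i, (((t i : ℂ) - z₀)⁻¹ ^ 2) * C i with hD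
  set f : ℂ → ℂ := fun z => ∑ i, ((P (t i) z : ℂ) - P (t i) z₀) * C i with hf
  set om : ℂ → ℂ := fun z => (r : ℂ) / (z - z₀) with hom
  have hfc : ContinuousOn f {z | 0 < z.im} := by
    refine continuousOn_finsetSum _ fun i _ => ?_
    exact ((Complex.continuous_ofReal.comp_continuousOn (K1_.cont_P (t i))).sub
      continuousOn_const).mul continuousOn_const
  have homc : ContinuousOn om ({z | 0 < z.im} ∩ {z | z ≠ z₀}) := by
    refine ContinuousOn.div continuousOn_const (continuousOn_id.sub continuousOn_const) ?_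
    intro z hz
    exact sub_ne_zero.2 hz.2
  have hPc : ∀ i, ContinuousOn (fun z => (P (t i) z : ℂ) * om z)
      ({z | 0 < z.im} ∩ {z | z ≠ z₀}) := fun i =>
    ((Complex.continuous_ofReal.comp_continuousOn (K1_.cont_P (t i))).mono
      Set.inter_subset_left).mul homc
  -- the average of `f * om`
  have havg : Real.circleAverage (fun z => f z * om z) z₀ r = r / (2 * Complex.I) * D := by
    have e1 : (fun z => f z * om z) = fun z => ∑ i,
        ((C i • fun z => (P (t i) z : ℂ) * om z) - ((P (t i) z₀ : ℂ) * C i) • om) z := by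
      funext z
      rw [hf]
      simp only [Pi.sub_apply, Pi.smul_apply, smul_eq_mul]
      rw [Finset.sum_mul]
      refine Finset.sum_congr rfl fun i _ => ?_
      ring
    rw [e1, Real.circleAverage_fun_sum]
    · rw [hD, Finset.mul_sum]
      refine Finset.sum_congr rfl fun i _ => ?_
      rw [Real.circleAverage_sub, Real.circleAverage_smul, Real.circleAverage_smul,
        avg_inv z₀ h]
      · have := K1_.part2 (t i) z₀ h
        rw [hom]
        rw [hr]
        rw [this]
        simp only [smul_eq_mul, mul_zero, sub_zero]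
        ring
      · exact (cis _ z₀ h (hPc i)).const_smul
      · exact (cis _ z₀ h homc).const_smul
    · intro i _
      exact ((cis _ z₀ h (hPc i)).const_smul).sub ((cis _ z₀ h homc).const_smul)
  set c : ℂ := r / (2 * Complex.I) * D with hc
  have hcn : ‖c‖ ^ 2 = r ^ 2 / 4 * ‖D‖ ^ 2 := by
    rw [hc, norm_mul, norm_div, Complex.norm_real, norm_mul, Complex.norm_I, Real.norm_eq_abs,
      abs_of_pos hr0]
    simp only [Complex.norm_ofNat]
    ring
  rw [← hcn]
  -- lower bound of the square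
  set L : ℂ →L[ℝ] ℝ := Complex.reCLM with hL
  have hfo : ContinuousOn (fun z => (starRingEnd ℂ) c * (f z * om z))
      ({z | 0 < z.im} ∩ {z | z ≠ z₀}) :=
    continuousOn_const.mul ((hfc.mono Set.inter_subset_left).mul homc)
  have hav2 : Real.circleAverage (fun z => (2 : ℝ) * (L ∘ (fun z => (starRingEnd ℂ) c *
      (f z * om z))) z - ‖c‖ ^ 2) z₀ r = ‖c‖ ^ 2 := by
    rw [Real.circleAverage_fun_sub]
    · rw [Real.circleAverage_const]
      have : Real.circleAverage (fun z => (2 : ℝ) * (L ∘ (fun z => (starRingEnd ℂ) c *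
          (f z * om z))) z) z₀ r = 2 * ‖c‖ ^ 2 := by
        have e2 : (fun z => (2 : ℝ) * (L ∘ (fun z => (starRingEnd ℂ) c * (f z * om z))) z) =
            (2 : ℝ) • (L ∘ ((starRingEnd ℂ) c • fun z => f z * om z)) := by
          funext z
          rfl
        rw [e2, Real.circleAverage_smul, ContinuousLinearMap.circleAverage_comp_comm,
          Real.circleAverage_smul, havg]
        · rw [smul_eq_mul, smul_eq_mul, hL, Complex.reCLM_apply, mul_comm ((starRingEnd ℂ) c),
            Complex.mul_conj, Complex.ofReal_re, Complex.normSq_eq_norm_sq]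
        · exact cis _ z₀ h hfo
      rw [this]
      ring
    · exact cis _ z₀ h (continuousOn_const.mul (L.continuous.comp_continuousOn hfo))
    · exact cis _ z₀ h continuousOn_const
  rw [← hav2]
  refine Real.circleAverage_mono ?_ ?_ ?_
  · exact cis _ z₀ h ((continuousOn_const.mul (L.continuous.comp_continuousOn hfo)).sub
      continuousOn_const)
  · exact cis _ z₀ h ((hfc.mono Set.inter_subset_left).norm.pow 2)
  · intro z hz
    rw [Metric.mem_sphere, dist_eq_norm, abs_of_pos hr0] at hz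
    have hn : ‖om z‖ = 1 := by
      rw [hom]
      simp only
      rw [norm_div, Complex.norm_real, hz, Real.norm_eq_abs, abs_of_pos hr0, div_self hr0.ne']
    have h1 : (L ∘ (fun z => (starRingEnd ℂ) c * (f z * om z))) z ≤ ‖c‖ * ‖f z‖ := by
      refine (Complex.re_le_norm _).trans ?_
      rw [norm_mul, norm_mul, hn, mul_one, Complex.norm_conj]
    have h2 := sq_nonneg (‖c‖ - ‖f z‖)
    nlinarith

lemma conj_entry (Q : Mat n) (c : Fin m → ℂ) (E : Fin m → Mat n) (a b : Fin n) :
    (Qᴴ * (∑ i, c i • E i) * Q) a b = ∑ i, c i * (Qᴴ * E i * Q) a b := by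
  rw [Finset.mul_sum, Finset.sum_mul, Matrix.sum_apply]
  refine Finset.sum_congr rfl fun i _ => ?_
  rw [mul_smul_comm, smul_mul_assoc, Matrix.smul_apply, smul_eq_mul]

lemma part3 (t : Fin m → ℝ) (E : Fin m → Mat n) (z₀ : ℂ) (h : 0 < z₀.im) (Q : Mat n) :
    (z₀.im / 3) ^ 2 / 4 * hs (Qᴴ * dHar t E z₀ * Q) ≤
    Real.circleAverage (fun z => hs (Qᴴ * (Har t E z - Har t E z₀) * Q)) z₀ (z₀.im / 3) := by
  have e1 : (fun z => hs (Qᴴ * (Har t E z - Har t E z₀) * Q)) = fun z => ∑ a, ∑ b,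
      ‖∑ i, ((P (t i) z : ℂ) - P (t i) z₀) * (Qᴴ * E i * Q) a b‖ ^ 2 := by
    funext z
    unfold hs
    refine Finset.sum_congr rfl fun a _ => Finset.sum_congr rfl fun b _ => ?_
    have : Har t E z - Har t E z₀ = ∑ i, ((P (t i) z : ℂ) - P (t i) z₀) • E i := by
      unfold Har
      rw [← Finset.sum_sub_distrib]
      refine Finset.sum_congr rfl fun i _ => ?_
      rw [sub_smul]
    rw [this, conj_entry]
  have hint : ∀ a b, CircleIntegrable (fun z => ‖∑ i, ((P (t i) z : ℂ) - P (t i) z₀) *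
      (Qᴴ * E i * Q) a b‖ ^ 2) z₀ (z₀.im / 3) := by
    intro a b
    refine K1_.ci _ (ContinuousOn.pow (ContinuousOn.norm ?_) 2) z₀ h
    refine continuousOn_finsetSum _ fun i _ => ?_
    exact ((Complex.continuous_ofReal.comp_continuousOn (K1_.cont_P (t i))).sub
      continuousOn_const).mul continuousOn_const
  rw [e1, Real.circleAverage_fun_sum]
  · have e2 : hs (Qᴴ * dHar t E z₀ * Q) =
        ∑ a, ∑ b, ‖∑ i, (((t i : ℂ) - z₀)⁻¹ ^ 2) * (Qᴴ * E i * Q) a b‖ ^ 2 := by
      unfold hs dHar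
      refine Finset.sum_congr rfl fun a _ => Finset.sum_congr rfl fun b _ => ?_
      rw [conj_entry]
    rw [e2, Finset.mul_sum]
    refine Finset.sum_le_sum fun a _ => ?_
    rw [Finset.mul_sum, Real.circleAverage_fun_sum]
    · exact Finset.sum_le_sum fun b _ => scal t _ z₀ h
    · intro b _
      exact hint a b
  · intro a _
    have := CircleIntegrable.sum (c := z₀) (R := z₀.im / 3) (Finset.univ : Finset (Fin n))
      (fun b _ => hint a b)
    convert this using 1
    funext z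
    simp

end H1_

theorem stmt_H1 : Stmt_H1 := fun _ _ t E hE z₀ h =>
  ⟨fun B => H1_.part1 t E z₀ h B, fun z hz => H1_.part2 t E hE z₀ h z hz,
    fun Q => H1_.part3 t E z₀ h Q⟩

end Pool.LG
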