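import Pool.Agent.Work.LipGraph.Interface

/-!
Block J: the integration lemma.
-/

open MeasureTheory Set

namespace Pool.LG.J_

/-- the point `x + i y` -/
noncomputable def pt (x y : ℝ) : ℂ := (x : ℂ) + (y : ℂ) * Complex.I

lemma pt_im (x y : ℝ) : (pt x y).im = y := by simp [pt]

lemma meas_pt : Measurable (fun q : ℝ × ℝ => pt q.1 q.2) := by
  unfold pt
  fun_prop

/-- the dilation factor at angle `θ` -/
noncomputable def lam (θ : ℝ) : ℝ := 1 + 1 / 3 * Real.sin θ

lemma lam_ge (θ : ℝ) : 2 / 3 ≤ lam θ := by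
  unfold lam
  linarith [Real.neg_one_le_sin θ]

lemma lam_le (θ : ℝ) : lam θ ≤ 4 / 3 := by
  unfold lam
  linarith [Real.sin_le_one θ]

lemma lam_cont : Continuous lam := by
  unfold lam
  fun_prop

lemma circle_pt (x y θ : ℝ) :
    circleMap (pt x y) (y / 3) θ = pt (x + y / 3 * Real.cos θ) (y * lam θ) := by
  have e : (circleMap (pt x y) (y / 3) θ) = pt x y + ((y / 3 : ℝ) : ℂ) *
      ((Real.cos θ : ℂ) + (Real.sin θ : ℂ) * Complex.I) := by
    rw [circleMap, Complex.exp_mul_I, Complex.ofReal_cos, Complex.ofReal_sin]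
  rw [e]
  apply Complex.ext
  · simp only [pt, Complex.add_re, Complex.mul_re, Complex.ofReal_re, Complex.ofReal_im,
      Complex.I_re, Complex.I_im, Complex.add_im, Complex.mul_im]
    ring
  · simp only [pt, lam, Complex.add_re, Complex.mul_re, Complex.ofReal_re, Complex.ofReal_im,
      Complex.I_re, Complex.I_im, Complex.add_im, Complex.mul_im]
    ring

section

variable (v : ℂ → ℝ)

/-- horizontal integrals -/
noncomputable def V (y : ℝ) : ENNReal := ∫⁻ x : ℝ, ENNReal.ofReal (v (pt x y))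

/-- horizontal integrals, real valued -/
noncomputable def U (y : ℝ) : ℝ := (V v y).toReal

variable {v}

lemma meas_V (hv : Measurable v) : Measurable (V v) := by
  unfold V
  have h : Measurable (fun q : ℝ × ℝ => ENNReal.ofReal (v (pt q.2 q.1))) :=
    (hv.comp (meas_pt.comp measurable_swap)).ennreal_ofReal
  exact h.lintegral_prod_right'

lemma meas_U (hv : Measurable v) : Measurable (U v) := (meas_V hv).ennreal_toReal

lemma U_nonneg (y : ℝ) : 0 ≤ U v y := ENNReal.toReal_nonneg

lemma U_le {K : ℝ} (hK : 0 ≤ K) (h : ∀ y : ℝ, 0 < y → V v y ≤ ENNReal.ofReal K) {y : ℝ}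
    (hy : 0 < y) : U v y ≤ K := by
  have := ENNReal.toReal_mono ENNReal.ofReal_ne_top (h y hy)
  rwa [ENNReal.toReal_ofReal hK] at this

lemma ofReal_U {K : ℝ} (h : ∀ y : ℝ, 0 < y → V v y ≤ ENNReal.ofReal K) {y : ℝ}
    (hy : 0 < y) : ENNReal.ofReal (U v y) = V v y :=
  ENNReal.ofReal_toReal (ne_top_of_le_ne_top ENNReal.ofReal_ne_top (h y hy))

/-- the angular mean of `U` -/
noncomputable def A (v : ℂ → ℝ) (y : ℝ) : ℝ := (2 * Real.pi)⁻¹ * ∫ θ in 0..2 * Real.pi, U v (y * lam θ)

lemma meas_circle (hv : Measurable v) :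
    Measurable (fun q : ℂ × ℝ => v (circleMap q.1 (q.1.im / 3) q.2)) := by
  refine hv.comp ?_
  unfold circleMap
  fun_prop

lemma two_pi_pos' : (0 : ℝ) ≤ 2 * Real.pi := by positivity

lemma meas_Df (hv : Measurable v) : Measurable (Df v) := by
  unfold Df
  refine hv.sub ?_
  have h : StronglyMeasurable (fun z : ℂ => ∫ θ in Ioc 0 (2 * Real.pi),
      v (circleMap z (z.im / 3) θ)) :=
    (meas_circle hv).stronglyMeasurable.integral_prod_right'
  have e : (fun z : ℂ => Real.circleAverage v z (z.im / 3)) = fun z : ℂ =>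
      (2 * Real.pi)⁻¹ * ∫ θ in Ioc 0 (2 * Real.pi), v (circleMap z (z.im / 3) θ) := by
    ext z
    rw [Real.circleAverage_def, intervalIntegral.integral_of_le two_pi_pos', smul_eq_mul]
  rw [e]
  exact h.measurable.const_mul _

lemma circ_nonneg (h0 : ∀ z, 0 ≤ v z) (z : ℂ) (r : ℝ) : 0 ≤ Real.circleAverage v z r := by
  rw [Real.circleAverage_def, smul_eq_mul]
  refine mul_nonneg (by positivity) ?_
  exact intervalIntegral.integral_nonneg two_pi_pos' (fun θ _ => h0 _)

/-- the horizontal integral of the circle average -/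
lemma lint_circ {K b : ℝ} (hv : Measurable v) (h0 : ∀ z, 0 ≤ v z) (h1 : ∀ z, v z ≤ b)
    (hK : 0 ≤ K) (h : ∀ y : ℝ, 0 < y → V v y ≤ ENNReal.ofReal K) {y : ℝ} (hy : 0 < y) :
    ∫⁻ x : ℝ, ENNReal.ofReal (Real.circleAverage v (pt x y) (y / 3)) =
      ENNReal.ofReal (A v y) := by
  have hfin : volume (Ioc (0 : ℝ) (2 * Real.pi)) ≠ ⊤ := measure_Ioc_lt_top.ne
  have hpos : ∀ θ, 0 < y * lam θ := fun θ => mul_pos hy (by linarith [lam_ge θ])
  have e1 : ∀ x : ℝ, ENNReal.ofReal (Real.circleAverage v (pt x y) (y / 3)) =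
      ENNReal.ofReal (2 * Real.pi)⁻¹ * ∫⁻ θ in Ioc 0 (2 * Real.pi),
        ENNReal.ofReal (v (pt (x + y / 3 * Real.cos θ) (y * lam θ))) := by
    intro x
    rw [Real.circleAverage_def, intervalIntegral.integral_of_le two_pi_pos', smul_eq_mul,
      ENNReal.ofReal_mul (by positivity)]
    congr 1
    rw [ofReal_integral_eq_lintegral_ofReal]
    · refine lintegral_congr (fun θ => ?_)
      rw [circle_pt]
    · refine Measure.integrableOn_of_bounded hfin ?_ (M := b) ?_
      · exact (hv.comp (by unfold circleMap; fun_prop)).aestronglyMeasurable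
      · refine Filter.Eventually.of_forall (fun θ => ?_)
        rw [Real.norm_eq_abs, abs_of_nonneg (h0 _)]
        exact h1 _
    · exact Filter.Eventually.of_forall (fun θ => h0 _)
  simp_rw [e1]
  have hm : Measurable (fun q : ℝ × ℝ => ENNReal.ofReal
      (v (pt (q.1 + y / 3 * Real.cos q.2) (y * lam q.2)))) := by
    refine Measurable.ennreal_ofReal (hv.comp ?_)
    have := lam_cont.measurable
    unfold pt
    fun_prop
  rw [lintegral_const_mul _ hm.lintegral_prod_right']
  rw [lintegral_lintegral_swap hm.aemeasurable]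
  have e2 : ∀ θ : ℝ, ∫⁻ x : ℝ, ENNReal.ofReal (v (pt (x + y / 3 * Real.cos θ) (y * lam θ))) =
      ENNReal.ofReal (U v (y * lam θ)) := by
    intro θ
    rw [ofReal_U h (hpos θ)]
    exact lintegral_add_right_eq_self (fun x : ℝ => ENNReal.ofReal (v (pt x (y * lam θ)))) _
  simp_rw [e2]
  rw [← ofReal_integral_eq_lintegral_ofReal]
  · rw [← ENNReal.ofReal_mul (by positivity), A, intervalIntegral.integral_of_le two_pi_pos']
  · refine Measure.integrableOn_of_bounded hfin ?_ (M := K) ?_
    · exact ((meas_U hv).comp (by have := lam_cont.measurable; fun_prop)).aestronglyMeasurable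
    · refine Filter.Eventually.of_forall (fun θ => ?_)
      rw [Real.norm_eq_abs, abs_of_nonneg (U_nonneg _)]
      exact U_le hK h (hpos θ)
  · exact Filter.Eventually.of_forall (fun θ => U_nonneg _)

lemma A_nonneg (y : ℝ) : 0 ≤ A v y := by
  unfold A
  refine mul_nonneg (by positivity) ?_
  exact intervalIntegral.integral_nonneg two_pi_pos' (fun θ _ => U_nonneg _)

/-- horizontal integral of `Df v` -/
lemma lint_Df {K b : ℝ} (hv : Measurable v) (h0 : ∀ z, 0 ≤ v z) (h1 : ∀ z, v z ≤ b)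
    (hK : 0 ≤ K) (h : ∀ y : ℝ, 0 < y → V v y ≤ ENNReal.ofReal K)
    (hD : ∀ z : ℂ, 0 < z.im → 0 ≤ Df v z) {y : ℝ} (hy : 0 < y) :
    A v y ≤ U v y ∧ ∫⁻ x : ℝ, ENNReal.ofReal (Df v (pt x y)) = ENNReal.ofReal (U v y - A v y) := by
  have hmD : Measurable (fun x : ℝ => ENNReal.ofReal (Df v (pt x y))) := by
    refine ((meas_Df hv).comp ?_).ennreal_ofReal
    unfold pt
    fun_prop
  have e : (∫⁻ x : ℝ, ENNReal.ofReal (Df v (pt x y))) + ENNReal.ofReal (A v y) =
      ENNReal.ofReal (U v y) := by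
    rw [← lint_circ hv h0 h1 hK h hy, ← lintegral_add_left hmD, ofReal_U h hy, V]
    refine lintegral_congr (fun x => ?_)
    have hz := hD (pt x y) (by rw [pt_im]; exact hy)
    have e3 : Df v (pt x y) = v (pt x y) - Real.circleAverage v (pt x y) (y / 3) := by
      rw [Df, pt_im]
    rw [← ENNReal.ofReal_add hz (circ_nonneg h0 _ _), e3]
    congr 1
    ring
  have hle : A v y ≤ U v y := by
    have : ENNReal.ofReal (A v y) ≤ ENNReal.ofReal (U v y) := by
      rw [← e]
      exact le_add_self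
    exact (ENNReal.ofReal_le_ofReal_iff (U_nonneg _)).mp this
  refine ⟨hle, ?_⟩
  rw [ENNReal.ofReal_sub _ (A_nonneg y), ← e]
  exact (ENNReal.add_sub_cancel_right ENNReal.ofReal_ne_top).symm

/-- one dilation -/
lemma dil {K : ℝ} (hv : Measurable v) (hK : 0 ≤ K)
    (h : ∀ y : ℝ, 0 < y → V v y ≤ ENNReal.ofReal K) {ε B l : ℝ} (hε : 0 < ε) (hB : ε ≤ B)
    (hl1 : 2 / 3 ≤ l) (hl2 : l ≤ 4 / 3) :
    (∫ y in ε..B, y⁻¹ * U v y) - ∫ y in ε..B, y⁻¹ * U v (y * l) ≤ Real.log (3 / 2) * K := by
  have hl0 : 0 < l := by linarith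
  have hB0 : 0 < B := by linarith
  have hint : ∀ c d : ℝ, 0 < c → 0 < d → IntervalIntegrable (fun y => y⁻¹ * U v y) volume c d := by
    intro c d hc hd
    rw [intervalIntegrable_iff]
    refine Measure.integrableOn_of_bounded (by simp [uIoc]) ?_ (M := (min c d)⁻¹ * K) ?_
    · exact (measurable_inv.mul (meas_U hv)).aestronglyMeasurable
    · refine (ae_restrict_iff' measurableSet_uIoc).mpr (Filter.Eventually.of_forall fun y hy => ?_)
      rw [uIoc, mem_Ioc] at hy
      have hm : 0 < min c d := lt_min hc hd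
      have hy0 : 0 < y := lt_trans hm hy.1
      rw [norm_mul, Real.norm_eq_abs, Real.norm_eq_abs, abs_of_nonneg (U_nonneg _),
        abs_of_nonneg (inv_pos.mpr hy0).le]
      refine mul_le_mul ?_ (U_le hK h hy0) (U_nonneg _) (inv_pos.mpr hm).le
      exact inv_anti₀ hm hy.1.le
  have e1 : ∫ y in ε..B, y⁻¹ * U v (y * l) = ∫ y in (ε * l)..(B * l), y⁻¹ * U v y := by
    have := intervalIntegral.integral_comp_mul_right (a := ε) (b := B)
      (fun y => y⁻¹ * U v y) hl0.ne'
    rw [smul_eq_mul] at this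
    have e2 : ∫ y in ε..B, y⁻¹ * U v (y * l) = l * ∫ y in ε..B, (y * l)⁻¹ * U v (y * l) := by
      rw [← intervalIntegral.integral_const_mul]
      congr 1
      ext y
      rw [mul_inv]
      field_simp
    rw [e2, this, ← mul_assoc, mul_inv_cancel₀ hl0.ne', one_mul]
  rw [e1, intervalIntegral.integral_interval_sub_interval_comm (hint _ _ hε hB0)
    (hint _ _ (mul_pos hε hl0) (mul_pos hB0 hl0)) (hint _ _ hε (mul_pos hε hl0))]
  -- positivity and upper bound of the two small integrals
  have pos : ∀ c d : ℝ, 0 < c → c ≤ d → 0 ≤ ∫ y in c..d, y⁻¹ * U v y := by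
    intro c d hc hcd
    refine intervalIntegral.integral_nonneg hcd (fun y hy => ?_)
    exact mul_nonneg (inv_nonneg.mpr (lt_of_lt_of_le hc hy.1).le) (U_nonneg _)
  have ub : ∀ c d : ℝ, 0 < c → c ≤ d → ∫ y in c..d, y⁻¹ * U v y ≤ Real.log (d / c) * K := by
    intro c d hc hcd
    have hd : 0 < d := lt_of_lt_of_le hc hcd
    have : ∫ y in c..d, y⁻¹ * K = Real.log (d / c) * K := by
      rw [intervalIntegral.integral_mul_const, integral_inv_of_pos hc hd]
    rw [← this]
    refine intervalIntegral.integral_mono_on hcd (hint c d hc hd) ?_ (fun y hy => ?_)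
    · refine ContinuousOn.intervalIntegrable ?_
      rw [uIcc_of_le hcd]
      refine (continuousOn_inv₀.mono ?_).mul continuousOn_const
      intro y hy
      exact (lt_of_lt_of_le hc hy.1).ne'
    · have hy0 : 0 < y := lt_of_lt_of_le hc hy.1
      exact mul_le_mul_of_nonneg_left (U_le hK h hy0) (inv_pos.mpr hy0).le
  have hlog : 0 ≤ Real.log (3 / 2) := Real.log_nonneg (by norm_num)
  rcases le_total 1 l with h1 | h1
  · have a1 := ub ε (ε * l) hε (by nlinarith)
    have a2 := pos B (B * l) hB0 (by nlinarith)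
    have a3 : Real.log (ε * l / ε) ≤ Real.log (3 / 2) := by
      refine Real.log_le_log (by positivity) ?_
      rw [mul_div_cancel_left₀ _ hε.ne']
      linarith
    have a4 := mul_le_mul_of_nonneg_right a3 hK
    linarith
  · have a1 := pos (ε * l) ε (mul_pos hε hl0) (by nlinarith)
    have a2 := ub (B * l) B (mul_pos hB0 hl0) (by nlinarith)
    have a3 : Real.log (B / (B * l)) ≤ Real.log (3 / 2) := by
      refine Real.log_le_log (by positivity) ?_
      rw [div_le_iff₀ (mul_pos hB0 hl0)]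
      nlinarith
    have a4 := mul_le_mul_of_nonneg_right a3 hK
    rw [intervalIntegral.integral_symm (ε * l) ε, intervalIntegral.integral_symm (B * l) B]
    linarith

/-- bounded window in `y` -/
lemma window {K b : ℝ} (hv : Measurable v) (h0 : ∀ z, 0 ≤ v z) (h1 : ∀ z, v z ≤ b)
    (hK : 0 ≤ K) (h : ∀ y : ℝ, 0 < y → V v y ≤ ENNReal.ofReal K)
    (hD : ∀ z : ℂ, 0 < z.im → 0 ≤ Df v z) {ε B : ℝ} (hε : 0 < ε) (hB : ε ≤ B) :
    ∫⁻ y in Ioc ε B, ∫⁻ x : ℝ, ENNReal.ofReal (y⁻¹ * Df v (pt x y)) ≤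
      ENNReal.ofReal (Real.log (3 / 2) * K) := by
  have hlam := lam_cont.measurable
  have hUm := meas_U hv
  have hAm : Measurable (A v) := by
    unfold A
    have h2 : StronglyMeasurable (fun y : ℝ => ∫ θ in Ioc 0 (2 * Real.pi), U v (y * lam θ)) := by
      refine StronglyMeasurable.integral_prod_right' (f := fun q : ℝ × ℝ => U v (q.1 * lam q.2)) ?_
      exact (hUm.comp (by fun_prop)).stronglyMeasurable
    have e : (fun y : ℝ => (2 * Real.pi)⁻¹ * ∫ θ in 0..2 * Real.pi, U v (y * lam θ)) =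
        fun y : ℝ => (2 * Real.pi)⁻¹ * ∫ θ in Ioc 0 (2 * Real.pi), U v (y * lam θ) := by
      ext y
      rw [intervalIntegral.integral_of_le two_pi_pos']
    rw [e]
    exact h2.measurable.const_mul _
  have hA1 : ∀ y, 0 < y → A v y ≤ K := fun y hy =>
    (lint_Df hv h0 h1 hK h hD hy).1.trans (U_le hK h hy)
  have e1 : ∫⁻ y in Ioc ε B, ∫⁻ x : ℝ, ENNReal.ofReal (y⁻¹ * Df v (pt x y)) =
      ∫⁻ y in Ioc ε B, ENNReal.ofReal (y⁻¹ * (U v y - A v y)) := by
    refine setLIntegral_congr_fun measurableSet_Ioc (fun y hy => ?_)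
    have hy0 : 0 < y := lt_trans hε hy.1
    have hi : 0 ≤ y⁻¹ := (inv_pos.mpr hy0).le
    have hmD : Measurable (fun x : ℝ => ENNReal.ofReal (Df v (pt x y))) := by
      refine ((meas_Df hv).comp ?_).ennreal_ofReal
      unfold pt
      fun_prop
    simp_rw [ENNReal.ofReal_mul hi]
    rw [lintegral_const_mul _ hmD, (lint_Df hv h0 h1 hK h hD hy0).2]
  rw [e1]
  have hintU : IntegrableOn (fun y => y⁻¹ * U v y) (Ioc ε B) := by
    refine Measure.integrableOn_of_bounded (by simp) ?_ (M := ε⁻¹ * K) ?_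
    · exact (measurable_inv.mul hUm).aestronglyMeasurable
    · refine (ae_restrict_iff' measurableSet_Ioc).mpr (Filter.Eventually.of_forall fun y hy => ?_)
      have hy0 : 0 < y := lt_trans hε hy.1
      rw [norm_mul, Real.norm_eq_abs, Real.norm_eq_abs, abs_of_nonneg (U_nonneg _),
        abs_of_nonneg (inv_pos.mpr hy0).le]
      exact mul_le_mul (inv_anti₀ hε hy.1.le) (U_le hK h hy0) (U_nonneg _) (inv_pos.mpr hε).le
  have hintA : IntegrableOn (fun y => y⁻¹ * A v y) (Ioc ε B) := by
    refine Measure.integrableOn_of_bounded (by simp) ?_ (M := ε⁻¹ * K) ?_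
    · exact (measurable_inv.mul hAm).aestronglyMeasurable
    · refine (ae_restrict_iff' measurableSet_Ioc).mpr (Filter.Eventually.of_forall fun y hy => ?_)
      have hy0 : 0 < y := lt_trans hε hy.1
      rw [norm_mul, Real.norm_eq_abs, Real.norm_eq_abs, abs_of_nonneg (A_nonneg _),
        abs_of_nonneg (inv_pos.mpr hy0).le]
      exact mul_le_mul (inv_anti₀ hε hy.1.le) (hA1 y hy0) (A_nonneg _) (inv_pos.mpr hε).le
  have hint : IntegrableOn (fun y => y⁻¹ * (U v y - A v y)) (Ioc ε B) := by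
    have := hintU.sub hintA
    refine this.congr (Filter.Eventually.of_forall fun y => ?_)
    simp only [Pi.sub_apply]
    ring
  rw [← ofReal_integral_eq_lintegral_ofReal hint]
  swap
  · refine (ae_restrict_iff' measurableSet_Ioc).mpr (Filter.Eventually.of_forall fun y hy => ?_)
    have hy0 : 0 < y := lt_trans hε hy.1
    have := (lint_Df hv h0 h1 hK h hD hy0).1
    exact mul_nonneg (inv_pos.mpr hy0).le (by linarith)
  refine ENNReal.ofReal_le_ofReal ?_
  -- Fubini
  have hF : IntegrableOn (Function.uncurry fun y θ : ℝ => y⁻¹ * U v (y * lam θ))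
      (uIoc ε B ×ˢ uIoc 0 (2 * Real.pi)) := by
    rw [uIoc_of_le hB, uIoc_of_le two_pi_pos']
    refine Measure.integrableOn_of_bounded ?_ ?_ (M := ε⁻¹ * K) ?_
    · rw [Measure.volume_eq_prod, Measure.prod_prod]
      simp [ENNReal.mul_ne_top]
    · refine Measurable.aestronglyMeasurable ?_
      unfold Function.uncurry
      exact (measurable_fst.inv).mul (hUm.comp (by fun_prop))
    · refine (ae_restrict_iff' (measurableSet_Ioc.prod measurableSet_Ioc)).mpr
        (Filter.Eventually.of_forall fun q hq => ?_)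
      have hy0 : 0 < q.1 := lt_trans hε hq.1.1
      have hyl : 0 < q.1 * lam q.2 := mul_pos hy0 (by linarith [lam_ge q.2])
      simp only [Function.uncurry]
      rw [norm_mul, Real.norm_eq_abs, Real.norm_eq_abs, abs_of_nonneg (U_nonneg _),
        abs_of_nonneg (inv_pos.mpr hy0).le]
      exact mul_le_mul (inv_anti₀ hε hq.1.1.le) (U_le hK h hyl) (U_nonneg _) (inv_pos.mpr hε).le
  have e2 : ∫ y in Ioc ε B, y⁻¹ * (U v y - A v y) =
      (∫ y in ε..B, y⁻¹ * U v y) - ∫ y in ε..B, y⁻¹ * A v y := by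
    rw [intervalIntegral.integral_of_le hB, intervalIntegral.integral_of_le hB,
      ← integral_sub hintU hintA]
    congr 1
    ext y
    ring
  have e3 : ∫ y in ε..B, y⁻¹ * A v y =
      (2 * Real.pi)⁻¹ * ∫ θ in 0..2 * Real.pi, ∫ y in ε..B, y⁻¹ * U v (y * lam θ) := by
    rw [← intervalIntegral_intervalIntegral_swap hF, ← intervalIntegral.integral_const_mul]
    congr 1
    ext y
    rw [A, intervalIntegral.integral_const_mul]
    ring
  have hFθ : IntervalIntegrable (fun θ => ∫ y in ε..B, y⁻¹ * U v (y * lam θ)) volume 0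
      (2 * Real.pi) := by
    rw [intervalIntegrable_iff, IntegrableOn]
    have h3 : Integrable (Function.uncurry fun y θ : ℝ => y⁻¹ * U v (y * lam θ))
        ((volume.restrict (uIoc ε B)).prod (volume.restrict (uIoc 0 (2 * Real.pi)))) := by
      rw [Measure.prod_restrict]
      exact hF
    have h4 := h3.integral_prod_right
    refine h4.congr (Filter.Eventually.of_forall fun θ => ?_)
    simp only [Function.uncurry]
    rw [intervalIntegral.integral_of_le hB, uIoc_of_le hB]
  have e4 : (∫ y in ε..B, y⁻¹ * U v y) =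
      (2 * Real.pi)⁻¹ * ∫ θ in 0..2 * Real.pi, ∫ y in ε..B, y⁻¹ * U v y := by
    rw [intervalIntegral.integral_const, smul_eq_mul, sub_zero, ← mul_assoc,
      inv_mul_cancel₀ (by positivity), one_mul]
  have e5 : Real.log (3 / 2) * K =
      (2 * Real.pi)⁻¹ * ∫ θ in 0..2 * Real.pi, Real.log (3 / 2) * K := by
    rw [intervalIntegral.integral_const, smul_eq_mul, sub_zero, ← mul_assoc,
      inv_mul_cancel₀ (by positivity), one_mul]
  rw [e2, e3, e4, ← mul_sub, ← intervalIntegral.integral_sub (by simp) hFθ, e5]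
  refine mul_le_mul_of_nonneg_left ?_ (by positivity)
  refine intervalIntegral.integral_mono_on two_pi_pos' ?_ (by simp) (fun θ _ => ?_)
  · exact (intervalIntegrable_const).sub hFθ
  · exact dil hv hK h hε hB (lam_ge θ) (lam_le θ)

end

end Pool.LG.J_

namespace Pool.LG

open J_

theorem stmt_J : Stmt_J := by
  intro v K b hv h0 h1 hK h hD
  refine ⟨meas_Df hv, ?_⟩
  have hV : ∀ y : ℝ, 0 < y → V v y ≤ ENNReal.ofReal K := h
  have hU : Ioi (0 : ℝ) = ⋃ n : ℕ, Ioc ((n : ℝ) + 1)⁻¹ ((n : ℝ) + 1) := by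
    ext y
    simp only [mem_Ioi, mem_iUnion, mem_Ioc]
    constructor
    · intro hy
      obtain ⟨n, hn⟩ := exists_nat_gt (max y y⁻¹)
      have hn1 : y < n := (le_max_left _ _).trans_lt hn
      have hn2 : y⁻¹ < n := (le_max_right _ _).trans_lt hn
      refine ⟨n, ?_, by linarith⟩
      rw [inv_lt_comm₀ (by positivity) hy]
      linarith
    · rintro ⟨n, hn, _⟩
      exact lt_trans (by positivity) hn
  rw [hU, setLIntegral_iUnion_of_directed]
  · refine iSup_le (fun n => ?_)
    refine window hv h0 h1 hK hV hD (by positivity) ?_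
    rw [inv_le_comm₀ (by positivity) (by positivity)]
    refine le_trans (inv_le_one_of_one_le₀ ?_) ?_
    · linarith [Nat.cast_nonneg (α := ℝ) n]
    · linarith [Nat.cast_nonneg (α := ℝ) n]
  · refine (monotone_nat_of_le_succ (fun n => ?_)).directed_le
    push_cast
    refine Ioc_subset_Ioc ?_ (by linarith)
    exact inv_anti₀ (by positivity) (by linarith)

end Pool.LG
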