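import Pool.Agent.Work.LipGraph.Interface

/-!
# Block K1: mean value, Cauchy formula and Harnack inequality for the kernel `P t z`
-/

open Matrix MeasureTheory
open scoped ComplexOrder

namespace Pool.LG

namespace K1_

/-- points of the closed disc of radius `z₀.im / 3` lie in the upper half plane -/
lemma im_pos {z₀ z : ℂ} (_ : 0 < z₀.im) (hz : ‖z - z₀‖ ≤ z₀.im / 3) : 2 / 3 * z₀.im ≤ z.im := by
  have h1 := Complex.abs_im_le_norm (z - z₀)
  rw [Complex.sub_im] at h1
  have h2 := (abs_le.1 (h1.trans hz)).1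
  linarith

/-- mean value property on the circles used here -/
lemma mv (f : ℂ → ℂ) (hf : DifferentiableOn ℂ f {z | 0 < z.im}) (z₀ : ℂ) (h : 0 < z₀.im) :
    Real.circleAverage f z₀ (z₀.im / 3) = f z₀ := by
  have hr : |z₀.im / 3| = z₀.im / 3 := abs_of_pos (by positivity)
  refine DiffContOnCl.circleAverage (DifferentiableOn.diffContOnCl (hf.mono ?_))
  intro z hz
  have h1 := Metric.closure_ball_subset_closedBall hz
  rw [Metric.mem_closedBall, dist_eq_norm, hr] at h1
  have := im_pos h h1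
  simp only [Set.mem_ofPred_eq]
  linarith

/-- circle integrability -/
lemma ci {E : Type*} [NormedAddCommGroup E] (f : ℂ → E) (hf : ContinuousOn f {z | 0 < z.im})
    (z₀ : ℂ) (h : 0 < z₀.im) : CircleIntegrable f z₀ (z₀.im / 3) := by
  refine ContinuousOn.circleIntegrable (by positivity) (hf.mono ?_)
  intro z hz
  rw [Metric.mem_sphere, dist_eq_norm] at hz
  have := im_pos h hz.le
  simp only [Set.mem_ofPred_eq]
  linarith

/-- the analytic kernel -/
noncomputable def g (t : ℝ) (z : ℂ) : ℂ := ((t : ℂ) - z)⁻¹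

lemma ne {t : ℝ} {z : ℂ} (hz : 0 < z.im) : (t : ℂ) - z ≠ 0 := by
  intro h
  have := congrArg Complex.im h
  simp at this
  linarith

lemma P_eq (t : ℝ) (z : ℂ) : P t z = (g t z).im := by
  unfold P g
  rw [Complex.inv_im, Complex.normSq_apply]
  simp only [Complex.sub_im, Complex.ofReal_im, Complex.sub_re, Complex.ofReal_re]
  congr 1 <;> ring

lemma diff_g (t : ℝ) : DifferentiableOn ℂ (g t) {z | 0 < z.im} := by
  intro z hz
  unfold g
  exact ((differentiableAt_const _).sub differentiableAt_id).inv (ne hz) |>.differentiableWithinAt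

lemma cont_P (t : ℝ) : ContinuousOn (P t) {z | 0 < z.im} := by
  have : P t = fun z => (g t z).im := funext (P_eq t)
  rw [this]
  exact Complex.continuous_im.comp_continuousOn (diff_g t).continuousOn

lemma part1 (t : ℝ) (z₀ : ℂ) (h : 0 < z₀.im) :
    Real.circleAverage (P t) z₀ (z₀.im / 3) = P t z₀ := by
  have h1 : P t = Complex.imCLM ∘ (g t) := by
    funext z
    simp [P_eq]
  rw [h1, ContinuousLinearMap.circleAverage_comp_comm _ (ci _ (diff_g t).continuousOn z₀ h),
    mv _ (diff_g t) z₀ h]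
  rfl

lemma part2 (t : ℝ) (z₀ : ℂ) (h : 0 < z₀.im) :
    Real.circleAverage (fun z => (P t z : ℂ) * ((z₀.im / 3 : ℝ) / (z - z₀))) z₀ (z₀.im / 3) =
    (z₀.im / 3 : ℝ) / (2 * Complex.I) * ((t : ℂ) - z₀)⁻¹ ^ 2 := by
  set r : ℝ := z₀.im / 3 with hr
  have hr0 : 0 < r := by positivity
  have hrc : (r : ℂ) ≠ 0 := by exact_mod_cast hr0.ne'
  set w : ℂ → ℂ := fun z => (z - z₀) / r with hw
  have hwd : DifferentiableOn ℂ w {z | 0 < z.im} := by
    intro z _
    exact ((differentiableAt_id.sub (differentiableAt_const _)).div_const _).differentiableWithinAt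
  set g₀ : ℂ := g t z₀ with hg₀
  have hI : (2 * Complex.I) ≠ 0 := by simp
  set cj : ℂ →L[ℝ] ℂ := (Complex.conjCLE : ℂ →L[ℝ] ℂ) with hcj
  have hcja : ∀ z, cj z = (starRingEnd ℂ) z := fun z => rfl
  have e1 : Real.circleAverage w z₀ r = 0 := by
    rw [hr, mv w hwd z₀ h]
    simp [hw]
  have hgw : DifferentiableOn ℂ (fun z => g t z * w z) {z | 0 < z.im} := (diff_g t).mul hwd
  have e2 : Real.circleAverage (fun z => g t z * w z) z₀ r = 0 := by
    rw [hr, mv _ hgw z₀ h]
    simp [hw]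
  have e3 : Real.circleAverage (g t) z₀ r = g₀ := by
    rw [hr, mv _ (diff_g t) z₀ h]
  have e1' : Real.circleAverage (cj ∘ w) z₀ r = 0 := by
    rw [ContinuousLinearMap.circleAverage_comp_comm _ (ci _ hwd.continuousOn z₀ h), e1, map_zero]
  have e2' : Real.circleAverage (cj ∘ (fun z => g t z * w z)) z₀ r = 0 := by
    rw [ContinuousLinearMap.circleAverage_comp_comm _ (ci _ hgw.continuousOn z₀ h), e2, map_zero]
  have i1 : CircleIntegrable (cj ∘ w) z₀ r :=
    ci _ (cj.continuous.comp_continuousOn hwd.continuousOn) z₀ h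
  have i2 : CircleIntegrable (cj ∘ (fun z => g t z * w z)) z₀ r :=
    ci _ (cj.continuous.comp_continuousOn hgw.continuousOn) z₀ h
  have i3 : CircleIntegrable (g t) z₀ r := ci _ (diff_g t).continuousOn z₀ h
  have key : Set.EqOn (fun z => (P t z : ℂ) * ((r : ℂ) / (z - z₀)))
      (((g₀ / (2 * Complex.I)) • (cj ∘ w) + (r * g₀ / (2 * Complex.I)) • (g t)) -
        (1 / (2 * Complex.I)) • (cj ∘ (fun z => g t z * w z))) (Metric.sphere z₀ |r|) := by
    intro z hz
    rw [Metric.mem_sphere, dist_eq_norm, abs_of_pos hr0] at hz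
    have hzz : 0 < z.im := by
      have := im_pos h hz.le
      linarith
    have hne : z - z₀ ≠ 0 := by
      intro h0
      rw [h0, norm_zero] at hz
      exact hr0.ne hz
    have hrw : (r : ℂ) / (z - z₀) = (starRingEnd ℂ) (w z) := by
      have h1 : (z - z₀) * (starRingEnd ℂ) (z - z₀) = (r : ℂ) ^ 2 := by
        rw [Complex.mul_conj, Complex.normSq_eq_norm_sq, hz]
        push_cast
        ring
      rw [hw]
      simp only [map_div₀, Complex.conj_ofReal]
      rw [div_eq_div_iff hne hrc, ← sq, ← h1]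
      ring
    have hP : (P t z : ℂ) = (g t z - (starRingEnd ℂ) (g t z)) / (2 * Complex.I) := by
      rw [P_eq, Complex.sub_conj]
      field_simp
      push_cast
      ring
    have hg : g t z = g₀ + (z - z₀) * g₀ * g t z := by
      have a1 := ne (t := t) hzz
      have a2 := ne (t := t) h
      rw [hg₀]
      unfold g
      field_simp
      ring
    have hg' : g t z * ((r : ℂ) / (z - z₀)) = g₀ * (starRingEnd ℂ) (w z) + r * g₀ * g t z := by
      rw [← hrw]
      conv_lhs => rw [hg]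
      field_simp
    simp only [Pi.sub_apply, Pi.add_apply, Pi.smul_apply, Function.comp, hcja, smul_eq_mul, map_mul]
    rw [hP]
    have : (g t z - (starRingEnd ℂ) (g t z)) / (2 * Complex.I) * ((r : ℂ) / (z - z₀)) =
        (g t z * ((r : ℂ) / (z - z₀)) - (starRingEnd ℂ) (g t z) * ((r : ℂ) / (z - z₀))) /
          (2 * Complex.I) := by ring
    rw [this, hg', hrw]
    ring
  rw [Real.circleAverage_congr_sphere key, Real.circleAverage_sub, Real.circleAverage_add,
    Real.circleAverage_smul, Real.circleAverage_smul, Real.circleAverage_smul, e1', e2', e3]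
  · rw [hg₀]
    unfold g
    simp only [smul_eq_mul, mul_zero, zero_add, sub_zero]
    ring
  · exact i1.const_smul
  · exact i3.const_smul
  · exact (i1.const_smul).add (i3.const_smul)
  · exact i2.const_smul

/-- the upper Harnack inequality in real coordinates -/
lemma harnack_up (u a b y : ℝ) (hy : 0 < y) (hab : a ^ 2 + b ^ 2 ≤ (y / 3) ^ 2) :
    (y + b) / ((u - a) ^ 2 + (y + b) ^ 2) ≤ 2 * (y / (u ^ 2 + y ^ 2)) := by
  have hb : |b| ≤ y / 3 := abs_le_of_sq_le_sq (by nlinarith [sq_nonneg a]) (by positivity)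
  obtain ⟨hb1, hb2⟩ := abs_le.1 hb
  have h1 : 0 < y + b := by linarith
  have h2 : 0 < y - b := by linarith
  have h3 : 0 < y + 2 * b := by linarith
  rw [mul_div_assoc', div_le_div_iff₀ (by positivity) (by positivity)]
  have e : (y - b) * (2 * y * ((u - a) ^ 2 + (y + b) ^ 2) - (y + b) * (u ^ 2 + y ^ 2)) =
      ((y - b) * u - 2 * y * a) ^ 2 + y * (y + b) * ((y - b) * (y + 2 * b) - 2 * a ^ 2) := by
    ring
  have h4 : 0 ≤ (y - b) * (y + 2 * b) - 2 * a ^ 2 := by nlinarith
  have h5 : 0 ≤ (y - b) * (2 * y * ((u - a) ^ 2 + (y + b) ^ 2) - (y + b) * (u ^ 2 + y ^ 2)) := by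
    rw [e]
    positivity
  have h6 := nonneg_of_mul_nonneg_right h5 h2
  linarith

/-- the lower Harnack inequality in real coordinates -/
lemma harnack_down (u a b y : ℝ) (hy : 0 < y) (hab : a ^ 2 + b ^ 2 ≤ (y / 3) ^ 2) :
    (y / (u ^ 2 + y ^ 2)) / 2 ≤ (y + b) / ((u - a) ^ 2 + (y + b) ^ 2) := by
  have hb : |b| ≤ y / 3 := abs_le_of_sq_le_sq (by nlinarith [sq_nonneg a]) (by positivity)
  obtain ⟨hb1, hb2⟩ := abs_le.1 hb
  have h1 : 0 < y + b := by linarith
  have h3 : 0 < y + 2 * b := by linarith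
  rw [div_div, div_le_div_iff₀ (by positivity) (by positivity)]
  have e : (y + 2 * b) * (2 * (y + b) * (u ^ 2 + y ^ 2) - y * ((u - a) ^ 2 + (y + b) ^ 2)) =
      ((y + 2 * b) * u + y * a) ^ 2 + y * ((y + 2 * b) * (y ^ 2 - b ^ 2 - a ^ 2) - y * a ^ 2) := by
    ring
  have h4 : 0 ≤ (y + 2 * b) * (y ^ 2 - b ^ 2 - a ^ 2) - y * a ^ 2 := by
    have h7 : y ^ 2 * (8 / 9) ≤ y ^ 2 - b ^ 2 - a ^ 2 := by nlinarith
    have h8 : a ^ 2 ≤ (y + 2 * b) * y / 3 := by
      nlinarith
    nlinarith [mul_le_mul_of_nonneg_left h7 h3.le, mul_pos hy hy, mul_pos h3 hy,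
      mul_pos (mul_pos h3 hy) hy]
  have h5 : 0 ≤ (y + 2 * b) *
      (2 * (y + b) * (u ^ 2 + y ^ 2) - y * ((u - a) ^ 2 + (y + b) ^ 2)) := by
    rw [e]
    positivity
  have h6 := nonneg_of_mul_nonneg_right h5 h3
  linarith

lemma part3 (t : ℝ) (z₀ : ℂ) (h : 0 < z₀.im) (z : ℂ) (hz : ‖z - z₀‖ ≤ z₀.im / 3) :
    0 < z.im ∧ P t z₀ / 2 ≤ P t z ∧ P t z ≤ 2 * P t z₀ := by
  have h0 := im_pos h hz
  have hab : (z.re - z₀.re) ^ 2 + (z.im - z₀.im) ^ 2 ≤ (z₀.im / 3) ^ 2 := by
    have h1 : ‖z - z₀‖ ^ 2 ≤ (z₀.im / 3) ^ 2 := by gcongr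
    rw [← Complex.normSq_eq_norm_sq, Complex.normSq_apply, Complex.sub_re, Complex.sub_im] at h1
    nlinarith
  have h1 := harnack_up (t - z₀.re) (z.re - z₀.re) (z.im - z₀.im) z₀.im h hab
  have h2 := harnack_down (t - z₀.re) (z.re - z₀.re) (z.im - z₀.im) z₀.im h hab
  have e1 : t - z₀.re - (z.re - z₀.re) = t - z.re := by ring
  have e2 : z₀.im + (z.im - z₀.im) = z.im := by ring
  rw [e1, e2] at h1 h2
  exact ⟨by linarith, h2, h1⟩

end K1_

theorem stmt_K1 : Stmt_K1 := fun t z₀ h =>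
  ⟨K1_.part1 t z₀ h, K1_.part2 t z₀ h, fun z hz => K1_.part3 t z₀ h z hz⟩

end Pool.LG
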