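import Pool.Agent.Work.LipGraph.Interface

/-! Block K2 (helper75): the integral of the kernel. -/

open Matrix MeasureTheory
open scoped ComplexOrder

namespace Pool.LG

namespace K2Aux

theorem P_eq (t x y : ℝ) (hy : 0 < y) :
    P t (x + y * Complex.I) = y⁻¹ * (1 + ((x - t) / y) ^ 2)⁻¹ := by
  have h1 : ((x : ℂ) + y * Complex.I).re = x := by simp
  have h2 : ((x : ℂ) + y * Complex.I).im = y := by simp
  unfold P
  rw [h1, h2]
  have h3 : (t - x) ^ 2 + y ^ 2 ≠ 0 := by positivity
  have h4 : (1 : ℝ) + ((x - t) / y) ^ 2 ≠ 0 := by positivity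
  field_simp
  ring

end K2Aux

open K2Aux

theorem stmt_K2 : Stmt_K2 := by
  intro t y hy
  have h0 : (fun x : ℝ => P t (x + y * Complex.I)) =
      fun x => y⁻¹ * (fun u : ℝ => (fun w : ℝ => (1 + w ^ 2)⁻¹) (u / y)) (x - t) := by
    funext x
    exact P_eq t x y hy
  constructor
  · rw [h0]
    exact ((integrable_inv_one_add_sq.comp_div hy.ne').comp_sub_right t).const_mul _
  · rw [h0, integral_const_mul, integral_sub_right_eq_self
      (fun u : ℝ => (fun w : ℝ => (1 + w ^ 2)⁻¹) (u / y)) t,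
      Measure.integral_comp_div (fun w : ℝ => (1 + w ^ 2)⁻¹) y, integral_univ_inv_one_add_sq,
      abs_of_pos hy, smul_eq_mul]
    field_simp

end Pool.LG
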