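import Pool.Agent.Work.LipGraph.MBase

/-!
# Block M0 (helper26)
-/

open Matrix MeasureTheory
open scoped ComplexOrder

namespace Pool.LG

variable {n : ℕ}

theorem M0_w1_nonneg {I k T : Mat n} (hI : I.PosSemidef) (hk : k.PosSemidef) (hT : T.PosDef) :
    0 ≤ w1 I k T := by
  unfold w1
  rw [rtr_add]
  have h1 := psd_rtr_mul hT.posSemidef hI
  have h2 := psd_rtr_mul hT.inv.posSemidef hk
  linarith

theorem M0_w2_nonneg {Ig Ik k T : Mat n} (hIg : Ig.PosSemidef) (hIk : Ik.PosSemidef)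
    (hk : k.PosSemidef) (hT : T.PosDef) : 0 ≤ w2 Ig Ik k T := by
  unfold w2
  rw [rtr_add]
  have h1 := psd_rtr_mul hT.posSemidef (hIg.add hIk)
  have h2 := psd_rtr_mul hT.inv.posSemidef hk
  have h3 : 0 ≤ rtr (T * Ig * T * Ik) := by
    have := psd_rtr_mul (psd_conj hIg T) hIk
    rwa [hT.1.eq] at this
  linarith

namespace En

variable (e : En n)

theorem Ig_psd {z : ℂ} (hz : 0 < z.im) : (e.Ig z).PosSemidef := Har_psd _ e.hEg hz
theorem Ik_psd {z : ℂ} (hz : 0 < z.im) : (e.Ik z).PosSemidef := Har_psd _ e.hEk hz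
theorem I_pd {z : ℂ} (hz : 0 < z.im) : (e.I z).PosDef := e.hI z hz
theorem k_pd {z : ℂ} (hz : 0 < z.im) : (e.k z).PosDef := e.hk z hz

theorem Ig_cont : ContinuousOn e.Ig {z | 0 < z.im} := MB_Har_cont _ _
theorem Ik_cont : ContinuousOn e.Ik {z | 0 < z.im} := MB_Har_cont _ _
theorem I_cont : ContinuousOn e.I {z | 0 < z.im} := e.Ig_cont.add e.Ik_cont
theorem k_cont : ContinuousOn e.k {z | 0 < z.im} := MB_Har_cont _ _

theorem chi_cont : ContinuousOn e.chi {z | 0 < z.im} :=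
  rtr_cont.comp_continuousOn (e.I_cont.mul e.k_cont)

instance : Nonempty {T : Mat n // T.PosDef} := ⟨⟨1, PosDef.one⟩⟩

theorem v1_le {z : ℂ} (hz : 0 < z.im) {T : Mat n} (hT : T.PosDef) :
    e.v1 z ≤ w1 (e.I z) (e.k z) T :=
  ciInf_le (f := fun T : {T : Mat n // T.PosDef} => w1 (e.I z) (e.k z) T.1)
    ⟨0, by
      rintro _ ⟨T, rfl⟩
      exact M0_w1_nonneg (e.I_pd hz).posSemidef (e.k_pd hz).posSemidef T.2⟩ ⟨T, hT⟩

theorem v2_le {z : ℂ} (hz : 0 < z.im) {T : Mat n} (hT : T.PosDef) :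
    e.v2 z ≤ w2 (e.Ig z) (e.Ik z) (e.k z) T :=
  ciInf_le (f := fun T : {T : Mat n // T.PosDef} => w2 (e.Ig z) (e.Ik z) (e.k z) T.1)
    ⟨0, by
      rintro _ ⟨T, rfl⟩
      exact M0_w2_nonneg (e.Ig_psd hz) (e.Ik_psd hz) (e.k_pd hz).posSemidef T.2⟩ ⟨T, hT⟩

theorem v1_meas : Measurable (ind e.v1) := by
  refine meas_ind_iInf (ι := {T : Mat n // T.PosDef}) (fun T z => w1 (e.I z) (e.k z) T.1) _
    (fun T => ?_) (fun z hz => ⟨0, ?_⟩) (fun z _ => rfl)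
  · unfold w1
    exact (rtr_cont.comp_continuousOn ((continuousOn_const.mul e.I_cont).add
      (continuousOn_const.mul e.k_cont))).const_mul _
  · rintro _ ⟨T, rfl⟩
    exact M0_w1_nonneg (e.I_pd hz).posSemidef (e.k_pd hz).posSemidef T.2

theorem w2_cont (T : Mat n) :
    ContinuousOn (fun z => w2 (e.Ig z) (e.Ik z) (e.k z) T) {z | 0 < z.im} := by
  unfold w2
  refine (rtr_cont.comp_continuousOn ?_).add ((rtr_cont.comp_continuousOn ?_).const_mul _)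
  · exact ((continuousOn_const.mul e.Ig_cont).mul continuousOn_const).mul
      e.Ik_cont
  · exact (continuousOn_const.mul (e.Ig_cont.add e.Ik_cont)).add
      (continuousOn_const.mul e.k_cont)

theorem v2_meas : Measurable (ind e.v2) := by
  refine meas_ind_iInf (ι := {T : Mat n // T.PosDef})
    (fun T z => w2 (e.Ig z) (e.Ik z) (e.k z) T.1) _
    (fun T => e.w2_cont T.1) (fun z hz => ⟨0, ?_⟩) (fun z _ => rfl)
  rintro _ ⟨T, rfl⟩
  exact M0_w2_nonneg (e.Ig_psd hz) (e.Ik_psd hz) (e.k_pd hz).posSemidef T.2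

end En

theorem stmt_M0_of (hA1 : Stmt_A1) (hA3 : Stmt_A3) (hA8 : Stmt_A8) : Stmt_M0 := by
  intro n e
  refine ⟨e.v1_meas, e.v2_meas, meas_ind_cont e.chi_cont, fun z hz => ?_⟩
  obtain ⟨φ⟩ := hA1 n (e.I z) (e.k z) (e.I_pd hz) (e.k_pd hz)
  obtain ⟨-, h2, h3⟩ := hA3 n _ _ φ
  have hs := e.h1 z hz φ
  obtain ⟨h4, h5, -⟩ := hA8 n (e.Ig z) (e.Ik z) (e.k z) φ hs (e.Ig_psd hz) (e.Ik_psd hz)
  have e1 : e.chi z = ∑ i, φ.sg i ^ 2 := h3
  have e2 : e.v1 z = ∑ i, φ.sg i := h2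
  rw [e1, e2]
  refine ⟨Finset.sum_nonneg fun i _ => sq_nonneg _, Finset.sum_le_sum fun i _ => ?_, ?_, h4, h5⟩
  · have := φ.pos i
    nlinarith [hs i]
  · calc ∑ i, φ.sg i ≤ ∑ _i : Fin n, (1 : ℝ) := Finset.sum_le_sum fun i _ => hs i
      _ = n := by simp

end Pool.LG
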