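import Pool.Agent.Work.LipGraph.MAvg

/-!
# Block M1 (helper26): Lemma 3 averaged
-/

open Matrix MeasureTheory
open scoped ComplexOrder

namespace Pool.LG

variable {n : ℕ}

/-- bounds for `a1` -/
theorem a1_abs (hM0 : Stmt_M0) (e : En n) (z : ℂ) (hz : 0 < z.im) :
    0 ≤ e.a1 z ∧ e.a1 z ≤ 12 * n ∧ |e.a1 z| ≤ 12 * n := by
  obtain ⟨-, -, -, h⟩ := hM0 n e
  obtain ⟨h1, h2, h3, -, -⟩ := h z hz
  have e1 : e.a1 z = 12 * e.v1 z - e.chi z := rfl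
  have g1 : 0 ≤ e.a1 z := by rw [e1]; linarith
  have g2 : e.a1 z ≤ 12 * n := by rw [e1]; linarith
  exact ⟨g1, g2, by rw [abs_of_nonneg g1]; exact g2⟩

theorem a1_meas (hM0 : Stmt_M0) (e : En n) : Measurable (ind e.a1) := by
  obtain ⟨h1, -, h3, -⟩ := hM0 n e
  have : ind e.a1 = fun z => 12 * ind e.v1 z - ind e.chi z := by
    funext z
    unfold ind En.a1
    by_cases hz : 0 < z.im <;> simp [hz]
  rw [this]
  exact (h1.const_mul _).sub h3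

theorem stmt_M1_of (hA3 : Stmt_A3) (hA4 : Stmt_A4) (hH1 : Stmt_H1)
    (hM0 : Stmt_M0) : Stmt_M1 := by
  intro n e z₀ h0 φ
  have F := Fr.of hH1 e h0 φ
  have hec : Real.circleAverage (fun z => hs (φ.Qᴴ * (e.I z - e.I z₀) * φ.Q) +
      hs (φ.Qi * (e.k z - e.k z₀) * φ.Qiᴴ)) z₀ (z₀.im / 3) = Av (ec e φ) z₀ := by
    unfold Av ec
    simp only [Ih_sub, kh_sub]
  rw [hec, Df_eq h0]
  -- pointwise upper bound
  set ub : ℂ → ℝ := fun z => (6 * rtr (1 * Ih e φ z) + 6 * rtr (1 * kh e φ z)) -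
    (rtr (dg φ.sg * Ih e φ z) + rtr (dg φ.sg * kh e φ z)) - (1 / 2 * ec e φ z) +
    hs (dg φ.sg) with hub
  have hle : ∀ z ∈ Metric.sphere z₀ |z₀.im / 3|, e.a1 z ≤ ub z := by
    intro z hz
    have hzp := (circ h0 hz).1
    have h4 := hA4 n (e.I z₀) (e.k z₀) (e.I z) (e.k z) φ F.sg1 (e.I_pd hzp).posSemidef
      (e.k_pd hzp).posSemidef (F.hI2 z hz) (F.hk2 z hz)
    have h4' : e.v1 z ≤ 1 / 2 * rtr (Ih e φ z + kh e φ z) -
        1 / 24 * hs (Ih e φ z - kh e φ z) := h4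
    have h5 := chi_hat e φ z
    have h6 := hs_sub_herm (Ih_psd e φ hzp).1 (kh_psd e φ hzp).1
    have h7 := hs_sub_dg (Ih_psd e φ hzp).1 φ.sg
    have h8 := hs_sub_dg (kh_psd e φ hzp).1 φ.sg
    rw [rtr_add] at h4'
    have e1 : e.a1 z = 12 * e.v1 z - e.chi z := rfl
    rw [e1, hub]
    simp only [Matrix.one_mul, ec]
    rw [h7, h8]
    linarith
  have hc1 := (rtrIh_cont e φ 1).const_mul (6 : ℝ) |>.fun_add ((rtrkh_cont e φ 1).const_mul (6 : ℝ))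
  have hc2 := (rtrIh_cont e φ (dg φ.sg)).fun_add (rtrkh_cont e φ (dg φ.sg))
  have hc3 := (ec_cont e φ).const_mul (1 / 2 : ℝ)
  have hmean : Av ub z₀ = 12 * ∑ i, φ.sg i - hs (dg φ.sg) - 1 / 2 * Av (ec e φ) z₀ := by
    rw [hub]
    rw [Av_add h0 ((hc1.fun_sub hc2).fun_sub hc3) continuousOn_const,
      Av_sub h0 (hc1.fun_sub hc2) hc3, Av_sub h0 hc1 hc2,
      Av_add h0 ((rtrIh_cont e φ 1).const_mul _) ((rtrkh_cont e φ 1).const_mul _),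
      Av_add h0 (rtrIh_cont e φ (dg φ.sg)) (rtrkh_cont e φ (dg φ.sg)), Av_mul, Av_mul, Av_mul,
      Av_const, F.mIh, F.mkh, F.mIh, F.mkh, Matrix.one_mul, rtr_dg,
      ← hs_herm (dg_herm φ.sg)]
    ring
  have hav : Av (ind e.a1) z₀ ≤ Av ub z₀ :=
    Av_ind_le h0 (a1_meas hM0 e) (fun z hz => (a1_abs hM0 e z hz).2.2)
      (((hc1.fun_sub hc2).fun_sub hc3).fun_add continuousOn_const) hle
  obtain ⟨-, h2, h3⟩ := hA3 n _ _ φ
  have e1 : e.a1 z₀ = 12 * ∑ i, φ.sg i - hs (dg φ.sg) := by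
    have e2 : e.a1 z₀ = 12 * V1 (e.I z₀) (e.k z₀) - rtr (e.I z₀ * e.k z₀) := rfl
    rw [e2, h2, h3, hs_dg]
  rw [e1]
  linarith

end Pool.LG
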