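import Pool.Agent.Work.LipGraph.M1

/-!
# Block M2 (helper26): Lemma 5 averaged
-/

open Matrix MeasureTheory
open scoped ComplexOrder

namespace Pool.LG

variable {n : ℕ}

theorem En.v2_abs (hM0 : Stmt_M0) (e : En n) (z : ℂ) (hz : 0 < z.im) : |e.v2 z| ≤ 5 * n := by
  obtain ⟨-, -, -, h⟩ := hM0 n e
  obtain ⟨h1, h2, h3, h4, h5⟩ := h z hz
  rw [abs_of_nonneg h4]
  linarith

theorem stmt_M2_of (hA5 : Stmt_A5) (hA6 : Stmt_A6) (hA7 : Stmt_A7) (hH1 : Stmt_H1)
    (hM0 : Stmt_M0) (hM1 : Stmt_M1) : Stmt_M2 := by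
  intro n e z₀ h0 φ
  have F := Fr.of hH1 e h0 φ
  obtain ⟨T, hT, hmin⟩ := hA5 n (e.Ig z₀) (e.Ik z₀) (e.k z₀) (e.Ig_psd h0) (e.Ik_psd h0)
    (e.I_pd h0) (e.k_pd h0)
  have hEL := hA6 n (e.Ig z₀) (e.Ik z₀) (e.k z₀) T (e.Ig_psd h0) (e.Ik_psd h0)
    (e.k_pd h0).posSemidef hT hmin
  have hcmp := hA7 n (e.Ig z₀) (e.Ik z₀) (e.k z₀) T φ F.sg1 (e.Ig_psd h0) (e.Ik_psd h0) hT hEL
  -- value at the centre
  have hv2 : e.v2 z₀ = w2 (e.Ig z₀) (e.Ik z₀) (e.k z₀) T := by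
    refine le_antisymm (e.v2_le h0 hT) ?_
    exact le_ciInf fun T' => hmin T'.1 T'.2
  -- M1
  have h1 := hM1 n e z₀ h0 φ
  have hec : Real.circleAverage (fun z => hs (φ.Qᴴ * (e.I z - e.I z₀) * φ.Q) +
      hs (φ.Qi * (e.k z - e.k z₀) * φ.Qiᴴ)) z₀ (z₀.im / 3) = Av (fun z =>
      hs (φ.Qᴴ * (e.I z - e.I z₀) * φ.Q) + hs (φ.Qi * (e.k z - e.k z₀) * φ.Qiᴴ)) z₀ := rfl
  rw [hec] at h1
  have hLHS : Real.circleAverage (fun z => hs (φ.Qᴴ * (e.Ig z - e.Ig z₀) * φ.Q)) z₀ (z₀.im / 3) =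
      Av (fun z => hs (φ.Qᴴ * (e.Ig z - e.Ig z₀) * φ.Q)) z₀ := rfl
  rw [hLHS]
  have cI : ContinuousOn (fun z => hs (φ.Qᴴ * (e.I z - e.I z₀) * φ.Q)) {z | 0 < z.im} :=
    MB_hs_cont.comp_continuousOn ((continuousOn_const.mul
      (e.I_cont.sub continuousOn_const)).mul continuousOn_const)
  have ck : ContinuousOn (fun z => hs (φ.Qi * (e.k z - e.k z₀) * φ.Qiᴴ)) {z | 0 < z.im} :=
    MB_hs_cont.comp_continuousOn ((continuousOn_const.mul
      (e.k_cont.sub continuousOn_const)).mul continuousOn_const)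
  have cg : ContinuousOn (fun z => hs (φ.Qᴴ * (e.Ig z - e.Ig z₀) * φ.Q)) {z | 0 < z.im} :=
    MB_hs_cont.comp_continuousOn ((continuousOn_const.mul
      (e.Ig_cont.sub continuousOn_const)).mul continuousOn_const)
  rw [Av_add h0 cI ck] at h1
  have hk0 : 0 ≤ Av (fun z => hs (φ.Qi * (e.k z - e.k z₀) * φ.Qiᴴ)) z₀ :=
    Av_nonneg fun z _ => hs_nonneg _
  -- the linear part
  set B1 : Mat n := T * e.Ig z₀ * T with hB1
  set B2 : Mat n := T * e.Ik z₀ * T with hB2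
  set ub : ℂ → ℝ := fun z =>
    (rtr (B2 * e.Ig z) + rtr (B1 * e.Ik z) - rtr (B1 * e.Ik z₀)) +
    (2 * (rtr (T * e.I z) + rtr (T⁻¹ * e.k z))) +
    (hs (φ.Qᴴ * (e.I z - e.I z₀) * φ.Q) -
      1 / 3 * hs (φ.Qᴴ * (e.Ig z - e.Ig z₀) * φ.Q)) with hub
  have hle : ∀ z ∈ Metric.sphere z₀ |z₀.im / 3|, e.v2 z ≤ ub z := by
    intro z hz
    have hzp := (circ h0 hz).1
    refine (e.v2_le hzp hT).trans ?_
    set al := e.Ig z - e.Ig z₀ with hal
    set be := e.I z - e.I z₀ with hbe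
    have halH : al.IsHermitian := (e.Ig_psd hzp).1.sub (e.Ig_psd h0).1
    have hbeH : be.IsHermitian := (e.I_pd hzp).1.sub (e.I_pd h0).1
    have hIk : e.Ik z = e.Ik z₀ + (be - al) := by
      have h2 : ∀ w, e.I w = e.Ig w + e.Ik w := fun _ => rfl
      rw [hbe, hal, h2, h2]
      abel
    have hIg : e.Ig z = e.Ig z₀ + al := by rw [hal]; abel
    obtain ⟨c1, -⟩ := hcmp be hbeH
    obtain ⟨-, c2⟩ := hcmp al halH
    -- `tr (T al T be) ≤ (tr(T al T al) + tr(T be T be))/2`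
    have hcs : 2 * rtr (T * al * T * be) ≤ rtr (T * al * T * al) + rtr (T * be * T * be) := by
      have hpos : 0 ≤ rtr (T * (al - be) * T * (al - be)) := by
        have h3 : T * (al - be) * T * (al - be) = T * ((al - be) * T * (al - be)ᴴ) := by
          rw [(halH.sub hbeH).eq]; noncomm_ring
        rw [h3]
        exact psd_rtr_mul hT.posSemidef (psd_conj hT.posSemidef _)
      have h4 : T * (al - be) * T * (al - be) = T * al * T * al - T * al * T * be -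
          T * be * T * al + T * be * T * be := by noncomm_ring
      have h5 : rtr (T * be * T * al) = rtr (T * al * T * be) := by
        have : T * be * T * al = (T * be) * (T * al) := by noncomm_ring
        rw [this, rtr_comm]
        congr 1
        noncomm_ring
      rw [h4, rtr_add, rtr_sub, rtr_sub, h5] at hpos
      linarith
    have hquad : rtr (T * e.Ig z * T * e.Ik z) ≤ rtr (B2 * e.Ig z) + rtr (B1 * e.Ik z) -
        rtr (B1 * e.Ik z₀) + (1 / 2 * rtr (T * be * T * be) - 1 / 2 * rtr (T * al * T * al)) := by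
      have h6 : rtr (T * e.Ig z * T * e.Ik z) = rtr (B1 * e.Ik z) + rtr (T * al * T * e.Ik z₀) +
          (rtr (T * al * T * be) - rtr (T * al * T * al)) := by
        rw [← rtr_sub, ← rtr_add, ← rtr_add]
        congr 1
        conv_lhs => rw [hIg]
        conv_rhs => rw [hIk]
        rw [hIk, hB1]
        noncomm_ring
      have h7 : rtr (T * al * T * e.Ik z₀) = rtr (B2 * e.Ig z) - rtr (B1 * e.Ik z₀) := by
        have h8 : rtr (T * al * T * e.Ik z₀) = rtr (B2 * al) := by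
          have : T * al * T * e.Ik z₀ = (T * al) * (T * e.Ik z₀) := by noncomm_ring
          rw [this, rtr_comm, hB2]
          congr 1
          noncomm_ring
        have h9 : rtr (B2 * e.Ig z₀) = rtr (B1 * e.Ik z₀) := by
          rw [hB1, hB2]
          have : T * e.Ik z₀ * T * e.Ig z₀ = (T * e.Ik z₀) * (T * e.Ig z₀) := by noncomm_ring
          rw [this, rtr_comm]
          congr 1
          noncomm_ring
        rw [h8, hal, Matrix.mul_sub, rtr_sub, h9]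
      rw [h6, h7]
      linarith
    rw [hub]
    unfold w2
    have h10 : T * (e.Ig z + e.Ik z) = T * e.I z := rfl
    rw [h10, rtr_add]
    simp only
    linarith
  have cg1 : ContinuousOn (fun z => rtr (B2 * e.Ig z) + rtr (B1 * e.Ik z) -
      rtr (B1 * e.Ik z₀)) {z | 0 < z.im} :=
    ((rtrc e.Ig_cont B2).fun_add (rtrc e.Ik_cont B1)).fun_sub continuousOn_const
  have cg2 : ContinuousOn (fun z => 2 * (rtr (T * e.I z) + rtr (T⁻¹ * e.k z))) {z | 0 < z.im} :=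
    ((rtrc e.I_cont T).fun_add (rtrc e.k_cont T⁻¹)).const_mul _
  have cg3 : ContinuousOn (fun z => hs (φ.Qᴴ * (e.I z - e.I z₀) * φ.Q) -
      1 / 3 * hs (φ.Qᴴ * (e.Ig z - e.Ig z₀) * φ.Q)) {z | 0 < z.im} :=
    cI.fun_sub (cg.const_mul _)
  have hmean : Av ub z₀ = e.v2 z₀ + (Av (fun z => hs (φ.Qᴴ * (e.I z - e.I z₀) * φ.Q)) z₀ -
      1 / 3 * Av (fun z => hs (φ.Qᴴ * (e.Ig z - e.Ig z₀) * φ.Q)) z₀) := by
    rw [hub, Av_add h0 (cg1.fun_add cg2) cg3, Av_add h0 cg1 cg2, Av_sub h0 cI (cg.const_mul _),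
      Av_mul, Av_mul, Av_sub h0 ((rtrc e.Ig_cont B2).fun_add (rtrc e.Ik_cont B1))
        continuousOn_const, Av_const, Av_add h0 (rtrc e.Ig_cont B2) (rtrc e.Ik_cont B1),
      Av_add h0 (rtrc e.I_cont T) (rtrc e.k_cont T⁻¹), F.mIg, F.mIk, F.mI, F.mK, hv2]
    unfold w2
    have h10 : T * (e.Ig z₀ + e.Ik z₀) = T * e.I z₀ := rfl
    have h9 : rtr (B2 * e.Ig z₀) = rtr (T * e.Ig z₀ * T * e.Ik z₀) := by
      rw [hB2]
      have : T * e.Ik z₀ * T * e.Ig z₀ = (T * e.Ik z₀) * (T * e.Ig z₀) := by noncomm_ring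
      rw [this, rtr_comm]
      congr 1
      noncomm_ring
    rw [h10, rtr_add, h9]
    ring
  obtain ⟨-, m2, -, -⟩ := hM0 n e
  have hav : Av (ind e.v2) z₀ ≤ Av ub z₀ :=
    Av_ind_le h0 m2 (e.v2_abs hM0) ((cg1.fun_add cg2).fun_add cg3) hle
  have hsum : Av (ind e.a2) z₀ = Av (ind e.v2) z₀ + 2 * Av (ind e.a1) z₀ := by
    have h11 : Measurable (ind fun z => 2 * e.a1 z) := by
      have : (ind fun z => 2 * e.a1 z) = fun z => 2 * ind e.a1 z := by
        funext z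
        unfold ind
        by_cases hz : 0 < z.im <;> simp [hz]
      rw [this]
      exact (a1_meas hM0 e).const_mul _
    have h12 := Av_ind_add (f := e.v2) (g := fun z => 2 * e.a1 z) h0 m2 (e.v2_abs hM0) h11
      (b' := 2 * (12 * n)) (fun z hz => by
        rw [abs_mul, abs_of_pos (by norm_num : (0 : ℝ) < 2)]
        have := (a1_abs hM0 e z hz).2.2
        linarith)
    rw [Av_ind_mul h0] at h12
    exact h12
  rw [Df_eq h0] at h1 ⊢
  rw [hsum]
  have e3 : e.a2 z₀ = e.v2 z₀ + 2 * e.a1 z₀ := rfl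
  rw [e3]
  linarith

end Pool.LG
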