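import Pool.Agent.Work.LipGraph.M1

/-!
# Block M3 (helper26): Lemma 6 averaged
-/

open Matrix MeasureTheory
open scoped ComplexOrder

namespace Pool.LG

variable {n : ℕ}

/-- elementary inequality used pointwise -/
theorem m3_scalar {s0 dl ch ch0 L a b s : ℝ} (hL : |s0| ≤ L)
    (hch0 : ch0 = s ^ 2) (hk : |ch - ch0| ≤ s * (2 * a + b)) (h4 : ch0 / 4 ≤ ch) :
    s0 ^ 2 * ch + 2 * s0 * dl * ch0 + 1 / 8 * ch0 * dl ^ 2 - 40 * L ^ 2 * (a ^ 2 + b ^ 2) ≤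
      (s0 + dl) ^ 2 * ch := by
  have h1 : |2 * s0 * dl * (ch - ch0)| ≤ 2 * L * |dl| * (s * (2 * a + b)) := by
    rw [abs_mul, abs_mul, abs_mul, abs_of_pos (by norm_num : (0 : ℝ) < 2)]
    have hL0 : 0 ≤ L := (abs_nonneg _).trans hL
    have : 0 ≤ s * (2 * a + b) := (abs_nonneg _).trans hk
    gcongr
  have h2 : 2 * L * |dl| * (s * (2 * a + b)) ≤
      1 / 8 * (|dl| * s) ^ 2 + 8 * (L * (2 * a + b)) ^ 2 := by
    nlinarith [sq_nonneg (|dl| * s - 8 * (L * (2 * a + b)))]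
  have h3 : (L * (2 * a + b)) ^ 2 ≤ 5 * (L ^ 2 * (a ^ 2 + b ^ 2)) := by
    have : (2 * a + b) ^ 2 ≤ 5 * (a ^ 2 + b ^ 2) := by nlinarith [sq_nonneg (a - 2 * b)]
    calc (L * (2 * a + b)) ^ 2 = L ^ 2 * (2 * a + b) ^ 2 := by ring
      _ ≤ L ^ 2 * (5 * (a ^ 2 + b ^ 2)) := mul_le_mul_of_nonneg_left this (sq_nonneg L)
      _ = _ := by ring
  have h5 : (|dl| * s) ^ 2 = ch0 * dl ^ 2 := by
    rw [mul_pow, sq_abs, hch0]; ring
  have h6 : ch0 / 4 * dl ^ 2 ≤ ch * dl ^ 2 := mul_le_mul_of_nonneg_right h4 (sq_nonneg dl)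
  rw [h5] at h2
  have h7 := (abs_le.1 h1).1
  nlinarith [h1, h2, h3, h6, h7]

theorem stmt_M3_of (hA3 : Stmt_A3) (hA1 : Stmt_A1) (hH1 : Stmt_H1) (hM0 : Stmt_M0)
    (hM1 : Stmt_M1) : Stmt_M3 := by
  intro n e L σ hL hσc hσb hσm z₀ h0
  obtain ⟨φ⟩ := hA1 n (e.I z₀) (e.k z₀) (e.I_pd h0) (e.k_pd h0)
  have F := Fr.of hH1 e h0 φ
  obtain ⟨-, h2, h3⟩ := hA3 n _ _ φ
  have hch0 : e.chi z₀ = hs (dg φ.sg) := by
    rw [hs_dg]; exact h3
  have h1 := hM1 n e z₀ h0 φ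
  have hec : Real.circleAverage (fun z => hs (φ.Qᴴ * (e.I z - e.I z₀) * φ.Q) +
      hs (φ.Qi * (e.k z - e.k z₀) * φ.Qiᴴ)) z₀ (z₀.im / 3) = Av (ec e φ) z₀ := by
    unfold Av ec
    simp only [Ih_sub, kh_sub]
  rw [hec, Df_eq h0] at h1
  set s := √(hs (dg φ.sg)) with hsdef
  have hs0 : 0 ≤ s := Real.sqrt_nonneg _
  have hs2 : s ^ 2 = hs (dg φ.sg) := Real.sq_sqrt (hs_nonneg _)
  -- the bound of `chi z - chi z₀`
  have hkap : ∀ z ∈ Metric.sphere z₀ |z₀.im / 3|,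
      |e.chi z - e.chi z₀| ≤ s * (2 * √(hs (Ih e φ z - dg φ.sg)) +
        √(hs (kh e φ z - dg φ.sg))) := by
    intro z hz
    have hzp := (circ h0 hz).1
    have e1 : e.chi z - e.chi z₀ = rtr ((Ih e φ z - dg φ.sg) * kh e φ z) +
        rtr (dg φ.sg * (kh e φ z - dg φ.sg)) := by
      rw [chi_hat e φ z, hch0, hs_herm (dg_herm φ.sg), ← rtr_sub, ← rtr_add]
      congr 1
      noncomm_ring
    rw [e1]
    refine (abs_add_le _ _).trans ?_
    have b1 := abs_rtr_mul_le (Ih e φ z - dg φ.sg) (kh e φ z)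
    have b2 := abs_rtr_mul_le (dg φ.sg) (kh e φ z - dg φ.sg)
    have hpsd : (dg (fun i => 2 * φ.sg i) - kh e φ z).PosSemidef := by
      have := psd_conj (F.hk2 z hz) φ.Qi
      convert this using 1
      rw [Matrix.mul_sub, Matrix.sub_mul, Matrix.mul_smul, Matrix.smul_mul, φ.hk]
      have h5 : (2 : ℂ) • dg φ.sg = dg (fun i => 2 * φ.sg i) := by
        have := dg_smul 2 φ.sg
        simpa using this
      rw [h5]
      rfl
    have b3 : √(hs (kh e φ z)) ≤ 2 * s := by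
      have h6 := hs_mono (kh_psd e φ hzp) hpsd
      have h7 : hs (dg (fun i => 2 * φ.sg i)) = (2 * s) ^ 2 := by
        rw [mul_pow, hs2, hs_dg, hs_dg, Finset.mul_sum]
        refine Finset.sum_congr rfl fun i _ => by ring
      rw [h7] at h6
      exact Real.sqrt_le_iff.2 ⟨by positivity, h6⟩
    have b4 : √(hs (Ih e φ z - dg φ.sg)) * √(hs (kh e φ z)) ≤
        √(hs (Ih e φ z - dg φ.sg)) * (2 * s) :=
      mul_le_mul_of_nonneg_left b3 (Real.sqrt_nonneg _)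
    calc |rtr ((Ih e φ z - dg φ.sg) * kh e φ z)| + |rtr (dg φ.sg * (kh e φ z - dg φ.sg))|
        ≤ √(hs (Ih e φ z - dg φ.sg)) * (2 * s) + s * √(hs (kh e φ z - dg φ.sg)) :=
          add_le_add (b1.trans b4) b2
      _ = _ := by ring
  -- lower bound of `chi`
  have hq : ∀ z ∈ Metric.sphere z₀ |z₀.im / 3|, e.chi z₀ / 4 ≤ e.chi z := by
    intro z hz
    have hzp := (circ h0 hz).1
    have b1 := rtr_mul_mono (F.hI3 z hz) (e.k_pd hzp).posSemidef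
    have b2 := rtr_mul_mono' (F.hk3 z hz) (e.I_pd h0).posSemidef
    have c1 : rtr ((2 : ℂ) • e.I z * e.k z) = 2 * e.chi z := by
      rw [Matrix.smul_mul]
      have := rtr_smul 2 (e.I z * e.k z)
      simp only [Complex.ofReal_ofNat] at this
      exact this
    have c2 : rtr (e.I z₀ * ((2 : ℂ) • e.k z)) = 2 * rtr (e.I z₀ * e.k z) := by
      rw [Matrix.mul_smul]
      have := rtr_smul 2 (e.I z₀ * e.k z)
      simpa using this
    rw [c1] at b1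
    rw [c2] at b2
    have e1 : e.chi z₀ = rtr (e.I z₀ * e.k z₀) := rfl
    rw [e1]
    linarith
  -- the pointwise bound
  set c0 := e.chi z₀ with hc0
  set s0 := σ z₀ with hs0'
  have hs0L : |s0| ≤ L := hσb z₀ h0
  set ub : ℂ → ℝ := fun z => (81 / 2 * L ^ 2) * ec e φ z -
    ((1 / 8 * c0) * (σ z - s0) ^ 2 + (2 * s0 * c0) * (σ z - s0)) -
    (s0 ^ 2) * ((rtr (dg φ.sg * Ih e φ z) + rtr (dg φ.sg * kh e φ z)) - hs (dg φ.sg)) with hub
  have hle : ∀ z ∈ Metric.sphere z₀ |z₀.im / 3|,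
      ind (e.a5 L σ) z ≤ 82 * L ^ 2 * ind e.a1 z + ub z := by
    intro z hz
    have hzp := (circ h0 hz).1
    rw [ind_sphere h0 hz, ind_sphere h0 hz]
    have h4 := m3_scalar (dl := σ z - s0) hs0L (by rw [hs2]; exact hch0) (hkap z hz) (hq z hz)
    rw [Real.sq_sqrt (hs_nonneg _), Real.sq_sqrt (hs_nonneg _)] at h4
    have e1 : s0 + (σ z - s0) = σ z := by ring
    rw [e1] at h4
    have e2 : e.a5 L σ z = 82 * L ^ 2 * e.a1 z - σ z ^ 2 * e.chi z := rfl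
    -- chi z from below
    have h5 : -(1 / 2) * ec e φ z + (rtr (dg φ.sg * Ih e φ z) + rtr (dg φ.sg * kh e φ z) -
        hs (dg φ.sg)) ≤ e.chi z := by
      rw [chi_hat e φ z]
      have h6 : rtr (Ih e φ z * kh e φ z) = rtr ((Ih e φ z - dg φ.sg) * (kh e φ z - dg φ.sg)) +
          (rtr (Ih e φ z * dg φ.sg) + rtr (dg φ.sg * kh e φ z) - rtr (dg φ.sg * dg φ.sg)) := by
        rw [← rtr_add, ← rtr_sub, ← rtr_add]
        congr 1
        noncomm_ring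
      rw [h6, ← hs_herm (dg_herm φ.sg), rtr_comm (Ih e φ z) (dg φ.sg)]
      have h7 := rtr_mul_le_half (-(Ih e φ z - dg φ.sg)) (kh e φ z - dg φ.sg)
      rw [hs_neg, Matrix.neg_mul, rtr_neg] at h7
      unfold ec
      linarith
    have h6 : s0 ^ 2 * (-(1 / 2) * ec e φ z + (rtr (dg φ.sg * Ih e φ z) +
        rtr (dg φ.sg * kh e φ z) - hs (dg φ.sg))) ≤ s0 ^ 2 * e.chi z :=
      mul_le_mul_of_nonneg_left h5 (sq_nonneg _)
    have h7 : s0 ^ 2 ≤ L ^ 2 := sq_le_sq' (by linarith [(abs_le.1 hs0L).1]) (abs_le.1 hs0L).2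
    have h8 : 0 ≤ ec e φ z := add_nonneg (hs_nonneg _) (hs_nonneg _)
    have h9 : s0 ^ 2 * ec e φ z ≤ L ^ 2 * ec e φ z := mul_le_mul_of_nonneg_right h7 h8
    have h10 : hs (Ih e φ z - dg φ.sg) + hs (kh e φ z - dg φ.sg) = ec e φ z := rfl
    rw [h10] at h4
    rw [e2, hub]
    simp only
    linarith
  -- averages
  have cσ : ContinuousOn (fun z => σ z - s0) {z | 0 < z.im} := hσc.fun_sub continuousOn_const
  have cσ2 : ContinuousOn (fun z => (σ z - s0) ^ 2) {z | 0 < z.im} := cσ.fun_pow 2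
  have cm : ContinuousOn (fun z => (1 / 8 * c0) * (σ z - s0) ^ 2 + (2 * s0 * c0) * (σ z - s0))
      {z | 0 < z.im} := (cσ2.const_mul _).fun_add (cσ.const_mul _)
  have cr : ContinuousOn (fun z => rtr (dg φ.sg * Ih e φ z) + rtr (dg φ.sg * kh e φ z))
      {z | 0 < z.im} := (rtrIh_cont e φ (dg φ.sg)).fun_add (rtrkh_cont e φ (dg φ.sg))
  have cr2 : ContinuousOn (fun z => (rtr (dg φ.sg * Ih e φ z) + rtr (dg φ.sg * kh e φ z)) -
      hs (dg φ.sg)) {z | 0 < z.im} := cr.fun_sub continuousOn_const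
  have ce : ContinuousOn (fun z => (81 / 2 * L ^ 2) * ec e φ z) {z | 0 < z.im} :=
    (ec_cont e φ).const_mul _
  have hmσ : Av (fun z => σ z - s0) z₀ = 0 := by
    rw [Av_sub h0 hσc continuousOn_const, Av_const]
    have : Av σ z₀ = σ z₀ := hσm z₀ h0
    rw [this]
    ring
  have hmean : Av ub z₀ = 81 / 2 * L ^ 2 * Av (ec e φ) z₀ -
      1 / 8 * c0 * Av (fun z => (σ z - s0) ^ 2) z₀ - s0 ^ 2 * c0 := by
    rw [hub, Av_sub h0 (ce.fun_sub cm) (cr2.const_mul _), Av_sub h0 ce cm,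
      Av_add h0 (cσ2.const_mul _) (cσ.const_mul _), Av_mul, Av_mul, Av_mul, Av_mul, hmσ,
      Av_sub h0 cr continuousOn_const,
      Av_add h0 (rtrIh_cont e φ (dg φ.sg)) (rtrkh_cont e φ (dg φ.sg)), Av_const, F.mIh, F.mkh,
      ← hs_herm (dg_herm φ.sg), hch0]
    ring
  obtain ⟨-, -, m3, m4⟩ := hM0 n e
  have hind5 : Measurable (ind (e.a5 L σ)) := by
    have : ind (e.a5 L σ) = fun z => 82 * L ^ 2 * ind e.a1 z -
        ind (fun z => σ z ^ 2 * e.chi z) z := by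
      funext z
      unfold ind En.a5
      by_cases hz : 0 < z.im <;> simp [hz]
    rw [this]
    exact ((a1_meas hM0 e).const_mul _).sub (meas_ind_cont ((hσc.fun_pow 2).mul e.chi_cont))
  have hb5 : ∀ z : ℂ, 0 < z.im → |e.a5 L σ z| ≤ 82 * L ^ 2 * (12 * n) + L ^ 2 * n := by
    intro z hz
    obtain ⟨g1, g2, g3, -, -⟩ := m4 z hz
    have g4 := (a1_abs hM0 e z hz).2.2
    have e2 : e.a5 L σ z = 82 * L ^ 2 * e.a1 z - σ z ^ 2 * e.chi z := rfl
    rw [e2]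
    refine (abs_sub _ _).trans ?_
    rw [abs_mul (82 * L ^ 2), abs_mul (σ z ^ 2),
      abs_of_nonneg (by positivity : (0 : ℝ) ≤ 82 * L ^ 2),
      abs_of_nonneg (sq_nonneg (σ z)), abs_of_nonneg g1]
    have h7 : σ z ^ 2 ≤ L ^ 2 := sq_le_sq' (by linarith [(abs_le.1 (hσb z hz)).1])
      (abs_le.1 (hσb z hz)).2
    have h8 : e.chi z ≤ n := g2.trans g3
    gcongr
  have hint1 : CircleIntegrable (ind (e.a5 L σ)) z₀ (z₀.im / 3) := ind_cint h0 hind5 hb5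
  have hinta : CircleIntegrable (ind e.a1) z₀ (z₀.im / 3) :=
    ind_cint h0 (a1_meas hM0 e) (fun z hz => (a1_abs hM0 e z hz).2.2)
  have hinta' : CircleIntegrable (fun z => 82 * L ^ 2 * ind e.a1 z) z₀ (z₀.im / 3) := by
    unfold CircleIntegrable at hinta ⊢
    exact hinta.const_mul _
  have hintu : CircleIntegrable ub z₀ (z₀.im / 3) :=
    cint ((ce.fun_sub cm).fun_sub (cr2.const_mul _)) h0
  have hav : Av (ind (e.a5 L σ)) z₀ ≤ 82 * L ^ 2 * Av (ind e.a1) z₀ + Av ub z₀ := by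
    rw [← Av_mul]
    have h9 := Real.circleAverage_mono hint1 (hinta'.add hintu) hle
    have h10 := Real.circleAverage_fun_add hinta' hintu
    unfold Av
    rw [← h10]
    exact h9
  rw [hmean] at hav
  have hEc : 0 ≤ Av (ec e φ) z₀ := Av_nonneg fun z _ => add_nonneg (hs_nonneg _) (hs_nonneg _)
  rw [Df_eq h0]
  have e5 : e.a5 L σ z₀ = 82 * L ^ 2 * e.a1 z₀ - s0 ^ 2 * c0 := rfl
  have e6 : Real.circleAverage (fun z => (σ z - σ z₀) ^ 2) z₀ (z₀.im / 3) =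
      Av (fun z => (σ z - s0) ^ 2) z₀ := rfl
  rw [e5, e6]
  have h11 : 82 * L ^ 2 * Av (ec e φ) z₀ ≤ 82 * L ^ 2 * (2 * (e.a1 z₀ - Av (ind e.a1) z₀)) :=
    mul_le_mul_of_nonneg_left h1 (by positivity)
  have h12 : 0 ≤ L ^ 2 * Av (ec e φ) z₀ := by positivity
  nlinarith [h11, h12, hav]

end Pool.LG
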