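import Pool.Agent.Work.LipGraph.M0

/-!
# LipGraph: averages over the circles of radius `y/3` (helper26)
-/

open Matrix MeasureTheory
open scoped ComplexOrder

namespace Pool.LG

/-- the circle average -/
noncomputable def Av (f : ℂ → ℝ) (z₀ : ℂ) : ℝ := Real.circleAverage f z₀ (z₀.im / 3)

section

variable {f g : ℂ → ℝ} {z₀ : ℂ}

theorem Av_add (h0 : 0 < z₀.im) (hf : ContinuousOn f {z | 0 < z.im})
    (hg : ContinuousOn g {z | 0 < z.im}) : Av (fun z => f z + g z) z₀ = Av f z₀ + Av g z₀ :=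
  Real.circleAverage_fun_add (cint hf h0) (cint hg h0)

theorem Av_sub (h0 : 0 < z₀.im) (hf : ContinuousOn f {z | 0 < z.im})
    (hg : ContinuousOn g {z | 0 < z.im}) : Av (fun z => f z - g z) z₀ = Av f z₀ - Av g z₀ :=
  Real.circleAverage_fun_sub (cint hf h0) (cint hg h0)

theorem Av_mul (c : ℝ) : Av (fun z => c * f z) z₀ = c * Av f z₀ := by
  have := Real.circleAverage_fun_smul (𝕜 := ℝ) (a := c) (f := f) (c := z₀) (R := z₀.im / 3)
  simp only [smul_eq_mul] at this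
  exact this

theorem Av_const (c : ℝ) : Av (fun _ => c) z₀ = c := Real.circleAverage_const c _ _

theorem Av_nonneg (h : ∀ z ∈ Metric.sphere z₀ |z₀.im / 3|, 0 ≤ f z) : 0 ≤ Av f z₀ :=
  Real.circleAverage_nonneg_of_nonneg h

theorem Av_mono (h0 : 0 < z₀.im) (hf : ContinuousOn f {z | 0 < z.im})
    (hg : ContinuousOn g {z | 0 < z.im}) (h : ∀ z ∈ Metric.sphere z₀ |z₀.im / 3|, f z ≤ g z) :
    Av f z₀ ≤ Av g z₀ :=
  Real.circleAverage_mono (cint hf h0) (cint hg h0) h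

theorem Av_congr (h : ∀ z ∈ Metric.sphere z₀ |z₀.im / 3|, f z = g z) : Av f z₀ = Av g z₀ :=
  Real.circleAverage_congr_sphere h

theorem ind_sphere (h0 : 0 < z₀.im) {z : ℂ} (hz : z ∈ Metric.sphere z₀ |z₀.im / 3|) :
    ind f z = f z := by
  unfold ind
  rw [if_pos (circ h0 hz).1]

theorem ind_cint (h0 : 0 < z₀.im) (hf : Measurable (ind f)) {b : ℝ}
    (hb : ∀ z : ℂ, 0 < z.im → |f z| ≤ b) : CircleIntegrable (ind f) z₀ (z₀.im / 3) :=
  cint_bdd hf fun z hz => by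
    rw [ind_sphere h0 hz]
    exact hb z (circ h0 hz).1

theorem Av_ind_le (h0 : 0 < z₀.im) (hf : Measurable (ind f)) {b : ℝ}
    (hb : ∀ z : ℂ, 0 < z.im → |f z| ≤ b) (hg : ContinuousOn g {z | 0 < z.im})
    (h : ∀ z ∈ Metric.sphere z₀ |z₀.im / 3|, f z ≤ g z) : Av (ind f) z₀ ≤ Av g z₀ :=
  Real.circleAverage_mono (ind_cint h0 hf hb) (cint hg h0) fun z hz => by
    rw [ind_sphere h0 hz]
    exact h z hz

theorem Av_ind_add (h0 : 0 < z₀.im) (hf : Measurable (ind f)) {b : ℝ}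
    (hb : ∀ z : ℂ, 0 < z.im → |f z| ≤ b) (hg : Measurable (ind g)) {b' : ℝ}
    (hb' : ∀ z : ℂ, 0 < z.im → |g z| ≤ b') :
    Av (ind fun z => f z + g z) z₀ = Av (ind f) z₀ + Av (ind g) z₀ := by
  have h := Real.circleAverage_fun_add (ind_cint h0 hf hb) (ind_cint h0 hg hb')
  unfold Av
  rw [← h]
  refine Av_congr fun z hz => ?_
  simp only [ind_sphere h0 hz]

theorem Av_ind_mul (h0 : 0 < z₀.im) (c : ℝ) :
    Av (ind fun z => c * f z) z₀ = c * Av (ind f) z₀ := by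
  rw [← Av_mul]
  refine Av_congr fun z hz => ?_
  simp only [ind_sphere h0 hz]

theorem Df_eq (h0 : 0 < z₀.im) : Df (ind f) z₀ = f z₀ - Av (ind f) z₀ := by
  unfold Df
  rw [show ind f z₀ = f z₀ by unfold ind; rw [if_pos h0]]
  rfl

end

variable {n : ℕ}

/-- averages of matrix entries against a fixed matrix, and the frame algebra -/
structure Fr (e : En n) (z₀ : ℂ) (φ : Frame (e.I z₀) (e.k z₀)) where
  h0 : 0 < z₀.im
  sg1 : ∀ i, φ.sg i ≤ 1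
  mIg : ∀ B : Mat n, Av (fun z => rtr (B * e.Ig z)) z₀ = rtr (B * e.Ig z₀)
  mIk : ∀ B : Mat n, Av (fun z => rtr (B * e.Ik z)) z₀ = rtr (B * e.Ik z₀)
  mK : ∀ B : Mat n, Av (fun z => rtr (B * e.k z)) z₀ = rtr (B * e.k z₀)
  hI2 : ∀ z ∈ Metric.sphere z₀ |z₀.im / 3|, ((2 : ℂ) • e.I z₀ - e.I z).PosSemidef
  hk2 : ∀ z ∈ Metric.sphere z₀ |z₀.im / 3|, ((2 : ℂ) • e.k z₀ - e.k z).PosSemidef
  hI3 : ∀ z ∈ Metric.sphere z₀ |z₀.im / 3|, ((2 : ℂ) • e.I z - e.I z₀).PosSemidef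
  hk3 : ∀ z ∈ Metric.sphere z₀ |z₀.im / 3|, ((2 : ℂ) • e.k z - e.k z₀).PosSemidef

theorem Fr.of (hH1 : Stmt_H1) (e : En n) {z₀ : ℂ} (h0 : 0 < z₀.im)
    (φ : Frame (e.I z₀) (e.k z₀)) : Fr e z₀ φ := by
  obtain ⟨g1, g2, -⟩ := hH1 n e.m e.t e.Eg e.hEg z₀ h0
  obtain ⟨k1, k2, -⟩ := hH1 n e.m e.t e.Ek e.hEk z₀ h0
  obtain ⟨l1, l2, -⟩ := hH1 n e.m' e.t' e.K e.hK z₀ h0
  refine ⟨h0, e.h1 z₀ h0 φ, g1, k1, l1, ?_, ?_, ?_, ?_⟩
  · intro z hz
    have h := (g2 z (circ h0 hz).2).2.1.add (k2 z (circ h0 hz).2).2.1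
    convert h using 1
    simp only [En.I, En.Ig, En.Ik, smul_add]
    abel
  · intro z hz
    exact (l2 z (circ h0 hz).2).2.1
  · intro z hz
    have h := (g2 z (circ h0 hz).2).2.2.add (k2 z (circ h0 hz).2).2.2
    convert h using 1
    simp only [En.I, En.Ig, En.Ik, smul_add]
    abel
  · intro z hz
    exact (l2 z (circ h0 hz).2).2.2

namespace Fr

variable {e : En n} {z₀ : ℂ} {φ : Frame (e.I z₀) (e.k z₀)}

theorem _root_.Pool.LG.rtrc {A : ℂ → Mat n} {s : Set ℂ} (hA : ContinuousOn A s) (B : Mat n) :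
    ContinuousOn (fun z => rtr (B * A z)) s :=
  rtr_cont.comp_continuousOn (continuousOn_const.mul hA)

theorem mI (F : Fr e z₀ φ) (B : Mat n) :
    Av (fun z => rtr (B * e.I z)) z₀ = rtr (B * e.I z₀) := by
  have h : ∀ z, rtr (B * e.I z) = rtr (B * e.Ig z) + rtr (B * e.Ik z) := by
    intro z
    rw [← rtr_add, ← Matrix.mul_add]
    rfl
  simp only [h]
  rw [Av_add F.h0 (rtrc e.Ig_cont B) (rtrc e.Ik_cont B), F.mIg, F.mIk]

end Fr

/-- the matrix `I` in the frame -/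
noncomputable def Ih (e : En n) {z₀ : ℂ} (φ : Frame (e.I z₀) (e.k z₀)) (z : ℂ) : Mat n :=
  φ.Qᴴ * e.I z * φ.Q

/-- the matrix `k` in the frame -/
noncomputable def kh (e : En n) {z₀ : ℂ} (φ : Frame (e.I z₀) (e.k z₀)) (z : ℂ) : Mat n :=
  φ.Qi * e.k z * φ.Qiᴴ

section

variable (e : En n) {z₀ : ℂ} (φ : Frame (e.I z₀) (e.k z₀))

theorem Ih_self : Ih e φ z₀ = dg φ.sg := φ.hI
theorem kh_self : kh e φ z₀ = dg φ.sg := φ.hk

theorem Ih_psd {z : ℂ} (hz : 0 < z.im) : (Ih e φ z).PosSemidef :=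
  psd_conj' (e.I_pd hz).posSemidef φ.Q

theorem kh_psd {z : ℂ} (hz : 0 < z.im) : (kh e φ z).PosSemidef :=
  psd_conj (e.k_pd hz).posSemidef φ.Qi

theorem Ih_sub (z : ℂ) : φ.Qᴴ * (e.I z - e.I z₀) * φ.Q = Ih e φ z - dg φ.sg := by
  rw [← φ.hI]
  unfold Ih
  noncomm_ring

theorem kh_sub (z : ℂ) : φ.Qi * (e.k z - e.k z₀) * φ.Qiᴴ = kh e φ z - dg φ.sg := by
  rw [← φ.hk]
  unfold kh
  noncomm_ring

theorem Ih_cont : ContinuousOn (Ih e φ) {z | 0 < z.im} :=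
  (continuousOn_const.mul e.I_cont).mul continuousOn_const

theorem kh_cont : ContinuousOn (kh e φ) {z | 0 < z.im} :=
  (continuousOn_const.mul e.k_cont).mul continuousOn_const

theorem chi_hat (z : ℂ) : e.chi z = rtr (Ih e φ z * kh e φ z) := by
  unfold Ih kh En.chi
  have h1 : φ.Qᴴ * e.I z * φ.Q * (φ.Qi * e.k z * φ.Qiᴴ) =
      φ.Qᴴ * (e.I z * (φ.Q * φ.Qi) * e.k z * φ.Qiᴴ) := by noncomm_ring
  rw [h1, φ.mul_inv, Matrix.mul_one, rtr_comm φ.Qᴴ]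
  have h2 : e.I z * e.k z * φ.Qiᴴ * φ.Qᴴ = e.I z * e.k z * (φ.Qiᴴ * φ.Qᴴ) := by noncomm_ring
  rw [h2, φ.QH_mul, Matrix.mul_one]

/-- averages of `rtr (B * Ih)` -/
theorem Fr.mIh {e : En n} {φ : Frame (e.I z₀) (e.k z₀)} (F : Fr e z₀ φ) (B : Mat n) :
    Av (fun z => rtr (B * Ih e φ z)) z₀ = rtr (B * dg φ.sg) := by
  have h : ∀ z, rtr (B * Ih e φ z) = rtr ((φ.Q * B * φ.Qᴴ) * e.I z) := by
    intro z
    unfold Ih
    have h1 : B * (φ.Qᴴ * e.I z * φ.Q) = (B * φ.Qᴴ * e.I z) * φ.Q := by noncomm_ring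
    rw [h1, rtr_comm]
    congr 1
    noncomm_ring
  simp only [h]
  rw [F.mI, ← h, Ih_self]

theorem Fr.mkh {e : En n} {φ : Frame (e.I z₀) (e.k z₀)} (F : Fr e z₀ φ) (B : Mat n) :
    Av (fun z => rtr (B * kh e φ z)) z₀ = rtr (B * dg φ.sg) := by
  have h : ∀ z, rtr (B * kh e φ z) = rtr ((φ.Qiᴴ * B * φ.Qi) * e.k z) := by
    intro z
    unfold kh
    have h1 : B * (φ.Qi * e.k z * φ.Qiᴴ) = (B * φ.Qi * e.k z) * φ.Qiᴴ := by noncomm_ring
    rw [h1, rtr_comm]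
    congr 1
    noncomm_ring
  simp only [h]
  rw [F.mK, ← h, kh_self]

/-- `‖A - S‖² = ‖A‖² - 2 tr(SA) + ‖S‖²` -/
theorem hs_sub_dg {A : Mat n} (hA : A.IsHermitian) (d : Fin n → ℝ) :
    hs (A - dg d) = hs A - 2 * rtr (dg d * A) + hs (dg d) := by
  rw [hs_herm (hA.sub (dg_herm d)), hs_herm hA, hs_herm (dg_herm d)]
  have h : (A - dg d) * (A - dg d) = A * A - A * dg d - dg d * A + dg d * dg d := by
    noncomm_ring
  rw [h, rtr_add, rtr_sub, rtr_sub, rtr_comm A (dg d)]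
  ring

theorem hs_sub_herm {A B : Mat n} (hA : A.IsHermitian) (hB : B.IsHermitian) :
    hs (A - B) = hs A - 2 * rtr (A * B) + hs B := by
  rw [hs_herm (hA.sub hB), hs_herm hA, hs_herm hB]
  have h : (A - B) * (A - B) = A * A - A * B - B * A + B * B := by
    noncomm_ring
  rw [h, rtr_add, rtr_sub, rtr_sub, rtr_comm B A]
  ring

end

/-- the energy density `‖Ih - Σ‖² + ‖kh - Σ‖²` -/
noncomputable def ec (e : En n) {z₀ : ℂ} (φ : Frame (e.I z₀) (e.k z₀)) (z : ℂ) : ℝ :=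
  hs (Ih e φ z - dg φ.sg) + hs (kh e φ z - dg φ.sg)

theorem ec_cont (e : En n) {z₀ : ℂ} (φ : Frame (e.I z₀) (e.k z₀)) :
    ContinuousOn (ec e φ) {z | 0 < z.im} :=
  (MB_hs_cont.comp_continuousOn ((Ih_cont e φ).sub continuousOn_const)).add
    (MB_hs_cont.comp_continuousOn ((kh_cont e φ).sub continuousOn_const))

theorem rtrIh_cont (e : En n) {z₀ : ℂ} (φ : Frame (e.I z₀) (e.k z₀)) (B : Mat n) :
    ContinuousOn (fun z => rtr (B * Ih e φ z)) {z | 0 < z.im} :=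
  rtr_cont.comp_continuousOn (continuousOn_const.mul (Ih_cont e φ))

theorem rtrkh_cont (e : En n) {z₀ : ℂ} (φ : Frame (e.I z₀) (e.k z₀)) (B : Mat n) :
    ContinuousOn (fun z => rtr (B * kh e φ z)) {z | 0 < z.im} :=
  rtr_cont.comp_continuousOn (continuousOn_const.mul (kh_cont e φ))

end Pool.LG
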