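import Pool.Agent.Work.LipGraph.Basic

/-!
# LipGraph: continuity, circle averages (helper26)
-/

open Matrix MeasureTheory
open scoped ComplexOrder

namespace Pool.LG

theorem isOpen_uhp : IsOpen {z : ℂ | 0 < z.im} := isOpen_lt continuous_const Complex.continuous_im

theorem MB_P_cont (t : ℝ) : ContinuousOn (P t) {z | 0 < z.im} := by
  unfold P
  refine ContinuousOn.div Complex.continuous_im.continuousOn ?_ ?_
  · exact (((continuous_const.sub Complex.continuous_re).pow 2).add
      (Complex.continuous_im.pow 2)).continuousOn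
  · intro z hz
    have h : 0 < z.im := hz
    positivity

theorem MB_P_pos {t : ℝ} {z : ℂ} (hz : 0 < z.im) : 0 < P t z := by
  unfold P
  positivity

variable {n : ℕ}

theorem MB_Har_cont {m : ℕ} (t : Fin m → ℝ) (E : Fin m → Mat n) :
    ContinuousOn (Har t E) {z | 0 < z.im} := by
  unfold Har
  refine continuousOn_finsetSum _ fun i _ => ?_
  exact (Complex.continuous_ofReal.comp_continuousOn (MB_P_cont (t i))).smul continuousOn_const

theorem rtr_cont : Continuous (rtr : Mat n → ℝ) := by
  unfold rtr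
  exact Complex.continuous_re.comp (continuous_id.matrix_trace)

theorem MB_hs_cont : Continuous (hs : Mat n → ℝ) := by
  unfold hs
  refine continuous_finsetSum _ fun i _ => continuous_finsetSum _ fun j _ => ?_
  exact ((continuous_apply_apply i j).norm).pow 2

theorem Har_herm {m : ℕ} (t : Fin m → ℝ) {E : Fin m → Mat n} (hE : ∀ i, (E i).PosSemidef)
    (z : ℂ) : (Har t E z).IsHermitian := by
  unfold Har
  unfold Matrix.IsHermitian
  rw [conjTranspose_sum]
  refine Finset.sum_congr rfl fun i _ => ?_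
  rw [conjTranspose_smul, (hE i).1.eq]
  simp

theorem Har_psd {m : ℕ} (t : Fin m → ℝ) {E : Fin m → Mat n} (hE : ∀ i, (E i).PosSemidef)
    {z : ℂ} (hz : 0 < z.im) : (Har t E z).PosSemidef := by
  unfold Har
  refine Matrix.posSemidef_sum _ fun i _ => ?_
  exact (hE i).smul (Complex.zero_le_real.2 (MB_P_pos hz).le)

/-- points of the circle -/
theorem circ {z₀ z : ℂ} (h0 : 0 < z₀.im) (hz : z ∈ Metric.sphere z₀ |z₀.im / 3|) :
    0 < z.im ∧ ‖z - z₀‖ ≤ z₀.im / 3 := by
  rw [abs_of_pos (by positivity), mem_sphere_iff_norm] at hz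
  refine ⟨?_, hz.le⟩
  have := (Complex.abs_im_le_norm (z - z₀))
  rw [hz, Complex.sub_im, abs_le] at this
  linarith [this.1]

/-- functions continuous on the upper half plane are integrable on the circles -/
theorem cint {f : ℂ → ℝ} (hf : ContinuousOn f {z | 0 < z.im}) {z₀ : ℂ} (h0 : 0 < z₀.im) :
    CircleIntegrable f z₀ (z₀.im / 3) :=
  (hf.mono fun _ hz => (circ h0 hz).1).circleIntegrable'

/-- bounded measurable functions are integrable on the circles -/
theorem cint_bdd {f : ℂ → ℝ} (hf : Measurable f) {b : ℝ} {z₀ : ℂ} {R : ℝ}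
    (hb : ∀ z ∈ Metric.sphere z₀ |R|, |f z| ≤ b) : CircleIntegrable f z₀ R := by
  unfold CircleIntegrable
  rw [intervalIntegrable_iff]
  refine Measure.integrableOn_of_bounded (M := b) ?_ ?_ ?_
  · rw [Real.volume_uIoc]
    exact ENNReal.ofReal_ne_top
  · exact (hf.comp (measurable_circleMap _ _)).aestronglyMeasurable
  · refine Filter.Eventually.of_forall fun θ => ?_
    rw [Real.norm_eq_abs]
    exact hb _ (circleMap_mem_sphere' _ _ _)

theorem meas_ind_iInf {ι : Type*} [Nonempty ι] (g : ι → ℂ → ℝ) (f : ℂ → ℝ)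
    (hg : ∀ i, ContinuousOn (g i) {z | 0 < z.im})
    (hb : ∀ z : ℂ, 0 < z.im → BddBelow (Set.range fun i => g i z))
    (hf : ∀ z : ℂ, 0 < z.im → f z = ⨅ i, g i z) : Measurable (ind f) := by
  refine measurable_of_Iio fun a => ?_
  have h : ind f ⁻¹' Set.Iio a = (⋃ i, {z : ℂ | 0 < z.im} ∩ (g i) ⁻¹' Set.Iio a) ∪
      ({z : ℂ | 0 < z.im}ᶜ ∩ {_z : ℂ | (0 : ℝ) < a}) := by
    ext z
    by_cases hz : 0 < z.im
    · simp [ind, hz, hf z hz, ciInf_lt_iff (hb z hz)]
    · simp [ind, hz]
  rw [h]
  exact ((isOpen_iUnion fun i =>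
    (hg i).isOpen_inter_preimage isOpen_uhp isOpen_Iio).measurableSet).union
    (isOpen_uhp.measurableSet.compl.inter (MeasurableSet.const _))

theorem meas_ind_cont {f : ℂ → ℝ} (hf : ContinuousOn f {z | 0 < z.im}) : Measurable (ind f) := by
  have := meas_ind_iInf (ι := Unit) (fun _ => f) f (fun _ => hf)
    (fun z _ => ⟨f z, by rintro _ ⟨i, rfl⟩; exact le_rfl⟩) (fun z _ => by simp)
  exact this

end Pool.LG
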