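import Pool.Agent.Work.LipGraph.K2

/-! Block S1 (helper75): the Poisson extension of a continuous function with compact support. -/

open Matrix MeasureTheory
open scoped ComplexOrder

namespace Pool.LG

namespace S1Aux

open K2Aux

/-- the Cauchy kernel -/
theorem im_inv (t : ℝ) (z : ℂ) : (((t : ℂ) - z)⁻¹).im = P t z := by
  rw [Complex.inv_im, Complex.normSq_apply]
  unfold P
  simp only [Complex.sub_re, Complex.sub_im, Complex.ofReal_re, Complex.ofReal_im]
  congr 1
  · ring
  · ring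

theorem P_nonneg {t : ℝ} {z : ℂ} (hz : 0 < z.im) : 0 ≤ P t z := by
  unfold P
  positivity

theorem P_le {t : ℝ} {z : ℂ} (hz : 0 < z.im) : P t z ≤ 1 / z.im := by
  unfold P
  rw [div_le_div_iff₀ (by positivity) hz]
  nlinarith [sq_nonneg (t - z.re)]

theorem P_swap (t : ℝ) (z : ℂ) : P t z = P z.re (t + z.im * Complex.I) := by
  unfold P
  have h1 : ((t : ℂ) + z.im * Complex.I).re = t := by simp
  have h2 : ((t : ℂ) + z.im * Complex.I).im = z.im := by simp
  rw [h1, h2]
  congr 1
  ring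

theorem P_int {z : ℂ} (hz : 0 < z.im) : Integrable (fun t : ℝ => P t z) ∧
    ∫ t : ℝ, P t z = Real.pi := by
  have h := stmt_K2 z.re z.im hz
  simp_rw [← P_swap] at h
  exact h

theorem norm_ge (t : ℝ) {z : ℂ} : |z.im| ≤ ‖(t : ℂ) - z‖ := by
  have h1 := Complex.abs_im_le_norm ((t : ℂ) - z)
  rw [Complex.sub_im, Complex.ofReal_im, zero_sub, abs_neg] at h1
  exact h1

theorem ne_zero {t : ℝ} {z : ℂ} (hz : 0 < z.im) : (t : ℂ) - z ≠ 0 := by
  rw [← norm_pos_iff]
  exact lt_of_lt_of_le (abs_pos.2 hz.ne') (norm_ge t)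

theorem inv_le {t : ℝ} {z : ℂ} {c : ℝ} (hc : 0 < c) (hz : c ≤ z.im) :
    ‖((t : ℂ) - z)⁻¹‖ ≤ c⁻¹ := by
  rw [norm_inv]
  apply inv_anti₀ hc
  refine (hz.trans (le_abs_self _)).trans (norm_ge t)

section
variable {p : ℝ → ℝ} (hp : Continuous p) (hc : HasCompactSupport p)
include hp hc

theorem int_cauchy {z : ℂ} (hz : 0 < z.im) :
    Integrable (fun t : ℝ => (p t : ℂ) * ((t : ℂ) - z)⁻¹) := by
  have h1 : Integrable (fun t : ℝ => (p t : ℂ)) := (hp.integrable_of_hasCompactSupport hc).ofReal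
  apply h1.mul_bdd (c := z.im⁻¹)
  · apply Continuous.aestronglyMeasurable
    exact ((Complex.continuous_ofReal.sub continuous_const)).inv₀ (fun t => ne_zero hz)
  · exact Filter.Eventually.of_forall fun t => inv_le hz le_rfl

theorem diff_cauchy : DifferentiableOn ℂ (fun z : ℂ => ∫ t : ℝ, (p t : ℂ) * ((t : ℂ) - z)⁻¹)
    {z | 0 < z.im} := by
  intro z₀ hz₀
  have hz : 0 < z₀.im := hz₀
  have hball : ∀ z ∈ Metric.ball z₀ (z₀.im / 2), z₀.im / 2 ≤ z.im := by
    intro z hzb
    rw [Metric.mem_ball, dist_eq_norm] at hzb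
    have h1 := (Complex.abs_im_le_norm (z - z₀)).trans hzb.le
    rw [Complex.sub_im] at h1
    linarith [(abs_le.1 h1).1]
  have h := hasDerivAt_integral_of_dominated_loc_of_deriv_le (μ := volume)
    (F := fun (z : ℂ) (t : ℝ) => (p t : ℂ) * ((t : ℂ) - z)⁻¹)
    (F' := fun (z : ℂ) (t : ℝ) => (p t : ℂ) * (((t : ℂ) - z) ^ 2)⁻¹)
    (x₀ := z₀) (s := Metric.ball z₀ (z₀.im / 2)) (bound := fun t => |p t| * ((z₀.im / 2) ^ 2)⁻¹)
    (Metric.ball_mem_nhds _ (by positivity)) ?_ (int_cauchy hp hc hz) ?_ ?_ ?_ ?_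
  · exact h.2.differentiableAt.differentiableWithinAt
  · filter_upwards [Metric.ball_mem_nhds z₀ (by positivity : 0 < z₀.im / 2)] with z hzb
    have hz' : 0 < z.im := by
      have := hball z hzb
      linarith
    exact (int_cauchy hp hc hz').aestronglyMeasurable
  · apply Continuous.aestronglyMeasurable
    refine (Complex.continuous_ofReal.comp hp).mul ?_
    exact ((Complex.continuous_ofReal.sub continuous_const).pow 2).inv₀
      (fun t => pow_ne_zero 2 (ne_zero hz))
  · refine Filter.Eventually.of_forall fun t z hzb => ?_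
    have h1 := hball z hzb
    rw [norm_mul, Complex.norm_real, Real.norm_eq_abs]
    refine mul_le_mul_of_nonneg_left ?_ (abs_nonneg _)
    have h2 := inv_le (t := t) (by positivity : 0 < z₀.im / 2) h1
    rw [← inv_pow, norm_pow, ← inv_pow]
    exact pow_le_pow_left₀ (norm_nonneg _) h2 2
  · exact ((hp.integrable_of_hasCompactSupport hc).abs).mul_const _
  · refine Filter.Eventually.of_forall fun t z hzb => ?_
    have h1 := hball z hzb
    have hz' : 0 < z.im := by linarith
    have h2 : HasDerivAt (fun z : ℂ => (t : ℂ) - z) (-1) z := by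
      simpa using (hasDerivAt_id z).const_sub (t : ℂ)
    have h3 : HasDerivAt (fun z : ℂ => (p t : ℂ) * ((t : ℂ) - z)⁻¹)
        ((p t : ℂ) * (-(-1) / ((t : ℂ) - z) ^ 2)) z := (h2.inv (ne_zero hz')).const_mul (p t : ℂ)
    rw [neg_neg, one_div] at h3
    exact h3

theorem re_formula {z : ℂ} (hz : 0 < z.im) :
    ((1 / (Real.pi * Complex.I)) * ∫ t : ℝ, (p t : ℂ) * ((t : ℂ) - z)⁻¹).re =
      (1 / Real.pi) * ∫ t : ℝ, p t * P t z := by
  have h1 : (∫ t : ℝ, (p t : ℂ) * ((t : ℂ) - z)⁻¹).im = ∫ t : ℝ, p t * P t z := by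
    rw [← Complex.imCLM_apply, ← Complex.imCLM.integral_comp_comm (int_cauchy hp hc hz)]
    congr 1
    funext t
    rw [Complex.imCLM_apply, Complex.im_ofReal_mul, im_inv]
  rw [← h1]
  have h2 : (1 / (Real.pi * Complex.I) : ℂ) = -((1 / Real.pi : ℝ) : ℂ) * Complex.I := by
    rw [one_div, mul_inv, Complex.inv_I]
    push_cast
    ring
  rw [h2, neg_mul, neg_mul, Complex.neg_re, mul_assoc, Complex.re_ofReal_mul, Complex.I_mul_re]
  ring

end

end S1Aux

open S1Aux K2Aux

theorem stmt_S1 : Stmt_S1 := by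
  intro p L hp hc hL
  refine ⟨fun z => (1 / (Real.pi * Complex.I)) * ∫ t : ℝ, (p t : ℂ) * ((t : ℂ) - z)⁻¹,
    (diff_cauchy hp hc).const_mul _, ?_, ?_, ?_⟩
  · intro z hz
    simp only [re_formula hp hc hz]
    obtain ⟨hi, hpi⟩ := P_int hz
    have hL0 : 0 ≤ L := (abs_nonneg _).trans (hL 0)
    rw [abs_mul, abs_of_pos (by positivity : (0 : ℝ) < 1 / Real.pi)]
    have h1 : |∫ t : ℝ, p t * P t z| ≤ L * Real.pi := by
      rw [← hpi, ← integral_const_mul]
      rw [← Real.norm_eq_abs]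
      refine norm_integral_le_of_norm_le (hi.const_mul L) (Filter.Eventually.of_forall fun t => ?_)
      rw [Real.norm_eq_abs, abs_mul, abs_of_nonneg (P_nonneg hz)]
      exact mul_le_mul_of_nonneg_right (hL t) (P_nonneg hz)
    calc 1 / Real.pi * |∫ t : ℝ, p t * P t z| ≤ 1 / Real.pi * (L * Real.pi) :=
          mul_le_mul_of_nonneg_left h1 (by positivity)
      _ = L := by field_simp
  · refine ⟨(1 / Real.pi) * ∫ t : ℝ, |p t|, fun z hz => ?_⟩
    simp only [re_formula hp hc hz]
    rw [abs_mul, abs_of_pos (by positivity : (0 : ℝ) < 1 / Real.pi), mul_div_assoc]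
    refine mul_le_mul_of_nonneg_left ?_ (by positivity)
    rw [div_eq_mul_inv, ← integral_mul_const, ← Real.norm_eq_abs]
    refine norm_integral_le_of_norm_le
      (((hp.integrable_of_hasCompactSupport hc).abs).mul_const _)
      (Filter.Eventually.of_forall fun t => ?_)
    rw [Real.norm_eq_abs, abs_mul, abs_of_nonneg (P_nonneg hz)]
    refine mul_le_mul_of_nonneg_left ?_ (abs_nonneg _)
    rw [← one_div]
    exact P_le hz
  · intro x
    set φ : ℝ → ℝ := fun w => (1 / Real.pi) * (1 + w ^ 2)⁻¹ with hφ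
    have hφ0 : ∀ w, 0 ≤ φ w := fun w => by rw [hφ]; positivity
    have hφ1 : ∫ w, φ w = 1 := by
      rw [hφ, integral_const_mul, integral_univ_inv_one_add_sq]
      field_simp
    have hφ2 : Filter.Tendsto (fun w : ℝ => ‖w‖ ^ Module.finrank ℝ ℝ * φ w)
        (Bornology.cobounded ℝ) (nhds 0) := by
      rw [Module.finrank_self]
      refine squeeze_zero (g := fun w : ℝ => ‖w‖⁻¹) (fun w => mul_nonneg (by positivity) (hφ0 w))
        (fun w => ?_) (tendsto_inv_atTop_zero.comp (tendsto_norm_cobounded_atTop (E := ℝ)))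
      rcases eq_or_ne w 0 with rfl | hw
      · simp
      · have hw' : 0 < ‖w‖ := norm_pos_iff.2 hw
        rw [hφ, pow_one]
        simp only
        have h1 : (1 + w ^ 2) = 1 + ‖w‖ ^ 2 := by rw [Real.norm_eq_abs, sq_abs]
        rw [h1, le_inv_comm₀ (by positivity) hw']
        have h2 : (‖w‖ * (1 / Real.pi * (1 + ‖w‖ ^ 2)⁻¹))⁻¹ =
            Real.pi * (1 + ‖w‖ ^ 2) / ‖w‖ := by
          field_simp
        rw [h2, le_div_iff₀ hw']
        nlinarith [Real.pi_gt_three, sq_nonneg ‖w‖]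
    have h := tendsto_integral_comp_smul_smul_of_integrable' (μ := volume) hφ0 hφ1 hφ2
      (g := p) (x₀ := x) (hp.integrable_of_hasCompactSupport hc) hp.continuousAt
    have h2 := h.comp tendsto_inv_nhdsGT_zero
    refine h2.congr' ?_
    filter_upwards [self_mem_nhdsWithin] with y hy
    have hy' : 0 < y := hy
    have hz : 0 < ((x : ℂ) + y * Complex.I).im := by simpa using hy'
    simp only [Function.comp_apply, re_formula hp hc hz, Module.finrank_self, pow_one, smul_eq_mul]
    rw [← integral_const_mul]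
    congr 1
    funext t
    rw [P_eq t x y hy', hφ]
    simp only
    have h3 : (y⁻¹ * (x - t)) ^ 2 = ((x - t) / y) ^ 2 := by ring
    rw [h3]
    ring

end Pool.LG
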