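import Pool.Agent.Work.LipGraph.Interface

/-! Block S2 (helper75): mean value and Cauchy for the real part of an analytic function. -/

open Matrix MeasureTheory
open scoped ComplexOrder

namespace Pool.LG

namespace S2Aux

theorem ball_sub {z₀ : ℂ} (hz : 0 < z₀.im) :
    Metric.closedBall z₀ |z₀.im / 3| ⊆ {z : ℂ | 0 < z.im} := by
  intro z hz'
  rw [Metric.mem_closedBall, dist_eq_norm, abs_of_pos (by positivity)] at hz'
  have h1 := Complex.abs_im_le_norm (z - z₀)
  rw [Complex.sub_im] at h1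
  have h2 := (abs_le.1 (h1.trans hz')).1
  show 0 < z.im
  linarith

theorem isOpen_U : IsOpen {z : ℂ | 0 < z.im} := isOpen_lt continuous_const Complex.continuous_im

/-- mean value of an analytic function -/
theorem mv {f : ℂ → ℂ} (hf : DifferentiableOn ℂ f {z | 0 < z.im}) {z₀ : ℂ} (hz : 0 < z₀.im) :
    Real.circleAverage f z₀ (z₀.im / 3) = f z₀ :=
  (hf.diffContOnCl_ball (ball_sub hz)).circleAverage

theorem ci {E : Type*} [NormedAddCommGroup E] {f : ℂ → E} (hf : ContinuousOn f {z | 0 < z.im})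
    {z₀ : ℂ} (hz : 0 < z₀.im) : CircleIntegrable f z₀ (z₀.im / 3) := by
  apply ContinuousOn.circleIntegrable'
  exact hf.mono (Metric.sphere_subset_closedBall.trans (ball_sub hz))

theorem mv_re {f : ℂ → ℂ} (hf : DifferentiableOn ℂ f {z | 0 < z.im}) {z₀ : ℂ} (hz : 0 < z₀.im) :
    Real.circleAverage (fun z => (f z).re) z₀ (z₀.im / 3) = (f z₀).re := by
  have h := Complex.reCLM.circleAverage_comp_comm (ci hf.continuousOn hz)
  rw [mv hf hz] at h
  exact h

theorem re_id (A B : ℂ) : (A * B + A * (starRingEnd ℂ) B - 1 / 2 * B ^ 2).re =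
    A.re * B.re - A.im * B.im + (A.re * B.re + A.im * B.im) - 1 / 2 * (B.re ^ 2 - B.im ^ 2) := by
  have h3 : (1 / 2 : ℂ) = ((1 / 2 : ℝ) : ℂ) := by norm_num
  rw [Complex.sub_re, Complex.add_re, Complex.mul_re, Complex.mul_re, Complex.conj_re,
    Complex.conj_im, h3, Complex.re_ofReal_mul, pow_two, Complex.mul_re]
  ring

end S2Aux

open S2Aux

theorem stmt_S2 : Stmt_S2 := by
  intro H L hH hL z₀ hz
  set r := z₀.im / 3 with hr
  have hr0 : 0 < r := by positivity
  set D := deriv H z₀ with hD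
  have hg : DifferentiableOn ℂ (dslope H z₀) {z | 0 < z.im} :=
    (Complex.differentiableOn_dslope (isOpen_U.mem_nhds hz)).2 hH
  have hgz : dslope H z₀ z₀ = D := dslope_same H z₀
  set Φ : ℂ → ℂ := fun z => (H z - H z₀) * (D * (z - z₀)) +
    dslope H z₀ z * ((starRingEnd ℂ) D * (r : ℂ) ^ 2) - 1 / 2 * (D * (z - z₀)) ^ 2 with hΦ
  have hΦd : DifferentiableOn ℂ Φ {z | 0 < z.im} := by
    have h1 : DifferentiableOn ℂ (fun z : ℂ => D * (z - z₀)) {z | 0 < z.im} := by fun_prop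
    exact (((hH.sub_const _).mul h1).add (hg.mul_const _)).sub ((h1.pow 2).const_mul _)
  have hΦ0 : (Φ z₀).re = ‖D‖ ^ 2 * r ^ 2 := by
    have h1 : Φ z₀ = D * (starRingEnd ℂ) D * (r : ℂ) ^ 2 := by
      simp only [hΦ, sub_self, mul_zero, hgz]
      ring
    rw [h1, Complex.mul_conj, Complex.normSq_eq_norm_sq]
    norm_cast
  have hmv := mv_re hΦd hz
  have hcΦ : CircleIntegrable (fun z => (Φ z).re - 1 / 2 * (‖D‖ ^ 2 * r ^ 2)) z₀ (z₀.im / 3) := by
    apply ci _ hz
    exact (Complex.continuous_re.comp_continuousOn hΦd.continuousOn).sub continuousOn_const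
  have hcu : CircleIntegrable (fun z => ((H z).re - (H z₀).re) ^ 2) z₀ (z₀.im / 3) := by
    apply ci _ hz
    exact ((Complex.continuous_re.comp_continuousOn hH.continuousOn).sub continuousOn_const).pow 2
  have hle : Real.circleAverage (fun z => (Φ z).re - 1 / 2 * (‖D‖ ^ 2 * r ^ 2)) z₀ (z₀.im / 3) ≤
      Real.circleAverage (fun z => ((H z).re - (H z₀).re) ^ 2) z₀ (z₀.im / 3) := by
    apply Real.circleAverage_mono hcΦ hcu
    intro z hzs
    have hzn : ‖z - z₀‖ = r := by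
      rw [Metric.mem_sphere, dist_eq_norm, ← hr, abs_of_pos hr0] at hzs
      exact hzs
    have hne : z - z₀ ≠ 0 := by
      rw [← norm_pos_iff, hzn]
      exact hr0
    set w := z - z₀ with hw
    have hA : dslope H z₀ z * w = H z - H z₀ := by
      rw [dslope_of_ne _ (sub_ne_zero.1 hne), slope_def_field]
      exact div_mul_cancel₀ _ hne
    set A := H z - H z₀ with hAdef
    set B := D * w with hB
    have hAB : dslope H z₀ z * ((starRingEnd ℂ) D * (r : ℂ) ^ 2) = A * (starRingEnd ℂ) B := by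
      have h1 : (r : ℂ) ^ 2 = w * (starRingEnd ℂ) w := by
        rw [Complex.mul_conj, Complex.normSq_eq_norm_sq, hzn]
        norm_cast
      rw [h1, hB, map_mul, ← hA]
      ring
    have hBn : ‖D‖ ^ 2 * r ^ 2 = B.re ^ 2 + B.im ^ 2 := by
      rw [← hzn, ← mul_pow, ← norm_mul, ← hB, ← Complex.normSq_eq_norm_sq, Complex.normSq_apply]
      ring
    have hu : (H z).re - (H z₀).re = A.re := by rw [hAdef, Complex.sub_re]
    have hΦz : Φ z = A * B + A * (starRingEnd ℂ) B - 1 / 2 * B ^ 2 := by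
      simp only [hΦ]
      rw [← hAB]
    rw [hΦz, hBn, hu]
    rw [re_id]
    nlinarith [sq_nonneg (A.re - B.re)]
  have hsub : Real.circleAverage (fun z => (Φ z).re - 1 / 2 * (‖D‖ ^ 2 * r ^ 2)) z₀ (z₀.im / 3) =
      ‖D‖ ^ 2 * r ^ 2 - 1 / 2 * (‖D‖ ^ 2 * r ^ 2) := by
    have hc1 : CircleIntegrable (fun z => (Φ z).re) z₀ (z₀.im / 3) :=
      ci (Complex.continuous_re.comp_continuousOn hΦd.continuousOn) hz
    rw [Real.circleAverage_fun_sub hc1 (circleIntegrable_const _ _ _),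
      Real.circleAverage_const, hmv, hΦ0]
  rw [hsub] at hle
  have hb : r ^ 2 / 4 * ‖D‖ ^ 2 ≤
      Real.circleAverage (fun z => ((H z).re - (H z₀).re) ^ 2) z₀ (z₀.im / 3) := by
    nlinarith [mul_nonneg (sq_nonneg r) (sq_nonneg ‖D‖)]
  refine ⟨mv_re hH hz, hb, ?_⟩
  have hL0 : 0 ≤ L := (abs_nonneg _).trans (hL z₀ hz)
  have h4 : Real.circleAverage (fun z => ((H z).re - (H z₀).re) ^ 2) z₀ (z₀.im / 3) ≤
      (2 * L) ^ 2 := by
    apply Real.circleAverage_mono_on_of_le_circle hcu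
    intro z hzs
    have hzU : 0 < z.im := ball_sub hz (Metric.sphere_subset_closedBall hzs)
    have h5 := abs_le.1 (hL z hzU)
    have h6 := abs_le.1 (hL z₀ hz)
    rw [sq_le_sq, abs_of_nonneg (by positivity : (0 : ℝ) ≤ 2 * L), abs_le]
    constructor <;> linarith [h5.1, h5.2, h6.1, h6.2]
  have h7 : (r * ‖D‖ / 2) ^ 2 ≤ (2 * L) ^ 2 := by
    refine le_trans (le_of_eq ?_) (hb.trans h4)
    ring
  have h8 : r * ‖D‖ / 2 ≤ 2 * L := by
    exact le_of_sq_le_sq h7 (by positivity)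
  rw [le_div_iff₀ hz]
  have h9 : z₀.im = 3 * r := by rw [hr]; ring
  rw [h9]
  linarith

end Pool.LG
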